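import Pool.Agent.Lib.MP_e9c0f3_ag.KH.Defs

/-! Graded algebras with a degree functional: annihilator, HL, HR (helper37). -/

open Filter Topology

noncomputable section

namespace KH

variable {R : Type} [CommRing R] [Algebra ℝ R]

/-- a multiplicative family of subspaces that spans (independence is never needed) -/
structure Gr (G : ℕ → Submodule ℝ R) : Prop where
  one : (1 : R) ∈ G 0
  mul : ∀ {i j : ℕ} {a b : R}, a ∈ G i → b ∈ G j → a * b ∈ G (i + j)
  span : ⨆ k, G k = ⊤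

/-- `deg` lives in degree `d` and the pieces are finite-dimensional modulo `ann deg` -/
structure Dat (G : ℕ → Submodule ℝ R) (deg : R →ₗ[ℝ] ℝ) (d : ℕ) : Prop where
  gr : Gr G
  lives : ∀ k, k ≠ d → ∀ a ∈ G k, deg a = 0
  fin : ∀ k, ∃ s : Finset R, ∀ a ∈ G k, ∃ w ∈ Submodule.span ℝ (s : Set R), a - w ∈ ann deg

/-- `l t` tends to `l0` along `F`, as far as `deg` can see -/
def Conv {T : Type*} (F : Filter T) (deg : R →ₗ[ℝ] ℝ) (l : T → R) (l0 : R) : Prop :=
  ∀ (a : R) (j : ℕ), Tendsto (fun t => deg (a * l t ^ j)) F (𝓝 (deg (a * l0 ^ j)))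

variable {G : ℕ → Submodule ℝ R} {deg : R →ₗ[ℝ] ℝ} {d : ℕ}

theorem deg_of_ann {a : R} (ha : a ∈ ann deg) : deg a = 0 := by
  simpa using ha 1

theorem deg_congr {a b : R} (h : a - b ∈ ann deg) : deg a = deg b := by
  have := deg_of_ann h
  rwa [map_sub, sub_eq_zero] at this

theorem smul_mem_ann (c : ℝ) {a : R} (ha : a ∈ ann deg) : c • a ∈ ann deg := by
  intro b
  rw [smul_mul_assoc, map_smul, ha b, smul_zero]

theorem smul_mem_ann_iff {c : ℝ} (hc : c ≠ 0) {a : R} : c • a ∈ ann deg ↔ a ∈ ann deg := by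
  refine ⟨fun h => ?_, smul_mem_ann c⟩
  have := smul_mem_ann c⁻¹ h
  rwa [smul_smul, inv_mul_cancel₀ hc, one_smul] at this

theorem mem_ann_congr {a b : R} (h : a - b ∈ ann deg) : a ∈ ann deg ↔ b ∈ ann deg := by
  constructor
  · intro ha
    have := (ann deg).sub_mem ha h
    simpa using this
  · intro hb
    have := (ann deg).add_mem h hb
    simpa using this

theorem mem_ann_degAt {x a : R} : a ∈ ann (degAt deg x) ↔ x * a ∈ ann deg := by
  simp [mem_ann, mul_assoc]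

theorem ann_le_degAt (x : R) : ann deg ≤ ann (degAt deg x) := fun _ ha =>
  mem_ann_degAt.2 ((ann deg).mul_mem_left x ha)

theorem degAt_degAt (x y : R) : degAt (degAt deg x) y = degAt deg (x * y) := by
  ext b
  simp [mul_assoc]

theorem degAt_one : degAt deg 1 = deg := by
  ext b
  simp

theorem Gr.pow (g : Gr G) {l : R} (hl : l ∈ G 1) (m : ℕ) : l ^ m ∈ G m := by
  induction m with
  | zero => simpa using g.one
  | succ m ih =>
    rw [pow_succ]
    exact g.mul ih hl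

theorem Gr.induction (g : Gr G) {P : R → Prop} (h : ∀ k, ∀ a ∈ G k, P a) (h0 : P 0)
    (ha : ∀ a b, P a → P b → P (a + b)) (a : R) : P a := by
  have : a ∈ ⨆ k, G k := by
    rw [g.span]
    trivial
  exact Submodule.iSup_induction G (motive := P) this h h0 ha

/-- a homogeneous element is tested against the complementary degree only -/
theorem ann_of_pair (g : Gr G) (hv : ∀ k, k ≠ d → ∀ a ∈ G k, deg a = 0) {k : ℕ} {a : R}
    (ha : a ∈ G k) (h : ∀ j, k + j = d → ∀ b ∈ G j, deg (a * b) = 0) : a ∈ ann deg := by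
  intro b
  induction b using g.induction with
  | h j b hb =>
    by_cases hj : k + j = d
    · exact h j hj b hb
    · exact hv _ hj _ (g.mul ha hb)
  | h0 => simp
  | ha b c hb hc => rw [mul_add, map_add, hb, hc, add_zero]

theorem Dat.ann_of_pair (D : Dat G deg d) {k : ℕ} {a : R}
    (ha : a ∈ G k) (h : ∀ j, k + j = d → ∀ b ∈ G j, deg (a * b) = 0) : a ∈ ann deg :=
  KH.ann_of_pair D.gr D.lives ha h

theorem Dat.ann_of_lt (D : Dat G deg d) {k : ℕ} {a : R} (ha : a ∈ G k) (h : d < k) :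
    a ∈ ann deg :=
  D.ann_of_pair ha fun j hj => absurd hj (by omega)

theorem Dat.degAt {j : ℕ} (D : Dat G deg (d + j)) {x : R} (hx : x ∈ G j) : Dat G (degAt deg x) d where
  gr := D.gr
  lives := fun k hk a ha => D.lives (j + k) (by omega) _ (D.gr.mul hx ha)
  fin := fun k => by
    obtain ⟨s, hs⟩ := D.fin k
    refine ⟨s, fun a ha => ?_⟩
    obtain ⟨w, hw, h⟩ := hs a ha
    exact ⟨w, hw, ann_le_degAt x h⟩

/-- coordinates on a piece modulo `ann deg` -/
theorem frame (H : Submodule ℝ R) (s : Finset R)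
    (hs : ∀ a ∈ H, ∃ w ∈ Submodule.span ℝ (s : Set R), a - w ∈ ann deg) :
    ∃ (n : ℕ) (σ : (Fin n → ℝ) →ₗ[ℝ] R), (∀ x, σ x ∈ H) ∧ (∀ x, σ x ∈ ann deg → x = 0) ∧
      ∀ a ∈ H, ∃ x, a - σ x ∈ ann deg := by
  let K : Submodule ℝ R := (ann deg).restrictScalars ℝ
  let U : Submodule ℝ (R ⧸ K) := H.map K.mkQ
  have hle : U ≤ (Submodule.span ℝ (s : Set R)).map K.mkQ := by
    rintro _ ⟨a, ha, rfl⟩
    obtain ⟨w, hw, h⟩ := hs a ha
    refine ⟨w, hw, ?_⟩
    exact ((Submodule.Quotient.eq K).2 h).symm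
  have : FiniteDimensional ℝ U := Submodule.finiteDimensional_of_le hle
  let b := Module.finBasis ℝ U
  have hb : ∀ i, ∃ g ∈ H, K.mkQ g = (b i : R ⧸ K) := fun i => (b i).2
  choose g hg hgb using hb
  have key : ∀ x, K.mkQ (Fintype.linearCombination ℝ g x) = (b.equivFun.symm x : R ⧸ K) := by
    intro x
    simp [Fintype.linearCombination_apply, map_sum, ← hgb]
  refine ⟨_, Fintype.linearCombination ℝ g, fun x => ?_, fun x hx => ?_, fun a ha => ?_⟩
  · rw [Fintype.linearCombination_apply]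
    exact Submodule.sum_mem _ fun i _ => H.smul_mem _ (hg i)
  · have h0 : K.mkQ (Fintype.linearCombination ℝ g x) = 0 := (Submodule.Quotient.mk_eq_zero K).2 hx
    rw [key] at h0
    have : b.equivFun.symm x = 0 := Subtype.ext h0
    exact b.equivFun.symm.map_eq_zero_iff.1 this
  · refine ⟨b.equivFun ⟨K.mkQ a, a, ha, rfl⟩, ?_⟩
    have := key (b.equivFun ⟨K.mkQ a, a, ha, rfl⟩)
    rw [LinearEquiv.symm_apply_apply] at this
    exact (Submodule.Quotient.eq K).1 this.symm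

/-- positivity on a moving kernel is an open condition -/
theorem open_pos {T W V : Type*} [NormedAddCommGroup V] [NormedSpace ℝ V] [FiniteDimensional ℝ V]
    {F : Filter T} (B : T → V →ₗ[ℝ] V →ₗ[ℝ] ℝ) (B0 : V →ₗ[ℝ] V →ₗ[ℝ] ℝ)
    (φ : T → W → V →ₗ[ℝ] ℝ) (φ0 : W → V →ₗ[ℝ] ℝ)
    (hB : ∀ x y, Tendsto (fun t => B t x y) F (𝓝 (B0 x y)))
    (hφ : ∀ w x, Tendsto (fun t => φ t w x) F (𝓝 (φ0 w x)))
    (h : ∀ x, x ≠ 0 → (∀ w, φ0 w x = 0) → 0 < B0 x x) :
    ∀ᶠ t in F, ∀ x, x ≠ 0 → (∀ w, φ t w x = 0) → 0 < B t x x := by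
  let b := Module.finBasis ℝ V
  have hc : ∀ i (x : V), Tendsto (fun z : T × V => b.coord i z.2) (F ×ˢ 𝓝 x) (𝓝 (b.coord i x)) :=
    fun i x => ((b.coord i).continuous_of_finiteDimensional.tendsto x).comp tendsto_snd
  have e1 : ∀ (f : V →ₗ[ℝ] ℝ) (x : V), f x = ∑ i, b.coord i x * f (b i) := by
    intro f x
    conv_lhs => rw [← b.sum_repr x, map_sum]
    refine Finset.sum_congr rfl fun i _ => ?_
    rw [map_smul]
    rfl
  have e2 : ∀ (f : V →ₗ[ℝ] V →ₗ[ℝ] ℝ) (x : V),
      f x x = ∑ i, b.coord i x * ∑ j, b.coord j x * f (b j) (b i) := by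
    intro f x
    rw [e1 (f x) x]
    refine Finset.sum_congr rfl fun i _ => ?_
    rw [← LinearMap.flip_apply, e1 (f.flip (b i)) x]
    rfl
  have hK : IsCompact (Metric.sphere (0 : V) 1) := isCompact_sphere 0 1
  have hS := hK.mem_prod_nhdsSet_of_forall (l := F)
    (s := {z : T × V | (∀ w, φ z.1 w z.2 = 0) → 0 < B z.1 z.2 z.2}) (by
      intro x hx
      have hx0 : x ≠ 0 := by
        rintro rfl
        simp at hx
      by_cases hw : ∀ w, φ0 w x = 0
      · have ht : Tendsto (fun z : T × V => B z.1 z.2 z.2) (F ×ˢ 𝓝 x) (𝓝 (B0 x x)) := by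
          rw [e2 B0 x, funext fun z : T × V => e2 (B z.1) z.2]
          exact tendsto_finsetSum _ fun i _ => (hc i x).mul
            (tendsto_finsetSum _ fun j _ => (hc j x).mul ((hB _ _).comp tendsto_fst))
        filter_upwards [ht.eventually (lt_mem_nhds (h x hx0 hw))] with z hz _ using hz
      · push Not at hw
        obtain ⟨w, hw⟩ := hw
        have ht : Tendsto (fun z : T × V => φ z.1 w z.2) (F ×ˢ 𝓝 x) (𝓝 (φ0 w x)) := by
          rw [e1 (φ0 w) x, funext fun z : T × V => e1 (φ z.1 w) z.2]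
          exact tendsto_finsetSum _ fun i _ => (hc i x).mul ((hφ _ _).comp tendsto_fst)
        filter_upwards [ht.eventually_ne hw] with z hz h' using absurd (h' w) hz)
  obtain ⟨s, hs, u, hu, hsu⟩ := mem_prod_iff.1 hS
  filter_upwards [hs] with t ht x hx hw
  have hn : ‖x‖ ≠ 0 := norm_ne_zero_iff.2 hx
  have hm : (‖x‖⁻¹ • x) ∈ u := by
    apply subset_of_mem_nhdsSet hu
    simp [norm_smul, hn]
  have := hsu (Set.mk_mem_prod ht hm) (fun w => by simp [hw w])
  simp only [map_smul, LinearMap.smul_apply, smul_eq_mul] at this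
  have hp : 0 < ‖x‖⁻¹ := inv_pos.2 (norm_pos_iff.2 hx)
  exact (mul_pos_iff_of_pos_left hp).1 ((mul_pos_iff_of_pos_left hp).1 this)


/-! ### easy facts -/

theorem HL_iff {l : R} : HL G deg d l ↔
    ∀ k m : ℕ, 2 * k + m = d → ∀ a ∈ G k, l ^ m * a ∈ ann deg → a ∈ ann deg := by
  constructor
  · intro h k m hk a ha h1
    obtain rfl : m = d - 2 * k := by omega
    exact h k (by omega) a ha h1
  · intro h k hk a ha h1
    exact h k _ (by omega) a ha h1

theorem HR_iff {l : R} : HR G deg d l ↔ ∀ k m : ℕ, 2 * k + m = d → ∀ a ∈ G k,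
    l ^ (m + 1) * a ∈ ann deg → a ∉ ann deg → 0 < (-1 : ℝ) ^ k * deg (l ^ m * (a * a)) := by
  constructor
  · intro h k m hk a ha h1 h2
    obtain rfl : m = d - 2 * k := by omega
    exact h k (by omega) a ha h1 h2
  · intro h k hk a ha h1 h2
    exact h k _ (by omega) a ha h1 h2

theorem HR.hl {l : R} (h : HR G deg d l) : HL G deg d l := by
  rw [HL_iff]
  intro k m hk a ha h1
  by_contra h2
  have h3 : l ^ (m + 1) * a ∈ ann deg := by
    rw [pow_succ', mul_assoc]
    exact (ann deg).mul_mem_left _ h1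
  have := HR_iff.1 h k m hk a ha h3 h2
  rw [← mul_assoc, h1 a, mul_zero] at this
  exact lt_irrefl _ this

theorem HR.nonneg {l : R} (h : HR G deg d l) {k m : ℕ} (hk : 2 * k + m = d) {a : R} (ha : a ∈ G k)
    (h1 : l ^ (m + 1) * a ∈ ann deg) : 0 ≤ (-1 : ℝ) ^ k * deg (l ^ m * (a * a)) := by
  by_cases h2 : a ∈ ann deg
  · rw [deg_of_ann ((ann deg).mul_mem_left _ ((ann deg).mul_mem_left _ h2)), mul_zero]
  · exact (HR_iff.1 h k m hk a ha h1 h2).le

theorem pow_mul_congr {l l' : R} (h : l - l' ∈ ann deg) (m : ℕ) (a : R) :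
    l ^ m * a - l' ^ m * a ∈ ann deg := by
  rw [← sub_mul]
  obtain ⟨c, hc⟩ := sub_dvd_pow_sub_pow l l' m
  rw [hc]
  exact (ann deg).mul_mem_right _ ((ann deg).mul_mem_right _ h)

theorem HL_congr {l l' : R} (h : l - l' ∈ ann deg) : HL G deg d l ↔ HL G deg d l' := by
  simp only [HL_iff, mem_ann_congr (pow_mul_congr h _ _)]

theorem HR_congr {l l' : R} (h : l - l' ∈ ann deg) : HR G deg d l ↔ HR G deg d l' := by
  simp only [HR_iff, mem_ann_congr (pow_mul_congr h _ _), deg_congr (pow_mul_congr h _ _)]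

theorem ann_smul {c : ℝ} (hc : c ≠ 0) : ann (c • deg) = ann deg := by
  ext a
  simp [mem_ann, hc]

theorem HL_smul_deg {c : ℝ} (hc : c ≠ 0) {l : R} : HL G (c • deg) d l ↔ HL G deg d l := by
  simp only [HL_iff, ann_smul hc]

theorem HR_smul_deg {c : ℝ} (hc : 0 < c) {l : R} : HR G (c • deg) d l ↔ HR G deg d l := by
  simp only [HR_iff, ann_smul hc.ne', LinearMap.smul_apply, smul_eq_mul, mul_left_comm _ c,
    mul_pos_iff_of_pos_left hc]

theorem HL_smul {c : ℝ} (hc : c ≠ 0) {l : R} : HL G deg d (c • l) ↔ HL G deg d l := by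
  simp only [HL_iff, smul_pow, smul_mul_assoc, smul_mem_ann_iff (pow_ne_zero _ hc)]

theorem HR_smul {c : ℝ} (hc : 0 < c) {l : R} : HR G deg d (c • l) ↔ HR G deg d l := by
  simp only [HR_iff, smul_pow, smul_mul_assoc, smul_mem_ann_iff (pow_ne_zero _ hc.ne'), map_smul,
    smul_eq_mul, mul_left_comm _ (c ^ _), mul_pos_iff_of_pos_left (pow_pos hc _)]

theorem HR_zero_deg (l : R) : HR G (0 : R →ₗ[ℝ] ℝ) d l :=
  fun _ _ _ _ _ h => absurd (fun _ => rfl) h

theorem HR_zero (h0 : ∀ a ∈ G 0, ∃ r : ℝ, a = algebraMap ℝ R r) (h1 : 0 < deg 1) (l : R) :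
    HR G deg 0 l := by
  rw [HR_iff]
  intro k m hk a ha _ h2
  obtain rfl : k = 0 := by omega
  obtain rfl : m = 0 := by omega
  obtain ⟨r, rfl⟩ := h0 a ha
  have hr : r ≠ 0 := by
    rintro rfl
    exact h2 (by simp)
  rw [pow_zero, pow_zero, one_mul, one_mul, ← map_mul, Algebra.algebraMap_eq_smul_one, map_smul]
  exact mul_pos (mul_self_pos.2 hr) h1

theorem conv_sum {T ι : Type*} {F : Filter T} (S : Finset ι) (x : ι → R) (c : T → ι → ℝ)
    (c0 : ι → ℝ) (hc : ∀ v ∈ S, Tendsto (fun t => c t v) F (𝓝 (c0 v))) :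
    Conv F deg (fun t => ∑ v ∈ S, c t v • x v) (∑ v ∈ S, c0 v • x v) := by
  intro a j
  have e : ∀ (c : ι → ℝ) (a : R) (j : ℕ), deg (a * (∑ v ∈ S, c v • x v) ^ (j + 1)) =
      ∑ v ∈ S, c v * deg (a * x v * (∑ v ∈ S, c v • x v) ^ j) := by
    intro c a j
    rw [pow_succ', ← mul_assoc, Finset.mul_sum, Finset.sum_mul, map_sum]
    refine Finset.sum_congr rfl fun v _ => ?_
    rw [mul_smul_comm, smul_mul_assoc, map_smul, smul_eq_mul]
  induction j generalizing a with
  | zero => simpa using tendsto_const_nhds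
  | succ j ih =>
    simp only [e]
    exact tendsto_finsetSum _ fun v hv => (hc v hv).mul (ih _)

theorem conv_line {T : Type*} {F : Filter T} (l y : R) (f : T → ℝ) (r : ℝ)
    (hf : Tendsto f F (𝓝 r)) : Conv F deg (fun t => l + f t • y) (l + r • y) := by
  have := conv_sum (deg := deg) (F := F) (Finset.univ : Finset Bool) (fun b => if b then y else l)
    (fun t b => if b then f t else 1) (fun b => if b then r else 1) (by
      intro v _
      cases v
      · simpa using tendsto_const_nhds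
      · simpa using hf)
  simpa [add_comm] using this

/-- polynomial functions -/
def IsPoly (f : R → R) : Prop := ∃ p : Polynomial R, ∀ y, f y = p.eval y

section poly
omit [Algebra ℝ R]

theorem IsPoly.const (a : R) : IsPoly fun _ => a := ⟨Polynomial.C a, by simp⟩
theorem IsPoly.id : IsPoly fun y : R => y := ⟨Polynomial.X, by simp⟩
theorem IsPoly.add {f g : R → R} (hf : IsPoly f) (hg : IsPoly g) : IsPoly fun y => f y + g y := by
  obtain ⟨p, hp⟩ := hf
  obtain ⟨q, hq⟩ := hg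
  exact ⟨p + q, by simp [hp, hq]⟩
theorem IsPoly.sub {f g : R → R} (hf : IsPoly f) (hg : IsPoly g) : IsPoly fun y => f y - g y := by
  obtain ⟨p, hp⟩ := hf
  obtain ⟨q, hq⟩ := hg
  exact ⟨p - q, by simp [hp, hq]⟩
theorem IsPoly.mul {f g : R → R} (hf : IsPoly f) (hg : IsPoly g) : IsPoly fun y => f y * g y := by
  obtain ⟨p, hp⟩ := hf
  obtain ⟨q, hq⟩ := hg
  exact ⟨p * q, by simp [hp, hq]⟩
theorem IsPoly.pow {f : R → R} (hf : IsPoly f) (n : ℕ) : IsPoly fun y => f y ^ n := by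
  obtain ⟨p, hp⟩ := hf
  exact ⟨p ^ n, by simp [hp]⟩

end poly

theorem Conv.poly {T : Type*} {F : Filter T} {l : T → R} {l0 : R} (hc : Conv F deg l l0)
    {f : R → R} (hf : IsPoly f) : Tendsto (fun t => deg (f (l t))) F (𝓝 (deg (f l0))) := by
  obtain ⟨p, hp⟩ := hf
  simp only [hp]
  clear hp
  induction p using Polynomial.induction_on' with
  | add p q hp hq =>
    simp only [Polynomial.eval_add, map_add]
    exact hp.add hq
  | monomial n a =>
    simp only [Polynomial.eval_monomial]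
    exact hc a n

/-- the bilinear form with values `f (σ x * τ y)` -/
def bil {V V' : Type*} [AddCommGroup V] [Module ℝ V] [AddCommGroup V'] [Module ℝ V']
    (f : R →ₗ[ℝ] ℝ) (σ : V →ₗ[ℝ] R) (τ : V' →ₗ[ℝ] R) : V →ₗ[ℝ] V' →ₗ[ℝ] ℝ :=
  ((LinearMap.mul ℝ R).compl₁₂ σ τ).compr₂ f

@[simp] theorem bil_apply {V V' : Type*} [AddCommGroup V] [Module ℝ V] [AddCommGroup V']
    [Module ℝ V'] (f : R →ₗ[ℝ] ℝ) (σ : V →ₗ[ℝ] R) (τ : V' →ₗ[ℝ] R) (x : V) (y : V') :
    bil f σ τ x y = f (σ x * τ y) := rfl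

theorem Dat.frame (D : Dat G deg d) (k : ℕ) :
    ∃ (n : ℕ) (σ : (Fin n → ℝ) →ₗ[ℝ] R), (∀ x, σ x ∈ G k) ∧ (∀ x, σ x ∈ ann deg → x = 0) ∧
      ∀ a ∈ G k, ∃ x, a - σ x ∈ ann deg := by
  obtain ⟨s, hs⟩ := D.fin k
  exact KH.frame _ s hs

/-- the piece of degree `k - 1` -/
def pre (G : ℕ → Submodule ℝ R) : ℕ → Submodule ℝ R
  | 0 => ⊥
  | k + 1 => G k

theorem Dat.frame_pre (D : Dat G deg d) (k : ℕ) :
    ∃ (n : ℕ) (σ : (Fin n → ℝ) →ₗ[ℝ] R), (∀ x, σ x ∈ pre G k) ∧ (∀ x, σ x ∈ ann deg → x = 0) ∧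
      ∀ a ∈ pre G k, ∃ x, a - σ x ∈ ann deg := by
  cases k with
  | zero =>
    refine KH.frame _ ∅ fun a ha => ⟨0, zero_mem _, ?_⟩
    obtain rfl : a = 0 := ha
    simp
  | succ k => exact D.frame k

theorem Gr.pre_mul (g : Gr G) {k : ℕ} {y h : R} (hy : y ∈ G 1) (hh : h ∈ pre G k) :
    y * h ∈ G k := by
  cases k with
  | zero =>
    obtain rfl : h = 0 := hh
    simp
  | succ k =>
    rw [add_comm]
    exact g.mul hy hh

theorem Dat.pre_pair (D : Dat G deg d) {k m : ℕ} (hk : 2 * k + m = d) {z : R}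
    (hz : z ∈ G (m + 1 + k)) (h : ∀ b ∈ pre G k, deg (z * b) = 0) : z ∈ ann deg := by
  refine D.ann_of_pair hz fun j hj b hb => h b ?_
  obtain rfl : k = j + 1 := by omega
  exact hb

theorem HL.of_pre {l : R} (h : HL G deg d l) {k m : ℕ} (hk : 2 * k + m = d + 2) {b : R}
    (hb : b ∈ pre G k) (h1 : l ^ m * b ∈ ann deg) : b ∈ ann deg := by
  cases k with
  | zero =>
    obtain rfl : b = 0 := hb
    simp
  | succ k => exact HL_iff.1 h k m (by omega) b hb h1

theorem HR.of_pre {l : R} (h : HR G deg d l) {k m : ℕ} (hk : 2 * k + m = d + 2) {b : R}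
    (hb : b ∈ pre G k) (h1 : l ^ (m + 1) * b ∈ ann deg) (h2 : b ∉ ann deg) :
    (-1 : ℝ) ^ k * deg (l ^ m * (b * b)) < 0 := by
  cases k with
  | zero =>
    obtain rfl : b = 0 := hb
    simp at h2
  | succ k =>
    have := HR_iff.1 h k m (by omega) b hb h1 h2
    rw [pow_succ]
    linarith

theorem sq_congr {a b : R} (h : a - b ∈ ann deg) (y : R) :
    deg (y * (a * a)) = deg (y * (b * b)) := by
  apply deg_congr
  have : y * (a * a) - y * (b * b) = y * (a + b) * (a - b) := by ring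
  rw [this]
  exact (ann deg).mul_mem_left _ h

theorem mul_congr {a b : R} (h : a - b ∈ ann deg) (y : R) :
    y * a ∈ ann deg ↔ y * b ∈ ann deg := by
  apply mem_ann_congr
  rw [← mul_sub]
  exact (ann deg).mul_mem_left _ h

/-! ### K1 -/

theorem eventually_all_km {T : Type*} {F : Filter T} {P : T → ℕ → ℕ → Prop}
    (h : ∀ k m, 2 * k + m = d → ∀ᶠ t in F, P t k m) :
    ∀ᶠ t in F, ∀ k m, 2 * k + m = d → P t k m := by
  have : ∀ᶠ t in F, ∀ k ∈ Finset.range (d + 1), 2 * k ≤ d → P t k (d - 2 * k) := by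
    rw [eventually_all_finset]
    intro k _
    by_cases hk : 2 * k ≤ d
    · filter_upwards [h k (d - 2 * k) (by omega)] with t ht _ using ht
    · exact Eventually.of_forall fun t h' => absurd h' hk
  filter_upwards [this] with t ht k m hk
  obtain rfl : m = d - 2 * k := by omega
  exact ht k (Finset.mem_range.2 (by omega)) (by omega)

theorem HL.eventually {T : Type*} {F : Filter T} (D : Dat G deg d) {l : T → R} {l0 : R}
    (hc : Conv F deg l l0) (h : HL G deg d l0) : ∀ᶠ t in F, HL G deg d (l t) := by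
  simp only [HL_iff]
  refine eventually_all_km fun k m hk => ?_
  obtain ⟨n, σ, h1, h2, h3⟩ := D.frame k
  have := open_pos (F := F) (fun _ => (0 : (Fin n → ℝ) →ₗ[ℝ] (Fin n → ℝ) →ₗ[ℝ] ℝ)) 0
    (fun t w => degAt deg (w * l t ^ m) ∘ₗ σ) (fun w => degAt deg (w * l0 ^ m) ∘ₗ σ)
    (fun _ _ => tendsto_const_nhds)
    (fun w x => hc.poly (f := fun y => w * y ^ m * σ x)
      (((IsPoly.const _).mul (IsPoly.id.pow _)).mul (IsPoly.const _)))
    (fun x hx hw => (hx (h2 x (HL_iff.1 h k m hk _ (h1 x) fun w => by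
      rw [← hw w]
      simp only [LinearMap.comp_apply, degAt_apply]
      congr 1
      ring))).elim)
  filter_upwards [this] with t ht a ha hm
  obtain ⟨x, hx⟩ := h3 a ha
  rw [mem_ann_congr hx]
  by_cases h0 : x = 0
  · simp [h0]
  · refine absurd (ht x h0 fun w => ?_) (lt_irrefl _)
    rw [← (mul_congr hx _).1 hm w]
    simp only [LinearMap.comp_apply, degAt_apply]
    congr 1
    ring

theorem HR.eventually {T : Type*} {F : Filter T} (D : Dat G deg d) {l : T → R} {l0 : R}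
    (hc : Conv F deg l l0) (h : HR G deg d l0) : ∀ᶠ t in F, HR G deg d (l t) := by
  simp only [HR_iff]
  refine eventually_all_km fun k m hk => ?_
  obtain ⟨n, σ, h1, h2, h3⟩ := D.frame k
  have := open_pos (F := F) (fun t => bil ((-1 : ℝ) ^ k • degAt deg (l t ^ m)) σ σ)
    (bil ((-1 : ℝ) ^ k • degAt deg (l0 ^ m)) σ σ)
    (fun t w => degAt deg (w * l t ^ (m + 1)) ∘ₗ σ) (fun w => degAt deg (w * l0 ^ (m + 1)) ∘ₗ σ)
    (fun x y => (hc.poly (f := fun z => z ^ m * (σ x * σ y))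
      ((IsPoly.id.pow _).mul (IsPoly.const _))).const_mul _)
    (fun w x => hc.poly (f := fun y => w * y ^ (m + 1) * σ x)
      (((IsPoly.const _).mul (IsPoly.id.pow _)).mul (IsPoly.const _)))
    (fun x hx hw => HR_iff.1 h k m hk _ (h1 x) (fun w => by
      rw [← hw w]
      simp only [LinearMap.comp_apply, degAt_apply]
      congr 1
      ring) fun h' => hx (h2 x h'))
  filter_upwards [this] with t ht a ha hm hn
  obtain ⟨x, hx⟩ := h3 a ha
  rw [sq_congr hx]
  refine ht x ?_ fun w => ?_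
  · rintro rfl
    exact hn (by simpa using hx)
  · rw [← (mul_congr hx _).1 hm w]
    simp only [LinearMap.comp_apply, degAt_apply]
    congr 1
    ring

/-- the map with values `s a - y σ x` -/
def rho {V : Type*} [AddCommGroup V] [Module ℝ V] (σ : V →ₗ[ℝ] R) (a y : R) :
    (ℝ × V) →ₗ[ℝ] R :=
  (LinearMap.fst ℝ ℝ V).smulRight a - LinearMap.mulLeft ℝ y ∘ₗ σ ∘ₗ LinearMap.snd ℝ ℝ V

theorem rho_apply {V : Type*} [AddCommGroup V] [Module ℝ V] (σ : V →ₗ[ℝ] R) (a y : R)
    (z : ℝ × V) : rho σ a y z = z.1 • a - y * σ z.2 := rfl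

theorem Dat.rho_mem (D : Dat G deg d) {k n : ℕ} {σ : (Fin n → ℝ) →ₗ[ℝ] R}
    (h1 : ∀ x, σ x ∈ pre G k) {a y : R} (ha : a ∈ G k) (hy : y ∈ G 1) (z : ℝ × (Fin n → ℝ)) :
    rho σ a y z ∈ G k :=
  (G k).sub_mem ((G k).smul_mem _ ha) (D.gr.pre_mul hy (h1 _))

theorem Dat.exists_prim (D : Dat G deg d) {k m n : ℕ} (hk : 2 * k + m = d)
    {σ : (Fin n → ℝ) →ₗ[ℝ] R} (h1 : ∀ x, σ x ∈ pre G k)
    (h3 : ∀ b ∈ pre G k, ∃ x, b - σ x ∈ ann deg) {a y : R} (ha : a ∈ G k) (hy : y ∈ G 1) :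
    ∃ z, z ≠ 0 ∧ y ^ (m + 1) * rho σ a y z ∈ ann deg := by
  have hk' : LinearMap.ker (bil (KH.degAt deg (y ^ (m + 1))) (rho σ a y) σ) ≠ ⊥ := by
    apply LinearMap.ker_ne_bot_of_finrank_lt
    simp
  obtain ⟨z, hz, hz0⟩ := Submodule.exists_mem_ne_zero_of_ne_bot hk'
  refine ⟨z, hz0, D.pre_pair hk (D.gr.mul (D.gr.pow hy _) (D.rho_mem h1 ha hy z)) fun b hb => ?_⟩
  obtain ⟨x, hx⟩ := h3 b hb
  have := LinearMap.congr_fun (LinearMap.mem_ker.1 hz) x
  simp only [bil_apply, KH.degAt_apply, LinearMap.zero_apply] at this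
  rw [← this, ← mul_assoc]
  apply deg_congr
  rw [← mul_sub]
  exact (ann deg).mul_mem_left _ hx

theorem HR.of_nonneg (D : Dat G deg d) {l : R} (hl : l ∈ G 1) (h0 : HL G deg d l)
    (h : ∀ k m, 2 * k + m = d → ∀ a ∈ G k, l ^ (m + 1) * a ∈ ann deg →
      0 ≤ (-1 : ℝ) ^ k * deg (l ^ m * (a * a))) : HR G deg d l := by
  rw [HR_iff]
  intro k m hk a ha h1 h2
  refine lt_of_le_of_ne (h k m hk a ha h1) fun he => h2 ?_
  have hs : (-1 : ℝ) ^ k ≠ 0 := pow_ne_zero _ (by norm_num)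
  have ho : ∀ b ∈ G k, l ^ (m + 1) * b ∈ ann deg → deg (l ^ m * (a * b)) = 0 := by
    intro b hb hb1
    by_contra hne
    have hne' : (-1 : ℝ) ^ k * deg (l ^ m * (a * b)) ≠ 0 := mul_ne_zero hs hne
    set s := (-((-1 : ℝ) ^ k * deg (l ^ m * (b * b))) - 1) /
      (2 * ((-1 : ℝ) ^ k * deg (l ^ m * (a * b)))) with hsd
    have := h k m hk (s • a + b) ((G k).add_mem ((G k).smul_mem _ ha) hb) (by
      rw [mul_add, mul_smul_comm]
      exact (ann deg).add_mem (smul_mem_ann _ h1) hb1)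
    have e : l ^ m * ((s • a + b) * (s • a + b)) =
        (s * s) • (l ^ m * (a * a)) + (2 * s) • (l ^ m * (a * b)) + l ^ m * (b * b) := by
      simp only [Algebra.smul_def, map_mul, map_ofNat]
      ring
    rw [e, map_add, map_add, map_smul, map_smul, smul_eq_mul, smul_eq_mul] at this
    have e2 : s * (2 * ((-1 : ℝ) ^ k * deg (l ^ m * (a * b)))) =
        -((-1 : ℝ) ^ k * deg (l ^ m * (b * b))) - 1 :=
      div_mul_cancel₀ _ (mul_ne_zero two_ne_zero hne')
    have e3 : s * s * ((-1 : ℝ) ^ k * deg (l ^ m * (a * a))) = 0 := by rw [← he, mul_zero]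
    nlinarith
  obtain ⟨n, σ, s1, s2, s3⟩ := D.frame_pre k
  refine HL_iff.1 h0 k m hk a ha (D.ann_of_pair (D.gr.mul (D.gr.pow hl m) ha) fun j hj b hb => ?_)
  obtain rfl : j = k := by omega
  obtain ⟨z, hz0, hz⟩ := D.exists_prim hk s1 s3 hb hl
  have hz1 : z.1 ≠ 0 := by
    intro e
    apply hz0
    rw [rho_apply, e, zero_smul, zero_sub, mul_neg, (ann deg).neg_mem_iff, ← mul_assoc,
      ← pow_succ] at hz
    exact Prod.ext e (s2 _ (h0.of_pre (m := m + 1 + 1) (by omega) (s1 _) hz))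
  have := ho _ (D.rho_mem s1 hb hl z) hz
  have e : l ^ m * (a * rho σ b l z) = z.1 • (l ^ m * a * b) - l ^ (m + 1) * a * σ z.2 := by
    rw [rho_apply]
    simp only [Algebra.smul_def]
    ring
  rw [e, map_sub, h1, map_smul, sub_zero, smul_eq_mul] at this
  exact (mul_eq_zero.1 this).resolve_left hz1

theorem HR.of_frequently {T : Type*} {F : Filter T} (D : Dat G deg d) {l : T → R} {l0 : R}
    (hl : ∀ t, l t ∈ G 1) (hl0 : l0 ∈ G 1) (hc : Conv F deg l l0) (h0 : HL G deg d l0)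
    (h : ∃ᶠ t in F, HR G deg d (l t)) : HR G deg d l0 := by
  refine HR.of_nonneg D hl0 h0 fun k m hk a ha h1 => ?_
  by_contra hneg
  push Not at hneg
  obtain ⟨n, σ, s1, s2, s3⟩ := D.frame_pre k
  have hρ : ∀ z, IsPoly fun y => rho σ a y z := fun z =>
    (IsPoly.const _).sub (IsPoly.id.mul (IsPoly.const _))
  have := open_pos (F := F)
    (fun t => bil ((-(-1 : ℝ) ^ k) • degAt deg (l t ^ m)) (rho σ a (l t)) (rho σ a (l t)))
    (bil ((-(-1 : ℝ) ^ k) • degAt deg (l0 ^ m)) (rho σ a l0) (rho σ a l0))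
    (fun t w => degAt deg (w * l t ^ (m + 1)) ∘ₗ rho σ a (l t))
    (fun w => degAt deg (w * l0 ^ (m + 1)) ∘ₗ rho σ a l0)
    (fun x y => (hc.poly (f := fun z => z ^ m * (rho σ a z x * rho σ a z y))
      ((IsPoly.id.pow _).mul ((hρ x).mul (hρ y)))).const_mul _)
    (fun w x => hc.poly (f := fun y => w * y ^ (m + 1) * rho σ a y x)
      (((IsPoly.const _).mul (IsPoly.id.pow _)).mul (hρ x)))
    (fun z hz hw => by
      have h2 : l0 ^ (m + 1) * rho σ a l0 z ∈ ann deg := fun w => by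
        rw [← hw w]
        simp only [LinearMap.comp_apply, degAt_apply]
        congr 1
        ring
      have h3 : l0 ^ (m + 1 + 1) * σ z.2 ∈ ann deg := by
        have := (ann deg).sub_mem (smul_mem_ann z.1 h1) h2
        rw [rho_apply, mul_sub, mul_smul_comm, sub_sub_cancel, ← mul_assoc, ← pow_succ] at this
        exact this
      have h4 : z.2 = 0 := s2 _ (h0.of_pre (by omega) (s1 _) h3)
      have h5 : z.1 ≠ 0 := fun e => hz (Prod.ext e h4)
      simp only [bil_apply, rho_apply, h4, map_zero, mul_zero, sub_zero, LinearMap.smul_apply,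
        degAt_apply, smul_mul_assoc, mul_smul_comm, map_smul, smul_eq_mul]
      nlinarith [mul_self_pos.2 h5])
  obtain ⟨t, ht, hp⟩ := (h.and_eventually this).exists
  obtain ⟨z, hz0, hz⟩ := D.exists_prim hk s1 s3 ha (hl t)
  have p1 := hp z hz0 fun w => by
    rw [← hz w]
    simp only [LinearMap.comp_apply, degAt_apply]
    congr 1
    ring
  have p2 := ht.nonneg hk (D.rho_mem s1 ha (hl t) z) hz
  simp only [bil_apply, LinearMap.smul_apply, degAt_apply, smul_eq_mul] at p1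
  linarith

/-- HR at `l` gives HR at `l + ε y` for small `ε` -/
theorem HR.perturb (D : Dat G deg d) {l : R} (y : R) (h : HR G deg d l) :
    ∀ᶠ ε in 𝓝 (0 : ℝ), HR G deg d (l + ε • y) :=
  HR.eventually D (conv_line l y (fun ε => ε) 0 tendsto_id) (by simpa using h)

/-- HR at `l + ε y` for small positive `ε` and HL at `l` give HR at `l` -/
theorem HR.of_limit (D : Dat G deg d) {l y : R} (hl : l ∈ G 1) (hy : y ∈ G 1)
    (h0 : HL G deg d l) (h : ∀ᶠ ε in 𝓝[>] (0 : ℝ), HR G deg d (l + ε • y)) : HR G deg d l :=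
  HR.of_frequently D (fun ε => (G 1).add_mem hl ((G 1).smul_mem ε hy)) hl
    (by simpa using (conv_line (deg := deg) (F := 𝓝[>] (0 : ℝ)) l y (fun ε => ε) 0
      (tendsto_id.mono_left nhdsWithin_le_nhds))) h0 h.frequently

theorem HR.of_segment (D : Dat G deg d) {l0 l1 : R} (h0 : l0 ∈ G 1) (h1 : l1 ∈ G 1)
    (hl : ∀ s : ℝ, 0 ≤ s → s ≤ 1 → HL G deg d ((1 - s) • l0 + s • l1)) (h : HR G deg d l0) :
    HR G deg d l1 := by
  have e : ∀ s : ℝ, (1 - s) • l0 + s • l1 = l0 + s • (l1 - l0) := fun s => by module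
  have hm : ∀ s : ℝ, l0 + s • (l1 - l0) ∈ G 1 := fun s =>
    (G 1).add_mem h0 ((G 1).smul_mem s ((G 1).sub_mem h1 h0))
  have key : Set.Icc (0 : ℝ) 1 ⊆ {s | HR G deg d (l0 + s • (l1 - l0))} := by
    refine isPreconnected_Icc.subset_of_closure_inter_subset ?_ ⟨0, by simp, by simpa using h⟩ ?_
    · rw [isOpen_iff_mem_nhds]
      intro s hs
      exact HR.eventually D (conv_line l0 (l1 - l0) (fun s => s) s tendsto_id) hs
    · rintro s ⟨hs, hs0, hs1⟩
      exact HR.of_frequently D hm (hm s) (conv_line l0 (l1 - l0) (fun s => s) s tendsto_id)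
        (e s ▸ hl s hs0 hs1) (mem_closure_iff_frequently.1 hs)
  simpa using key (show (1 : ℝ) ∈ Set.Icc (0 : ℝ) 1 by simp)

/-! ### K2 -/

theorem local_global {ι : Type*} (D : Dat G deg (d + 1)) (S : Finset ι) (x : ι → R) (c : ι → ℝ)
    (hc : ∀ v ∈ S, 0 < c v) {l : R} (hl : l - ∑ v ∈ S, c v • x v ∈ ann deg)
    (hgen : ∀ k, ∀ b ∈ G (k + 1), b ∈ Ideal.span (x '' S) ⊔ ann deg)
    (hr : ∀ v ∈ S, HR G (degAt deg (x v)) d l) : HL G deg (d + 1) l := by
  rw [HL_iff]
  intro k m hk a ha h1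
  cases m with
  | zero => simpa using h1
  | succ m =>
    have hk' : 2 * k + m = d := by omega
    have hn : ∀ v ∈ S, 0 ≤ c v * ((-1 : ℝ) ^ k * degAt deg (x v) (l ^ m * (a * a))) := fun v hv =>
      mul_nonneg (hc v hv).le ((hr v hv).nonneg hk' ha (ann_le_degAt _ h1))
    have hsum : ∑ v ∈ S, c v * ((-1 : ℝ) ^ k * degAt deg (x v) (l ^ m * (a * a))) = 0 := by
      have e1 : deg ((∑ v ∈ S, c v • x v) * (l ^ m * (a * a))) = 0 := by
        rw [← h1 a]
        symm
        apply deg_congr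
        have : l ^ (m + 1) * a * a - (∑ v ∈ S, c v • x v) * (l ^ m * (a * a)) =
            (l - ∑ v ∈ S, c v • x v) * (l ^ m * (a * a)) := by ring
        rw [this]
        exact (ann deg).mul_mem_right _ hl
      rw [Finset.sum_mul, map_sum] at e1
      rw [← mul_zero ((-1 : ℝ) ^ k), ← e1, Finset.mul_sum]
      refine Finset.sum_congr rfl fun v _ => ?_
      rw [smul_mul_assoc, map_smul, smul_eq_mul, degAt_apply]
      ring
    have hx : ∀ v ∈ S, x v * a ∈ ann deg := by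
      intro v hv
      rw [← mem_ann_degAt]
      by_contra hne
      have := HR_iff.1 (hr v hv) k m hk' a ha (ann_le_degAt _ h1) hne
      exact (mul_pos (hc v hv) this).ne' ((Finset.sum_eq_zero_iff_of_nonneg hn).1 hsum v hv)
    have hI : Ideal.span (x '' S) ⊔ ann deg ≤ ann (degAt deg a) := by
      refine sup_le (Ideal.span_le.2 ?_) (ann_le_degAt a)
      rintro _ ⟨v, hv, rfl⟩
      exact mem_ann_degAt.2 (mul_comm a (x v) ▸ hx v hv)
    refine D.ann_of_pair ha fun j hj b hb => ?_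
    obtain ⟨j, rfl⟩ : ∃ i, j = i + 1 := ⟨j - 1, by omega⟩
    exact deg_of_ann (mem_ann_degAt.1 (hI (hgen j b hb)))

/-! ### transfer along a graded map that is onto modulo `ann` -/

section two
variable {R' : Type} [CommRing R'] [Algebra ℝ R'] {G' : ℕ → Submodule ℝ R'}
  {deg' : R' →ₗ[ℝ] ℝ} {π : R →ₐ[ℝ] R'}

theorem comp_exists (g : Gr G) (D' : Dat G' deg' d) (ψ : R →ₗ[ℝ] R') (H : Submodule ℝ R) (k : ℕ)
    (hH : ∀ i, ∀ a ∈ G i, a ∈ H ∨ ∃ i', i' ≠ k ∧ ψ a ∈ G' i') (a : R) :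
    ∃ a' ∈ H, ∀ j, k + j = d → ∀ z ∈ G' j, deg' (ψ a * z) = deg' (ψ a' * z) := by
  induction a using g.induction with
  | h i a ha =>
    rcases hH i a ha with h | ⟨i', hi, h⟩
    · exact ⟨a, h, fun _ _ _ _ => rfl⟩
    · refine ⟨0, zero_mem _, fun j hj z hz => ?_⟩
      rw [map_zero, zero_mul, map_zero]
      exact D'.lives _ (by omega) _ (D'.gr.mul h hz)
  | h0 => exact ⟨0, zero_mem _, fun _ _ _ _ => rfl⟩
  | ha a b ha hb =>
    obtain ⟨a', h1, h2⟩ := ha
    obtain ⟨b', h3, h4⟩ := hb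
    refine ⟨a' + b', H.add_mem h1 h3, fun j hj z hz => ?_⟩
    simp only [map_add, add_mul, h2 j hj z hz, h4 j hj z hz]

theorem pre_map (g' : Gr G') (hπ : ∀ k, ∀ a ∈ G k, π a ∈ G' k) {w : R'} (hw : w ∈ G' 1) {k : ℕ}
    {b : R} (hb : b ∈ pre G k) : w * π b ∈ G' k := by
  apply g'.pre_mul hw
  cases k with
  | zero =>
    obtain rfl : b = 0 := hb
    simp
  | succ k => exact hπ k b hb

/-- a splitting modulo `ann` can be taken homogeneous -/
theorem hom_split (g : Gr G) (D' : Dat G' deg' d) (hπ : ∀ k, ∀ a ∈ G k, π a ∈ G' k) {w : R'}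
    (hw : w ∈ G' 1) (hs : ∀ y, ∃ a b, y - (π a + w * π b) ∈ ann deg') {k : ℕ} {y : R'}
    (hy : y ∈ G' k) : ∃ a ∈ G k, ∃ b ∈ pre G k, y - (π a + w * π b) ∈ ann deg' := by
  obtain ⟨a, b, h⟩ := hs y
  obtain ⟨a', ha, h1⟩ := comp_exists g D' π.toLinearMap (G k) k (fun i a ha => by
    by_cases hi : i = k
    · exact Or.inl (hi ▸ ha)
    · exact Or.inr ⟨i, hi, hπ i a ha⟩) a
  obtain ⟨b', hb, h2⟩ := comp_exists g D' (LinearMap.mulLeft ℝ w ∘ₗ π.toLinearMap) (pre G k) k
    (fun i a ha => by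
      by_cases hi : i + 1 = k
      · exact Or.inl (hi ▸ ha)
      · exact Or.inr ⟨1 + i, by omega, D'.gr.mul hw (hπ i a ha)⟩) b
  refine ⟨a', ha, b', hb, D'.ann_of_pair ((G' k).sub_mem hy
    ((G' k).add_mem (hπ k a' ha) (pre_map D'.gr hπ hw hb))) fun j hj z hz => ?_⟩
  have e1 : deg' (π a * z) = deg' (π a' * z) := h1 j hj z hz
  have e2 : deg' (w * π b * z) = deg' (w * π b' * z) := h2 j hj z hz
  have := h z
  simp only [sub_mul, add_mul, map_sub, map_add] at this ⊢
  rw [← e1, ← e2, this]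

theorem hom_onto (g : Gr G) (D' : Dat G' deg' d) (hπ : ∀ k, ∀ a ∈ G k, π a ∈ G' k)
    (hs : ∀ y, ∃ a, y - π a ∈ ann deg') {k : ℕ} {y : R'} (hy : y ∈ G' k) :
    ∃ a ∈ G k, y - π a ∈ ann deg' := by
  obtain ⟨a, ha, b, -, h⟩ := hom_split g D' hπ (zero_mem (G' 1))
    (fun y => (hs y).imp fun a h => ⟨0, by simpa using h⟩) hy
  exact ⟨a, ha, by simpa using h⟩

theorem transfer_ann (hd : ∀ a, deg' (π a) = deg a) (hs : ∀ y, ∃ a, y - π a ∈ ann deg') {a : R} :
    π a ∈ ann deg' ↔ a ∈ ann deg := by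
  constructor
  · intro h b
    rw [← hd, map_mul]
    exact h _
  · intro h y
    obtain ⟨b, hb⟩ := hs y
    rw [← h b, ← hd, map_mul π]
    apply deg_congr
    rw [← mul_sub]
    exact (ann deg').mul_mem_left _ hb

theorem transfer_HL (g : Gr G) (D' : Dat G' deg' d) (hπ : ∀ k, ∀ a ∈ G k, π a ∈ G' k)
    (hd : ∀ a, deg' (π a) = deg a) (hs : ∀ y, ∃ a, y - π a ∈ ann deg') (l : R) :
    HL G' deg' d (π l) ↔ HL G deg d l := by
  simp only [HL_iff]
  constructor
  · intro h k m hk a ha h1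
    rw [← transfer_ann hd hs] at h1 ⊢
    exact h k m hk _ (hπ k a ha) (by simpa using h1)
  · intro h k m hk y hy h1
    obtain ⟨a, ha, e⟩ := hom_onto g D' hπ hs hy
    rw [mul_congr e, ← map_pow, ← map_mul, transfer_ann hd hs] at h1
    rw [mem_ann_congr e, transfer_ann hd hs]
    exact h k m hk a ha h1

theorem transfer_HR (g : Gr G) (D' : Dat G' deg' d) (hπ : ∀ k, ∀ a ∈ G k, π a ∈ G' k)
    (hd : ∀ a, deg' (π a) = deg a) (hs : ∀ y, ∃ a, y - π a ∈ ann deg') (l : R) :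
    HR G' deg' d (π l) ↔ HR G deg d l := by
  simp only [HR_iff]
  constructor
  · intro h k m hk a ha h1 h2
    rw [← transfer_ann hd hs] at h1 h2
    rw [← hd]
    simpa using h k m hk _ (hπ k a ha) (by simpa using h1) h2
  · intro h k m hk y hy h1 h2
    obtain ⟨a, ha, e⟩ := hom_onto g D' hπ hs hy
    rw [mul_congr e, ← map_pow, ← map_mul, transfer_ann hd hs] at h1
    rw [mem_ann_congr e, transfer_ann hd hs] at h2
    rw [sq_congr e, ← map_pow, ← map_mul, ← map_mul, hd]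
    exact h k m hk a ha h1 h2

/-! ### K3 algebra: blow-up with a centre of codimension two (`dege` = star of the edge) -/

structure Blow (G : ℕ → Submodule ℝ R) (G' : ℕ → Submodule ℝ R') (π : R →ₐ[ℝ] R')
    (deg dege : R →ₗ[ℝ] ℝ) (deg' : R' →ₗ[ℝ] ℝ) (w : R') (c : ℝ) : Prop where
  hπ : ∀ k, ∀ a ∈ G k, π a ∈ G' k
  hw : w ∈ G' 1
  hc : 0 < c
  h0 : ∀ a, deg' (π a) = deg a
  h1 : ∀ a, deg' (w * π a) = 0
  h2 : ∀ a, deg' (w * w * π a) = -c * dege a
  hs : ∀ y, ∃ a b, y - (π a + w * π b) ∈ ann deg'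

section blow
variable {dege : R →ₗ[ℝ] ℝ} {w : R'} {c : ℝ}

theorem Blow.pair (B : Blow G G' π deg dege deg' w c) (a b a' b' : R) :
    deg' ((π a + w * π b) * (π a' + w * π b')) = deg (a * a') - c * dege (b * b') := by
  have : (π a + w * π b) * (π a' + w * π b') =
      π (a * a') + w * π (a * b' + a' * b) + w * w * π (b * b') := by
    simp only [map_mul, map_add]
    ring
  rw [this, map_add, map_add, B.h0, B.h1, B.h2]
  ring

theorem Blow.ann (B : Blow G G' π deg dege deg' w c)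
    {a b : R} : π a + w * π b ∈ ann deg' ↔ a ∈ ann deg ∧ b ∈ ann dege := by
  constructor
  · intro h
    refine ⟨fun z => ?_, fun z => ?_⟩
    · have := B.pair a b z 0
      rw [h] at this
      simpa using this.symm
    · have := B.pair a b 0 z
      rw [h] at this
      simpa [B.hc.ne'] using this.symm
  · rintro ⟨ha, hb⟩ y
    obtain ⟨a', b', e⟩ := B.hs y
    have : deg' ((π a + w * π b) * y) = deg' ((π a + w * π b) * (π a' + w * π b')) := by
      apply deg_congr
      rw [← mul_sub]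
      exact (KH.ann deg').mul_mem_left _ e
    rw [this, B.pair, ha, hb]
    simp

theorem Blow.pow_ann (B : Blow G G' π deg dege deg' w c) (l : R) (m : ℕ) {a b : R} :
    π l ^ m * (π a + w * π b) ∈ KH.ann deg' ↔ l ^ m * a ∈ KH.ann deg ∧ l ^ m * b ∈ KH.ann dege := by
  rw [← B.ann]
  simp only [map_mul, map_pow, mul_add, mul_left_comm]

theorem Blow.sq (B : Blow G G' π deg dege deg' w c) (l : R) (m : ℕ) (a b : R) :
    deg' (π l ^ m * ((π a + w * π b) * (π a + w * π b))) =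
      deg (l ^ m * (a * a)) - c * dege (l ^ m * (b * b)) := by
  rw [← mul_assoc, ← mul_assoc, ← mul_assoc, ← B.pair]
  simp only [map_mul, map_pow, mul_add, mul_left_comm]

theorem Blow.HL (B : Blow G G' π deg dege deg' w c)
    (g : Gr G) (D' : Dat G' deg' (d + 2)) (l : R) :
    HL G' deg' (d + 2) (π l) ↔ HL G deg (d + 2) l ∧ HL G dege d l := by
  constructor
  · intro h
    refine ⟨HL_iff.2 fun k m hk a ha h1 => ?_, HL_iff.2 fun k m hk b hb h1 => ?_⟩
    · exact (B.ann.1 (HL_iff.1 h k m hk (π a + w * π 0) (by simpa using B.hπ k a ha)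
        ((B.pow_ann l m).2 ⟨h1, by simp⟩))).1
    · exact (B.ann.1 (HL_iff.1 h (k + 1) m (by omega) (π 0 + w * π b)
        (by simpa using pre_map D'.gr B.hπ B.hw (k := k + 1) hb)
        ((B.pow_ann l m).2 ⟨by simp, h1⟩))).2
  · rintro ⟨h, h'⟩
    refine HL_iff.2 fun k m hk y hy h1 => ?_
    obtain ⟨a, ha, b, hb, e⟩ := hom_split g D' B.hπ B.hw B.hs hy
    rw [mul_congr e, B.pow_ann] at h1
    rw [mem_ann_congr e, B.ann]
    exact ⟨HL_iff.1 h k m hk a ha h1.1, h'.of_pre hk hb h1.2⟩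

theorem Blow.HR (B : Blow G G' π deg dege deg' w c)
    (g : Gr G) (D' : Dat G' deg' (d + 2)) (l : R) :
    HR G' deg' (d + 2) (π l) ↔ HR G deg (d + 2) l ∧ HR G dege d l := by
  constructor
  · intro h
    refine ⟨HR_iff.2 fun k m hk a ha h1 h2 => ?_, HR_iff.2 fun k m hk b hb h1 h2 => ?_⟩
    · have := HR_iff.1 h k m hk (π a + w * π 0) (by simpa using B.hπ k a ha)
        ((B.pow_ann l _).2 ⟨h1, by simp⟩) fun h3 => h2 (B.ann.1 h3).1
      rw [B.sq] at this
      simpa using this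
    · have := HR_iff.1 h (k + 1) m (by omega) (π 0 + w * π b)
        (by simpa using pre_map D'.gr B.hπ B.hw (k := k + 1) hb)
        ((B.pow_ann l _).2 ⟨by simp, h1⟩) fun h3 => h2 (B.ann.1 h3).2
      rw [B.sq, pow_succ] at this
      simp only [mul_zero, map_zero] at this
      exact (mul_pos_iff_of_pos_left B.hc).1 (by linarith)
  · rintro ⟨h, h'⟩
    refine HR_iff.2 fun k m hk y hy h1 h2 => ?_
    obtain ⟨a, ha, b, hb, e⟩ := hom_split g D' B.hπ B.hw B.hs hy
    rw [mul_congr e, B.pow_ann] at h1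
    rw [mem_ann_congr e, B.ann] at h2
    rw [sq_congr e, B.sq]
    have hc := B.hc
    by_cases hb0 : b ∈ KH.ann dege
    · have := HR_iff.1 h k m hk a ha h1.1 fun h3 => h2 ⟨h3, hb0⟩
      rw [deg_of_ann ((KH.ann dege).mul_mem_left _ ((KH.ann dege).mul_mem_left _ hb0))]
      simpa using this
    · have p1 := h.nonneg hk ha h1.1
      have p2 := h'.of_pre hk hb h1.2 hb0
      nlinarith

end blow

/-! ### K4: bundle of projective lines -/

structure Bundle (G : ℕ → Submodule ℝ R) (G' : ℕ → Submodule ℝ R') (π : R →ₐ[ℝ] R')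
    (deg : R →ₗ[ℝ] ℝ) (deg' : R' →ₗ[ℝ] ℝ) (t : R') (α β : R) (c : ℝ) : Prop where
  hπ : ∀ k, ∀ a ∈ G k, π a ∈ G' k
  ht : t ∈ G' 1
  hc : 0 < c
  h0 : ∀ a, deg' (π a) = 0
  h1 : ∀ a, deg' (t * π a) = c * deg a
  htt : t * t - (t * π α + π β) ∈ ann deg'
  hs : ∀ y, ∃ a b, y - (π a + t * π b) ∈ ann deg'

/-- the product of `p.1 + τ p.2` and `q.1 + τ q.2` when `τ τ = e α τ + e e β` -/
def pm (α β e : R) (p q : R × R) : R × R :=
  (p.1 * q.1 + e * e * β * (p.2 * q.2), p.1 * q.2 + p.2 * q.1 + e * α * (p.2 * q.2))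

/-- the powers of `l + τ` -/
def pw (α β l e : R) : ℕ → R × R
  | 0 => (1, 0)
  | m + 1 => pm α β e (l, 1) (pw α β l e m)

omit [Algebra ℝ R] in
theorem pw_poly (α β l : R) (m : ℕ) :
    IsPoly (fun e => (pw α β l e m).1) ∧ IsPoly (fun e => (pw α β l e m).2) := by
  induction m with
  | zero => exact ⟨IsPoly.const _, IsPoly.const _⟩
  | succ m ih =>
    exact ⟨((IsPoly.const _).mul ih.1).add
        (((IsPoly.id.mul IsPoly.id).mul (IsPoly.const _)).mul ((IsPoly.const _).mul ih.2)),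
      (((IsPoly.const _).mul ih.2).add ((IsPoly.const _).mul ih.1)).add
        ((IsPoly.id.mul (IsPoly.const _)).mul ((IsPoly.const _).mul ih.2))⟩

omit [Algebra ℝ R] in
theorem pw_zero (α β l : R) (m : ℕ) : pw α β l 0 m = (l ^ m, (m : R) * l ^ (m - 1)) := by
  induction m with
  | zero => simp [pw]
  | succ m ih =>
    rw [pw, ih, pm]
    cases m with
    | zero => simp
    | succ m =>
      simp only [Nat.add_sub_cancel, Prod.mk.injEq]
      push_cast
      constructor <;> ring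

section bundle
variable {t : R'} {α β : R} {c : ℝ}

/-- `p.1 + ε t p.2` -/
def ev (π : R →ₐ[ℝ] R') (t : R') (ε : ℝ) (p : R × R) : R' := π p.1 + ε • (t * π p.2)

theorem Bundle.ev_mul (B : Bundle G G' π deg deg' t α β c) (ε : ℝ) (p q : R × R) :
    ev π t ε p * ev π t ε q - ev π t ε (pm α β (algebraMap ℝ R ε) p q) ∈ ann deg' := by
  have : ev π t ε p * ev π t ε q - ev π t ε (pm α β (algebraMap ℝ R ε) p q) =
      (algebraMap ℝ R' ε * algebraMap ℝ R' ε * π (p.2 * q.2)) * (t * t - (t * π α + π β)) := by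
    simp only [ev, pm, map_add, map_mul, AlgHom.commutes, Algebra.smul_def]
    ring
  rw [this]
  exact (ann deg').mul_mem_left _ B.htt

theorem Bundle.deg_ev (B : Bundle G G' π deg deg' t α β c) (ε : ℝ) (p : R × R) :
    deg' (ev π t ε p) = ε * (c * deg p.2) := by
  rw [ev, map_add, map_smul, B.h0, B.h1, zero_add, smul_eq_mul]

theorem Bundle.ev_pow (B : Bundle G G' π deg deg' t α β c) (ε : ℝ) (l : R) (m : ℕ) :
    (π l + ε • t) ^ m - ev π t ε (pw α β l (algebraMap ℝ R ε) m) ∈ ann deg' := by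
  induction m with
  | zero => simp [pw, ev]
  | succ m ih =>
    have e : π l + ε • t = ev π t ε (l, 1) := by simp [ev]
    have := (ann deg').add_mem ((ann deg').mul_mem_left (π l + ε • t) ih)
      (B.ev_mul ε (l, 1) (pw α β l (algebraMap ℝ R ε) m))
    rw [← e, mul_sub, sub_add_sub_cancel, ← pow_succ'] at this
    exact this

theorem Bundle.ann (B : Bundle G G' π deg deg' t α β c) {a b : R} :
    π a + t * π b ∈ ann deg' ↔ a ∈ ann deg ∧ b ∈ ann deg := by
  have key : ∀ a' b', deg' ((π a + t * π b) * (π a' + t * π b')) =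
      c * (deg (a * b') + deg (b * a') + deg (b * (α * b'))) := by
    intro a' b'
    have := deg_congr (B.ev_mul 1 (a, b) (a', b'))
    rw [B.deg_ev] at this
    simp only [ev, one_smul, pm, map_one, one_mul, map_add] at this
    rw [this, mul_left_comm α]
  constructor
  · intro h
    have hb : b ∈ KH.ann deg := fun z => by
      have := key z 0
      rw [h] at this
      simpa [B.hc.ne'] using this.symm
    refine ⟨fun z => ?_, hb⟩
    have := key 0 z
    rw [h, hb, hb] at this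
    simpa [B.hc.ne'] using this.symm
  · rintro ⟨ha, hb⟩ y
    obtain ⟨a', b', e⟩ := B.hs y
    have : deg' ((π a + t * π b) * y) = deg' ((π a + t * π b) * (π a' + t * π b')) := by
      apply deg_congr
      rw [← mul_sub]
      exact (KH.ann deg').mul_mem_left _ e
    rw [this, key, ha, hb, hb]
    simp

theorem Bundle.ev_ann (B : Bundle G G' π deg deg' t α β c) {ε : ℝ} (hε : ε ≠ 0) {p : R × R} :
    ev π t ε p ∈ KH.ann deg' ↔ p.1 ∈ KH.ann deg ∧ p.2 ∈ KH.ann deg := by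
  rw [← smul_mem_ann_iff hε (a := p.2), ← B.ann, ev, map_smul, mul_smul_comm]

/-- HR for the product with a projective line -/
theorem HR.prod_line (g : Gr G) {l : R} (hl : l ∈ G 1) (h : HR G deg d l) {k m : ℕ}
    (hk : 2 * k + m = d + 1) {a b : R} (ha : a ∈ G k) (hb : b ∈ pre G k)
    (h1 : l ^ (m + 1) * a ∈ ann deg) (h2 : l ^ (m + 1) * b + ((m + 1 : ℕ) : R) * l ^ m * a ∈ ann deg)
    (h3 : ¬(a ∈ ann deg ∧ b ∈ ann deg)) :
    0 < (-1 : ℝ) ^ k * deg (l ^ m * (a * b + b * a) + (m : R) * l ^ (m - 1) * (a * a)) := by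
  set p := ((m + 1 : ℕ) : ℝ) • a + l * b with hp
  have hM : (0 : ℝ) < ((m + 1 : ℕ) : ℝ) := by positivity
  have hpk : p ∈ G k := (G k).add_mem ((G k).smul_mem _ ha) (g.pre_mul hl hb)
  have hp1 : l ^ m * p ∈ ann deg := by
    convert h2 using 1
    rw [hp, Algebra.smul_def, map_natCast]
    ring
  have hb1 : l ^ (m + 1 + 1) * b ∈ ann deg := by
    have := (ann deg).sub_mem ((ann deg).mul_mem_left l h2)
      ((ann deg).mul_mem_left ((m + 1 : ℕ) : R) h1)
    convert this using 1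
    ring
  have hk' : 2 * k + (m + 1) = d + 2 := by omega
  have key : ((m + 1 : ℕ) : ℝ) ^ 2 *
      deg (l ^ m * (a * b + b * a) + (m : R) * l ^ (m - 1) * (a * a)) =
      m * deg (l ^ (m - 1) * (p * p)) - (m + 2) * deg (l ^ (m + 1) * (b * b)) := by
    have e : (((m + 1 : ℕ) : ℝ) ^ 2) • (l ^ m * (a * b + b * a) + (m : R) * l ^ (m - 1) * (a * a)) =
        (m : ℝ) • (l ^ (m - 1) * (p * p)) - ((m : ℝ) + 2) • (l ^ (m + 1) * (b * b)) +
          l ^ m * p * (2 * b) := by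
      rw [hp]
      simp only [Algebra.smul_def, map_natCast, map_pow, map_add, map_ofNat]
      cases m with
      | zero =>
        push_cast
        ring
      | succ m =>
        simp only [Nat.add_sub_cancel]
        push_cast
        ring
    have := congrArg deg e
    rw [map_smul, map_add deg (_ - _), map_sub, map_smul, map_smul, hp1] at this
    simpa using this
  have q1 : 0 ≤ (m : ℝ) * ((-1 : ℝ) ^ k * deg (l ^ (m - 1) * (p * p))) := by
    cases m with
    | zero => simp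
    | succ m => exact mul_nonneg (Nat.cast_nonneg _) (h.nonneg (by omega) hpk hp1)
  have hm0 : (0 : ℝ) ≤ m := Nat.cast_nonneg _
  refine (mul_pos_iff_of_pos_left (pow_pos hM 2)).1 ?_
  rw [mul_left_comm, key]
  by_cases hb0 : b ∈ ann deg
  · rw [deg_of_ann ((ann deg).mul_mem_left _ ((ann deg).mul_mem_left _ hb0))]
    have hp0 : p ∉ ann deg := fun h4 => h3 ⟨by
      have := (ann deg).sub_mem h4 ((ann deg).mul_mem_left l hb0)
      rw [hp, add_sub_cancel_right] at this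
      exact (smul_mem_ann_iff hM.ne').1 this, hb0⟩
    cases m with
    | zero => exact absurd (by simpa using hp1) hp0
    | succ m =>
      have := HR_iff.1 h k m (by omega) p hpk hp1 hp0
      simp only [Nat.add_sub_cancel]
      have h5 : (0 : ℝ) < ((m + 1 : ℕ) : ℝ) := by positivity
      nlinarith [mul_pos h5 this]
  · have := h.of_pre hk' hb hb1 hb0
    nlinarith

theorem Bundle.HR (B : Bundle G G' π deg deg' t α β c)
    (D : Dat G deg d) (D' : Dat G' deg' (d + 1)) {l : R} (hl : l ∈ G 1) (h : HR G deg d l) :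
    ∀ᶠ ε in 𝓝[>] (0 : ℝ), HR G' deg' (d + 1) (π l + ε • t) := by
  simp only [HR_iff]
  refine eventually_all_km fun k m hk => ?_
  obtain ⟨n, σ, h1, h2, h3⟩ := D.frame k
  obtain ⟨n', τ, s1, s2, s3⟩ := D.frame_pre k
  have hc : Conv (𝓝[>] (0 : ℝ)) deg (fun ε => algebraMap ℝ R ε) 0 := by
    simpa [Algebra.algebraMap_eq_smul_one] using (conv_line (deg := deg) (F := 𝓝[>] (0 : ℝ)) 0 1
      (fun ε => ε) 0 (tendsto_id.mono_left nhdsWithin_le_nhds))
  let σ' := σ ∘ₗ LinearMap.fst ℝ (Fin n → ℝ) (Fin n' → ℝ)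
  let τ' := τ ∘ₗ LinearMap.snd ℝ (Fin n → ℝ) (Fin n' → ℝ)
  let u : ℕ → R → R := fun m e => (pw α β l e m).1
  let s : ℕ → R → R := fun m e => (pw α β l e m).2
  have hu : ∀ m, IsPoly (u m) := fun m => (pw_poly α β l m).1
  have hs : ∀ m, IsPoly (s m) := fun m => (pw_poly α β l m).2
  let Bf : R → _ := fun e => (-1 : ℝ) ^ k • (bil (degAt deg (s m e)) σ' σ' +
    bil (degAt deg (u m e + e * α * s m e)) σ' τ' + bil (degAt deg (u m e + e * α * s m e)) τ' σ' +
    bil (degAt deg (e * e * β * s m e + e * α * (u m e + e * α * s m e))) τ' τ')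
  have hBf : ∀ e x y, Bf e x y = (-1 : ℝ) ^ k *
      deg (pm α β e (pw α β l e m) (pm α β e (σ x.1, τ x.2) (σ y.1, τ y.2))).2 := by
    intro e x y
    simp only [Bf, LinearMap.smul_apply, LinearMap.add_apply, bil_apply, degAt_apply, smul_eq_mul,
      ← map_add, σ', τ', LinearMap.comp_apply, LinearMap.fst_apply, LinearMap.snd_apply, pm, u, s]
    congr 2
    ring
  let φf : R → R × R → _ := fun e w =>
    degAt deg (w.1 * u (m + 1) e + w.2 * s (m + 1) e) ∘ₗ σ' +
      degAt deg (w.1 * (e * e * β * s (m + 1) e) + w.2 * (u (m + 1) e + e * α * s (m + 1) e)) ∘ₗ τ'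
  have hφf : ∀ e w x, φf e w x = deg ((pm α β e (pw α β l e (m + 1)) (σ x.1, τ x.2)).1 * w.1 +
      (pm α β e (pw α β l e (m + 1)) (σ x.1, τ x.2)).2 * w.2) := by
    intro e w x
    simp only [φf, LinearMap.add_apply, degAt_apply, ← map_add, σ', τ', LinearMap.comp_apply,
      LinearMap.fst_apply, LinearMap.snd_apply, pm, u, s]
    congr 1
    ring
  have hpm : ∀ {f g : R → R × R}, IsPoly (fun e => (f e).1) ∧ IsPoly (fun e => (f e).2) →
      IsPoly (fun e => (g e).1) ∧ IsPoly (fun e => (g e).2) →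
      IsPoly (fun e => (pm α β e (f e) (g e)).1) ∧ IsPoly (fun e => (pm α β e (f e) (g e)).2) :=
    fun hf hg => ⟨(hf.1.mul hg.1).add
        (((IsPoly.id.mul IsPoly.id).mul (IsPoly.const _)).mul (hf.2.mul hg.2)),
      ((hf.1.mul hg.2).add (hf.2.mul hg.1)).add
        ((IsPoly.id.mul (IsPoly.const _)).mul (hf.2.mul hg.2))⟩
  have hcst : ∀ p : R × R, IsPoly (fun _ : R => p.1) ∧ IsPoly (fun _ : R => p.2) :=
    fun p => ⟨IsPoly.const _, IsPoly.const _⟩
  have := open_pos (F := 𝓝[>] (0 : ℝ)) (fun ε => Bf (algebraMap ℝ R ε)) (Bf 0)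
    (fun ε => φf (algebraMap ℝ R ε)) (φf 0)
    (fun x y => by
      simp only [hBf]
      exact (hc.poly (hpm (pw_poly α β l m) (hpm (hcst _) (hcst _))).2).const_mul _)
    (fun w x => by
      simp only [hφf]
      exact hc.poly (((hpm (pw_poly α β l _) (hcst _)).1.mul (IsPoly.const _)).add
        ((hpm (pw_poly α β l _) (hcst _)).2.mul (IsPoly.const _))))
    (fun x hx hw => by
      simp only [hφf, hBf, pw_zero, pm, zero_mul, mul_zero, add_zero, Nat.add_sub_cancel] at hw ⊢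
      refine h.prod_line D.gr hl hk (h1 _) (s1 _) (fun z => ?_) (fun z => ?_) fun h4 =>
        hx (Prod.ext (h2 _ h4.1) (s2 _ h4.2))
      · simpa using hw (z, 0)
      · simpa using hw (0, z))
  filter_upwards [this, self_mem_nhdsWithin] with ε he hε y hy p1 p2
  have hε' : (0 : ℝ) < ε := hε
  obtain ⟨a, ha, b, hb, e⟩ := hom_split D.gr D' B.hπ B.ht B.hs hy
  obtain ⟨x1, e1⟩ := h3 a ha
  obtain ⟨x2, e2⟩ := s3 (ε⁻¹ • b) ((pre G k).smul_mem _ hb)
  have e3 : y - ev π t ε (σ x1, τ x2) ∈ KH.ann deg' := by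
    have := (KH.ann deg').add_mem e ((B.ev_ann hε'.ne' (p := (a - σ x1, ε⁻¹ • b - τ x2))).2 ⟨e1, e2⟩)
    convert this using 1
    simp only [ev, map_sub, map_smul, mul_sub, smul_sub, mul_smul_comm, smul_smul,
      mul_inv_cancel₀ hε'.ne', one_smul]
    ring
  have e4 : ∀ j q, (π l + ε • t) ^ j * ev π t ε q -
      ev π t ε (pm α β (algebraMap ℝ R ε) (pw α β l (algebraMap ℝ R ε) j) q) ∈ KH.ann deg' := by
    intro j q
    have := (KH.ann deg').add_mem ((KH.ann deg').mul_mem_right (ev π t ε q) (B.ev_pow ε l j))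
      (B.ev_mul ε (pw α β l (algebraMap ℝ R ε) j) q)
    rwa [sub_mul, sub_add_sub_cancel] at this
  rw [mul_congr e3, mem_ann_congr (e4 _ _), B.ev_ann hε'.ne'] at p1
  rw [mem_ann_congr e3] at p2
  have := he (x1, x2) (fun h0 => p2 (by
    obtain ⟨rfl, rfl⟩ := Prod.mk.inj h0
    simp [ev])) fun w => by rw [hφf, map_add, p1.1, p1.2, add_zero]
  rw [hBf] at this
  have e5 := (KH.ann deg').mul_mem_left ((π l + ε • t) ^ m) (B.ev_mul ε (σ x1, τ x2) (σ x1, τ x2))
  rw [mul_sub] at e5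
  rw [sq_congr e3, deg_congr e5, deg_congr (e4 _ _), B.deg_ev, mul_left_comm, mul_left_comm _ c]
  exact mul_pos hε' (mul_pos B.hc this)

end bundle

end two

/-! ### polynomial rings -/

section mv
open MvPolynomial
variable {V : Type}

theorem gr_mv : Gr (homogeneousSubmodule V ℝ) where
  one := isHomogeneous_one V ℝ
  mul := fun ha hb => IsHomogeneous.mul ha hb
  span := by
    rw [eq_top_iff]
    intro a _
    rw [← sum_homogeneousComponent a]
    exact Submodule.sum_mem _ fun i _ =>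
      Submodule.mem_iSup_of_mem i (homogeneousComponent_mem i a)

theorem monomial_mem_mv (I : Ideal (MvPolynomial V ℝ)) {v : V} (h : X v ∈ I) {n : V →₀ ℕ}
    (hn : n v ≠ 0) (r : ℝ) : monomial n r ∈ I := by
  obtain ⟨q, hq⟩ : X v ∣ monomial n r := X_dvd_monomial.2 (Or.inr hn)
  rw [hq]
  exact I.mul_mem_right _ h

/-- `Dat` from: `deg` lives in degree `d`, all but finitely many variables are in `ann deg` -/
theorem dat_mv {deg : MvPolynomial V ℝ →ₗ[ℝ] ℝ} {d : ℕ} (S : Finset V)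
    (hS : ∀ v, v ∉ S → X v ∈ ann deg)
    (hv : ∀ k, k ≠ d → ∀ a : MvPolynomial V ℝ, a.IsHomogeneous k → deg a = 0) :
    Dat (homogeneousSubmodule V ℝ) deg d where
  gr := gr_mv
  lives := hv
  fin := fun k => by
    classical
    refine ⟨(S.finsuppAntidiag k).image fun n => monomial n (1 : ℝ), fun a ha => ?_⟩
    suffices h : a ∈ Submodule.span ℝ
        (((S.finsuppAntidiag k).image fun n => monomial n (1 : ℝ) : Finset _) : Set _) ⊔
        (ann deg).restrictScalars ℝ by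
      obtain ⟨w, hw, z, hz, rfl⟩ := Submodule.mem_sup.1 h
      exact ⟨w, hw, by simpa using hz⟩
    rw [a.as_sum]
    refine Submodule.sum_mem _ fun n hn => ?_
    by_cases hs : n.support ⊆ S
    · apply Submodule.mem_sup_left
      rw [← mul_one (coeff n a), ← smul_eq_mul, ← smul_monomial]
      refine Submodule.smul_mem _ _ (Submodule.subset_span ?_)
      refine Finset.mem_coe.2 (Finset.mem_image_of_mem _ (Finset.mem_finsuppAntidiag'.2 ⟨?_, hs⟩))
      have := ha (mem_support_iff.1 hn)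
      simpa [Finsupp.weight_apply] using this
    · apply Submodule.mem_sup_right
      obtain ⟨v, hv1, hv2⟩ := Finset.not_subset.1 hs
      exact monomial_mem_mv _ (hS v hv2) (Finsupp.mem_support_iff.1 hv1) _

/-- `hgen` of `local_global` -/
theorem pos_mem_mv (I : Ideal (MvPolynomial V ℝ)) (h : ∀ v, X v ∈ I) (k : ℕ) :
    ∀ b ∈ homogeneousSubmodule V ℝ (k + 1), b ∈ I := by
  intro a ha
  rw [a.as_sum]
  refine Submodule.sum_mem _ fun n hn => ?_
  have h1 := ha (mem_support_iff.1 hn)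
  have : n ≠ 0 := by
    rintro rfl
    simp at h1
  obtain ⟨v, hv⟩ := Finsupp.ne_iff.1 this
  exact monomial_mem_mv _ (h v) hv _

theorem zero_mv : ∀ a ∈ homogeneousSubmodule V ℝ 0, ∃ r : ℝ, a = algebraMap ℝ _ r := by
  intro a ha
  exact ⟨_, totalDegree_eq_zero_iff_eq_C.1 ((totalDegree_zero_iff_isHomogeneous V).2 ha)⟩

/-- a substitution by linear forms is graded -/
theorem aeval_mv {W : Type} (f : V → MvPolynomial W ℝ) (hf : ∀ v, (f v).IsHomogeneous 1) (k : ℕ) :
    ∀ a ∈ homogeneousSubmodule V ℝ k, aeval f a ∈ homogeneousSubmodule W ℝ k := by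
  intro a ha
  simpa using IsHomogeneous.aeval ha f hf

end mv

end KH
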