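import Mathlib

/-! Balanced weights and functionals on the face ring of a closed star. -/

open scoped Classical

noncomputable section

namespace Pool.Agent.MP_e9c0f3_ag.KH.K9

open MvPolynomial

variable {V : Type*}

structure Ctx (Fc : Finset V → Prop) (Vx : Finset V) (L : Submodule ℝ (V → ℝ)) : Prop where
  down : ∀ T, Fc T → ∀ S ⊆ T, Fc S
  sub : ∀ T, Fc T → T ⊆ Vx
  onto : ∀ T, Fc T → ∀ f : V → ℝ, ∃ m ∈ L, ∀ v ∈ T, m v = f v

/-- squarefree monomial -/
def xS (S : Finset V) : MvPolynomial V ℝ := ∏ v ∈ S, X v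

/-- linear form of a function on the vertices -/
def lin (Vx : Finset V) (m : V → ℝ) : MvPolynomial V ℝ := ∑ v ∈ Vx, C (m v) * X v

/-- nonfaces of the closed star of `t` and the linear forms -/
def Ic (Fc : Finset V → Prop) (Vx : Finset V) (L : Submodule ℝ (V → ℝ)) (t : Finset V) :
    Ideal (MvPolynomial V ℝ) :=
  Ideal.span ({p | ∃ S, ¬ Fc (S ∪ t) ∧ p = xS S} ∪ {p | ∃ m ∈ L, p = lin Vx m})

/-- balancing in degree `s` on the star of `t` -/
def Bal (Fc : Finset V → Prop) (Vx : Finset V) (L : Submodule ℝ (V → ℝ)) (t : Finset V) (s : ℕ)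
    (w : Finset V → ℝ) : Prop :=
  ∀ S, Disjoint S t → Fc (S ∪ t) → S.card + 1 = s → ∀ m ∈ L, (∀ v ∈ S ∪ t, m v = 0) →
    ∑ v ∈ Vx.filter (fun v => v ∉ S ∪ t ∧ Fc (insert v S ∪ t)), m v * w (insert v S) = 0

def e (v : V) : V →₀ ℕ := Finsupp.single v 1

def ind (S : Finset V) : V →₀ ℕ := ∑ v ∈ S, e v

def T (t : Finset V) (b : V →₀ ℕ) : Finset V := b.support ∪ t

theorem degree_e (v : V) : (e v).degree = 1 := Finsupp.degree_single _ _

theorem degree_add_e (b : V →₀ ℕ) (v : V) : (b + e v).degree = b.degree + 1 := by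
  rw [map_add, degree_e]

theorem ind_apply (S : Finset V) (u : V) : ind S u = if u ∈ S then 1 else 0 := by
  simp [ind, e, Finsupp.finsetSum_apply, Finsupp.single_apply]

theorem support_ind (S : Finset V) : (ind S).support = S := by
  ext u
  simp [ind_apply]

theorem degree_ind (S : Finset V) : (ind S).degree = S.card := by
  simp [ind, map_sum, degree_e]

theorem ind_insert {S : Finset V} {v : V} (h : v ∉ S) : ind (insert v S) = ind S + e v := by
  rw [ind, Finset.sum_insert h, add_comm, ind]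

theorem xS_eq (S : Finset V) : xS S = monomial (ind S) (1 : ℝ) := by
  rw [ind, monomial_sum_one]
  rfl

theorem T_add (t : Finset V) (a b : V →₀ ℕ) : T t (a + b) = a.support ∪ T t b := by
  ext u
  simp only [T, Finset.mem_union, Finsupp.mem_support_iff, Finsupp.add_apply, ne_eq,
    Nat.add_eq_zero_iff]
  tauto

theorem T_add_e (t : Finset V) (b : V →₀ ℕ) (v : V) : T t (b + e v) = insert v (T t b) := by
  rw [add_comm, T_add, e, Finsupp.support_single _ one_ne_zero, Finset.insert_eq]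

theorem T_ind (t S : Finset V) : T t (ind S) = S ∪ t := by rw [T, support_ind]

theorem card_T_le (t : Finset V) (b : V →₀ ℕ) : (T t b).card ≤ t.card + b.degree := by
  have h1 : b.support.card ≤ b.degree := by
    rw [Finsupp.degree_apply, Finset.card_eq_sum_ones]
    exact Finset.sum_le_sum fun i hi => Nat.one_le_iff_ne_zero.2 (Finsupp.mem_support_iff.1 hi)
  have := Finset.card_union_le b.support t
  rw [T]
  omega

theorem exists_add_e {b : V →₀ ℕ} {v : V} (h : b v ≠ 0) : ∃ c, b = c + e v := by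
  refine ⟨b - e v, (tsub_add_cancel_of_le ?_).symm⟩
  rw [e, Finsupp.single_le_iff]
  omega

theorem split (t : Finset V) (b : V →₀ ℕ) :
    (∃ S, Disjoint S t ∧ b = ind S) ∨ ∃ c v, b = c + e v ∧ v ∈ T t c := by
  by_cases h : ∀ v ∈ b.support, b v = 1 ∧ v ∉ t
  · refine Or.inl ⟨b.support, Finset.disjoint_left.2 fun v hv => (h v hv).2, ?_⟩
    ext u
    rw [ind_apply]
    split_ifs with hu
    · exact (h u hu).1
    · exact Finsupp.notMem_support_iff.1 hu
  · push Not at h
    obtain ⟨v, hv, h⟩ := h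
    obtain ⟨c, rfl⟩ := exists_add_e (Finsupp.mem_support_iff.1 hv)
    refine Or.inr ⟨c, v, rfl, ?_⟩
    by_cases hc : c v = 0
    · exact Finset.mem_union_right _ (h (by simp [e, hc]))
    · exact Finset.mem_union_left _ (Finsupp.mem_support_iff.2 hc)

theorem split_of_lt {t : Finset V} {b : V →₀ ℕ} (h : (T t b).card < t.card + b.degree) :
    ∃ c v, b = c + e v ∧ v ∈ T t c := by
  rcases split t b with ⟨S, hS, rfl⟩ | h'
  · rw [T_ind, Finset.card_union_of_disjoint hS, degree_ind] at h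
    omega
  · exact h'

theorem ind_of_eq {t : Finset V} {b : V →₀ ℕ} (h : (T t b).card = t.card + b.degree) :
    ∃ S, Disjoint S t ∧ b = ind S := by
  rcases split t b with h' | ⟨c, v, rfl, hv⟩
  · exact h'
  · rw [T_add_e, Finset.insert_eq_of_mem hv, degree_add_e] at h
    have := card_T_le t c
    omega

/-- `m` is dual to `v` on `A` -/
def Du (A : Finset V) (v : V) (m : V → ℝ) : Prop := ∀ u ∈ A, m u = if u = v then 1 else 0

theorem sum_du {Vx A : Finset V} (hA : A ⊆ Vx) {v : V} (hv : v ∈ A) {m : V → ℝ} (hm : Du A v m)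
    {M : Type*} [AddCommGroup M] [Module ℝ M] (f : V → M) :
    ∑ y ∈ Vx, m y • f y = f v + ∑ y ∈ Vx \ A, m y • f y := by
  rw [← Finset.sum_sdiff hA, add_comm]
  congr 1
  rw [Finset.sum_eq_single v]
  · rw [hm v hv, if_pos rfl, one_smul]
  · intro u hu huv
    rw [hm u hu, if_neg huv, zero_smul]
  · exact fun h => absurd hv h

theorem sum_van {Vx A : Finset V} (hA : A ⊆ Vx) {m : V → ℝ} (hm : ∀ u ∈ A, m u = 0)
    (f : V → ℝ) : ∑ y ∈ Vx, m y * f y = ∑ y ∈ Vx \ A, m y * f y := by
  rw [← Finset.sum_sdiff hA, Finset.sum_eq_zero (s := A) fun u hu => by rw [hm u hu, zero_mul],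
    add_zero]

variable {Fc : Finset V → Prop} {Vx : Finset V} {L : Submodule ℝ (V → ℝ)}

theorem Ctx.du (K : Ctx Fc Vx L) {A : Finset V} (hA : Fc A) (v : V) : ∃ m ∈ L, Du A v m :=
  K.onto A hA fun u => if u = v then 1 else 0

structure Inv (Fc : Finset V → Prop) (Vx : Finset V) (L : Submodule ℝ (V → ℝ)) (t : Finset V)
    (s : ℕ) (w : Finset V → ℝ) (j : ℕ) (W : (V →₀ ℕ) → ℝ) : Prop where
  non : ∀ a, ¬ Fc (T t a) → W a = 0
  val : ∀ S, Disjoint S t → Fc (S ∪ t) → S.card = s → W (ind S) = w S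
  full : ∀ b : V →₀ ℕ, b.degree + 1 = s → j ≤ (T t b).card → ∀ m ∈ L,
    ∑ v ∈ Vx, m v * W (b + e v) = 0
  res : ∀ b : V →₀ ℕ, b.degree + 1 = s → (T t b).card + 1 = j → ∀ m ∈ L,
    (∀ v ∈ T t b, m v = 0) → ∑ v ∈ Vx, m v * W (b + e v) = 0

theorem rel_non (K : Ctx Fc Vx L) {t : Finset V} {W : (V →₀ ℕ) → ℝ}
    (non : ∀ a, ¬ Fc (T t a) → W a = 0) {b : V →₀ ℕ} (hb : ¬ Fc (T t b)) (m : V → ℝ) :
    ∑ v ∈ Vx, m v * W (b + e v) = 0 :=
  Finset.sum_eq_zero fun v _ => by
    rw [non _ fun h => hb (K.down _ h _ (by rw [T_add_e]; exact Finset.subset_insert _ _)),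
      mul_zero]

/-- moving one repeated vertex out of the face -/
theorem move {t : Finset V} {s j : ℕ} {W : (V →₀ ℕ) → ℝ}
    (full : ∀ b : V →₀ ℕ, b.degree + 1 = s → j ≤ (T t b).card → ∀ m ∈ L,
      ∑ v ∈ Vx, m v * W (b + e v) = 0)
    {c : V →₀ ℕ} (hc : c.degree + 2 = s) (hj : (T t c).card + 1 = j) (hA : T t c ⊆ Vx)
    {v : V} (hv : v ∈ T t c) {mv : V → ℝ} (hL : mv ∈ L) (hd : Du (T t c) v mv) (m : V → ℝ) :
    ∑ u ∈ Vx \ T t c, m u * W (c + e v + e u) =
      - ∑ u ∈ Vx \ T t c, ∑ y ∈ Vx \ T t c, m u * mv y * W (c + e u + e y) := by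
  rw [← Finset.sum_neg_distrib]
  refine Finset.sum_congr rfl fun u hu => ?_
  have hu' := (Finset.mem_sdiff.1 hu).2
  have h1 := full (c + e u) (by rw [degree_add_e]; omega)
    (by rw [T_add_e, Finset.card_insert_of_notMem hu']; omega) mv hL
  have h2 := sum_du hA hv hd fun y => W (c + e u + e y)
  simp only [smul_eq_mul] at h2
  rw [h1] at h2
  rw [add_right_comm c (e v) (e u), eq_neg_of_add_eq_zero_left h2.symm, mul_neg, Finset.mul_sum]
  simp only [mul_assoc]

theorem res_of_full (K : Ctx Fc Vx L) {t : Finset V} {s j : ℕ} {W : (V →₀ ℕ) → ℝ}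
    (hj : j < t.card + s) (non : ∀ a, ¬ Fc (T t a) → W a = 0)
    (full : ∀ b : V →₀ ℕ, b.degree + 1 = s → j ≤ (T t b).card → ∀ m ∈ L,
      ∑ v ∈ Vx, m v * W (b + e v) = 0)
    (b : V →₀ ℕ) (hb : b.degree + 1 = s) (hl : (T t b).card + 1 = j) (m : V → ℝ) (hm : m ∈ L)
    (h0 : ∀ v ∈ T t b, m v = 0) : ∑ v ∈ Vx, m v * W (b + e v) = 0 := by
  by_cases hF : Fc (T t b)
  swap
  · exact rel_non K non hF m
  obtain ⟨c, v, rfl, hv⟩ := split_of_lt (t := t) (b := b) (by omega)
  have hT : T t (c + e v) = T t c := by rw [T_add_e, Finset.insert_eq_of_mem hv]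
  rw [hT] at hF hl h0
  rw [degree_add_e] at hb
  have hA := K.sub _ hF
  obtain ⟨mv, hL, hd⟩ := K.du hF v
  rw [sum_van hA h0, move full (by omega) hl hA hv hL hd m, Finset.sum_comm, neg_eq_zero]
  refine Finset.sum_eq_zero fun y hy => ?_
  have hy' := (Finset.mem_sdiff.1 hy).2
  have h1 := full (c + e y) (by rw [degree_add_e]; omega)
    (by rw [T_add_e, Finset.card_insert_of_notMem hy']; omega) m hm
  rw [sum_van hA h0] at h1
  have : ∀ u, m u * mv y * W (c + e u + e y) = mv y * (m u * W (c + e y + e u)) := fun u => by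
    rw [add_right_comm c (e u) (e y)]
    ring
  simp only [this]
  rw [← Finset.mul_sum, h1, mul_zero]

theorem step (K : Ctx Fc Vx L) {t : Finset V} {s j : ℕ} {w : Finset V → ℝ}
    {W : (V →₀ ℕ) → ℝ} (hj : j < t.card + s) (I : Inv Fc Vx L t s w (j + 1) W) :
    ∃ W', Inv Fc Vx L t s w j W' := by
  -- the value is independent of the choices
  have key : ∀ a : V →₀ ℕ, a.degree = s → (T t a).card = j → Fc (T t a) → ∃ r : ℝ,
      ∀ c v m, a = c + e v → v ∈ T t c → m ∈ L → Du (T t c) v m →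
        r = - ∑ u ∈ Vx \ T t c, m u * W (c + e u) := by
    intro a ha hl hF
    obtain ⟨c0, v0, rfl, hv0⟩ := split_of_lt (t := t) (b := a) (by omega)
    have hT0 : T t (c0 + e v0) = T t c0 := by rw [T_add_e, Finset.insert_eq_of_mem hv0]
    rw [hT0] at hF hl
    rw [degree_add_e] at ha
    have hA := K.sub _ hF
    obtain ⟨m0, hL0, hd0⟩ := K.du hF v0
    refine ⟨- ∑ u ∈ Vx \ T t c0, m0 u * W (c0 + e u), fun c v m hc hv hL hd => ?_⟩
    have hT : T t c = T t c0 := by rw [← hT0, hc, T_add_e, Finset.insert_eq_of_mem hv]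
    rw [neg_inj]
    by_cases hvv : v0 = v
    · subst hvv
      obtain rfl : c0 = c := add_right_cancel hc
      have hz : ∀ u ∈ T t c0, (m0 - m) u = 0 := fun u hu => by
        rw [Pi.sub_apply, hd0 u hu, hd u hu, sub_self]
      have := I.res c0 ha (by omega) (m0 - m) (L.sub_mem hL0 hL) hz
      rw [sum_van hA hz] at this
      simp only [Pi.sub_apply, sub_mul, Finset.sum_sub_distrib] at this
      linarith
    · have h1 : c v0 ≠ 0 := by
        have := DFunLike.congr_fun hc v0
        simp only [e, Finsupp.add_apply, Finsupp.single_eq_same,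
          Finsupp.single_eq_of_ne hvv] at this
        omega
      obtain ⟨c2, rfl⟩ := exists_add_e h1
      obtain rfl : c0 = c2 + e v := by
        rw [add_right_comm] at hc
        exact add_right_cancel hc
      have h2 : v0 ∈ T t c2 := by
        rw [T_add_e, Finset.mem_insert] at hv0
        exact hv0.resolve_left hvv
      have h3 : v ∈ T t c2 := by
        rw [T_add_e, Finset.mem_insert] at hv
        exact hv.resolve_left (Ne.symm hvv)
      have hT1 : T t (c2 + e v0) = T t c2 := by rw [T_add_e, Finset.insert_eq_of_mem h2]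
      have hT2 : T t (c2 + e v) = T t c2 := by rw [T_add_e, Finset.insert_eq_of_mem h3]
      rw [hT1] at hd ⊢
      rw [hT2] at hd0 hA hl ⊢
      rw [degree_add_e] at ha
      rw [move I.full (by omega) (by omega) hA h3 hL hd m0,
        move I.full (by omega) (by omega) hA h2 hL0 hd0 m, Finset.sum_comm]
      congr 1
      refine Finset.sum_congr rfl fun u _ => Finset.sum_congr rfl fun y _ => ?_
      rw [add_right_comm c2 (e y) (e u)]
      ring
  choose r hr using key
  let W' : (V →₀ ℕ) → ℝ := fun a =>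
    if h : a.degree = s ∧ (T t a).card = j ∧ Fc (T t a) then r a h.1 h.2.1 h.2.2 else W a
  have hW : ∀ a, (T t a).card ≠ j → W' a = W a := fun a ha => dif_neg fun h => ha h.2.1
  have non : ∀ a, ¬ Fc (T t a) → W' a = 0 := fun a ha =>
    (dif_neg fun h => ha h.2.2).trans (I.non a ha)
  have full : ∀ b : V →₀ ℕ, b.degree + 1 = s → j ≤ (T t b).card → ∀ m ∈ L,
      ∑ v ∈ Vx, m v * W' (b + e v) = 0 := by
    intro b hb hl m hm
    rcases hl.eq_or_lt with hl | hl
    swap
    · rw [← I.full b hb hl m hm]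
      refine Finset.sum_congr rfl fun v _ => ?_
      have : (T t b).card ≤ (T t (b + e v)).card :=
        Finset.card_le_card (by rw [T_add_e]; exact Finset.subset_insert _ _)
      rw [hW _ (by omega)]
    by_cases hF : Fc (T t b)
    swap
    · exact rel_non K non hF m
    have hA := K.sub _ hF
    choose mv hL hd using K.du hF
    have h1 : ∀ v ∈ T t b, W' (b + e v) = - ∑ u ∈ Vx \ T t b, mv v u * W (b + e u) := by
      intro v hv
      have hT : T t (b + e v) = T t b := by rw [T_add_e, Finset.insert_eq_of_mem hv]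
      have h : (b + e v).degree = s ∧ (T t (b + e v)).card = j ∧ Fc (T t (b + e v)) :=
        ⟨by rw [degree_add_e, hb], by rw [hT, hl], by rwa [hT]⟩
      exact (dif_pos h).trans (hr _ h.1 h.2.1 h.2.2 b v (mv v) rfl hv (hL v) (hd v))
    have h2 : ∀ u ∈ Vx \ T t b, W' (b + e u) = W (b + e u) := fun u hu => hW _ (by
      rw [T_add_e, Finset.card_insert_of_notMem (Finset.mem_sdiff.1 hu).2]
      omega)
    have hz : ∀ u ∈ T t b, (m - ∑ v ∈ T t b, m v • mv v) u = 0 := fun u hu => by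
      rw [Pi.sub_apply, Finset.sum_apply, Finset.sum_eq_single u]
      · rw [Pi.smul_apply, hd u u hu, if_pos rfl, smul_eq_mul, mul_one, sub_self]
      · intro v _ hvu
        rw [Pi.smul_apply, hd v u hu, if_neg (Ne.symm hvu), smul_zero]
      · exact fun h => absurd hu h
    have h3 := I.res b hb (by omega) _
      (L.sub_mem hm (L.sum_mem fun v _ => L.smul_mem (m v) (hL v))) hz
    rw [sum_van hA hz] at h3
    rw [← Finset.sum_sdiff hA, Finset.sum_congr rfl fun u hu => by rw [h2 u hu],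
      Finset.sum_congr rfl (s₁ := T t b) fun v hv => by rw [h1 v hv], ← h3]
    simp only [Pi.sub_apply, Finset.sum_apply, Pi.smul_apply, smul_eq_mul, sub_mul,
      Finset.sum_sub_distrib, Finset.sum_mul, mul_neg, Finset.sum_neg_distrib, Finset.mul_sum,
      mul_assoc]
    rw [Finset.sum_comm (s := T t b), sub_eq_add_neg]
  refine ⟨W', non, fun S hS hF hc => ?_, full, res_of_full K hj non full⟩
  rw [hW, I.val S hS hF hc]
  rw [T_ind, Finset.card_union_of_disjoint hS]
  omega

theorem base (K : Ctx Fc Vx L) {t : Finset V} {s : ℕ} {w : Finset V → ℝ}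
    (hb : Bal Fc Vx L t s w) : ∃ W, Inv Fc Vx L t s w (t.card + s) W := by
  let W : (V →₀ ℕ) → ℝ := fun a => if Fc (T t a) then w a.support else 0
  have non : ∀ a, ¬ Fc (T t a) → W a = 0 := fun a ha => if_neg ha
  refine ⟨W, non, fun S _ hF _ => ?_, fun b hb hl => ?_, fun b hd hl m hm h0 => ?_⟩
  · simp only [W, T_ind, if_pos hF, support_ind]
  · have := card_T_le t b
    omega
  by_cases hF : Fc (T t b)
  swap
  · exact rel_non K non hF m
  obtain ⟨S, hS, rfl⟩ := ind_of_eq (t := t) (b := b) (by omega)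
  rw [T_ind] at hF h0
  rw [degree_ind] at hd
  rw [← hb S hS hF hd m hm h0, Finset.sum_filter]
  refine Finset.sum_congr rfl fun v _ => ?_
  by_cases hv : v ∈ S ∪ t
  · rw [h0 v hv, zero_mul, if_neg fun h => h.1 hv]
  · have hvS : v ∉ S := fun h => hv (Finset.mem_union_left _ h)
    simp only [W, ← ind_insert hvS, T_ind, support_ind]
    by_cases h : Fc (insert v S ∪ t)
    · rw [if_pos h, if_pos ⟨hv, h⟩]
    · rw [if_neg h, if_neg fun h' => h h'.2, mul_zero]

theorem exists_inv (K : Ctx Fc Vx L) {t : Finset V} {s : ℕ} {w : Finset V → ℝ}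
    (hb : Bal Fc Vx L t s w) : ∃ W, Inv Fc Vx L t s w 0 W := by
  have : ∀ k j, j + k = t.card + s → ∃ W, Inv Fc Vx L t s w j W := by
    intro k
    induction k with
    | zero =>
      intro j hj
      obtain rfl : j = t.card + s := hj
      exact base K hb
    | succ k ih =>
      intro j hj
      obtain ⟨W, I⟩ := ih (j + 1) (by omega)
      exact step K (by omega) I
  exact this _ 0 (zero_add _)

theorem lin_mul_monomial (Vx : Finset V) (m : V → ℝ) (b : V →₀ ℕ) :
    lin Vx m * monomial b (1 : ℝ) = ∑ v ∈ Vx, m v • monomial (b + e v) (1 : ℝ) := by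
  rw [lin, Finset.sum_mul]
  refine Finset.sum_congr rfl fun v _ => ?_
  rw [mul_assoc, X, monomial_mul, one_mul, add_comm, smul_eq_C_mul, e]

theorem map_mul_eq_zero {φ : MvPolynomial V ℝ →ₗ[ℝ] ℝ} {q : MvPolynomial V ℝ}
    (h : ∀ b, φ (q * monomial b (1 : ℝ)) = 0) (p : MvPolynomial V ℝ) : φ (q * p) = 0 := by
  induction p using induction_on' with
  | monomial u a =>
    have : monomial u a = a • monomial u (1 : ℝ) := by rw [smul_monomial, smul_eq_mul, mul_one]
    rw [this, mul_smul_comm, map_smul, h, smul_zero]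
  | add p q hp hq => rw [mul_add, map_add, hp, hq, add_zero]

theorem kills_Ic {φ : MvPolynomial V ℝ →ₗ[ℝ] ℝ} {t : Finset V}
    (h1 : ∀ S, ¬ Fc (S ∪ t) → ∀ p, φ (xS S * p) = 0)
    (h2 : ∀ m ∈ L, ∀ p, φ (lin Vx m * p) = 0) {q : MvPolynomial V ℝ} (hq : q ∈ Ic Fc Vx L t) :
    φ q = 0 := by
  have : ∀ p, φ (q * p) = 0 := by
    refine Submodule.span_induction (p := fun q _ => ∀ p, φ (q * p) = 0) ?_ ?_ ?_ ?_ hq
    · rintro q (⟨S, hS, rfl⟩ | ⟨m, hm, rfl⟩)
      · exact h1 S hS
      · exact h2 m hm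
    · intro p
      rw [zero_mul, map_zero]
    · intro x y _ _ hx hy p
      rw [add_mul, map_add, hx, hy, add_zero]
    · intro a x _ hx p
      rw [smul_eq_mul, mul_comm a x, mul_assoc, hx]
  simpa using this 1

theorem map_homogeneous_eq_zero {φ : MvPolynomial V ℝ →ₗ[ℝ] ℝ} {k : ℕ}
    (h : ∀ a : V →₀ ℕ, a.degree = k → φ (monomial a (1 : ℝ)) = 0) {p : MvPolynomial V ℝ}
    (hp : p.IsHomogeneous k) : φ p = 0 := by
  rw [p.as_sum, map_sum]
  refine Finset.sum_eq_zero fun a ha => ?_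
  have h1 : a.degree = k := by
    rw [Finsupp.degree_eq_weight_one]
    exact hp (mem_support_iff.1 ha)
  have : monomial a (coeff a p) = coeff a p • monomial a (1 : ℝ) := by
    rw [smul_monomial, smul_eq_mul, mul_one]
  rw [this, map_smul, h a h1, smul_zero]

/-- a balanced weight extends to a functional in degree `s` that kills the ideal of the star -/
theorem exists_functional (K : Ctx Fc Vx L) {t : Finset V} {s : ℕ} {w : Finset V → ℝ}
    (hb : Bal Fc Vx L t s w) : ∃ φ : MvPolynomial V ℝ →ₗ[ℝ] ℝ,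
      (∀ k, k ≠ s → ∀ p : MvPolynomial V ℝ, p.IsHomogeneous k → φ p = 0) ∧
      (∀ q ∈ Ic Fc Vx L t, φ q = 0) ∧
      ∀ S, Disjoint S t → Fc (S ∪ t) → S.card = s → φ (xS S) = w S := by
  obtain ⟨W, I⟩ := exists_inv K hb
  let φ : MvPolynomial V ℝ →ₗ[ℝ] ℝ :=
    (basisMonomials V ℝ).constr ℝ fun a => if a.degree = s then W a else 0
  have hφ : ∀ a, φ (monomial a (1 : ℝ)) = if a.degree = s then W a else 0 := fun a => by
    have := (basisMonomials V ℝ).constr_basis ℝ (fun a => if a.degree = s then W a else 0) a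
    rwa [coe_basisMonomials] at this
  refine ⟨φ, fun k hk p hp => map_homogeneous_eq_zero (fun a ha => ?_) hp,
    fun q hq => kills_Ic (fun S hS => map_mul_eq_zero fun b => ?_)
      (fun m hm => map_mul_eq_zero fun b => ?_) hq, fun S hS hF hc => ?_⟩
  · rw [hφ, if_neg (by omega)]
  · rw [xS_eq, monomial_mul, one_mul, hφ, I.non, ite_self]
    refine fun h => hS (K.down _ h _ ?_)
    rw [T_add, support_ind]
    exact Finset.union_subset_union_right Finset.subset_union_right
  · rw [lin_mul_monomial, map_sum]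
    simp only [map_smul, hφ, degree_add_e, smul_eq_mul]
    by_cases h : b.degree + 1 = s
    · simp only [if_pos h]
      exact I.full b h (Nat.zero_le _) m hm
    · simp only [if_neg h, mul_zero, Finset.sum_const_zero]
  · rw [xS_eq, hφ, if_pos (by rw [degree_ind, hc]), I.val S hS hF hc]

theorem xS_mem_Ic {t S : Finset V} (h : ¬ Fc (S ∪ t)) : xS S ∈ Ic Fc Vx L t :=
  Ideal.subset_span (Or.inl ⟨S, h, rfl⟩)

theorem lin_mem_Ic {t : Finset V} {m : V → ℝ} (h : m ∈ L) : lin Vx m ∈ Ic Fc Vx L t :=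
  Ideal.subset_span (Or.inr ⟨m, h, rfl⟩)

theorem monomial_mem_Ic {t : Finset V} {a : V →₀ ℕ} (h : ¬ Fc (T t a)) :
    monomial a (1 : ℝ) ∈ Ic Fc Vx L t := by
  have h1 : ind a.support ≤ a := fun u => by
    rw [ind_apply]
    split_ifs with hu
    · exact Nat.one_le_iff_ne_zero.2 (Finsupp.mem_support_iff.1 hu)
    · exact Nat.zero_le _
  have : monomial a (1 : ℝ) = xS a.support * monomial (a - ind a.support) (1 : ℝ) := by
    rw [xS_eq, monomial_mul, one_mul, add_tsub_cancel_of_le h1]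
  rw [this]
  exact Ideal.mul_mem_right _ _ (xS_mem_Ic h)

/-- squarefree monomials of the link span each degree modulo the ideal of the star -/
theorem spanning (K : Ctx Fc Vx L) (t : Finset V) {s : ℕ} {p : MvPolynomial V ℝ}
    (hp : p.IsHomogeneous s) :
    p ∈ Submodule.span ℝ {q | ∃ S, Disjoint S t ∧ Fc (S ∪ t) ∧ S.card = s ∧ q = xS S} ⊔
      (Ic Fc Vx L t).restrictScalars ℝ := by
  set U := Submodule.span ℝ {q | ∃ S, Disjoint S t ∧ Fc (S ∪ t) ∧ S.card = s ∧ q = xS S} ⊔
      (Ic Fc Vx L t).restrictScalars ℝ with hU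
  have key : ∀ k (a : V →₀ ℕ), a.degree = s → (T t a).card + k = t.card + s →
      monomial a (1 : ℝ) ∈ U := by
    intro k
    induction k with
    | zero =>
      intro a ha hl
      by_cases hF : Fc (T t a)
      swap
      · exact Submodule.mem_sup_right (monomial_mem_Ic hF)
      obtain ⟨S, hS, rfl⟩ := ind_of_eq (t := t) (b := a) (by omega)
      rw [T_ind] at hF
      rw [degree_ind] at ha
      exact Submodule.mem_sup_left (Submodule.subset_span ⟨S, hS, hF, ha, (xS_eq S).symm⟩)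
    | succ k ih =>
      intro a ha hl
      by_cases hF : Fc (T t a)
      swap
      · exact Submodule.mem_sup_right (monomial_mem_Ic hF)
      obtain ⟨c, v, rfl, hv⟩ := split_of_lt (t := t) (b := a) (by omega)
      have hT : T t (c + e v) = T t c := by rw [T_add_e, Finset.insert_eq_of_mem hv]
      rw [hT] at hF hl
      obtain ⟨m, hm, hd⟩ := K.du hF v
      have h1 := lin_mul_monomial Vx m c
      rw [sum_du (K.sub _ hF) hv hd fun y => monomial (c + e y) (1 : ℝ)] at h1
      rw [eq_sub_of_add_eq h1.symm]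
      refine U.sub_mem (Submodule.mem_sup_right (Ideal.mul_mem_right _ _ (lin_mem_Ic hm)))
        (U.sum_mem fun u hu => U.smul_mem _ (ih _ ?_ ?_))
      · rwa [degree_add_e] at ha ⊢
      · rw [T_add_e, Finset.card_insert_of_notMem (Finset.mem_sdiff.1 hu).2]
        omega
  rw [p.as_sum]
  refine U.sum_mem fun a ha => ?_
  have h1 : a.degree = s := by
    rw [Finsupp.degree_eq_weight_one]
    exact hp (mem_support_iff.1 ha)
  have : monomial a (coeff a p) = coeff a p • monomial a (1 : ℝ) := by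
    rw [smul_monomial, smul_eq_mul, mul_one]
  rw [this]
  have h2 := card_T_le t a
  exact U.smul_mem _ (key (t.card + s - (T t a).card) a h1 (by omega))

/-- a functional that kills the ideal and the squarefree monomials vanishes in degree `s` -/
theorem eq_zero_of_xS (K : Ctx Fc Vx L) {t : Finset V} {s : ℕ} {φ : MvPolynomial V ℝ →ₗ[ℝ] ℝ}
    (hI : ∀ q ∈ Ic Fc Vx L t, φ q = 0)
    (h : ∀ S, Disjoint S t → Fc (S ∪ t) → S.card = s → φ (xS S) = 0) {p : MvPolynomial V ℝ}
    (hp : p.IsHomogeneous s) : φ p = 0 := by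
  have : Submodule.span ℝ {q | ∃ S, Disjoint S t ∧ Fc (S ∪ t) ∧ S.card = s ∧ q = xS S} ⊔
      (Ic Fc Vx L t).restrictScalars ℝ ≤ LinearMap.ker φ := by
    refine sup_le (Submodule.span_le.2 ?_) hI
    rintro q ⟨S, h1, h2, h3, rfl⟩
    exact h S h1 h2 h3
  exact this (spanning K t hp)

/-- the values of a functional that kills the ideal are balanced -/
theorem bal_of_functional {t : Finset V} (s : ℕ) {φ : MvPolynomial V ℝ →ₗ[ℝ] ℝ}
    (hI : ∀ q ∈ Ic Fc Vx L t, φ q = 0) : Bal Fc Vx L t s fun S => φ (xS S) := by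
  intro S _ _ _ m hm h0
  have h1 := hI _ (Ideal.mul_mem_right (monomial (ind S) (1 : ℝ)) _ (lin_mem_Ic (t := t) hm))
  rw [lin_mul_monomial, map_sum] at h1
  rw [← h1, Finset.sum_filter]
  refine Finset.sum_congr rfl fun v _ => ?_
  rw [map_smul, smul_eq_mul]
  by_cases hv : v ∈ S ∪ t
  · rw [if_neg fun h => h.1 hv, h0 v hv, zero_mul]
  · have hvS : v ∉ S := fun h => hv (Finset.mem_union_left _ h)
    rw [← ind_insert hvS, ← xS_eq]
    by_cases h : Fc (insert v S ∪ t)
    · rw [if_pos ⟨hv, h⟩]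
    · rw [if_neg fun h' => h h'.2, hI _ (xS_mem_Ic h), mul_zero]

section Wrap

variable {N : Type*} [AddCommGroup N] [Module ℝ N]

/-- a linear form as a function -/
def coeL : Module.Dual ℝ N →ₗ[ℝ] (N → ℝ) where
  toFun m := ⇑m
  map_add' _ _ := rfl
  map_smul' _ _ := rfl

theorem mem_map_coeL {La : Submodule ℝ (Module.Dual ℝ N)} {f : N → ℝ} :
    f ∈ La.map coeL ↔ ∃ m ∈ La, ⇑m = f := Iff.rfl

theorem ctx_of {La : Submodule ℝ (Module.Dual ℝ N)} {De : Finset (Finset N)}
    (down : ∀ t ∈ De, ∀ s ⊆ t, s ∈ De)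
    (onto : ∀ t ∈ De, ∀ f : N → ℝ, ∃ m ∈ La, ∀ v ∈ t, m v = f v) :
    Ctx (· ∈ De) (De.biUnion id) (La.map coeL) where
  down := down
  sub T hT := Finset.subset_biUnion_of_mem id hT
  onto T hT f := by
    obtain ⟨m, hm, h⟩ := onto T hT f
    exact ⟨⇑m, ⟨m, hm, rfl⟩, h⟩

end Wrap

end Pool.Agent.MP_e9c0f3_ag.KH.K9
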