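import Pool.Agent.Lib.MP_e9c0f3_ag.KH.Chow

/-! Tools for the residue complex. -/

open scoped Classical
open ExteriorAlgebra

set_option linter.unusedSectionVars false

noncomputable section

namespace KH

variable {N : Type} [AddCommGroup N] [Module ℝ N] {La : Du N}
  {De : Finset (Finset N)} {r s t : Finset N} {v x : N} {m : Module.Dual ℝ N}
  {k q : ℕ} {a : Ex N} {y z : Finset N → Ex N}

/-- Contraction with a linear form. -/
def ctr (m : Module.Dual ℝ N) : Ex N →ₗ[ℝ] Ex N := CliffordAlgebra.contractLeft m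

/-- Exactness of the residue complex of the star of `t`, written on the faces that contain `t`. -/
def RESat (La : Du N) (De : Finset (Finset N)) (t : Finset N) : Prop :=
  ∀ (q j : ℕ) (z : Finset N → Ex N),
    (∀ s ∈ De, t ⊆ s → s.card = q → z s ∈ F La De (j + 1) s) →
    (∀ r ∈ De, t ⊆ r → r.card + 1 = q → dR De z r ∈ J La r) →
    ∃ y : Finset N → Ex N, (∀ s, ¬ t ⊆ s → y s = 0) ∧
      (∀ s ∈ De, s.card = q + 1 → y s ∈ F La De j s) ∧
      ∀ s ∈ De, t ⊆ s → s.card = q → z s - dR De y s ∈ J La s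

/-- Poincaré duality for all degree maps. -/
def PD0 (La : Du N) (De : Finset (Finset N)) : Prop :=
  ∀ d deg, Valid La De d deg → ann deg ≤ Jd La De

/-- Exactness of the residue complex, if there is a degree map. -/
def RES0 (La : Du N) (De : Finset (Finset N)) : Prop :=
  ∀ d deg, Valid La De d deg → RES La De

theorem ctr_ι_mul (m : Module.Dual ℝ N) (x : N) (a : Ex N) :
    ctr m (ι ℝ x * a) = m x • a - ι ℝ x * ctr m a := CliffordAlgebra.contractLeft_ι_mul m x a

theorem ctr_algebraMap (m : Module.Dual ℝ N) (c : ℝ) : ctr m (algebraMap ℝ (Ex N) c) = 0 :=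
  CliffordAlgebra.contractLeft_algebraMap _ m c

theorem ctr_pow {T : Submodule ℝ N} (h : a ∈ (T.map (ι ℝ)) ^ (k + 1)) :
    ctr m a ∈ (T.map (ι ℝ)) ^ k := by
  induction k generalizing a with
  | zero =>
    rw [zero_add, pow_one] at h
    obtain ⟨x, -, rfl⟩ := h
    have := ctr_ι_mul m x (algebraMap ℝ _ 1)
    rw [ctr_algebraMap, map_one, mul_one, mul_zero, sub_zero] at this
    rw [this, pow_zero]
    exact Submodule.smul_mem _ _ (Submodule.one_le.1 le_rfl)
  | succ k ih =>
    rw [pow_succ'] at h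
    refine Submodule.mul_induction_on h ?_ fun x y hx hy => ?_
    · rintro _ ⟨x, hx, rfl⟩ b hb
      rw [ctr_ι_mul]
      refine Submodule.sub_mem _ (Submodule.smul_mem _ _ hb) ?_
      rw [pow_succ']
      exact Submodule.mul_mem_mul ⟨x, hx, rfl⟩ (ih hb)
    · rw [map_add]; exact Submodule.add_mem _ hx hy

theorem mem_sp_of_mem (h : v ∈ s) : v ∈ sp La s := Submodule.mem_sup_left (Submodule.subset_span h)

theorem mem_sp_of_perp (h : x ∈ perp La) : x ∈ sp La s := Submodule.mem_sup_right h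

theorem sp_mono (h : s ⊆ t) : sp La s ≤ sp La t :=
  sup_le_sup_right (Submodule.span_mono (Finset.coe_subset.2 h)) _

theorem sp_anti {La' : Du N} (h : La' ≤ La) : sp La s ≤ sp La' s :=
  sup_le_sup_left (fun _ hx => mem_perp.2 fun m hm => mem_perp.1 hx m (h hm)) _

theorem mem_sp_iff (h : Onto La s) : x ∈ sp La s ↔ ∀ m ∈ La, (∀ v ∈ s, m v = 0) → m x = 0 := by
  constructor
  · intro hx m hm h0
    exact (sup_le (Submodule.span_le.2 fun v hv => h0 v hv) fun y hy => mem_perp.1 hy m hm :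
      sp La s ≤ LinearMap.ker m) hx
  · intro hx
    choose f hf h1 using fun v : N => h fun u => if u = v then 1 else 0
    have h2 : x - ∑ v ∈ s, f v x • v ∈ perp La := mem_perp.2 fun m hm => by
      have := hx (m - ∑ v ∈ s, m v • f v)
        (La.sub_mem hm (La.sum_mem fun v _ => La.smul_mem _ (hf v))) fun u hu => by
          rw [LinearMap.sub_apply, LinearMap.sum_apply, Finset.sum_eq_single_of_mem u hu]
          · simp [h1 u u hu]
          · intro v _ hv
            simp [h1 v u hu, hv.symm]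
      rw [← this]
      simp [LinearMap.sum_apply, mul_comm]
    simpa using (sp La s).add_mem (mem_sp_of_perp h2)
      ((sp La s).sum_mem fun v hv => (sp La s).smul_mem (f v x) (mem_sp_of_mem hv))

theorem perp_res (h : Onto La t) : perp (res La t) = sp La t := by
  ext x
  rw [mem_perp, mem_sp_iff h]
  exact ⟨fun a m hm h0 => a m (mem_res.2 ⟨hm, h0⟩),
    fun a m hm => a m (mem_res.1 hm).1 (mem_res.1 hm).2⟩

theorem sp_res (h : Onto La t) : sp (res La t) s = sp La (s ∪ t) := by
  rw [sp, perp_res h, sp, sp, Finset.coe_union, Submodule.span_union, sup_assoc]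

theorem J_of_sp_le {La' : Du N} (h : sp La s ≤ sp La' t) : J La s ≤ J La' t :=
  mul_le_mul' (Submodule.map_mono h) le_rfl

theorem J_mono (h : s ⊆ t) : J La s ≤ J La t := J_of_sp_le (sp_mono h)

theorem ι_mul_mem_J (h : x ∈ sp La s) (a : Ex N) : ι ℝ x * a ∈ J La s :=
  Submodule.mul_mem_mul ⟨x, h, rfl⟩ trivial

theorem J_le {P : Submodule ℝ (Ex N)} (h : ∀ x ∈ sp La s, ∀ b, ι ℝ x * b ∈ P) : J La s ≤ P :=
  Submodule.mul_le.2 (by rintro _ ⟨x, hx, rfl⟩ b -; exact h x hx b)

theorem ι_ι_mul (x y : N) (a : Ex N) : ι ℝ x * (ι ℝ y * a) = -(ι ℝ y * (ι ℝ x * a)) := by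
  rw [← mul_assoc, ← mul_assoc, eq_neg_of_add_eq_zero_left (ι_add_mul_swap x y), neg_mul]

theorem mul_mem_J (b : Ex N) (h : a ∈ J La s) : b * a ∈ J La s := by
  induction b using ExteriorAlgebra.induction generalizing a with
  | algebraMap c => rw [← Algebra.smul_def]; exact Submodule.smul_mem _ _ h
  | ι y =>
    refine J_le (P := (J La s).comap (LinearMap.mulLeft ℝ (ι ℝ y))) (fun x hx b => ?_) h
    rw [Submodule.mem_comap, LinearMap.mulLeft_apply, ι_ι_mul]
    exact Submodule.neg_mem _ (ι_mul_mem_J hx _)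
  | mul b c hb hc => rw [mul_assoc]; exact hb (hc h)
  | add b c hb hc => rw [add_mul]; exact Submodule.add_mem _ (hb h) (hc h)

theorem ctr_mem_J (hm : ∀ x ∈ sp La s, m x = 0) (h : a ∈ J La s) : ctr m a ∈ J La s := by
  refine J_le (P := (J La s).comap (ctr m)) (fun x hx b => ?_) h
  rw [Submodule.mem_comap, ctr_ι_mul, hm x hx, zero_smul, zero_sub]
  exact Submodule.neg_mem _ (ι_mul_mem_J hx _)

theorem ι_mem_J_iff : ι ℝ x ∈ J La s ↔ x ∈ sp La s := by
  refine ⟨fun h => by_contra fun hx => ?_, fun h => by simpa using ι_mul_mem_J h 1⟩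
  obtain ⟨m, h1, h2⟩ := Submodule.exists_le_ker_of_notMem hx
  have h3 := ctr_mem_J (fun x hx => h2 hx) h
  have h4 := ctr_ι_mul m x (algebraMap ℝ _ 1)
  rw [ctr_algebraMap, map_one, mul_one, mul_zero, sub_zero] at h4
  have h5 := J_le (P := LinearMap.ker (algebraMapInv (R := ℝ) (M := N)).toLinearMap)
    (fun x _ b => by simp [algebraMapInv]) h3
  rw [h4] at h5
  exact h1 (by simpa using h5)

theorem exists_sub_mem_sp (h : x ∈ sp La (insert v s)) : ∃ c : ℝ, x - c • v ∈ sp La s := by
  rw [sp, Finset.coe_insert, Submodule.span_insert, sup_assoc] at h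
  obtain ⟨_, h1, y, hy, rfl⟩ := Submodule.mem_sup.1 h
  obtain ⟨c, rfl⟩ := Submodule.mem_span_singleton.1 h1
  exact ⟨c, by rwa [add_sub_cancel_left]⟩

theorem ι_mul_J_insert (h : a ∈ J La (insert v s)) : ι ℝ v * a ∈ J La s := by
  refine J_le (P := (J La s).comap (LinearMap.mulLeft ℝ (ι ℝ v))) (fun x hx b => ?_) h
  obtain ⟨c, hc⟩ := exists_sub_mem_sp hx
  have := mul_mem_J (ι ℝ v) (ι_mul_mem_J hc b)
  rwa [map_sub, map_smul, sub_mul, mul_sub, smul_mul_assoc, mul_smul_comm, ← mul_assoc _ (ι ℝ v),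
    ι_sq_zero, zero_mul, smul_zero, sub_zero] at this

/-- the ideal of `insert v s`, seen from `s` -/
theorem sub_ι_ctr_mem_J (hm : ∀ x ∈ sp La s, m x = 0) (hv : m v = 1) (h : a ∈ J La (insert v s)) :
    a - ι ℝ v * ctr m a ∈ J La s := by
  refine J_le (P := (J La s).comap (LinearMap.id - LinearMap.mulLeft ℝ (ι ℝ v) ∘ₗ ctr m))
    (fun x hx b => ?_) h
  obtain ⟨c, hc⟩ := exists_sub_mem_sp hx
  have h1 := hm _ hc
  rw [map_sub, map_smul, hv, smul_eq_mul, mul_one, sub_eq_zero] at h1
  change ι ℝ x * b - ι ℝ v * ctr m (ι ℝ x * b) ∈ J La s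
  rw [ctr_ι_mul, mul_sub, h1, ← sub_add, mul_smul_comm, ← smul_mul_assoc, ← sub_mul, ← map_smul,
    ← map_sub]
  exact Submodule.add_mem _ (ι_mul_mem_J hc _) (ι_mul_J_insert (ι_mul_mem_J hx _))

theorem mem_J_of_ι_mul (hm : ∀ x ∈ sp La s, m x = 0) (hv : m v = 1) (h : ι ℝ v * a ∈ J La s) :
    a ∈ J La (insert v s) := by
  have h1 := J_mono (Finset.subset_insert v s) (ctr_mem_J hm h)
  rw [ctr_ι_mul, hv, one_smul] at h1
  simpa using Submodule.add_mem _ h1
    (ι_mul_mem_J (mem_sp_of_mem (Finset.mem_insert_self v s)) (ctr m a))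

theorem pow_le_F {u : Finset N} (hu : u ∈ De) (h : s ⊆ u) :
    ((sp La u).map (ι ℝ)) ^ k ≤ F La De k s :=
  le_iSup₂_of_le u hu (le_iSup_of_le h le_rfl)

theorem F_le {P : Submodule ℝ (Ex N)}
    (h : ∀ u ∈ De, s ⊆ u → ((sp La u).map (ι ℝ)) ^ k ≤ P) : F La De k s ≤ P :=
  iSup₂_le fun u hu => iSup_le (h u hu)

theorem F_anti (h : s ⊆ t) : F La De k t ≤ F La De k s := F_le fun _ hu b => pow_le_F hu (h.trans b)

theorem ctr_mem_F (h : a ∈ F La De (k + 1) s) : ctr m a ∈ F La De k s :=
  F_le (P := (F La De k s).comap (ctr m)) (fun _ hu b _ c => pow_le_F hu b (ctr_pow c)) h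

theorem ι_mul_mem_F (hx : x ∈ sp La s) (h : a ∈ F La De k s) :
    ι ℝ x * a ∈ F La De (k + 1) s :=
  F_le (P := (F La De (k + 1) s).comap (LinearMap.mulLeft ℝ (ι ℝ x))) (fun _ hu b _ c =>
    pow_le_F hu b (by rw [pow_succ']; exact Submodule.mul_mem_mul ⟨x, sp_mono b hx, rfl⟩ c)) h

theorem mem_F_zero (h : a ∈ F La De 0 s) : ∃ c : ℝ, a = algebraMap ℝ _ c := by
  obtain ⟨c, hc⟩ := Submodule.mem_one.1 (F_le (P := 1) (fun _ _ _ => (pow_zero _).le) h)
  exact ⟨c, hc.symm⟩

theorem algebraMap_mem_F (hs : s ∈ De) (c : ℝ) : algebraMap ℝ (Ex N) c ∈ F La De 0 s :=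
  pow_le_F hs le_rfl (by rw [pow_zero]; exact Submodule.algebraMap_mem c)

theorem F_link (hF : Fan La De) (ht : t ∈ De) (h : Disjoint s t) :
    F (res La t) (link De t) k s = F La De k (s ∪ t) := by
  refine le_antisymm (F_le fun u hu b => ?_) (F_le fun u hu b => ?_)
  · rw [sp_res (hF.onto t ht)]
    exact pow_le_F (mem_link.1 hu).2 (Finset.union_subset_union_left b)
  · have e := Finset.sdiff_union_of_subset (Finset.subset_union_right.trans b)
    rw [← e, ← sp_res (hF.onto t ht)]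
    exact pow_le_F (mem_link.2 ⟨Finset.sdiff_disjoint, e.symm ▸ hu⟩)
      (Finset.subset_sdiff.2 ⟨Finset.subset_union_left.trans b, h⟩)

theorem J_link (h : Onto La t) : J (res La t) s = J La (s ∪ t) := by rw [J, sp_res h, J]

theorem dR_congr (h : ∀ v ∈ nb De r, y (insert v r) = z (insert v r)) :
    dR De y r = dR De z r := Finset.sum_congr rfl fun v hv => by rw [h v hv]

theorem dR_add : dR De (y + z) r = dR De y r + dR De z r := by
  simp only [dR, Pi.add_apply, mul_add, Finset.sum_add_distrib]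

theorem dR_sub : dR De (y - z) r = dR De y r - dR De z r := by
  simp only [dR, Pi.sub_apply, mul_sub, Finset.sum_sub_distrib]

theorem dR_dR (hD : Down De) : dR De (dR De z) r = 0 := by
  set f : N → N → Ex N := fun v u => if v ∉ r ∧ u ∉ r ∧ u ≠ v ∧ insert u (insert v r) ∈ De then
    ι ℝ v * (ι ℝ u * z (insert u (insert v r))) else 0 with hf
  have h1 : dR De (dR De z) r = ∑ v ∈ verts De, ∑ u ∈ verts De, f v u := by
    simp only [dR, nb, Finset.sum_filter, Finset.mul_sum]
    refine Finset.sum_congr rfl fun v _ => ?_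
    split_ifs with c
    · refine Finset.sum_congr rfl fun u _ => ?_
      simp only [hf, Finset.mem_insert, not_or, c.1, not_false_eq_true, true_and, mul_ite, mul_zero]
      exact if_congr (by tauto) rfl rfl
    · refine (Finset.sum_eq_zero fun u _ => if_neg fun b => c ⟨b.1, ?_⟩).symm
      exact hD _ b.2.2.2 _ (Finset.subset_insert _ _)
  have h2 : ∀ v u, f v u = -f u v := fun v u => by
    simp only [hf]
    rw [Finset.insert_comm u v, ι_ι_mul]
    by_cases c : u ∉ r ∧ v ∉ r ∧ v ≠ u ∧ insert v (insert u r) ∈ De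
    · rw [if_pos c, if_pos ⟨c.2.1, c.1, c.2.2.1.symm, c.2.2.2⟩]
    · rw [if_neg c, if_neg fun b => c ⟨b.2.1, b.1, b.2.2.1.symm, b.2.2.2⟩, neg_zero]
  have h3 : (2 : ℝ) • dR De (dR De z) r = 0 := by
    rw [two_smul, h1]
    nth_rewrite 1 [Finset.sum_comm]
    simp only [← Finset.sum_add_distrib]
    exact Finset.sum_eq_zero fun v _ => Finset.sum_eq_zero fun u _ => by rw [h2, neg_add_cancel]
  exact (smul_eq_zero.1 h3).resolve_left two_ne_zero

theorem dR_mem_F (h : ∀ v ∈ nb De r, z (insert v r) ∈ F La De k (insert v r)) :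
    dR De z r ∈ F La De (k + 1) r :=
  Submodule.sum_mem _ fun v hv => F_anti (Finset.subset_insert v r)
    (ι_mul_mem_F (mem_sp_of_mem (Finset.mem_insert_self v r)) (h v hv))

theorem dR_mem_J (h : ∀ v ∈ nb De r, z (insert v r) ∈ J La (insert v r)) :
    dR De z r ∈ J La r := Submodule.sum_mem _ fun v hv => ι_mul_J_insert (h v hv)

/-- multivectors of positive degree at `s` come from the faces with one more vertex -/
theorem exists_dR (hD : Down De) (h : a ∈ F La De (k + 1) s) :
    ∃ y : Finset N → Ex N, (∀ v ∈ nb De s, y (insert v s) ∈ F La De k (insert v s)) ∧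
      a - dR De y s ∈ J La s := by
  let P : Submodule ℝ (Ex N) :=
    { carrier := {a | ∃ y : Finset N → Ex N,
        (∀ v ∈ nb De s, y (insert v s) ∈ F La De k (insert v s)) ∧ a - dR De y s ∈ J La s}
      add_mem' := by
        rintro a b ⟨y, h1, h2⟩ ⟨y', h3, h4⟩
        refine ⟨y + y', fun v hv => Submodule.add_mem _ (h1 v hv) (h3 v hv), ?_⟩
        rw [dR_add, add_sub_add_comm]
        exact Submodule.add_mem _ h2 h4
      zero_mem' := ⟨0, fun _ _ => Submodule.zero_mem _, by simp [dR]⟩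
      smul_mem' := by
        rintro c a ⟨y, h1, h2⟩
        refine ⟨c • y, fun v hv => Submodule.smul_mem _ _ (h1 v hv), ?_⟩
        have : dR De (c • y) s = c • dR De y s := by simp [dR, Finset.smul_sum]
        rw [this, ← smul_sub]
        exact Submodule.smul_mem _ _ h2 }
  have hJ : ∀ a ∈ J La s, a ∈ P := fun a ha =>
    ⟨0, fun _ _ => Submodule.zero_mem _, by simpa [dR] using ha⟩
  refine F_le (P := P) (fun u hu hs => ?_) h
  rw [pow_succ']
  refine Submodule.mul_le.2 ?_
  rintro _ ⟨x, hx, rfl⟩ b hb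
  refine (sup_le (Submodule.span_le.2 fun v hv => ?_)
    fun y hy => hJ _ (ι_mul_mem_J (mem_sp_of_perp hy) b) :
    sp La u ≤ P.comap (LinearMap.mulRight ℝ b ∘ₗ ι ℝ)) hx
  by_cases c : v ∈ s
  · exact hJ _ (ι_mul_mem_J (mem_sp_of_mem c) b)
  have h1 : insert v s ⊆ u := Finset.insert_subset hv hs
  refine ⟨fun s' => if s' = insert v s then b else 0, fun v' _ => ?_, ?_⟩
  · dsimp only
    split_ifs with e
    · rw [e]; exact pow_le_F hu h1 hb
    · exact Submodule.zero_mem _
  · rw [dR, Finset.sum_eq_single_of_mem v (mem_nb.2 ⟨c, hD u hu _ h1⟩), if_pos rfl]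
    · simp
    · intro v' hv' hne
      rw [if_neg fun e => hne ((Finset.insert_inj (mem_nb.1 hv').1).1 e), mul_zero]

/-- scalar chains: balancing -/
theorem dR_scalar (h : Onto La r) (c : Finset N → ℝ) (b : N) :
    ι ℝ b - dR De (fun s => algebraMap ℝ _ (c s)) r ∈ J La r ↔
      ∀ m ∈ La, (∀ v ∈ r, m v = 0) → m b = ∑ v ∈ nb De r, m v * c (insert v r) := by
  have : ι ℝ b - dR De (fun s => algebraMap ℝ _ (c s)) r =
      ι ℝ (b - ∑ v ∈ nb De r, c (insert v r) • v) := by
    simp only [dR, map_sub, map_sum, map_smul, ← Algebra.commutes, ← Algebra.smul_def]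
  rw [this, ι_mem_J_iff, mem_sp_iff h]
  simp only [map_sub, map_sum, map_smul, smul_eq_mul, sub_eq_zero, mul_comm]

theorem dR_link (h : Disjoint r t) :
    dR (link De t) (fun s => z (s ∪ t)) r = dR De z (r ∪ t) := by
  refine Finset.sum_congr ?_ fun v _ => by simp only [Finset.insert_union]
  ext v
  simp only [mem_nb, mem_link, Finset.disjoint_insert_left, Finset.insert_union, Finset.mem_union,
    h]
  tauto

theorem RES.at (hF : Fan La De) (ht : t ∈ De) (h : RES (res La t) (link De t)) :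
    RESat La De t := by
  intro q j z hz hc
  rcases lt_or_ge q t.card with hq | hq
  · exact ⟨0, fun _ _ => rfl, fun _ _ _ => Submodule.zero_mem _,
      fun s _ b e => absurd (Finset.card_le_card b) (by omega)⟩
  obtain ⟨q, rfl⟩ := Nat.exists_eq_add_of_le' hq
  obtain ⟨y, h1, h2⟩ := h q j (fun s => z (s ∪ t)) (fun s hs e => by
    obtain ⟨a, b⟩ := mem_link.1 hs
    rw [F_link hF ht a]
    exact hz _ b Finset.subset_union_right (by rw [Finset.card_union_of_disjoint a, e]))
    fun r hr e => by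
      obtain ⟨a, b⟩ := mem_link.1 hr
      rw [dR_link a, J_link (hF.onto t ht)]
      exact hc _ b Finset.subset_union_right (by rw [Finset.card_union_of_disjoint a]; omega)
  have key : ∀ s ∈ De, t ⊆ s → s \ t ∈ link De t ∧ (s \ t).card + t.card = s.card := fun s hs b =>
    ⟨mem_link.2 ⟨Finset.sdiff_disjoint, by rwa [Finset.sdiff_union_of_subset b]⟩,
      Finset.card_sdiff_add_card_eq_card b⟩
  refine ⟨fun s => if t ⊆ s then y (s \ t) else 0, fun s b => if_neg b, fun s hs e => ?_,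
    fun s hs b e => ?_⟩
  · dsimp only
    split_ifs with b
    · have := h1 _ (key s hs b).1 (by have := (key s hs b).2; omega)
      rwa [F_link hF ht Finset.sdiff_disjoint, Finset.sdiff_union_of_subset b] at this
    · exact Submodule.zero_mem _
  · have := h2 _ (key s hs b).1 (by have := (key s hs b).2; omega)
    rw [J_link (hF.onto t ht), Finset.sdiff_union_of_subset b] at this
    convert this using 2
    rw [← Finset.sdiff_union_of_subset b, ← dR_link Finset.sdiff_disjoint,
      Finset.sdiff_union_of_subset b]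
    refine dR_congr fun v hv => ?_
    rw [if_pos Finset.subset_union_right,
      Finset.union_sdiff_cancel_right (mem_link.1 (mem_nb.1 hv).2).1]

theorem RES0.at {d : ℕ} {deg : Pol N →ₗ[ℝ] ℝ} (hF : Fan La De) (hv : Valid La De d deg)
    (ht : t ∈ De) (h : RES0 (res La t) (link De t)) : RESat La De t :=
  RES.at hF ht (h _ _ (hv.link hF ht))

/-- the closed-star form of Poincaré duality -/
theorem PD0.at {d : ℕ} {deg : Pol N →ₗ[ℝ] ℝ} (hF : Fan La De) (hv : Valid La De d deg)
    (ht : t ∈ De) (h : PD0 (res La t) (link De t)) :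
    ann (degAt deg (mon t)) ≤ Ic La De t := fun a ha => by
  obtain ⟨b, hb⟩ := exists_kil (t := t) hF a
  have h1 := (mem_ann_congr (hv.Ic_le hb)).1 ha
  simpa using Ideal.add_mem _ hb
    (kil_mem_Ic hF.down (h _ _ (hv.link hF ht) ((hv.mem_ann_degLk hF).2 h1)))

end KH
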