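import Pool.Agent.Lib.MP_e9c0f3_ag.KH.EdgeVal
import Pool.Agent.Lib.MP_e9c0f3_ag.KH.Alg

/-! Subdivision of an edge: convex functions, Poincaré duality, Hodge–Riemann relations. -/

open MvPolynomial Filter Topology
open scoped Classical

set_option linter.unusedSectionVars false

noncomputable section

namespace KH

variable {N : Type} [AddCommGroup N] [Module ℝ N] {La : Du N} {De De' : Finset (Finset N)}

namespace Eg

theorem _root_.KH.Valid.edat {d : ℕ} {deg : Pol N →ₗ[ℝ] ℝ} (V : Valid La De d deg) : Dat (Hom N) deg d :=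
  dat_mv (verts De) (fun v hv => V.kill (by
    have : mon {v} ∈ Jd La De := mon_mem_Jd fun h => hv (mem_vert.2 ⟨_, h, by simp⟩)
    simpa [mon] using this)) V.hom

theorem lin_homog (De : Finset (Finset N)) (l : N → ℝ) : lin De l ∈ Hom N 1 :=
  Submodule.sum_mem _ fun v _ => Submodule.smul_mem _ _ (isHomogeneous_X ℝ v)

theorem ev_lt {a b : ℝ} (c : ℝ) (h : a < b) : ∀ᶠ ε in 𝓝[>] (0 : ℝ), a + ε * c < b := by
  have : Tendsto (fun ε : ℝ => a + ε * c) (𝓝 0) (𝓝 (a + 0 * c)) :=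
    (by fun_prop : Continuous fun ε : ℝ => a + ε * c).tendsto 0
  rw [zero_mul, add_zero] at this
  exact (this.eventually (gt_mem_nhds h)).filter_mono nhdsWithin_le_nhds

end Eg

open Eg

namespace Sub

variable {E : Ed N} (S : Sub E La De De')
include S

/-- The pulled back function, lowered by `ε` at the new vertex. -/
def low (E : Ed N) (l : N → ℝ) (ε : ℝ) : N → ℝ :=
  Function.update l E.w (E.a₁ * l E.e₁ + E.a₂ * l E.e₂ - ε)

theorem lin_low (l : N → ℝ) (ε : ℝ) :
    lin De' (low E l ε) = E.pull (lin De l) + ε • (-X E.w) := by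
  have : lin De (low E l ε) = lin De l := Finset.sum_congr rfl fun v hv => by
    rw [low, Function.update_of_ne fun e : v = E.w => S.new (e ▸ hv)]
  rw [S.lin_eq, S.pull_lin, this, low, Function.update_self, sub_smul, smul_neg]; abel

theorem cvx_low {l : N → ℝ} (h : Cvx La De l) :
    ∀ᶠ ε in 𝓝[>] (0 : ℝ), Cvx La De' (low E l ε) := by
  have lw : ∀ ε, low E l ε E.w = E.a₁ * l E.e₁ + E.a₂ * l E.e₂ - ε := fun ε =>
    Function.update_self _ _ _
  have lv : ∀ ε v, v ≠ E.w → low E l ε v = l v := fun ε v hv => Function.update_of_ne hv _ _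
  have p₁ := E.pos₁
  have p₂ := E.pos₂
  refine (eventually_all_finset De').2 fun t ht => ?_
  have he := S.wlog₂ (S.not_edge ht)
  by_cases hw : E.w ∈ t
  · have hu := ((S.mem₁ hw).1 ht).2
    obtain ⟨m, hm, h1, h2⟩ := h _ hu
    obtain ⟨n, hn, h3⟩ := S.onto _ hu fun v => if v ∈ t then 0 else 1
    have n0 : 0 < n E.w := by
      rw [S.rel n hn, h3 _ (by simp), h3 _ (by simp)]
      split_ifs <;> first | tauto | positivity
    have mw : m E.w = E.a₁ * l E.e₁ + E.a₂ * l E.e₂ := by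
      rw [S.rel m hm, h1 _ (by simp), h1 _ (by simp)]
    have h4 : ∀ᶠ ε in 𝓝[>] (0 : ℝ), ∀ v ∈ (verts De).filter (· ∉ t.erase E.w ∪ {E.e₁, E.e₂}),
        m v + ε * (-(n E.w)⁻¹ * n v) < l v := (eventually_all_finset _).2 fun v hv =>
      ev_lt _ (h2 v (Finset.mem_filter.1 hv).1 (Finset.mem_filter.1 hv).2)
    filter_upwards [h4, self_mem_nhdsWithin] with ε h5 (h6 : 0 < ε)
    have ev : ∀ v, (m - (ε * (n E.w)⁻¹) • n) v = m v + ε * (-(n E.w)⁻¹ * n v) := fun v => by
      simp only [LinearMap.sub_apply, LinearMap.smul_apply, smul_eq_mul]; ring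
    refine ⟨m - (ε * (n E.w)⁻¹) • n, La.sub_mem hm (La.smul_mem _ hn), fun v hv => ?_,
      fun v hv hvt => ?_⟩
    · rw [ev]
      by_cases e : v = E.w
      · rw [e, lw, mw]; field_simp; ring
      · have : v ∈ t.erase E.w ∪ {E.e₁, E.e₂} :=
          Finset.mem_union_left _ (Finset.mem_erase.2 ⟨e, hv⟩)
        rw [lv _ _ e, h1 v this, h3 v this, if_pos hv]; ring
    · have e : v ≠ E.w := fun e => hvt (e ▸ hw)
      rw [S.verts_eq, Finset.mem_insert, or_iff_right e] at hv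
      rw [ev, lv _ _ e]
      by_cases c : v ∈ t.erase E.w ∪ {E.e₁, E.e₂}
      · rw [h1 v c, h3 v c, if_neg hvt]
        have := mul_pos h6 (inv_pos.2 n0)
        linarith
      · exact h5 v (Finset.mem_filter.2 ⟨hv, c⟩)
  · obtain ⟨m, hm, h1, h2⟩ := h t ((S.mem₀ hw).1 ht).1
    have le : ∀ v ∈ verts De, m v ≤ l v := fun v hv => by
      by_cases c : v ∈ t
      · exact (h1 v c).le
      · exact (h2 v hv c).le
    have lt : m E.w < E.a₁ * l E.e₁ + E.a₂ * l E.e₂ := by
      rw [S.rel m hm]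
      have a1 := le _ S.e₁_mem
      have a2 := le _ S.e₂_mem
      rcases he with c | c
      · have := h2 _ S.e₂_mem c
        nlinarith
      · have := h2 _ S.e₁_mem c
        nlinarith
    filter_upwards [ev_lt 1 lt] with ε h3
    refine ⟨m, hm, fun v hv => by rw [lv _ _ fun e => hw (e ▸ hv), h1 v hv], fun v hv hvt => ?_⟩
    rw [S.verts_eq, Finset.mem_insert] at hv
    rcases hv with rfl | hv
    · rw [lw]; linarith
    · rw [lv _ _ fun e => S.new (e ▸ hv)]; exact h2 v hv hvt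

theorem fan_up (F : Fan La De) : ∃ l, Cvx La De' l := by
  obtain ⟨l, hl⟩ := F.proj
  obtain ⟨ε, h⟩ := (S.cvx_low hl).exists
  exact ⟨_, h⟩

variable {d : ℕ} {deg : Pol N →ₗ[ℝ] ℝ}

theorem deg_kill (V : Valid La De d deg) (a b : Pol N) : deg (E.kill a * b) = deg (a * b) := by
  obtain ⟨t, ht⟩ := E.kill_sub a
  rw [← sub_eq_zero, ← map_sub, ← sub_mul, ht, mul_assoc]
  exact V.kill S.w_mem _

theorem two_le (V : Valid La De d deg) : 2 ≤ d := by
  simpa [Finset.card_pair E.ne] using V.ecard S.edge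

theorem blow (V : Valid La De d deg) : Blow (Hom N) (Hom N) E.pull deg
    (degAt deg (mon {E.e₁, E.e₂})) (deg ∘ₗ E.push) (X E.w) (E.a₁⁻¹ * E.a₂⁻¹) where
  hπ _ _ ha := E.hom_pull ha
  hw := isHomogeneous_X ℝ _
  hc := mul_pos (inv_pos.2 E.pos₁) (inv_pos.2 E.pos₂)
  h0 a := by simpa [(E.push_pull' a).1] using S.deg_kill V a 1
  h1 a := by rw [LinearMap.comp_apply, mul_comm, E.push_pull_mul, E.push_w, mul_zero, map_zero]
  h2 a := by
    rw [LinearMap.comp_apply, mul_comm, E.push_pull_mul, E.push_w_mul, E.push₁_w, S.deg_kill V,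
      E.c_mul, degAt_apply, mon, Finset.prod_pair E.ne, ← smul_eq_mul (-_ : ℝ), ← map_smul,
      smul_eq_C_mul, map_neg]
    congr 1; ring
  hs y := by
    obtain ⟨t, ht⟩ := E.split y
    exact ⟨_, _, ht ▸ (S.valid_up V).kill (Ideal.mul_mem_right t _ S.edge_mem)⟩

theorem pd_up (V : Valid La De d deg) (h0 : ann deg ≤ Jd La De)
    (h1 : ann (degAt deg (mon {E.e₁, E.e₂})) ≤ Ic La De {E.e₁, E.e₂}) :
    ann (deg ∘ₗ E.push) ≤ Jd La De' := fun p hp => by
  obtain ⟨t, ht⟩ := E.split p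
  have h2 : p - _ ∈ Jd La De' := ht ▸ Ideal.mul_mem_right t _ S.edge_mem
  have h3 := (S.blow V).ann.1 ((mem_ann_congr ((S.valid_up V).kill h2)).1 hp)
  simpa using Ideal.add_mem _ h2
    (Ideal.add_mem _ (S.pull_mem (h0 h3.1)) (S.w_pull_mem (h1 h3.2)))

theorem pd_down (V : Valid La De d deg) (h : ann (deg ∘ₗ E.push) ≤ Jd La De') :
    ann deg ≤ Jd La De := fun a ha => by
  have h1 := S.push_mem (h ((S.blow V).ann.2 ⟨ha, Ideal.zero_mem _⟩))
  obtain ⟨t, ht⟩ := E.kill_sub a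
  rw [map_zero, mul_zero, add_zero, (E.push_pull' a).1, sub_eq_iff_eq_add.1 ht] at h1
  simpa using Ideal.sub_mem _ h1 (Ideal.mul_mem_right t _ S.w_mem)

/-- Hodge–Riemann for one convex function on the subdivision. -/
theorem hr_up (V : Valid La De (d + 2) deg) {l : N → ℝ} (hl : Cvx La De l)
    (h0 : HR (Hom N) deg (d + 2) (lin De l))
    (h1 : HR (Hom N) (degAt deg (mon {E.e₁, E.e₂})) d (lin De l)) :
    ∃ l', Cvx La De' l' ∧ HR (Hom N) (deg ∘ₗ E.push) (d + 2) (lin De' l') := by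
  have D := (S.valid_up V).edat
  have h2 := HR.perturb D (-X E.w) (((S.blow V).HR gr_mv D _).2 ⟨h0, h1⟩)
  obtain ⟨ε, h3, h4⟩ := ((S.cvx_low hl).and (h2.filter_mono nhdsWithin_le_nhds)).exists
  exact ⟨_, h3, S.lin_low l ε ▸ h4⟩

/-- Hodge–Riemann descends when hard Lefschetz is known. -/
theorem hr_down (V : Valid La De (d + 2) deg) {l : N → ℝ} (hl : Cvx La De l)
    (h0 : HL (Hom N) deg (d + 2) (lin De l))
    (h1 : HL (Hom N) (degAt deg (mon {E.e₁, E.e₂})) d (lin De l))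
    (h : ∀ l', Cvx La De' l' → HR (Hom N) (deg ∘ₗ E.push) (d + 2) (lin De' l')) :
    HR (Hom N) deg (d + 2) (lin De l) := by
  have D := (S.valid_up V).edat
  refine (((S.blow V).HR gr_mv D _).1 (HR.of_limit D (y := -X E.w) (E.hom_pull (lin_homog De l))
    (Submodule.neg_mem _ (isHomogeneous_X ℝ _)) (((S.blow V).HL gr_mv D _).2 ⟨h0, h1⟩) ?_)).1
  filter_upwards [S.cvx_low hl] with ε h2
  exact S.lin_low l ε ▸ h _ h2

end Sub

end KH
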