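import Pool.Agent.Lib.MP_e9c0f3_ag.KH.Chow
import Pool.Agent.Lib.MP_e9c0f3_ag.KH.EdgeHR

/-! Hodge–Riemann relations: subdivision of an edge. -/

open scoped Classical
open MvPolynomial

noncomputable section

namespace KH

variable {N : Type} [AddCommGroup N] [Module ℝ N] {La : Du N} {De : Finset (Finset N)}
  {e₁ e₂ w : N} {a : N → ℝ}

/-- The edge data of a new vertex on an edge. -/
def New.ed (h : New La De {e₁, e₂} w a) (hne : e₁ ≠ e₂) : Ed N :=
  ⟨e₁, e₂, w, a e₁, a e₂, hne, fun e => h.fresh (mem_verts.2 ⟨_, h.mem, by simp [← e]⟩),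
    fun e => h.fresh (mem_verts.2 ⟨_, h.mem, by simp [← e]⟩), h.pos _ (by simp), h.pos _ (by simp)⟩

theorem New.sub (hF : Fan La De) (hne : e₁ ≠ e₂) (h : New La De {e₁, e₂} w a) :
    Sub (h.ed hne) La De (star De {e₁, e₂} w) :=
  ⟨hF.down, hF.onto, h.mem, h.fresh, fun m hm => (h.eq m hm).trans (Finset.sum_pair hne), rfl⟩

theorem hr0_up (hF : Fan La De) (hne : e₁ ≠ e₂) (h : New La De {e₁, e₂} w a) (h1 : All HR0 La De)
    (h2 : Below HR0 La (star De {e₁, e₂} w)) : HR0 La (star De {e₁, e₂} w) := by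
  intro d deg V l hl
  have S := h.sub hF hne
  have V0 := S.valid_down V
  obtain ⟨d, rfl⟩ := Nat.exists_eq_add_of_le' (S.two_le V0)
  obtain ⟨l0, hl0⟩ := hF.proj
  have h3 := HR0.at hF V0 h.mem (h1 _ h.mem) hl0
  rw [Finset.card_pair hne, Nat.add_sub_cancel] at h3
  obtain ⟨l', c, hr⟩ := S.hr_up V0 hl0
    (h1.at (hF.down _ h.mem _ (Finset.empty_subset _)) _ _ V0 l0 hl0) h3
  rw [S.deg_eq V] at hr
  exact hr_of_weak (star_fan hF h) V h2 c.weak hr hl

theorem hr0_down (hF : Fan La De) (hne : e₁ ≠ e₂) (h : New La De {e₁, e₂} w a)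
    (h1 : All HR0 La (star De {e₁, e₂} w)) (h2 : Below HR0 La De) : HR0 La De := by
  intro d deg V l hl
  have S := h.sub hF hne
  obtain ⟨d, rfl⟩ := Nat.exists_eq_add_of_le' (S.two_le V)
  have h3 := HR0.at hF V h.mem (h2 _ h.mem (by simp)) hl
  rw [Finset.card_pair hne, Nat.add_sub_cancel] at h3
  have h0 : ∅ ∈ star De {e₁, e₂} w := (S.mem₀ (Finset.notMem_empty _)).2
    ⟨hF.down _ h.mem _ (Finset.empty_subset _), by simp⟩
  exact S.hr_down V hl (hl_of_below hF V h2 hl) h3.hl (h1.at h0 _ _ (S.valid_up V))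

end KH
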