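import Pool.Agent.Lib.MP_e9c0f3_ag.KH.Chow

/-! Hodge–Riemann relations: tropical modification. -/

open scoped Classical
open MvPolynomial

noncomputable section

namespace KH

variable {N : Type} [AddCommGroup N] [Module ℝ N] {La : Du N} {T D : Finset (Finset N)} {e : N}

namespace HModif

omit [AddCommGroup N] [Module ℝ N] in
theorem verts_modif (hD : D ⊆ T) (h : D.Nonempty) : verts (modif T D e) = insert e (verts T) := by
  ext v
  simp only [mem_verts, mem_modif, Finset.mem_insert]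
  constructor
  · rintro ⟨s, hs | ⟨t, ht, rfl⟩, hv⟩
    · exact .inr ⟨s, hs, hv⟩
    · exact (Finset.mem_insert.mp hv).imp_right fun h => ⟨t, hD ht, h⟩
  · rintro (rfl | ⟨s, hs, hv⟩)
    · obtain ⟨t, ht⟩ := h
      exact ⟨_, .inr ⟨t, ht, rfl⟩, Finset.mem_insert_self _ _⟩
    · exact ⟨s, .inl hs, hv⟩

omit [AddCommGroup N] [Module ℝ N] in
theorem lin_modif (hD : D ⊆ T) (h : D.Nonempty) (he : e ∉ verts T) (l : N → ℝ) :
    lin (modif T D e) l = l e • X e + lin T l := by
  rw [lin, verts_modif hD h, Finset.sum_insert he, lin]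

omit [AddCommGroup N] [Module ℝ N] in
theorem lin_modif_zero (hD : D ⊆ T) (he : e ∉ verts T) {l : N → ℝ} (hl : l e = 0) :
    lin (modif T D e) l = lin T l := by
  rcases D.eq_empty_or_nonempty with rfl | h
  · simp [modif]
  · rw [lin_modif hD h he, hl, zero_smul, zero_add]

omit [AddCommGroup N] [Module ℝ N] in
theorem subs_lin_base (he : e ∉ verts T) (g : N → Pol N) (l : N → ℝ) :
    Tr.subs {e} g (lin T l) = lin T l :=
  Tr.subs_sum (fun v hv h => he (by rwa [Finset.mem_singleton.mp h] at hv)) l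

theorem mem_res_one {m : Module.Dual ℝ N} : m ∈ res La {e} ↔ m ∈ La ∧ m e = 0 := by
  simp [mem_res]

/-- Killing the variable `e` maps relations of the base to relations of the modification. -/
theorem kil_mem_Jd (hD : D ⊆ T) (he : e ∉ verts T) {a : Pol N} (ha : a ∈ Jd (res La {e}) T) :
    kil {e} a ∈ Jd La (modif T D e) := by
  have : Jd (res La {e}) T ≤ (Jd La (modif T D e)).comap (kil {e}) := by
    refine Ideal.span_le.mpr ?_
    rintro _ (⟨s, hs, rfl⟩ | ⟨m, hm, rfl⟩) <;> rw [SetLike.mem_coe, Ideal.mem_comap]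
    · rw [kil_mon]
      split_ifs with h
      · refine mon_mem_Jd fun h' => ?_
        rcases mem_modif.mp h' with h' | ⟨t, -, rfl⟩
        · exact hs h'
        · simp at h
      · exact zero_mem _
    · rw [← Tr.subs_zero, subs_lin_base he, ← lin_modif_zero hD he (mem_res_one.mp hm).2]
      exact lin_mem_Jd (mem_res_one.mp hm).1
  exact this ha

/-- The base of a balanced modification is pure. -/
theorem pure_base (hD : D ⊆ T) (he : e ∉ verts T) (hF : Fan La (modif T D e)) {d : ℕ}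
    {deg : Pol N →ₗ[ℝ] ℝ} (hv : Valid La (modif T D e) d deg) :
    ∀ s ∈ T, ∃ u ∈ T, s ⊆ u ∧ u.card = d := by
  intro s hs
  have nin : ∀ u ∈ T, e ∉ u := fun u hu h => he (mem_verts.mpr ⟨u, hu, h⟩)
  obtain ⟨u, hu, h1, h2⟩ := hv.pure s (mem_modif.mpr (.inl hs))
  rcases mem_modif.mp hu with hu' | ⟨r, hr, rfl⟩
  · exact ⟨u, hu', h1, h2⟩
  have her := nin r (hD hr)
  rw [Finset.card_insert_of_notMem her] at h2
  obtain ⟨m, hm, hm'⟩ := hF.onto _ hu fun v => if v = e then 1 else 0
  have hb := bal_of_functional (La := La) (De := modif T D e) (t := ∅) (k := d) (φ := deg)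
    (by rw [Ic_empty]; exact hv.kill) r (by rw [link_empty]; exact mem_modif.mpr (.inl (hD hr)))
    h2 m hm fun v hv' => by
      rw [Finset.union_empty] at hv'
      rw [hm' v (Finset.mem_insert_of_mem hv'), if_neg fun h : v = e => her (h ▸ hv')]
  rw [Finset.union_empty] at hb
  by_contra hne
  rw [Finset.sum_eq_single e (fun v hv' hve => ?_) fun h => (h (mem_nb.mpr ⟨her, hu⟩)).elim,
    hm' e (Finset.mem_insert_self _ _), if_pos rfl, one_mul] at hb
  · exact (hv.pos _ hu (by rw [Finset.card_insert_of_notMem her, h2])).ne' hb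
  · obtain ⟨h3, h4⟩ := mem_nb.mp hv'
    refine (hne ⟨insert v r, ?_, ((Finset.subset_insert_iff_of_notMem (nin s hs)).mp h1).trans
      (Finset.subset_insert _ _), by rw [Finset.card_insert_of_notMem h3, h2]⟩).elim
    rcases mem_modif.mp h4 with h5 | ⟨u, -, h5⟩
    · exact h5
    · have : e ∈ insert v r := h5 ▸ Finset.mem_insert_self _ _
      exact ((Finset.mem_insert.mp this).elim (fun h => hve h.symm) her).elim

/-- The degree map of the base. -/
theorem valid_base (hD : D ⊆ T) (he : e ∉ verts T) (hF : Fan La (modif T D e)) {d : ℕ}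
    {deg : Pol N →ₗ[ℝ] ℝ} (hv : Valid La (modif T D e) d deg) :
    Valid (res La {e}) T d (deg ∘ₗ (kil {e}).toLinearMap) where
  pure := pure_base hD he hF hv
  hom k hk a ha := hv.hom k hk _ (kil_hom ha)
  kill a ha b := by
    have := hv.kill (kil_mem_Jd hD he ha) (kil {e} b)
    rwa [← map_mul] at this
  pos s hs hc := by
    have := hv.pos s (mem_modif.mpr (.inl hs)) hc
    rwa [LinearMap.comp_apply, AlgHom.toLinearMap_apply, kil_mon, if_pos
      (Finset.disjoint_singleton_right.mpr fun h => he (mem_verts.mpr ⟨s, hs, h⟩))]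

/-- The variable `e` is a combination of the other variables. -/
theorem exists_g (hD : D ⊆ T) (he : e ∉ verts T) (he' : ∃ m ∈ La, m e = 1) :
    ∃ g ∈ Hom N 1, kil {e} g = g ∧ X e - g ∈ Jd La (modif T D e) := by
  rcases D.eq_empty_or_nonempty with rfl | h
  · exact ⟨0, zero_mem _, map_zero _, by simpa [modif] using X_mem_Jd he⟩
  · obtain ⟨f, hf, h1⟩ := he'
    refine ⟨-lin T f, neg_mem lin_hom, by rw [map_neg, ← Tr.subs_zero, subs_lin_base he], ?_⟩
    have := lin_mem_Jd (De := modif T D e) hf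
    rwa [lin_modif hD h he, h1, one_smul, ← sub_neg_eq_add] at this

/-- The Gorenstein quotients of a modification and of its base agree. -/
theorem exists_transfer (hD : D ⊆ T) (he : e ∉ verts T) (he' : ∃ m ∈ La, m e = 1) {d : ℕ}
    {deg : Pol N →ₗ[ℝ] ℝ} (hv : Valid La (modif T D e) d deg) :
    ∃ π : Pol N →ₐ[ℝ] Pol N, (∀ k, ∀ a ∈ Hom N k, π a ∈ Hom N k) ∧ (∀ v, v ≠ e → π (X v) = X v) ∧
      (∀ a, kil {e} (π a) = π a) ∧ (∀ a, π (kil {e} a) = kil {e} a) ∧
      (∀ a, a - π a ∈ Jd La (modif T D e)) ∧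
      (∀ a, (deg ∘ₗ (kil {e}).toLinearMap) (π a) = deg a) ∧
      ∀ y, ∃ a, y - π a ∈ ann (deg ∘ₗ (kil {e}).toLinearMap) := by
  obtain ⟨g, g1, g2, g3⟩ := exists_g hD he he'
  have h1 : ∀ a, kil {e} (Tr.subs {e} (fun _ => g) a) = Tr.subs {e} (fun _ => g) a :=
    Tr.subs_subs fun _ _ => g2
  have h2 : ∀ a, Tr.subs {e} (fun _ => g) (kil {e} a) = kil {e} a :=
    Tr.subs_subs fun _ _ => map_zero _
  have h3 : ∀ a, a - Tr.subs {e} (fun _ => g) a ∈ Jd La (modif T D e) :=
    Tr.subs_mem_ideal fun v hv => by rwa [Finset.mem_singleton.mp hv]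
  refine ⟨Tr.subs {e} fun _ => g, Tr.subs_hom fun _ => g1,
    fun v hv => Tr.subs_out (by simpa using hv), h1, h2, h3, fun a => ?_,
    fun y => ⟨kil {e} y, fun b => ?_⟩⟩
  · rw [LinearMap.comp_apply, AlgHom.toLinearMap_apply, h1]
    exact (deg_congr (hv.kill (h3 a))).symm
  · rw [LinearMap.comp_apply, AlgHom.toLinearMap_apply, h2, map_mul (kil {e}), map_sub, kil_kil,
      sub_self, zero_mul, map_zero]

theorem wcvx_pull (hD : D ⊆ T) {l : N → ℝ} (hl : Cvx (res La {e}) T l) :
    WCvx La (modif T D e) (Function.update l e 0) := by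
  have key : ∀ t ∈ T, ∃ m ∈ La, (∀ v ∈ insert e t, m v = Function.update l e 0 v) ∧
      ∀ v ∈ verts (modif T D e), m v ≤ Function.update l e 0 v := by
    intro t ht
    obtain ⟨m, h1, h2, h3⟩ := hl t ht
    obtain ⟨h4, h5⟩ := mem_res_one.mp h1
    refine ⟨m, h4, fun v hv => ?_, fun v hv => ?_⟩
    · by_cases h : v = e
      · rw [h, h5, Function.update_self]
      · rw [Function.update_of_ne h, h2 v ((Finset.mem_insert.mp hv).resolve_left h)]
    · by_cases h : v = e
      · rw [h, h5, Function.update_self]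
      · rw [Function.update_of_ne h]
        have hv' : v ∈ verts T := by
          obtain ⟨s, hs, hvs⟩ := mem_verts.mp hv
          rcases mem_modif.mp hs with hs | ⟨u, hu, rfl⟩
          · exact mem_verts.mpr ⟨s, hs, hvs⟩
          · exact mem_verts.mpr ⟨u, hD hu, (Finset.mem_insert.mp hvs).resolve_left h⟩
        by_cases hvt : v ∈ t
        · exact (h2 v hvt).le
        · exact (h3 v hv' hvt).le
  intro s hs
  rcases mem_modif.mp hs with hs | ⟨t, ht, rfl⟩
  · obtain ⟨m, a, b, c⟩ := key s hs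
    exact ⟨m, a, fun v hv => b v (Finset.mem_insert_of_mem hv), c⟩
  · exact key t (hD ht)

end HModif

open HModif in
theorem hr0_modif (hF : Fan (res La {e}) T) (h0 : ∅ ∈ T) (hs : D ⊆ T) (hD : Down D)
    (he : ∃ m ∈ La, m e = 1) (h1 : All HR0 (res La {e}) T)
    (h2 : Below HR0 La (modif T D e)) : HR0 La (modif T D e) := by
  intro d deg hv l hl
  have hF' := fan_modif hF hs hD he
  have hev : e ∉ verts T := hF.notMem_verts fun m hm => (mem_res_one.mp hm).2
  have hb := valid_base hs hev hF' hv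
  obtain ⟨π, p1, -, -, p4, -, p6, p7⟩ := exists_transfer hs hev he hv
  obtain ⟨l₀, h3⟩ := hF.proj
  refine hr_of_weak hF' hv h2 (wcvx_pull hs h3) ?_ hl
  have e1 : lin (modif T D e) (Function.update l₀ e 0) = lin T l₀ := by
    rw [lin_modif_zero hs hev (Function.update_self _ _ _)]
    exact lin_congr fun v hv => Function.update_of_ne (fun h : v = e => hev (h ▸ hv)) _ _
  have e2 : kil {e} (lin T l₀) = lin T l₀ := subs_lin_base hev _ l₀
  rw [e1, ← transfer_HR gr_mv hb.dat p1 p6 p7, ← e2, p4, e2]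
  exact h1.at h0 d _ hb l₀ h3

end KH
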