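import Pool.Agent.Lib.MP_e9c0f3_ag.KH.Chow

/-! Hodge–Riemann relations: suspension. -/

open scoped Classical
open MvPolynomial

noncomputable section

namespace KH

section change

variable {R R' : Type} [CommRing R] [Algebra ℝ R] [CommRing R'] [Algebra ℝ R']
  {G : ℕ → Submodule ℝ R} {G' : ℕ → Submodule ℝ R'} {π : R →ₐ[ℝ] R'} {deg : R →ₗ[ℝ] ℝ}
  {deg' : R' →ₗ[ℝ] ℝ} {t t' : R'} {α β γ : R} {c κ : ℝ}

/-- change of the generator of a bundle -/
theorem Bundle.change (B : Bundle G G' π deg deg' t α β c) (hκ : 0 < κ) (ht' : t' ∈ G' 1)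
    (h : t' - (κ • t + π γ) ∈ KH.ann deg') :
    Bundle G G' π deg deg' t' (κ • α + 2 * γ) ((κ * κ) • β - γ * (κ • α + γ)) (κ * c) where
  hπ := B.hπ
  ht := ht'
  hc := mul_pos hκ B.hc
  h0 := B.h0
  h1 := fun a => by
    have := h (π a)
    rw [sub_mul, add_mul, smul_mul_assoc, ← map_mul, map_sub, map_add, map_smul, B.h0, B.h1,
      add_zero, sub_eq_zero] at this
    rw [this, smul_eq_mul, mul_assoc]
  htt := by
    have := (KH.ann deg').add_mem
      ((KH.ann deg').mul_mem_left (t' + (κ • t + π γ) - π (κ • α + 2 * γ)) h)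
      (smul_mem_ann (κ * κ) B.htt)
    convert this using 1
    simp only [map_add, map_sub, map_mul, map_ofNat, Algebra.smul_def, AlgHom.commutes]
    ring
  hs := fun y => by
    obtain ⟨a, b, e⟩ := B.hs y
    refine ⟨a - κ⁻¹ • (γ * b), κ⁻¹ • b, ?_⟩
    have := (KH.ann deg').sub_mem e ((KH.ann deg').mul_mem_left (π (κ⁻¹ • b)) h)
    convert this using 1
    have hk : algebraMap ℝ R' κ⁻¹ * algebraMap ℝ R' κ = 1 := by
      rw [← map_mul, inv_mul_cancel₀ hκ.ne', map_one]
    simp only [map_sub, map_mul, Algebra.smul_def, AlgHom.commutes]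
    linear_combination (-(t * π b)) * hk

/-- the splitting follows from a splitting of the variables -/
theorem split_mv {V : Type} {π : R →ₐ[ℝ] MvPolynomial V ℝ} {I : Ideal (MvPolynomial V ℝ)}
    {t : MvPolynomial V ℝ} (htt : t * t - (t * π α + π β) ∈ I)
    (h : ∀ v, ∃ a b, X v - (π a + t * π b) ∈ I) (y : MvPolynomial V ℝ) :
    ∃ a b, y - (π a + t * π b) ∈ I := by
  induction y using MvPolynomial.induction_on with
  | C r => exact ⟨algebraMap ℝ R r, 0, by simp⟩
  | add p q hp hq =>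
    obtain ⟨a, b, e⟩ := hp
    obtain ⟨a', b', e'⟩ := hq
    refine ⟨a + a', b + b', ?_⟩
    convert I.add_mem e e' using 1
    simp only [map_add]
    ring
  | mul_X p v hp =>
    obtain ⟨a, b, e⟩ := hp
    obtain ⟨a', b', e'⟩ := h v
    refine ⟨a * a' + β * (b * b'), a * b' + a' * b + α * (b * b'), ?_⟩
    convert I.add_mem (I.add_mem (I.mul_mem_left (X v) e) (I.mul_mem_left (π a + t * π b) e'))
      (I.mul_mem_left (π (b * b')) htt) using 1
    simp only [map_add, map_mul]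
    ring

end change

variable {N : Type} [AddCommGroup N] [Module ℝ N] {La : Du N} {D : Finset (Finset N)}
  {e e' : N}

omit [AddCommGroup N] [Module ℝ N] in
theorem verts_susp_eq (h0 : ∅ ∈ D) : verts (susp D e e') = insert e (insert e' (verts D)) := by
  ext x
  simp only [mem_verts, mem_susp, Finset.mem_insert]
  constructor
  · rintro ⟨s, hs | ⟨u, hu, rfl⟩ | ⟨u, hu, rfl⟩, hx⟩
    · exact Or.inr (Or.inr ⟨s, hs, hx⟩)
    · exact (Finset.mem_insert.1 hx).imp id fun h => Or.inr ⟨u, hu, h⟩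
    · exact Or.inr ((Finset.mem_insert.1 hx).imp id fun h => ⟨u, hu, h⟩)
  · rintro (rfl | rfl | ⟨s, hs, hx⟩)
    · exact ⟨_, Or.inr (Or.inl ⟨∅, h0, rfl⟩), by simp⟩
    · exact ⟨_, Or.inr (Or.inr ⟨∅, h0, rfl⟩), by simp⟩
    · exact ⟨s, Or.inl hs, hx⟩

omit [AddCommGroup N] [Module ℝ N] in
theorem lin_susp (h0 : ∅ ∈ D) (he : e ∉ verts D) (he' : e' ∉ verts D) (hne : e ≠ e')
    (l : N → ℝ) : lin (susp D e e') l = l e • X e + (l e' • X e' + lin D l) := by
  rw [lin, verts_susp_eq h0, Finset.sum_insert (by simp [he, hne]), Finset.sum_insert he', lin]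

theorem susp_fresh {c : ℝ} (hF : Fan (res La {e}) D) (he : ∃ m ∈ La, m e = 1) (hc : 0 < c)
    (h : ∀ m ∈ La, m e' = -c * m e) : e ∉ verts D ∧ e' ∉ verts D ∧ e ≠ e' := by
  have r1 : ∀ μ ∈ res La {e}, μ e = 0 := fun μ hμ => (mem_res.1 hμ).2 e (by simp)
  refine ⟨hF.notMem_verts r1, hF.notMem_verts fun μ hμ => by
    rw [h μ (mem_res.1 hμ).1, r1 μ hμ, mul_zero], ?_⟩
  rintro rfl
  obtain ⟨m, hm, hm1⟩ := he
  have := h m hm
  rw [hm1] at this
  linarith

omit [AddCommGroup N] [Module ℝ N] in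
theorem kil_lin_susp (he : e ∉ verts D) (he' : e' ∉ verts D) (f : N → ℝ) :
    kil {e, e'} (lin D f) = lin D f := by
  rw [lin, map_sum]
  refine Finset.sum_congr rfl fun v hvD => ?_
  rw [map_smul, kil_X, if_neg]
  simp only [Finset.mem_insert, Finset.mem_singleton]
  rintro (rfl | rfl)
  exacts [he hvD, he' hvD]

/-- the relations of a suspension -/
theorem susp_rel {c : ℝ} (hF : Fan (res La {e}) D) (h0 : ∅ ∈ D) {m : Module.Dual ℝ N}
    (hm : m ∈ La) (hm1 : m e = 1) (hc : 0 < c) (h : ∀ m ∈ La, m e' = -c * m e) :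
    X e * X e' ∈ Jd La (susp D e e') ∧
    X e * X e - (X e * kil {e, e'} (-lin D m) + kil {e, e'} 0) ∈ Jd La (susp D e e') ∧
    Jd (res La {e}) D ≤ (Jd La (susp D e e')).comap (kil {e, e'}) ∧
    ∀ y, ∃ a b, y - (kil {e, e'} a + X e * kil {e, e'} b) ∈ Jd La (susp D e e') := by
  obtain ⟨he, he', hne⟩ := susp_fresh hF ⟨m, hm, hm1⟩ hc h
  have r1 : ∀ μ ∈ res La {e}, μ e = 0 := fun μ hμ => (mem_res.1 hμ).2 e (by simp)
  have r2 : ∀ μ ∈ res La {e}, μ e' = 0 := fun μ hμ => by
    rw [h μ (mem_res.1 hμ).1, r1 μ hμ, mul_zero]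
  have hkl := kil_lin_susp he he'
  have hee : X e * X e' ∈ Jd La (susp D e e') := by
    rw [← mon_singleton (v := e'), ← mon_insert (by simpa using hne)]
    refine mon_mem_Jd fun hs => ?_
    rcases mem_susp.1 hs with hs | ⟨u, hu, hs⟩ | ⟨u, hu, hs⟩
    · exact he (mem_verts.2 ⟨_, hs, by simp⟩)
    · have : e' ∈ insert e u := hs ▸ by simp
      exact he' (mem_verts.2 ⟨u, hu, (Finset.mem_insert.1 this).resolve_left hne.symm⟩)
    · have : e ∈ insert e' u := hs ▸ by simp
      exact he (mem_verts.2 ⟨u, hu, (Finset.mem_insert.1 this).resolve_left hne⟩)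
  have hrel : X e + ((-c) • X e' + lin D m) ∈ Jd La (susp D e e') := by
    have := lin_mem_Jd (De := susp D e e') hm
    rwa [lin_susp h0 he he' hne, h m hm, hm1, one_smul, mul_one] at this
  have htt : X e * X e - (X e * kil {e, e'} (-lin D m) + kil {e, e'} 0) ∈ Jd La (susp D e e') := by
    have := Ideal.add_mem _ (Ideal.mul_mem_left _ (X e) hrel) (Ideal.mul_mem_left _ (C c) hee)
    convert this using 1
    rw [map_neg, hkl, map_zero]
    simp only [smul_eq_C_mul, map_neg]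
    ring
  refine ⟨hee, htt, ?_, split_mv htt fun v => ?_⟩
  · rw [Jd, Ideal.span_le]
    rintro _ (⟨s, hs, rfl⟩ | ⟨μ, hμ, rfl⟩)
    · show kil {e, e'} (mon s) ∈ Jd La (susp D e e')
      rw [kil_mon]
      split_ifs with hd
      · refine mon_mem_Jd fun hs' => ?_
        rcases mem_susp.1 hs' with hs' | ⟨u, -, rfl⟩ | ⟨u, -, rfl⟩
        · exact hs hs'
        · simp at hd
        · simp at hd
      · exact zero_mem _
    · show kil {e, e'} (lin D μ) ∈ Jd La (susp D e e')
      have := lin_mem_Jd (De := susp D e e') (mem_res.1 hμ).1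
      rwa [lin_susp h0 he he' hne, r1 μ hμ, r2 μ hμ, zero_smul, zero_smul, zero_add, zero_add,
        ← hkl] at this
  · by_cases h1 : v = e
    · exact ⟨0, 1, by simp [h1]⟩
    by_cases h2 : v = e'
    · refine ⟨c⁻¹ • lin D m, c⁻¹ • 1, ?_⟩
      have := Ideal.mul_mem_left _ (C (-c⁻¹)) hrel
      rw [← smul_eq_C_mul] at this
      convert this using 1
      rw [h2, map_smul, map_smul, hkl, map_one, smul_add, smul_add, smul_smul, neg_mul_neg,
        inv_mul_cancel₀ hc.ne', mul_smul_comm, mul_one]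
      module
    · exact ⟨X v, 0, by simp [kil_X, h1, h2]⟩

/-- the Chow ring of a suspension is a bundle over the Chow ring of the base -/
theorem bundle_susp {c : ℝ} (hF : Fan (res La {e}) D) (h0 : ∅ ∈ D) {m : Module.Dual ℝ N}
    (hm : m ∈ La) (hm1 : m e = 1) (hc : 0 < c) (h : ∀ m ∈ La, m e' = -c * m e) {d : ℕ}
    {deg : Pol N →ₗ[ℝ] ℝ} (hv : Valid La (susp D e e') (d + 1) deg) :
    Valid (res La {e}) D d (degLk deg {e}) ∧
      Bundle (Hom N) (Hom N) (kil {e, e'}) (degLk deg {e}) deg (X e) (-lin D m) 0 1 := by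
  have hF' := fan_susp hF ⟨m, hm, hm1⟩ hc h
  obtain ⟨he, he', hne⟩ := susp_fresh hF ⟨m, hm, hm1⟩ hc h
  obtain ⟨hee, htt, hJ, hsp⟩ := susp_rel hF h0 hm hm1 hc h
  have hes : {e} ∈ susp D e e' := mem_susp.2 (Or.inr (Or.inl ⟨∅, h0, rfl⟩))
  have hv0 : Valid (res La {e}) D d (degLk deg {e}) := by
    have := hv.link hF' hes
    rwa [link_susp_apex he he' hne, Finset.card_singleton, Nat.add_sub_cancel] at this
  refine ⟨hv0, fun k a ha => kil_hom ha, X_hom, one_pos, fun a => ?_, fun a => ?_, hv.kill htt,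
    fun y => (hsp y).imp fun a h => h.imp fun b h => hv.kill h⟩
  · induction a using gr_mv.induction with
    | h k a ha =>
      by_cases hk : k = d + 1
      · apply deg_of_ann
        apply hv.kill
        apply hJ
        rw [← Ic_empty]
        refine mem_Ic_of_lt hF (fun s hs => ?_) ha
        rw [link_empty] at hs
        have := hv0.card_le hs
        omega
      · exact hv.hom k hk _ (kil_hom ha)
    | h0 => simp
    | ha a b ha hb => rw [map_add, map_add, ha, hb, add_zero]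
  · rw [one_mul, degLk_apply, mon_singleton]
    symm
    apply deg_congr
    rw [← mul_sub, ← mem_ann_degAt]
    have e1 : kil {e, e'} a = kil {e'} (kil {e} a) := by
      have : (kil {e, e'} : Pol N →ₐ[ℝ] Pol N) = (kil {e'}).comp (kil {e}) := by
        apply algHom_ext
        intro v
        rw [AlgHom.comp_apply, kil_X, kil_X]
        by_cases h1 : v = e
        · simp [h1]
        · simp [h1, kil_X]
      rw [this, AlgHom.comp_apply]
    rw [e1]
    refine sub_kil_mem fun v hv' => ?_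
    obtain rfl : v = e' := by simpa using hv'
    exact mem_ann_degAt.2 (hv.kill hee)

theorem Valid.susp_succ (h0 : ∅ ∈ D) {d : ℕ} {deg : Pol N →ₗ[ℝ] ℝ}
    (hv : Valid La (susp D e e') d deg) : ∃ d', d = d' + 1 := by
  have := hv.card_le (mem_susp.2 (Or.inr (Or.inl ⟨∅, h0, rfl⟩)))
  rw [Finset.card_insert_of_notMem (Finset.notMem_empty _)] at this
  exact ⟨d - 1, by omega⟩

theorem hr0_susp {c : ℝ} (hF : Fan (res La {e}) D) (h0 : ∅ ∈ D) (he : ∃ m ∈ La, m e = 1)
    (hc : 0 < c) (h : ∀ m ∈ La, m e' = -c * m e) (h1 : All HR0 (res La {e}) D)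
    (h2 : Below HR0 La (susp D e e')) : HR0 La (susp D e e') := by
  intro d deg hv l hl
  have hF' := fan_susp hF he hc h
  have r1 : ∀ μ ∈ res La {e}, μ e = 0 := fun μ hμ => (mem_res.1 hμ).2 e (by simp)
  have r2 : ∀ μ ∈ res La {e}, μ e' = 0 := fun μ hμ => by
    rw [h μ (mem_res.1 hμ).1, r1 μ hμ, mul_zero]
  obtain ⟨m, hm, hm1⟩ := id he
  obtain ⟨he, he', hne⟩ := susp_fresh hF he hc h
  obtain ⟨d, rfl⟩ := hv.susp_succ h0
  obtain ⟨hv0, B⟩ := bundle_susp hF h0 hm hm1 hc h hv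
  have hkl := kil_lin_susp he he'
  obtain ⟨μ, hμ, hμ1, hμ2⟩ := hl {e'} (mem_susp.2 (Or.inr (Or.inr ⟨∅, h0, rfl⟩)))
  have hκ : 0 < l e - μ e := sub_pos.2 (hμ2 e (by simp [verts_susp_eq h0]) (by simpa using hne))
  have B' := B.change (t' := lin (susp D e e') l) (γ := lin D fun v => l v - μ v) hκ lin_hom (by
    have := hv.kill (lin_mem_Jd hμ)
    convert this using 1
    have e1 := lin_susp h0 he he' hne fun v => l v - μ v
    rw [hμ1 e' (by simp), sub_self, zero_smul, zero_add] at e1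
    rw [hkl, ← e1, lin_sub, sub_sub_cancel])
  obtain ⟨l0, hl0⟩ := hF.proj
  obtain ⟨ε, hε, hε0⟩ := ((B'.HR hv0.dat hv.dat lin_hom (h1.at h0 d _ hv0 l0 hl0)).and
    self_mem_nhdsWithin).exists
  let l1 : N → ℝ := fun v => if v ∈ verts D then l0 v else 0
  have hw : WCvx La (susp D e e') l1 := by
    intro s hs
    obtain ⟨u, hu, hsu⟩ : ∃ u ∈ D, ∀ v ∈ s, v ∈ u ∨ v = e ∨ v = e' := by
      rcases mem_susp.1 hs with hs | ⟨u, hu, rfl⟩ | ⟨u, hu, rfl⟩
      · exact ⟨s, hs, fun v hv => Or.inl hv⟩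
      · exact ⟨u, hu, fun v hv => by
          rcases Finset.mem_insert.1 hv with h | h
          exacts [Or.inr (Or.inl h), Or.inl h]⟩
      · exact ⟨u, hu, fun v hv => by
          rcases Finset.mem_insert.1 hv with h | h
          exacts [Or.inr (Or.inr h), Or.inl h]⟩
    obtain ⟨ν, hν, hν1, hν2⟩ := hl0.weak u hu
    refine ⟨ν, (mem_res.1 hν).1, fun v hv => ?_, fun v hv => ?_⟩
    · rcases hsu v hv with h | rfl | rfl
      · simp only [l1, if_pos (mem_verts.2 ⟨u, hu, h⟩), hν1 v h]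
      · simp only [l1, if_neg he, r1 ν hν]
      · simp only [l1, if_neg he', r2 ν hν]
    · rw [verts_susp_eq h0, Finset.mem_insert, Finset.mem_insert] at hv
      rcases hv with rfl | rfl | h
      · simp only [l1, if_neg he, r1 ν hν, le_refl]
      · simp only [l1, if_neg he', r2 ν hν, le_refl]
      · simp only [l1, if_pos h, hν2 v h]
  refine hr_of_weak hF' hv h2 (Cvx.comb hw hl zero_le_one hε0).weak ?_ hl
  rw [lin_comb, one_smul, lin_susp h0 he he' hne l1]
  simp only [l1, if_neg he, if_neg he', zero_smul, zero_add]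
  rw [lin_congr (l' := l0) fun v hv => if_pos hv]
  rwa [hkl] at hε

end KH
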