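import Pool.Agent.Lib.MP_e9c0f3_ag.KH.K7B

/-! Stellar subdivisions reduce to subdivisions of edges and vertices. -/

open scoped Classical

noncomputable section

namespace KH

variable {N : Type} {De : Finset (Finset N)} {s z e : Finset N} {w u : N}

theorem mem_star_not (hw : w ∉ s) : s ∈ star De z w ↔ s ∈ De ∧ ¬z ⊆ s := by
  rw [mem_star]
  exact ⟨fun h => h.resolve_right fun ⟨t, _, _, _, k⟩ => hw (k ▸ Finset.mem_insert_self w t),
    Or.inl⟩

theorem insert_mem_star (hd : ∀ t ∈ De, ∀ s ⊆ t, s ∈ De) (hf : w ∉ verts De) (hw : w ∉ s) :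
    insert w s ∈ star De z w ↔ ¬z ⊆ s ∧ s ∪ z ∈ De := by
  rw [mem_star]
  constructor
  · rintro (⟨h, -⟩ | ⟨t, h1, h2, h3, h4⟩)
    · exact absurd (mem_verts.2 ⟨_, h, Finset.mem_insert_self _ _⟩) hf
    · have : t = s := by
        rw [← Finset.erase_insert hw, ← h4,
          Finset.erase_insert fun k => hf (mem_verts.2 ⟨t, h1, k⟩)]
      exact this ▸ ⟨h2, h3⟩
  · exact fun h => Or.inr ⟨s, hd _ h.2 s Finset.subset_union_left, h.1, h.2, rfl⟩

theorem verts_star : verts (star De z w) ⊆ insert w (verts De) := fun v hv => by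
  obtain ⟨s, hs, hv⟩ := mem_verts.1 hv
  rcases mem_star.1 hs with ⟨h1, -⟩ | ⟨t, h1, -, -, rfl⟩
  · exact Finset.mem_insert_of_mem (mem_verts.2 ⟨s, h1, hv⟩)
  · exact Finset.insert_subset_insert w (fun y hy => mem_verts.2 ⟨t, h1, hy⟩) hv

theorem star_down (hd : ∀ t ∈ De, ∀ s ⊆ t, s ∈ De) :
    ∀ t ∈ star De z w, ∀ s ⊆ t, s ∈ star De z w := fun t ht s hs => by
  rcases mem_star.1 ht with ⟨h1, h2⟩ | ⟨t, h1, h2, h3, rfl⟩
  · exact mem_star.2 (Or.inl ⟨hd t h1 s hs, fun k => h2 (k.trans hs)⟩)
  · have e : s.erase w ⊆ t := Finset.subset_insert_iff.1 hs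
    by_cases hw : w ∈ s
    · exact mem_star.2 (Or.inr ⟨s.erase w, hd t h1 _ e, fun k => h2 (k.trans e),
        hd _ h3 _ (Finset.union_subset_union_left e), Finset.insert_erase hw⟩)
    · rw [Finset.erase_eq_of_notMem hw] at e
      exact mem_star.2 (Or.inl ⟨hd t h1 s e, fun k => h2 (k.trans e)⟩)

theorem star_star (hd : ∀ t ∈ De, ∀ s ⊆ t, s ∈ De) (hz : z ∈ De) (he : e ⊆ z)
    (hw : w ∉ verts De) (hu : u ∉ verts De) (uw : u ≠ w) :
    star (star De z w) e u = star (star De e u) (insert u (z \ e)) w := by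
  have wz : w ∉ z := fun k => hw (mem_verts.2 ⟨z, hz, k⟩)
  have uz : u ∉ z := fun k => hu (mem_verts.2 ⟨z, hz, k⟩)
  have f1 : u ∉ verts (star De z w) := fun k =>
    (Finset.mem_insert.1 (verts_star k)).elim uw hu
  have f2 : w ∉ verts (star De e u) := fun k =>
    (Finset.mem_insert.1 (verts_star k)).elim uw.symm hw
  have a1 : ∀ r : Finset N, z ⊆ r ∪ e ↔ z \ e ⊆ r := fun r => by
    rw [Finset.union_comm]
    exact sdiff_le_iff.symm
  have a2 : ∀ r : Finset N, e ⊆ r ∪ z \ e ↔ e ⊆ r := fun r =>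
    ⟨fun k v hv => (Finset.mem_union.1 (k hv)).resolve_right fun k' =>
      (Finset.mem_sdiff.1 k').2 hv, fun k => k.trans Finset.subset_union_left⟩
  have a3 : ∀ r : Finset N, r ∪ z \ e ∪ e = r ∪ z := fun r => by
    rw [Finset.union_assoc, Finset.sdiff_union_of_subset he]
  have a4 : ∀ r : Finset N, r ∪ e ∪ z = r ∪ z := fun r => by
    rw [Finset.union_assoc, Finset.union_eq_right.2 he]
  have a5 : ∀ r : Finset N, e ⊆ insert w r ↔ e ⊆ r := fun r =>
    Finset.subset_insert_iff_of_notMem fun k => wz (he k)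
  have a6 : ∀ r : Finset N, insert u (z \ e) ⊆ insert u r ↔ z \ e ⊆ r := fun r =>
    Finset.insert_subset_insert_iff fun k => uz (Finset.mem_sdiff.1 k).1
  have main : ∀ r : Finset N, u ∉ r → w ∉ r →
      (r ∈ star (star De z w) e u ↔ r ∈ star (star De e u) (insert u (z \ e)) w) ∧
      (insert u r ∈ star (star De z w) e u ↔
        insert u r ∈ star (star De e u) (insert u (z \ e)) w) ∧
      (insert w r ∈ star (star De z w) e u ↔
        insert w r ∈ star (star De e u) (insert u (z \ e)) w) ∧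
      (insert u (insert w r) ∈ star (star De z w) e u ↔
        insert u (insert w r) ∈ star (star De e u) (insert u (z \ e)) w) := by
    intro r h1 h2
    have n1 : ¬insert u (z \ e) ⊆ r := fun k => h1 (k (Finset.mem_insert_self _ _))
    have n2 : w ∉ r ∪ e := fun k => (Finset.mem_union.1 k).elim h2 fun k => wz (he k)
    have n3 : u ∉ r ∪ z \ e := fun k =>
      (Finset.mem_union.1 k).elim h1 fun k => uz (Finset.mem_sdiff.1 k).1
    have n4 : w ∉ insert u r := fun k => (Finset.mem_insert.1 k).elim uw.symm h2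
    have n5 : u ∉ insert w r := fun k => (Finset.mem_insert.1 k).elim uw h1
    refine ⟨?_, ?_, ?_, ?_⟩
    · rw [mem_star_not h1, mem_star_not h2, mem_star_not h2, mem_star_not h1]
      exact ⟨fun k => ⟨⟨k.1.1, k.2⟩, n1⟩, fun k => ⟨⟨k.1.1, fun k' => k.1.2 (he.trans k')⟩, k.1.2⟩⟩
    · rw [insert_mem_star (star_down hd) f1 h1, mem_star_not n2, mem_star_not n4,
        insert_mem_star hd hu h1, a1, a6, and_assoc]
    · rw [mem_star_not n5, insert_mem_star hd hw h2, insert_mem_star (star_down hd) f2 h2,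
        Finset.union_insert, insert_mem_star hd hu n3, a2, a3, a5]
      exact ⟨fun k => ⟨n1, k.2, k.1.2⟩, fun k => ⟨⟨fun k' => k.2.1 (he.trans k'), k.2.2⟩, k.2.1⟩⟩
    · rw [insert_mem_star (star_down hd) f1 n5, Finset.insert_union, insert_mem_star hd hw n2,
        Finset.insert_comm, insert_mem_star (star_down hd) f2 n4, Finset.insert_union,
        Finset.union_insert, Finset.insert_eq_of_mem (Finset.mem_insert_self _ _),
        insert_mem_star hd hu n3, a1, a2, a3, a4, a5, a6]
      exact ⟨fun k => ⟨k.2.1, k.1, k.2.2⟩, fun k => ⟨k.2.1, k.1, k.2.2⟩⟩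
  ext s
  obtain ⟨m1, m2, m3, m4⟩ := main ((s.erase u).erase w)
    (fun k => Finset.notMem_erase u s (Finset.mem_of_mem_erase k)) (Finset.notMem_erase _ _)
  by_cases h1 : u ∈ s <;> by_cases h2 : w ∈ s
  · rwa [Finset.insert_erase (Finset.mem_erase.2 ⟨uw.symm, h2⟩), Finset.insert_erase h1] at m4
  · rwa [Finset.erase_eq_of_notMem fun k => h2 (Finset.mem_of_mem_erase k),
      Finset.insert_erase h1] at m2
  · rwa [Finset.erase_eq_of_notMem h1, Finset.insert_erase h2] at m3
  · rwa [Finset.erase_eq_of_notMem h1, Finset.erase_eq_of_notMem h2] at m1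

variable [AddCommGroup N] [Module ℝ N] {La : Du N} {P : Finset (Finset N) → Prop}

theorem starInv_of_small
    (h : ∀ De z w a, z.card ≤ 2 → Fan La De → New La De z w a → (P De ↔ P (star De z w))) :
    StarInv La P := by
  intro De z
  induction hn : z.card using Nat.strong_induction_on generalizing De z with
  | _ n ih =>
    intro w a hF hN
    by_cases h2 : z.card ≤ 2
    · exact h De z w a h2 hF hN
    obtain ⟨e, he, hc⟩ := Finset.exists_subset_card_eq (not_le.1 h2).le
    have e0 : e.Nonempty := Finset.card_pos.1 (by omega)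
    have eD : e ∈ De := hF.down z hN.mem e he
    have ez : ¬z ⊆ e := fun k => h2 (hc ▸ Finset.card_le_card k)
    obtain ⟨r, hr, hu⟩ := exists_new hF eD e0 (fun v hv => hN.pos v (he hv)) (insert w (verts De))
    set u := r • ∑ v ∈ e, a v • v with udef
    rw [Finset.mem_insert, not_or] at hu
    have ue : ∀ m ∈ La, m u = ∑ v ∈ e, r * a v * m v := fun m _ => by
      simp only [udef, map_smul, map_sum, smul_eq_mul, Finset.mul_sum, mul_assoc]
    have up : ∀ v ∈ e, 0 < r * a v := fun v hv => mul_pos hr (hN.pos v (he hv))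
    have uz : u ∉ z \ e := fun k => hu.2 (mem_verts.2 ⟨z, hN.mem, (Finset.mem_sdiff.1 k).1⟩)
    have n1 : New La De e u fun v => r * a v := ⟨eD, e0, hu.2, up, ue⟩
    have n2 : New La (star De z w) e u fun v => r * a v :=
      ⟨mem_star.2 (Or.inl ⟨eD, ez⟩), e0,
        fun k => (Finset.mem_insert.1 (verts_star k)).elim hu.1 hu.2, up, ue⟩
    have n3 : New La (star De e u) (insert u (z \ e)) w (Function.update a u r⁻¹) := by
      refine ⟨(insert_mem_star hF.down hu.2 uz).2 ⟨fun k => ?_, ?_⟩, Finset.insert_nonempty _ _,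
        fun k => (Finset.mem_insert.1 (verts_star k)).elim (Ne.symm hu.1) hN.fresh,
        fun v hv => ?_, fun m hm => ?_⟩
      · obtain ⟨v, hv⟩ := e0
        exact (Finset.mem_sdiff.1 (k hv)).2 hv
      · rw [Finset.sdiff_union_of_subset he]; exact hN.mem
      · by_cases k : v = u
        · rw [k, Function.update_self]; exact inv_pos.2 hr
        · rw [Function.update_of_ne k]
          exact hN.pos v (Finset.mem_sdiff.1 ((Finset.mem_insert.1 hv).resolve_left k)).1
      · rw [Finset.sum_insert uz, Function.update_self, ue m hm, hN.eq m hm,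
          ← Finset.sum_sdiff he, add_comm, Finset.mul_sum]
        congr 1
        · exact Finset.sum_congr rfl fun v _ => by field_simp
        · exact Finset.sum_congr rfl fun v hv => by
            rw [Function.update_of_ne fun k : v = u => uz (k ▸ hv)]
    have cd : (insert u (z \ e)).card < n := by
      rw [Finset.card_insert_of_notMem uz, Finset.card_sdiff_of_subset he]
      omega
    rw [h De e u _ hc.le hF n1, ih _ cd _ _ rfl w _ (star_fan hF n1) n3,
      h _ e u _ hc.le (star_fan hF hN) n2, star_star hF.down hN.mem he hN.fresh hu.2 hu.1]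

end KH
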