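import Mathlib

/-! Matroid side of the deletion-contraction step for Bergman fans. -/

namespace Pool.Agent.MP_e9c0f3_ag.KH.Mat

open Set Matroid

variable {E : Type*}

/-- superlevel set of `x` on the ground set -/
def Sup (M : Matroid E) (x : E → ℝ) (c : ℝ) : Set E := {i | i ∈ M.E ∧ c ≤ x i}

/-- the Bergman set: every superlevel set is a flat -/
def Berg (M : Matroid E) : Set (E → ℝ) := {x | ∀ c, M.IsFlat (Sup M x c)}

/-- the tropical linear function along which `M` is a modification of `M ＼ {e}` -/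
noncomputable def fM (M : Matroid E) (e : E) (x : E → ℝ) : ℝ :=
  sSup {t | e ∈ M.closure (Sup (M ＼ {e}) x t)}

theorem berg_univ {M : Matroid E} (h : M.E = univ) :
    Berg M = {x | ∀ c, M.IsFlat {i | c ≤ x i}} := by
  ext x
  simp [Berg, Sup, h]

theorem sup_subset (M : Matroid E) (x : E → ℝ) (c : ℝ) : Sup M x c ⊆ M.E := fun _ h => h.1

theorem sup_anti (M : Matroid E) (x : E → ℝ) {c c' : ℝ} (h : c ≤ c') :
    Sup M x c' ⊆ Sup M x c := fun _ hi => ⟨hi.1, h.trans hi.2⟩

theorem sup_con (M : Matroid E) (e : E) (x : E → ℝ) (c : ℝ) :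
    Sup (M ／ {e}) x c = Sup (M ＼ {e}) x c := by
  ext i
  simp [Sup]

theorem mem_sup_del {M : Matroid E} {e i : E} {x : E → ℝ} {c : ℝ} :
    i ∈ Sup (M ＼ {e}) x c ↔ i ∈ M.E ∧ i ≠ e ∧ c ≤ x i :=
  ⟨fun h => ⟨h.1.1, h.1.2, h.2⟩, fun h => ⟨⟨h.1, h.2.1⟩, h.2.2⟩⟩

theorem notMem_sup_del (M : Matroid E) (e : E) (x : E → ℝ) (c : ℝ) :
    e ∉ Sup (M ＼ {e}) x c := fun h => (mem_sup_del.1 h).2.1 rfl

theorem sup_of_le {M : Matroid E} {e : E} (he : e ∈ M.E) {x : E → ℝ} {c : ℝ} (h : c ≤ x e) :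
    Sup M x c = insert e (Sup (M ＼ {e}) x c) := by
  ext i
  rw [mem_insert_iff, mem_sup_del]
  constructor
  · intro hi
    by_cases hie : i = e
    · exact Or.inl hie
    · exact Or.inr ⟨hi.1, hie, hi.2⟩
  · rintro (rfl | hi)
    · exact ⟨he, h⟩
    · exact ⟨hi.1, hi.2.2⟩

theorem sup_of_lt {M : Matroid E} {e : E} {x : E → ℝ} {c : ℝ} (h : x e < c) :
    Sup M x c = Sup (M ＼ {e}) x c := by
  ext i
  rw [mem_sup_del]
  constructor
  · intro hi
    refine ⟨hi.1, ?_, hi.2⟩
    rintro rfl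
    exact absurd hi.2 (not_le.2 h)
  · intro hi
    exact ⟨hi.1, hi.2.2⟩

theorem flat_del_iff {M : Matroid E} {e : E} {F : Set E} (heF : e ∉ F) :
    (M ＼ {e}).IsFlat F ↔ M.closure F \ {e} = F := by
  rw [isFlat_iff_closure_eq, delete_closure_eq_of_disjoint _ (disjoint_singleton_right.2 heF)]

theorem flat_con_iff {M : Matroid E} {e : E} {F : Set E} :
    (M ／ {e}).IsFlat F ↔ M.closure (insert e F) \ {e} = F := by
  rw [isFlat_iff_closure_eq, contract_closure_eq, union_singleton]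

theorem flat_iff_del {M : Matroid E} {e : E} {F : Set E} (heF : e ∉ F) :
    M.IsFlat F ↔ (M ＼ {e}).IsFlat F ∧ e ∉ M.closure F := by
  rw [flat_del_iff heF, isFlat_iff_closure_eq]
  constructor
  · intro h
    rw [h]
    exact ⟨sdiff_singleton_eq_self heF, heF⟩
  · rintro ⟨h, h'⟩
    rwa [sdiff_singleton_eq_self h'] at h

theorem flat_insert_iff {M : Matroid E} {e : E} (he : e ∈ M.E) {F : Set E} (heF : e ∉ F) :
    M.IsFlat (insert e F) ↔ (M ／ {e}).IsFlat F := by
  rw [flat_con_iff, isFlat_iff_closure_eq]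
  constructor
  · intro h
    rw [h, insert_sdiff_self_of_notMem heF]
  · intro h
    have h1 : e ∈ M.closure (insert e F) := M.mem_closure_of_mem' (mem_insert _ _) he
    conv_rhs => rw [← h]
    rw [insert_sdiff_singleton, insert_eq_of_mem h1]

theorem flat_del_of_con {M : Matroid E} {e : E} {F : Set E} (heF : e ∉ F)
    (h : (M ／ {e}).IsFlat F) : (M ＼ {e}).IsFlat F := by
  have hF : F ⊆ M.E := fun i hi => by
    have := h.subset_ground hi
    simp only [contract_ground, mem_sdiff] at this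
    exact this.1
  rw [flat_con_iff] at h
  rw [flat_del_iff heF]
  refine Subset.antisymm ?_ fun i hi => ⟨M.subset_closure F hF hi, ?_⟩
  · exact (sdiff_subset_sdiff_left (M.closure_subset_closure (subset_insert e F))).trans h.le
  · rintro rfl
    exact heF hi

theorem flat_con_of_del {M : Matroid E} {e : E} {F : Set E} (heF : e ∉ F)
    (he : e ∈ M.closure F) (h : (M ＼ {e}).IsFlat F) : (M ／ {e}).IsFlat F := by
  rw [flat_con_iff, closure_insert_eq_of_mem_closure he]
  exact (flat_del_iff heF).1 h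

/-- membership, split at the value of the coordinate `e` -/
theorem mem_berg_iff {M : Matroid E} {e : E} (he : e ∈ M.E) {x : E → ℝ} :
    x ∈ Berg M ↔ (∀ c, c ≤ x e → (M ／ {e}).IsFlat (Sup (M ＼ {e}) x c)) ∧
      ∀ c, x e < c → (M ＼ {e}).IsFlat (Sup (M ＼ {e}) x c) ∧
        e ∉ M.closure (Sup (M ＼ {e}) x c) := by
  constructor
  · intro h
    refine ⟨fun c hc => ?_, fun c hc => ?_⟩
    · have := h c
      rwa [sup_of_le he hc, flat_insert_iff he (notMem_sup_del M e x c)] at this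
    · have := h c
      rwa [sup_of_lt hc, flat_iff_del (notMem_sup_del M e x c)] at this
  · rintro ⟨h1, h2⟩ c
    rcases le_or_gt c (x e) with hc | hc
    · rw [sup_of_le he hc, flat_insert_iff he (notMem_sup_del M e x c)]
      exact h1 c hc
    · rw [sup_of_lt hc, flat_iff_del (notMem_sup_del M e x c)]
      exact h2 c hc

theorem berg_subset_del {M : Matroid E} {e : E} (he : e ∈ M.E) : Berg M ⊆ Berg (M ＼ {e}) := by
  intro x hx c
  obtain ⟨h1, h2⟩ := (mem_berg_iff he).1 hx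
  rcases le_or_gt c (x e) with hc | hc
  · exact flat_del_of_con (notMem_sup_del M e x c) (h1 c hc)
  · exact (h2 c hc).1

theorem berg_con_subset_del (M : Matroid E) (e : E) : Berg (M ／ {e}) ⊆ Berg (M ＼ {e}) := by
  intro x hx c
  have := hx c
  rw [sup_con] at this
  exact flat_del_of_con (notMem_sup_del M e x c) this

/-- coloop: the coordinate `e` is free -/
theorem mem_berg_coloop {M : Matroid E} {e : E} (he : M.IsColoop e) {x : E → ℝ} :
    x ∈ Berg M ↔ x ∈ Berg (M ＼ {e}) := by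
  refine ⟨fun h => berg_subset_del he.mem_ground h, fun h => (mem_berg_iff he.mem_ground).2
    ⟨fun c _ => ?_, fun c _ => ⟨h c, fun hc => notMem_sup_del M e x c (he.mem_of_mem_closure hc)⟩⟩⟩
  rw [contract_eq_delete_of_subset_coloops (singleton_subset_iff.2 he)]
  exact h c

/-- only the coordinates in the ground set matter -/
theorem sup_congr {M : Matroid E} {x y : E → ℝ} (h : ∀ i ∈ M.E, x i = y i) (c : ℝ) :
    Sup M x c = Sup M y c := by
  ext i
  exact ⟨fun hi => ⟨hi.1, h i hi.1 ▸ hi.2⟩, fun hi => ⟨hi.1, (h i hi.1).symm ▸ hi.2⟩⟩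

theorem berg_congr {M : Matroid E} {x y : E → ℝ} (h : ∀ i ∈ M.E, x i = y i) :
    x ∈ Berg M ↔ y ∈ Berg M :=
  forall_congr' fun c => by rw [sup_congr h]

theorem fM_congr {M : Matroid E} {e : E} {x y : E → ℝ} (h : ∀ i ∈ M.E, i ≠ e → x i = y i) :
    fM M e x = fM M e y := by
  have : ∀ t, Sup (M ＼ {e}) x t = Sup (M ＼ {e}) y t := fun t =>
    sup_congr (fun i hi => by
      simp only [delete_ground, mem_sdiff, mem_singleton_iff] at hi
      exact h i hi.1 hi.2) t
  simp only [fM, this]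

variable [Finite E]

theorem exists_sup_empty (M : Matroid E) (x : E → ℝ) : ∃ c, Sup M x c = ∅ := by
  obtain ⟨b, hb⟩ := (Set.finite_range x).bddAbove
  refine ⟨b + 1, eq_empty_of_forall_notMem fun i hi => ?_⟩
  have := hb (mem_range_self i)
  have := hi.2
  linarith

theorem exists_sup_ground (M : Matroid E) (x : E → ℝ) : ∃ c, Sup M x c = M.E := by
  obtain ⟨b, hb⟩ := (Set.finite_range x).bddBelow
  exact ⟨b, Subset.antisymm (sup_subset M x b) fun i hi => ⟨hi, hb (mem_range_self i)⟩⟩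

/-- a nonempty superlevel set is a superlevel set at a coordinate -/
theorem sup_eq_coord {M : Matroid E} {x : E → ℝ} {c : ℝ} (h : (Sup M x c).Nonempty) :
    ∃ i ∈ Sup M x c, Sup M x (x i) = Sup M x c := by
  obtain ⟨i, hi, hmin⟩ := Set.exists_min_image (Sup M x c) x (Set.toFinite _) h
  exact ⟨i, hi, Subset.antisymm (sup_anti M x hi.2) fun j hj => ⟨hj.1, hmin j hj⟩⟩

theorem empty_flat_of_mem {M : Matroid E} {x : E → ℝ} (h : x ∈ Berg M) : M.IsFlat ∅ := by
  obtain ⟨c, hc⟩ := exists_sup_empty M x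
  exact hc ▸ h c

/-- a loop makes the Bergman set empty -/
theorem berg_eq_empty {M : Matroid E} {e : E} (he : M.IsLoop e) : Berg M = ∅ :=
  eq_empty_of_forall_notMem fun _ hx => he.mem_of_isFlat (empty_flat_of_mem hx)

theorem isNonloop_of_mem {M : Matroid E} {x : E → ℝ} (h : x ∈ Berg M) {e : E} (he : e ∈ M.E) :
    M.IsNonloop e := by
  rw [← M.not_isLoop_iff he]
  intro hl
  rw [berg_eq_empty hl] at h
  exact h

/-- the Bergman set is closed under coarsening the order of the coordinates -/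
theorem berg_coarsen {M : Matroid E} {x y : E → ℝ} (hx : x ∈ Berg M)
    (h : ∀ i ∈ M.E, ∀ j ∈ M.E, x i ≤ x j → y i ≤ y j) : y ∈ Berg M := by
  intro c
  rcases (Sup M y c).eq_empty_or_nonempty with h0 | h0
  · rw [h0]
    exact empty_flat_of_mem hx
  · obtain ⟨i, hi, hmin⟩ := Set.exists_min_image (Sup M y c) x (Set.toFinite _) h0
    have : Sup M y c = Sup M x (x i) := Subset.antisymm (fun j hj => ⟨hj.1, hmin j hj⟩)
      fun j hj => ⟨hj.1, hi.2.trans (h i hi.1 j hj.1 hj.2)⟩
    rw [this]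
    exact hx _

theorem berg_add_const {M : Matroid E} {x : E → ℝ} (hx : x ∈ Berg M) (a : ℝ) :
    (fun i => x i + a) ∈ Berg M :=
  berg_coarsen hx fun _ _ _ _ h => by linarith

theorem berg_smul {M : Matroid E} {x : E → ℝ} (hx : x ∈ Berg M) {a : ℝ} (ha : 0 ≤ a) :
    a • x ∈ Berg M :=
  berg_coarsen hx fun _ _ _ _ h => by
    simp only [Pi.smul_apply, smul_eq_mul]
    exact mul_le_mul_of_nonneg_left h ha

omit [Finite E] in
/-- for a loopless matroid every vector constant on the ground set lies in the Bergman set -/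
theorem const_mem_berg {M : Matroid E} (h0 : M.IsFlat ∅) {x : E → ℝ}
    (h : ∀ i ∈ M.E, ∀ j ∈ M.E, x i = x j) : x ∈ Berg M := by
  intro c
  rcases (Sup M x c).eq_empty_or_nonempty with h1 | ⟨i, hi⟩
  · rw [h1]
    exact h0
  · have : Sup M x c = M.E := Subset.antisymm (sup_subset M x c)
      fun j hj => ⟨hj, h i hi.1 j hj ▸ hi.2⟩
    rw [this]
    exact M.ground_isFlat

/-- the maximum in the definition of `fM` is attained at a coordinate -/
theorem fM_spec {M : Matroid E} {e : E} (hn : M.IsNonloop e) (hc : ¬ M.IsColoop e) (x : E → ℝ) :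
    (∃ i ∈ M.E, i ≠ e ∧ fM M e x = x i) ∧
      ∀ t, e ∈ M.closure (Sup (M ＼ {e}) x t) ↔ t ≤ fM M e x := by
  have he := hn.mem_ground
  have hne : ∀ t, e ∈ M.closure (Sup (M ＼ {e}) x t) → (Sup (M ＼ {e}) x t).Nonempty := by
    intro t ht
    rw [nonempty_iff_ne_empty]
    intro h0
    rw [h0] at ht
    exact hn.not_isLoop ht
  have hA : {i | i ∈ (M ＼ {e}).E ∧ e ∈ M.closure (Sup (M ＼ {e}) x (x i))}.Nonempty := by
    obtain ⟨c, hc'⟩ := exists_sup_ground (M ＼ {e}) x
    have h1 : e ∈ M.closure (Sup (M ＼ {e}) x c) := by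
      rw [hc', delete_ground]
      rwa [isColoop_iff_notMem_closure_compl he, not_not] at hc
    obtain ⟨i, hi, hi'⟩ := sup_eq_coord (hne c h1)
    exact ⟨i, hi.1, hi' ▸ h1⟩
  obtain ⟨i, hi, hmax⟩ := Set.exists_max_image _ x (Set.toFinite _) hA
  have key : ∀ t, e ∈ M.closure (Sup (M ＼ {e}) x t) ↔ t ≤ x i := by
    intro t
    constructor
    · intro ht
      obtain ⟨j, hj, hj'⟩ := sup_eq_coord (hne t ht)
      exact hj.2.trans (hmax j ⟨hj.1, hj' ▸ ht⟩)
    · intro ht
      exact M.closure_subset_closure (sup_anti _ x ht) hi.2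
  have hf : fM M e x = x i := by
    have : {t | e ∈ M.closure (Sup (M ＼ {e}) x t)} = Iic (x i) := Set.ext key
    rw [fM, this, csSup_Iic]
  have hi1 := hi.1
  simp only [delete_ground, mem_sdiff, mem_singleton_iff] at hi1
  exact ⟨⟨i, hi1.1, hi1.2, hf⟩, fun t => hf ▸ key t⟩

/-- the deletion-contraction dichotomy -/
theorem mem_berg_dichotomy {M : Matroid E} {e : E} (hn : M.IsNonloop e) (hc : ¬ M.IsColoop e)
    {x : E → ℝ} : x ∈ Berg M ↔ x ∈ Berg (M ＼ {e}) ∧
      (x e = fM M e x ∨ (fM M e x < x e ∧ x ∈ Berg (M ／ {e}))) := by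
  have he := hn.mem_ground
  have hf := (fM_spec hn hc x).2
  constructor
  · intro hx
    have hd := berg_subset_del he hx
    obtain ⟨h1, h2⟩ := (mem_berg_iff he).1 hx
    refine ⟨hd, ?_⟩
    have hle : fM M e x ≤ x e := by
      by_contra hlt
      exact (h2 _ (not_le.1 hlt)).2 ((hf _).2 le_rfl)
    rcases hle.eq_or_lt with h | h
    · exact Or.inl h.symm
    refine Or.inr ⟨h, fun c => ?_⟩
    rw [sup_con]
    rcases le_or_gt c (x e) with hce | hce
    · exact h1 c hce
    rw [flat_con_iff]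
    have hF := (flat_del_iff (notMem_sup_del M e x c)).1 (hd c)
    have hG := flat_con_iff.1 (h1 (x e) le_rfl)
    have hsub : Sup (M ＼ {e}) x c ⊆ Sup (M ＼ {e}) x (x e) := sup_anti _ x hce.le
    refine Subset.antisymm (fun y hy => ?_) fun y hy => ⟨?_, ?_⟩
    · by_contra hyF
      have hy1 : y ∉ M.closure (Sup (M ＼ {e}) x c) := fun h' => hyF (hF ▸ ⟨h', hy.2⟩)
      have hy2 := mem_closure_insert hy1 hy.1
      have hy3 : y ∈ Sup (M ＼ {e}) x (x e) :=
        hG ▸ ⟨M.closure_subset_closure (insert_subset_insert hsub) hy.1, hy.2⟩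
      have : e ∈ M.closure (Sup (M ＼ {e}) x (x e)) :=
        M.closure_subset_closure (insert_subset hy3 hsub) hy2
      exact absurd ((hf _).1 this) (not_le.2 h)
    · exact M.mem_closure_of_mem' (mem_insert_of_mem _ hy) (mem_sup_del.1 hy).1
    · exact (mem_sup_del.1 hy).2.1
  · rintro ⟨hd, h | ⟨h, hk⟩⟩
    · refine (mem_berg_iff he).2 ⟨fun c hce => ?_, fun c hce => ⟨hd c, fun h' => ?_⟩⟩
      · exact flat_con_of_del (notMem_sup_del M e x c) ((hf c).2 (h ▸ hce)) (hd c)
      · exact absurd ((hf c).1 h') (not_le.2 (h ▸ hce))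
    · refine (mem_berg_iff he).2 ⟨fun c _ => sup_con M e x c ▸ hk c,
        fun c hce => ⟨hd c, fun h' => ?_⟩⟩
      exact absurd ((hf c).1 h') (not_le.2 (h.trans hce))

/-- `fM` is one coordinate on every closed cone with a fixed order of the coordinates -/
theorem fM_coarsen {M : Matroid E} {e : E} (hn : M.IsNonloop e) (hc : ¬ M.IsColoop e)
    {x y : E → ℝ} (h : ∀ i ∈ M.E, ∀ j ∈ M.E, i ≠ e → j ≠ e → x i ≤ x j → y i ≤ y j)
    {i : E} (hi : i ∈ M.E) (hie : i ≠ e) (hx : fM M e x = x i) : fM M e y = y i := by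
  have fx := (fM_spec hn hc x).2
  have fy := (fM_spec hn hc y).2
  apply le_antisymm
  · by_contra hlt
    have hlt := not_le.1 hlt
    have h1 := (fy _).2 (le_refl (fM M e y))
    have hne : (Sup (M ＼ {e}) y (fM M e y)).Nonempty := by
      rw [nonempty_iff_ne_empty]
      intro h0
      rw [h0] at h1
      exact hn.not_isLoop h1
    obtain ⟨j, hj, hmin⟩ := Set.exists_min_image _ x (Set.toFinite _) hne
    have hj' := mem_sup_del.1 hj
    have h2 : Sup (M ＼ {e}) y (fM M e y) ⊆ Sup (M ＼ {e}) x (x j) := fun k hk =>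
      ⟨hk.1, hmin k hk⟩
    have h3 := (fx _).1 (M.closure_subset_closure h2 h1)
    have h4 := h j hj'.1 i hi hj'.2.1 hie (hx ▸ h3)
    linarith [hj'.2.2]
  · refine (fy _).1 (M.closure_subset_closure ?_ ((fx (x i)).2 hx.ge))
    intro k hk
    have hk' := mem_sup_del.1 hk
    exact mem_sup_del.2 ⟨hk'.1, hk'.2.1, h i hi k hk'.1 hie hk'.2.1 hk'.2.2⟩

theorem fM_add_const {M : Matroid E} {e : E} (hn : M.IsNonloop e) (hc : ¬ M.IsColoop e)
    (x : E → ℝ) (a : ℝ) : fM M e (fun i => x i + a) = fM M e x + a := by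
  obtain ⟨i, hi, hie, hx⟩ := (fM_spec hn hc x).1
  rw [hx]
  exact fM_coarsen (y := fun i => x i + a) hn hc (fun _ _ _ _ _ _ h => by linarith) hi hie hx

omit [Finite E] in
/-- bases of the minors -/
theorem base_del {M : Matroid E} {e : E} (hc : ¬ M.IsColoop e) {B : Set E}
    (hB : M.IsBase B) : ∃ B', (M ＼ {e}).IsBase B' ∧ B'.ncard = B.ncard := by
  rw [isColoop_iff_forall_mem_isBase] at hc
  push Not at hc
  obtain ⟨B', hB', he'⟩ := hc
  refine ⟨B', ?_, hB'.ncard_eq_ncard_of_isBase hB⟩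
  rw [delete_isBase_iff]
  exact hB'.isBasis_ground.isBasis_subset
    (subset_sdiff_singleton hB'.subset_ground he') sdiff_subset

theorem base_con {M : Matroid E} {e : E} (hn : M.IsNonloop e) {B : Set E}
    (hB : M.IsBase B) : ∃ B', (M ／ {e}).IsBase B' ∧ B'.ncard + 1 = B.ncard := by
  obtain ⟨B', hB', he'⟩ := hn.exists_mem_isBase
  refine ⟨B' \ {e}, ?_, ?_⟩
  · rw [hn.indep.contract_isBase_iff, sdiff_union_of_subset (singleton_subset_iff.2 he')]
    exact ⟨hB', disjoint_sdiff_left⟩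
  · rw [ncard_sdiff_singleton_add_one he', hB'.ncard_eq_ncard_of_isBase hB]

theorem base_del_coloop {M : Matroid E} {e : E} (hc : M.IsColoop e) {B : Set E}
    (hB : M.IsBase B) : ∃ B', (M ＼ {e}).IsBase B' ∧ B'.ncard + 1 = B.ncard := by
  rw [← contract_eq_delete_of_subset_coloops (singleton_subset_iff.2 hc)]
  exact base_con hc.isNonloop hB

omit [Finite E] in
theorem empty_flat_del {M : Matroid E} (h0 : M.IsFlat ∅) (e : E) : (M ＼ {e}).IsFlat ∅ :=
  ((flat_iff_del (notMem_empty e)).1 h0).1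

omit [Finite E] in
theorem isNonloop_of_empty_flat {M : Matroid E} (h0 : M.IsFlat ∅) {e : E} (he : e ∈ M.E) :
    M.IsNonloop e := by
  rw [← M.not_isLoop_iff he]
  exact fun hl => hl.mem_of_isFlat h0

/-- a loopless matroid with a nonempty ground set has nonempty bases -/
theorem base_ncard_pos {M : Matroid E} (h0 : M.IsFlat ∅) (hE : M.E.Nonempty) {B : Set E}
    (hB : M.IsBase B) : 0 < B.ncard := by
  obtain ⟨e, he⟩ := hE
  obtain ⟨B', -, h⟩ := base_con (isNonloop_of_empty_flat h0 he) hB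
  omega

/-- rank zero and a nonempty ground set: the Bergman set is empty -/
theorem berg_rank_zero {M : Matroid E} (hE : M.E.Nonempty) {B : Set E} (hB : M.IsBase B)
    (h : B.ncard = 0) : Berg M = ∅ :=
  eq_empty_of_forall_notMem fun _ hx => by
    have := base_ncard_pos (empty_flat_of_mem hx) hE hB
    omega

/-- rank one: the Bergman set consists of vectors constant on the ground set -/
theorem berg_rank_one {M : Matroid E} {B : Set E} (hB : M.IsBase B) (h : B.ncard = 1)
    {x : E → ℝ} (hx : x ∈ Berg M) : ∀ i ∈ M.E, ∀ j ∈ M.E, x i = x j := by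
  have key : ∀ i ∈ M.E, ∀ j ∈ M.E, x i ≤ x j := by
    intro i hi j hj
    have hn := isNonloop_of_mem hx hi
    obtain ⟨B', hB', hiB⟩ := hn.exists_mem_isBase
    have hc : B'.ncard = 1 := (hB'.ncard_eq_ncard_of_isBase hB).trans h
    obtain ⟨a, rfl⟩ := ncard_eq_one.1 hc
    obtain rfl : i = a := hiB
    have h1 : M.closure {i} ⊆ Sup M x (x i) := by
      rw [← (hx (x i)).closure]
      exact M.closure_subset_closure (singleton_subset_iff.2 ⟨hi, le_rfl⟩)
    rw [hB'.closure_eq] at h1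
    exact (h1 hj).2
  exact fun i hi j hj => le_antisymm (key i hi j hj) (key j hj i hi)

omit [Finite E] in
/-- on a cone cut by the form `x i - x j` the order at an interior point passes to all points -/
theorem order_of_sorted {ι : Type*} {s : Finset ι} {v : ι → E → ℝ} {i j : E}
    (hs : (∀ k ∈ s, v k i ≤ v k j) ∨ ∀ k ∈ s, v k j ≤ v k i) {a b : ι → ℝ}
    (ha : ∀ k ∈ s, 0 < a k) (hb : ∀ k ∈ s, 0 ≤ b k)
    (h : (∑ k ∈ s, a k • v k) i ≤ (∑ k ∈ s, a k • v k) j) :
    (∑ k ∈ s, b k • v k) i ≤ (∑ k ∈ s, b k • v k) j := by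
  simp only [Finset.sum_apply, Pi.smul_apply, smul_eq_mul] at h ⊢
  have key : ∀ k ∈ s, v k i ≤ v k j := by
    rcases hs with hs | hs
    · exact hs
    · intro k hk
      by_contra hlt
      exact absurd h (not_le.2 (Finset.sum_lt_sum
        (fun m hm => mul_le_mul_of_nonneg_left (hs m hm) (ha m hm).le)
        ⟨k, hk, mul_lt_mul_of_pos_left (not_le.1 hlt) (ha k hk)⟩))
  exact Finset.sum_le_sum fun k hk => mul_le_mul_of_nonneg_left (key k hk) (hb k hk)

/-- a sorted cone with an interior point in the Bergman set lies in it -/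
theorem berg_cone {M : Matroid E} {ι : Type*} {s : Finset ι} {v : ι → E → ℝ}
    (hs : ∀ i ∈ M.E, ∀ j ∈ M.E, (∀ k ∈ s, v k i ≤ v k j) ∨ ∀ k ∈ s, v k j ≤ v k i) {a b : ι → ℝ}
    (ha : ∀ k ∈ s, 0 < a k) (hb : ∀ k ∈ s, 0 ≤ b k) (h : (∑ k ∈ s, a k • v k) ∈ Berg M) :
    (∑ k ∈ s, b k • v k) ∈ Berg M :=
  berg_coarsen h fun i hi j hj hij => order_of_sorted (hs i hi j hj) ha hb hij

/-- on a sorted cone `fM` is one coordinate -/
theorem fM_cone {M : Matroid E} {e : E} (hn : M.IsNonloop e) (hc : ¬ M.IsColoop e)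
    {ι : Type*} {s : Finset ι} {v : ι → E → ℝ}
    (hs : ∀ i ∈ M.E, ∀ j ∈ M.E, i ≠ e → j ≠ e →
      (∀ k ∈ s, v k i ≤ v k j) ∨ ∀ k ∈ s, v k j ≤ v k i) :
    ∃ i ∈ M.E, i ≠ e ∧ ∀ b : ι → ℝ, (∀ k ∈ s, 0 ≤ b k) →
      fM M e (∑ k ∈ s, b k • v k) = (∑ k ∈ s, b k • v k) i := by
  obtain ⟨i, hi, hie, hx⟩ := (fM_spec hn hc (∑ k ∈ s, (fun _ => (1 : ℝ)) k • v k)).1
  exact ⟨i, hi, hie, fun b hb => fM_coarsen hn hc (fun i' hi' j hj h1 h2 hij =>
    order_of_sorted (hs i' hi' j hj h1 h2) (fun _ _ => one_pos) hb hij) hi hie hx⟩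

omit [Finite E] in
/-- indicator vectors of flats -/
theorem indicator_mem_berg {M : Matroid E} (h0 : M.IsFlat ∅) {F : Set E} (hF : M.IsFlat F) :
    F.indicator (fun _ => (1 : ℝ)) ∈ Berg M := by
  intro c
  rcases le_or_gt c 0 with h | h
  · have : Sup M (F.indicator fun _ => (1 : ℝ)) c = M.E := Subset.antisymm (sup_subset _ _ _)
      fun i hi => ⟨hi, h.trans (indicator_nonneg (fun _ _ => zero_le_one) i)⟩
    rw [this]
    exact M.ground_isFlat
  rcases le_or_gt c 1 with h1 | h1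
  · have : Sup M (F.indicator fun _ => (1 : ℝ)) c = F := by
      ext i
      by_cases hi : i ∈ F
      · exact ⟨fun _ => hi, fun _ => ⟨hF.subset_ground hi, by rwa [indicator_of_mem hi]⟩⟩
      · refine ⟨fun h' => ?_, fun h' => absurd h' hi⟩
        have := h'.2
        rw [indicator_of_notMem hi] at this
        linarith
    rwa [this]
  · have : Sup M (F.indicator fun _ => (1 : ℝ)) c = ∅ := by
      refine eq_empty_of_forall_notMem fun i h' => ?_
      have := h'.2
      by_cases hi : i ∈ F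
      · rw [indicator_of_mem hi] at this
        linarith
      · rw [indicator_of_notMem hi] at this
        linarith
    rwa [this]

end Pool.Agent.MP_e9c0f3_ag.KH.Mat
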