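import Pool.Agent.Lib.MP_e9c0f3_ag.KH.K8A
import Pool.Agent.Lib.MP_e9c0f3_ag.KH.Mat

/-! Deletion and contraction: properties of all fans supported on a Bergman set. -/

open scoped Classical
open Matroid Pool.Agent.MP_e9c0f3_ag.KH.Mat

noncomputable section

namespace KH.K8

/-- outside the Bergman set of the contraction, `fM` is one coordinate on all refinements -/
theorem fM_local {E : Type} [Finite E] {M : Matroid E} {e : E} (hn : M.IsNonloop e)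
    (hc : ¬ M.IsColoop e) {x : E → ℝ} (hx : x ∈ Berg (M ＼ {e})) (hx' : x ∉ Berg (M ／ {e})) :
    ∃ i ∈ M.E, i ≠ e ∧ ∀ y ∈ Berg (M ＼ {e}),
      (∀ j ∈ M.E, ∀ k ∈ M.E, j ≠ e → k ≠ e → y j ≤ y k → x j ≤ x k) → fM M e y = y i := by
  obtain ⟨c, hF⟩ := not_forall.1 hx'
  rw [sup_con, flat_con_iff] at hF
  have hD := (flat_del_iff (notMem_sup_del M e x c)).1 (hx c)
  have hex : ∃ i ∈ M.closure (insert e (Pool.Agent.MP_e9c0f3_ag.KH.Mat.Sup (M ＼ {e}) x c)) \ {e}, i ∉ Pool.Agent.MP_e9c0f3_ag.KH.Mat.Sup (M ＼ {e}) x c := by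
    by_contra hno
    push Not at hno
    exact hF (Set.Subset.antisymm hno fun y hy => ⟨M.mem_closure_of_mem'
      (Set.mem_insert_of_mem _ hy) (mem_sup_del.1 hy).1, (mem_sup_del.1 hy).2.1⟩)
  obtain ⟨i, ⟨hi1, hi2⟩, hi3⟩ := hex
  have hiE : i ∈ M.E := M.closure_subset_ground _ hi1
  have hi4 : i ∉ M.closure (Pool.Agent.MP_e9c0f3_ag.KH.Mat.Sup (M ＼ {e}) x c) := fun k => hi3 (hD ▸ ⟨k, hi2⟩)
  have he := mem_closure_insert hi4 hi1
  refine ⟨i, hiE, hi2, fun y hy hr => ?_⟩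
  have fy := (fM_spec hn hc y).2
  have lt : ∀ j ∈ Pool.Agent.MP_e9c0f3_ag.KH.Mat.Sup (M ＼ {e}) x c, y i < y j := fun j hj => by
    obtain ⟨j1, j2, j3⟩ := mem_sup_del.1 hj
    by_contra hle
    exact hi3 (mem_sup_del.2 ⟨hiE, hi2, j3.trans (hr j j1 i hiE j2 hi2 (not_lt.1 hle))⟩)
  refine le_antisymm ?_ ((fy _).1 (M.closure_subset_closure ?_ he))
  · by_contra hlt
    have ev : ∀ᶠ t in nhds (y i), t < fM M e y ∧ ∀ j ∈ Pool.Agent.MP_e9c0f3_ag.KH.Mat.Sup (M ＼ {e}) x c, t < y j :=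
      (eventually_lt_nhds (not_le.1 hlt)).and
        ((Filter.eventually_all_finite (Set.toFinite _)).2 fun j hj => eventually_lt_nhds (lt j hj))
    obtain ⟨t, ⟨t1, t2⟩, t3⟩ :=
      ((ev.filter_mono (nhdsWithin_le_nhds (s := Set.Ioi (y i)))).and self_mem_nhdsWithin).exists
    have t4 : insert e (Pool.Agent.MP_e9c0f3_ag.KH.Mat.Sup (M ＼ {e}) x c) ⊆ M.closure (Pool.Agent.MP_e9c0f3_ag.KH.Mat.Sup (M ＼ {e}) y t) :=
      Set.insert_subset ((fy t).2 t1.le) fun j hj =>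
        M.mem_closure_of_mem' ⟨hj.1, (t2 j hj).le⟩ (mem_sup_del.1 hj).1
    have t5 : i ∈ Pool.Agent.MP_e9c0f3_ag.KH.Mat.Sup (M ＼ {e}) y t :=
      (flat_del_iff (notMem_sup_del M e y t)).1 (hy t) ▸
        ⟨M.closure_subset_closure_of_subset_closure t4 hi1, hi2⟩
    exact absurd t5.2 (not_le.2 t3)
  · refine Set.insert_subset (mem_sup_del.2 ⟨hiE, hi2, le_rfl⟩) fun j hj => ⟨hj.1, (lt j hj).le⟩

variable {N : Type} [AddCommGroup N] [Module ℝ N] {La : Du N}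
  {De D T : Finset (Finset N)} {s t : Finset N} {x y : N} {m : Module.Dual ℝ N}

/-- points of the relative interior of a cone -/
def Inn (La : Du N) (s : Finset N) (y : N) : Prop :=
  ∃ a : N → ℝ, (∀ v ∈ s, 0 < a v) ∧ ∀ m ∈ La, m y = ∑ v ∈ s, a v * m v

theorem inn_sum : Inn La s (∑ v ∈ s, v) :=
  ⟨fun _ => 1, fun _ _ => one_pos, fun m _ => by simp⟩

theorem sum_mem_cone : (∑ v ∈ s, v) ∈ cone La s :=
  ⟨fun _ => 1, fun _ => zero_le_one, fun m _ => by simp⟩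

theorem exists_inn (hx : x ∈ cone La s) : ∃ t ⊆ s, Inn La t x ∧ x ∈ cone La t :=
  let ⟨t, ht, c, h1, h2, h3⟩ := exists_carrier hx
  ⟨t, ht, ⟨c, h1, h3⟩, c, h2, h3⟩

theorem sign_pass (hs : (∀ v ∈ s, 0 ≤ m v) ∨ ∀ v ∈ s, m v ≤ 0) (hm : m ∈ La) (hy : Inn La s y)
    (hx : x ∈ cone La s) (h : m y ≤ 0) : m x ≤ 0 := by
  obtain ⟨a, ha, ey⟩ := hy
  obtain ⟨c, hc, ex⟩ := hx
  rw [ey m hm] at h
  rw [ex m hm]
  refine Finset.sum_nonpos fun v hv => mul_nonpos_of_nonneg_of_nonpos (hc v) ?_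
  rcases hs with hs | hs
  · by_contra hlt
    exact absurd h (not_le.2 (Finset.sum_pos' (fun u hu => mul_nonneg (ha u hu).le (hs u hu))
      ⟨v, hv, mul_pos (ha v hv) (not_le.1 hlt)⟩))
  · exact hs v hv

variable {E : Type} {φ : N →ₗ[ℝ] E → ℝ} {S : Set E} {M : Matroid E} {e i j : E} {δ : N}

/-- the difference of two coordinates -/
def dd (φ : N →ₗ[ℝ] E → ℝ) (i j : E) : Module.Dual ℝ N :=
  LinearMap.proj i ∘ₗ φ - LinearMap.proj j ∘ₗ φ

@[simp] theorem dd_apply (x : N) : dd φ i j x = φ x i - φ x j := rfl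

/-- the span of the differences of the coordinates in `S` -/
def LaS (φ : N →ₗ[ℝ] E → ℝ) (S : Set E) : Du N :=
  Submodule.span ℝ {m | ∃ i ∈ S, ∃ j ∈ S, m = dd φ i j}

theorem dd_mem (hi : i ∈ S) (hj : j ∈ S) : dd φ i j ∈ LaS φ S :=
  Submodule.subset_span ⟨i, hi, j, hj, rfl⟩

/-- the coordinates in `S` are independent up to a constant -/
def Sep (φ : N →ₗ[ℝ] E → ℝ) (S : Set E) : Prop :=
  ∀ e ∈ S, ∃ δ : N, ∀ i ∈ S, i ≠ e → dd φ e i δ = 1

theorem Sep.mono {S' : Set E} (h : Sep φ S) (hS : S' ⊆ S) : Sep φ S' := fun e he =>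
  let ⟨δ, k⟩ := h e (hS he)
  ⟨δ, fun i hi => k i (hS hi)⟩

theorem res_LaS (hi : i ∈ S) (hie : i ≠ e) (hδ : ∀ j ∈ S, j ≠ e → dd φ e j δ = 1) :
    res (LaS φ S) {δ} = LaS φ (S \ {e}) := by
  have z : ∀ j ∈ S, j ≠ e → ∀ k ∈ S, k ≠ e → dd φ j k δ = 0 := fun j hj hje k hk hke => by
    have h1 := hδ j hj hje
    have h2 := hδ k hk hke
    simp only [dd_apply] at h1 h2 ⊢
    linarith
  have key : ∀ m ∈ LaS φ S, m - m δ • dd φ e i ∈ LaS φ (S \ {e}) := by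
    intro m hm
    induction hm using Submodule.span_induction with
    | mem m hm =>
      obtain ⟨j, hj, k, hk, rfl⟩ := hm
      by_cases hje : j = e <;> by_cases hke : k = e
      · rw [hje, hke]
        convert (LaS φ (S \ {e})).zero_mem using 1
        ext x
        simp
      · rw [hje, hδ k hk hke]
        convert dd_mem (φ := φ) (S := S \ {e}) (i := i) (j := k) ⟨hi, hie⟩ ⟨hk, hke⟩ using 1
        ext x
        simp
      · have h1 := hδ j hj hje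
        have h2 : dd φ j e δ = -1 := by
          simp only [dd_apply] at h1 ⊢
          linarith
        rw [hke, h2]
        convert dd_mem (φ := φ) (S := S \ {e}) (i := j) (j := i) ⟨hj, hje⟩ ⟨hi, hie⟩ using 1
        ext x
        simp
      · rw [z j hj hje k hk hke, zero_smul, sub_zero]
        exact dd_mem ⟨hj, hje⟩ ⟨hk, hke⟩
    | zero => simp
    | add a b _ _ ha hb =>
      convert (LaS φ (S \ {e})).add_mem ha hb using 1
      rw [LinearMap.add_apply, add_smul]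
      abel
    | smul c a _ ha =>
      convert (LaS φ (S \ {e})).smul_mem c ha using 1
      rw [LinearMap.smul_apply, smul_sub, smul_eq_mul, mul_smul]
  refine le_antisymm (fun m hm => ?_) (Submodule.span_le.2 ?_)
  · obtain ⟨h1, h2⟩ := mem_res_one.1 hm
    simpa [h2] using key m h1
  · rintro m ⟨j, hj, k, hk, rfl⟩
    exact mem_res_one.2 ⟨dd_mem hj.1 hk.1, z j hj.1 hj.2 k hk.1 hk.2⟩

/-- on every face the coordinates in `S` have a fixed order -/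
def Sorted (φ : N →ₗ[ℝ] E → ℝ) (S : Set E) (T : Finset (Finset N)) : Prop :=
  ∀ i ∈ S, ∀ j ∈ S, K7.OneSign T (dd φ i j)

theorem Sorted.pass (h : Sorted φ S T) (hs : s ∈ T) (hy : Inn (LaS φ S) s y)
    (hx : x ∈ cone (LaS φ S) s) (hi : i ∈ S) (hj : j ∈ S) (k : φ y i ≤ φ y j) :
    φ x i ≤ φ x j :=
  sub_nonpos.1 (sign_pass (h i hi j hj s hs) (dd_mem hi hj) hy hx (sub_nonpos.2 k))

variable [Finite E]

theorem exists_sorted (hT : Fan (LaS φ S) T) :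
    ∃ T', Fan (LaS φ S) T' ∧ supp (LaS φ S) T' = supp (LaS φ S) T ∧ Sorted φ S T' := by
  obtain ⟨T', h1, h2, -, h3⟩ := K7.cut_all (P := fun _ => True) (fun _ _ _ _ _ _ => Iff.rfl) hT
    ((Set.toFinite (S ×ˢ S)).toFinset.image fun p => dd φ p.1 p.2) fun m hm => by
      obtain ⟨p, hp, rfl⟩ := Finset.mem_image.1 hm
      rw [Set.Finite.mem_toFinset] at hp
      exact dd_mem hp.1 hp.2
  exact ⟨T', h1, h2, fun i hi j hj => h3 _ (Finset.mem_image.2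
    ⟨(i, j), (Set.Finite.mem_toFinset _).2 ⟨hi, hj⟩, rfl⟩)⟩

theorem Sorted.berg (h : Sorted φ M.E T) (hs : s ∈ T) (hy : Inn (LaS φ M.E) s y)
    (hx : x ∈ cone (LaS φ M.E) s) (k : φ y ∈ Berg M) : φ x ∈ Berg M :=
  berg_coarsen k fun _ hi _ hj => h.pass hs hy hx hi hj

theorem Sorted.fM_pass (hn : M.IsNonloop e) (hc : ¬ M.IsColoop e) (h : Sorted φ (M.E \ {e}) T)
    (hs : s ∈ T) (hy : Inn (LaS φ (M.E \ {e})) s y) (hx : x ∈ cone (LaS φ (M.E \ {e})) s)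
    (hi : i ∈ M.E) (hie : i ≠ e) (k : fM M e (φ y) = φ y i) : fM M e (φ x) = φ x i :=
  fM_coarsen hn hc (fun _ hj _ hk h1 h2 => h.pass hs hy hx ⟨hj, h1⟩ ⟨hk, h2⟩) hi hie k

/-- a sorted fan whose vertices lie on the graph of `fM` -/
theorem exists_graph (hn : M.IsNonloop e) (hc : ¬ M.IsColoop e)
    (hδ : ∀ j ∈ M.E, j ≠ e → dd φ e j δ = 1) (hk : ∀ m ∈ LaS φ (M.E \ {e}), m δ = 0)
    (hT : Fan (LaS φ (M.E \ {e})) T) :
    ∃ T', Fan (LaS φ (M.E \ {e})) T' ∧ supp (LaS φ (M.E \ {e})) T' = supp (LaS φ (M.E \ {e})) T ∧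
      Sorted φ (M.E \ {e}) T' ∧ ∀ v ∈ verts T', φ v e = fM M e (φ v) := by
  obtain ⟨T', h1, h2, h3⟩ := exists_sorted hT
  have hg : ∀ v, ∀ m ∈ LaS φ (M.E \ {e}), m (v + (fM M e (φ v) - φ v e) • δ) = m v :=
    fun v m hm => by rw [map_add, map_smul, hk m hm, smul_zero, add_zero]
  obtain ⟨h4, h5⟩ := fan_map h1 (fun v => v + (fM M e (φ v) - φ v e) • δ) hg
  refine ⟨_, h4, h5.trans h2, fun i hi j hj t0 ht0 => ?_, fun v0 hv0 => ?_⟩
  · obtain ⟨t, ht, rfl⟩ := Finset.mem_image.1 ht0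
    refine (h3 i hi j hj t ht).imp (fun k v0 hv0 => ?_) fun k v0 hv0 => ?_
    · obtain ⟨v, hv, rfl⟩ := Finset.mem_image.1 hv0
      rw [hg v _ (dd_mem hi hj)]
      exact k v hv
    · obtain ⟨v, hv, rfl⟩ := Finset.mem_image.1 hv0
      rw [hg v _ (dd_mem hi hj)]
      exact k v hv
  · obtain ⟨s0, hs0, hv1⟩ := mem_verts.1 hv0
    obtain ⟨s, -, rfl⟩ := Finset.mem_image.1 hs0
    obtain ⟨v, -, rfl⟩ := Finset.mem_image.1 hv1
    obtain ⟨i, hi, hie, k⟩ := (fM_spec hn hc (φ v)).1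
    have k2 := fM_coarsen (y := φ (v + (fM M e (φ v) - φ v e) • δ)) hn hc
      (fun j hj l hl j1 l1 p => by
        have := hg v _ (dd_mem (S := M.E \ {e}) (i := j) (j := l) ⟨hj, j1⟩ ⟨hl, l1⟩)
        simp only [dd_apply] at this
        linarith) hi hie k
    have k3 := hδ i hi hie
    rw [k2, k]
    simp only [dd_apply] at k3
    simp only [map_add, map_smul, Pi.add_apply, Pi.smul_apply, smul_eq_mul]
    linear_combination (φ v i - φ v e) * k3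

/-- the modification step on Bergman sets -/
theorem modif_data (hn : M.IsNonloop e) (hc : ¬ M.IsColoop e) (hi : i ∈ M.E) (hie : i ≠ e)
    (hδ : ∀ j ∈ M.E, j ≠ e → dd φ e j δ = 1) (hT : Fan (LaS φ (M.E \ {e})) T)
    (hs : supp (LaS φ (M.E \ {e})) T = φ ⁻¹' Berg (M ＼ {e})) (ho : Sorted φ (M.E \ {e}) T)
    (hg : ∀ v ∈ verts T, φ v e = fM M e (φ v)) :
    ∃ D ⊆ T, (∀ t ∈ D, ∀ s ⊆ t, s ∈ D) ∧ supp (LaS φ (M.E \ {e})) D = φ ⁻¹' Berg (M ／ {e}) ∧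
      (∀ t ∈ T, t ∉ D → ∃ k ∈ LaS φ M.E, k δ = 1 ∧ ∀ u ∈ T, t ⊆ u → ∀ v ∈ u, k v = 0) ∧
      supp (LaS φ M.E) (modif T D δ) = φ ⁻¹' Berg M := by
  have hr := res_LaS hi hie hδ
  have he := hn.mem_ground
  have ho' : Sorted φ (M ／ {e}).E T := ho
  have inT : ∀ s ∈ T, ∀ x ∈ cone (LaS φ (M.E \ {e})) s, φ x ∈ Berg (M ＼ {e}) := fun s h x hx =>
    (show x ∈ φ ⁻¹' Berg (M ＼ {e}) from hs ▸ ⟨s, h, hx⟩)
  set D := T.filter fun s => φ (∑ v ∈ s, v) ∈ Berg (M ／ {e}) with hD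
  have inD : ∀ s ∈ D, ∀ x ∈ cone (LaS φ (M.E \ {e})) s, φ x ∈ Berg (M ／ {e}) := fun s h x hx =>
    ho'.berg (Finset.mem_filter.1 h).1 inn_sum hx (Finset.mem_filter.1 h).2
  have car : ∀ x, φ x ∈ Berg (M ＼ {e}) → ∃ s ∈ T, x ∈ cone (LaS φ (M.E \ {e})) s ∧
      (φ x ∈ Berg (M ／ {e}) → s ∈ D) := fun x hx => by
    obtain ⟨s, h1, h2⟩ : x ∈ supp (LaS φ (M.E \ {e})) T := hs ▸ hx
    obtain ⟨t, h3, h4, h5⟩ := exists_inn h2
    have h6 := hT.down s h1 t h3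
    exact ⟨t, h6, h5, fun k => Finset.mem_filter.2 ⟨h6, ho'.berg h6 h4 sum_mem_cone k⟩⟩
  have lin : ∀ s ∈ T, ∃ k ∈ LaS φ M.E, k δ = 1 ∧ (∀ v ∈ s, k v = 0) ∧
      ∀ x ∈ cone (LaS φ (M.E \ {e})) s, k x = φ x e - fM M e (φ x) := fun s h => by
    obtain ⟨j, hj, hje, k⟩ := (fM_spec hn hc (φ (∑ v ∈ s, v))).1
    have k2 := fun x hx => ho.fM_pass hn hc (x := x) h inn_sum hx hj hje k
    refine ⟨dd φ e j, dd_mem he hj, hδ j hj hje, fun v hv => ?_, fun x hx => ?_⟩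
    · rw [dd_apply, hg v (mem_verts.2 ⟨s, h, hv⟩), k2 v (mem_cone_self hv), sub_self]
    · rw [dd_apply, k2 x hx]
  have fr : ∀ s ∈ T, δ ∉ s := fun s h k => fresh (hr ▸ hT) (mem_verts.2 ⟨s, h, k⟩)
  refine ⟨D, Finset.filter_subset _ _, fun t ht s hst => ?_, ?_, fun t ht ht' => ?_, ?_⟩
  · exact Finset.mem_filter.2 ⟨hT.down t (Finset.mem_filter.1 ht).1 s hst,
      inD t ht _ (cone_mono hst sum_mem_cone)⟩
  · refine Set.Subset.antisymm (fun x ⟨s, h1, h2⟩ => inD s h1 x h2) fun x hx => ?_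
    obtain ⟨s, -, h2, h3⟩ := car x (berg_con_subset_del M e hx)
    exact ⟨s, h3 hx, h2⟩
  · obtain ⟨j, hj, hje, k⟩ := fM_local hn hc (inT t ht _ sum_mem_cone)
      fun k => ht' (Finset.mem_filter.2 ⟨ht, k⟩)
    refine ⟨dd φ e j, dd_mem he hj, hδ j hj hje, fun u hu htu v hv => ?_⟩
    have k2 := k _ (inT u hu _ sum_mem_cone) fun a ha b hb a1 b1 =>
      ho.pass hu inn_sum (cone_mono htu sum_mem_cone) ⟨ha, a1⟩ ⟨hb, b1⟩
    rw [dd_apply, hg v (mem_verts.2 ⟨u, hu, hv⟩),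
      ho.fM_pass hn hc hu inn_sum (mem_cone_self hv) hj hje k2, sub_self]
  · refine Set.Subset.antisymm ?_ fun x hx => ?_
    · rintro x ⟨s, h1, h2⟩
      refine (mem_berg_dichotomy hn hc).2 ?_
      rcases mem_modif.1 h1 with h | ⟨t, h, rfl⟩
      · obtain ⟨k, k1, k2, k3, k4⟩ := lin s h
        obtain ⟨a1, a2⟩ := (mem_cone_graph k1 k2 k3).1 h2
        rw [hr] at a1
        exact ⟨inT s h x a1, Or.inl (by linarith [k4 x a1])⟩
      · have h' := (Finset.mem_filter.1 h).1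
        obtain ⟨k, k1, k2, k3, k4⟩ := lin t h'
        obtain ⟨a1, a2⟩ := (mem_cone_ins (fr t h') k1 k2 k3).1 h2
        rw [hr] at a1
        refine ⟨inT t h' x a1, ?_⟩
        rcases a2.eq_or_lt with p | p
        · exact Or.inl (by linarith [k4 x a1])
        · exact Or.inr ⟨by linarith [k4 x a1], inD t h x a1⟩
    · obtain ⟨h1, h2⟩ := (mem_berg_dichotomy hn hc).1 hx
      obtain ⟨s, a1, a2, a3⟩ := car x h1
      obtain ⟨k, k1, k2, k3, k4⟩ := lin s a1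
      rcases h2 with p | ⟨p, q⟩
      · exact ⟨s, mem_modif.2 (Or.inl a1), (mem_cone_graph k1 k2 k3).2
          ⟨hr ▸ a2, by linarith [k4 x a2]⟩⟩
      · exact ⟨_, mem_modif.2 (Or.inr ⟨s, a3 q, rfl⟩), (mem_cone_ins (fr s a1) k1 k2 k3).2
          ⟨hr ▸ a2, by linarith [k4 x a2]⟩⟩

/-- the closure properties used by the deletion-contraction induction -/
structure Steps (P : Du N → Finset (Finset N) → Prop) : Prop where
  empty : ∀ La, P La ∅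
  pt : P ⊥ {∅}
  star : ∀ La, StarInv La (P La)
  susp : ∀ La T e, (∃ n ∈ La, n e = 1) → Fan (res La {e}) T → P (res La {e}) T →
    P La (susp T e (-e))
  modif : ∀ La T D e, (∃ n ∈ La, n e = 1) → Fan (res La {e}) T → D ⊆ T →
    (∀ t ∈ D, ∀ s ⊆ t, s ∈ D) →
    (∀ t ∈ T, t ∉ D → ∃ k ∈ La, k e = 1 ∧ ∀ u ∈ T, t ⊆ u → ∀ v ∈ u, k v = 0) →
    P (res La {e}) T → P (res La {e}) D → P La (modif T D e)

variable {P : Du N → Finset (Finset N) → Prop}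

theorem Steps.exists_fan (h : Steps P) (n : ℕ) : ∀ M : Matroid E, M.E.ncard = n → Sep φ M.E →
    ∃ De, Fan (LaS φ M.E) De ∧ supp (LaS φ M.E) De = φ ⁻¹' Berg M ∧ P (LaS φ M.E) De := by
  induction n using Nat.strong_induction_on with
  | _ n ih =>
  intro M hM hS
  by_cases h0 : M.IsFlat ∅
  swap
  · refine ⟨∅, ⟨by simp, by simp, fun _ => 0, fun t ht => by simp at ht⟩, ?_, h.empty _⟩
    ext x
    exact ⟨fun ⟨s, hs, _⟩ => by simp at hs, fun hx => absurd (empty_flat_of_mem hx) h0⟩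
  by_cases h1 : ∃ e ∈ M.E, ∃ i ∈ M.E, i ≠ e
  swap
  · push Not at h1
    have hb : LaS φ M.E = ⊥ := by
      rw [LaS, Submodule.span_eq_bot]
      rintro m ⟨i, hi, j, hj, rfl⟩
      rw [h1 i hi j hj, dd, sub_self]
    rw [hb]
    refine ⟨{∅}, ⟨by simp, by simpa using onto_empty, fun _ => 0, fun t ht => ⟨0, by simp, ?_, ?_⟩⟩,
      ?_, h.pt⟩
    · simp
    · simp [verts]
    · ext x
      refine ⟨fun _ => const_mem_berg h0 fun i hi j hj => by rw [h1 i hi j hj],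
        fun _ => ⟨∅, by simp, fun _ => 0, fun _ => le_rfl, fun m hm => ?_⟩⟩
      simp [(Submodule.mem_bot ℝ).1 hm]
  obtain ⟨e, he, i, hi, hie⟩ := h1
  obtain ⟨δ, hδ⟩ := hS e he
  have hr := res_LaS hi hie hδ
  have hn := isNonloop_of_empty_flat h0 he
  have lt : (M.E \ {e}).ncard < n := hM ▸ Set.ncard_sdiff_singleton_lt_of_mem he
  have ex : ∃ n ∈ LaS φ M.E, n δ = 1 := ⟨_, dd_mem he hi, hδ i hi hie⟩
  obtain ⟨T, t1, t2, t3⟩ := ih _ lt (M ＼ {e}) rfl (hS.mono Set.sdiff_subset)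
  rw [delete_ground] at t1 t2 t3
  by_cases hc : M.IsColoop e
  · rw [← hr] at t1 t2 t3
    refine ⟨_, fan_susp t1 (dd_mem he hi) (hδ i hi hie), ?_, h.susp _ T δ ex t1 t3⟩
    rw [supp_susp t1 (dd_mem he hi) (hδ i hi hie), t2]
    ext x
    exact (mem_berg_coloop hc).symm
  obtain ⟨T', u1, u2, u3, u4⟩ := exists_graph hn hc hδ
    (fun m hm => (mem_res_one.1 (hr ▸ hm)).2) t1
  obtain ⟨D, d1, d2, d3, d4, d5⟩ := modif_data hn hc hi hie hδ u1 (u2.trans t2) u3 u4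
  obtain ⟨D', c1, c2, c3⟩ := ih _ lt (M ／ {e}) rfl (hS.mono Set.sdiff_subset)
  rw [contract_ground] at c1 c2 c3
  have p1 := (inv_supp (h.star _) u1 t1 u2).2 t3
  have p2 := (inv_supp (h.star _) (fan_sub u1 d1 d2) c1 (d3.trans c2.symm)).2 c3
  rw [← hr] at u1 p1 p2
  exact ⟨_, fan_modif u1 (dd_mem he hi) (hδ i hi hie) d1 d2, d5,
    h.modif _ T' D δ ex u1 d1 d2 d4 p1 p2⟩

/-- every projective simplicial fan on a Bergman set has the property -/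
theorem Steps.main (h : Steps P) (hS : Sep φ M.E) (hF : Fan (LaS φ M.E) De)
    (hs : supp (LaS φ M.E) De = φ ⁻¹' Berg M) : P (LaS φ M.E) De := by
  obtain ⟨T, h1, h2, h3⟩ := h.exists_fan _ M rfl hS
  exact (inv_supp (h.star _) hF h1 (hs.trans h2.symm)).2 h3

end KH.K8
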