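import Pool.Agent.Lib.MP_e9c0f3_ag.KH.Ind
import Pool.Agent.Lib.MP_e9c0f3_ag.KH.K6
import Pool.Agent.Lib.MP_e9c0f3_ag.KH.K8B

/-! Fans whose support is the Bergman fan of a matroid. -/

open scoped Classical

noncomputable section

namespace KH

variable {N : Type} [AddCommGroup N] [Module ℝ N] {La : Du N} {De : Finset (Finset N)}
  {Q : Du N → Finset (Finset N) → Prop}

theorem Sys.starInv (S : Sys Q) : StarInv La (All Q La) := by
  refine starInv_of_small fun De z w a hz hF h => ?_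
  have := h.ne.card_pos
  rcases (by omega : z.card = 1 ∨ z.card = 2) with h1 | h2
  · obtain ⟨v, rfl⟩ := Finset.card_eq_one.1 h1
    exact S.all_ren hF h
  · obtain ⟨e, e', hne, rfl⟩ := Finset.card_eq_two.1 h2
    exact S.all_edge hF hne h

theorem Sys.steps (S : Sys Q) : K8.Steps (All Q) where
  empty _ t ht := absurd ht (Finset.notMem_empty t)
  pt := S.all_pt
  star _ := S.starInv
  susp _ _ _ he hF h := S.all_susp hF he one_pos (fun m _ => by simp) h
  modif _ _ _ _ he hF hs hd hl h1 h2 := S.all_modif hF hs hd he hl h1 h2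

theorem Fan.mono {L : Du N} (hF : Fan L De) (h : L ≤ La) : Fan La De := by
  obtain ⟨l, hl⟩ := hF.proj
  refine ⟨hF.down, fun t ht f => ?_, l, fun t ht => ?_⟩
  · obtain ⟨m, hm, k⟩ := hF.onto t ht f
    exact ⟨m, h hm, k⟩
  · obtain ⟨m, hm, k⟩ := hl t ht
    exact ⟨m, h hm, k⟩

/-- more forms, with the same values on the vertices, keep the property -/
theorem Sys.all_mono [FiniteDimensional ℝ N] (S : Sys Q) {L : Du N} (hF : Fan L De)
    (hQ : All Q L De) (n : ℕ) : ∀ La : Du N, Module.finrank ℝ La = n → L ≤ La →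
    (∀ m ∈ La, ∃ m' ∈ L, ∀ v ∈ verts De, m' v = m v) → All Q La De := by
  induction n using Nat.strong_induction_on with
  | _ n ih =>
  intro La hn h hp
  rcases h.eq_or_lt with rfl | hlt
  · exact hQ
  obtain ⟨k, hk, hk', hv⟩ : ∃ k ∈ La, k ∉ L ∧ ∀ v ∈ verts De, k v = 0 := by
    obtain ⟨k, hk, hk'⟩ := SetLike.exists_of_lt hlt
    obtain ⟨m, hm, a⟩ := hp k hk
    refine ⟨k - m, La.sub_mem hk (h hm), fun p => hk' ?_, fun v hv => by simp [a v hv]⟩
    simpa using L.add_mem p hm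
  rw [← Subspace.dualCoannihilator_dualAnnihilator_eq (W := L), Submodule.mem_dualAnnihilator] at hk'
  push Not at hk'
  obtain ⟨x, hx, hx'⟩ := hk'
  rw [Submodule.mem_dualCoannihilator] at hx
  have h1 : k ((k x)⁻¹ • x) = 1 := by rw [map_smul, smul_eq_mul, inv_mul_cancel₀ hx']
  have h2 : L ≤ res La {(k x)⁻¹ • x} := fun m hm =>
    K8.mem_res_one.2 ⟨h hm, by rw [map_smul, hx m hm, smul_zero]⟩
  have h3 : res La {(k x)⁻¹ • x} < La := lt_of_le_of_ne inf_le_left fun e => by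
    have := (K8.mem_res_one.1 (e.symm ▸ hk : k ∈ res La {(k x)⁻¹ • x})).2
    rw [h1] at this
    exact one_ne_zero this
  have h4 := S.all_modif (D := ∅) (hF.mono h2) (Finset.empty_subset _)
    (fun t ht => absurd ht (Finset.notMem_empty t)) ⟨k, hk, h1⟩
    (fun _ _ _ => ⟨k, hk, h1, fun u hu _ v p => hv v (mem_verts.2 ⟨u, hu, p⟩)⟩)
    (ih _ (hn ▸ Submodule.finrank_lt_finrank_of_lt h3) _ rfl h2 fun m hm => hp m (res_le hm))
    fun t ht => absurd ht (Finset.notMem_empty t)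
  rwa [KH.modif, Finset.image_empty, Finset.union_empty] at h4

theorem exists_pull {V : Type} [AddCommGroup V] [Module ℝ V] [FiniteDimensional ℝ V] (L : Du N)
    (A : V →ₗ[ℝ] N) (f : Module.Dual ℝ V) (h : ∀ x, (∀ m ∈ L, m (A x) = 0) → f x = 0) :
    ∃ m ∈ L, ∀ x, m (A x) = f x := by
  have k : f ∈ L.map A.dualMap := by
    rw [← Subspace.dualCoannihilator_dualAnnihilator_eq (W := L.map A.dualMap),
      Submodule.mem_dualAnnihilator]
    intro x hx
    rw [Submodule.mem_dualCoannihilator] at hx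
    exact h x fun m hm => hx _ (Submodule.mem_map_of_mem hm)
  obtain ⟨m, hm, rfl⟩ := k
  exact ⟨m, hm, fun _ => rfl⟩

/-- `Q` holds for all links of a projective simplicial fan whose support is a Bergman fan. -/
theorem Sys.main [FiniteDimensional ℝ N] (S : Sys Q) {E : Type} [Fintype E] (M : Matroid E)
    (hM : M.E = Set.univ) (A : (E → ℝ) →ₗ[ℝ] N) (hA : ∀ x, A x ∈ perp La ↔ ∀ i j, x i = x j)
    (hF : Fan La De)
    (hs : supp La De = {y | ∃ x : E → ℝ, (∀ c, M.IsFlat {i | c ≤ x i}) ∧ y - A x ∈ perp La}) :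
    All Q La De := by
  have hp : ∀ {x : N}, x ∈ perp La ↔ ∀ m ∈ La, m x = 0 := Submodule.mem_dualCoannihilator _
  obtain ⟨φ, h1, h2⟩ : ∃ φ : N →ₗ[ℝ] E → ℝ, (∀ i j, K8.dd φ i j ∈ La) ∧
      ∀ i j x, K8.dd φ i j (A x) = x i - x j := by
    rcases isEmpty_or_nonempty E with hE | ⟨⟨o⟩⟩
    · exact ⟨0, fun i => hE.elim i, fun i => hE.elim i⟩
    have k := fun i => exists_pull La A (K8.dd LinearMap.id i o) fun x hx =>
      sub_eq_zero.2 ((hA x).1 (hp.2 hx) i o)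
    choose ψ k1 k2 using k
    refine ⟨LinearMap.pi ψ, fun i j => La.sub_mem (k1 i) (k1 j), fun i j x => ?_⟩
    simp [k2]
  have hle : K8.LaS φ M.E ≤ La := Submodule.span_le.2 fun m ⟨i, _, j, _, k⟩ => k ▸ h1 i j
  have mem : ∀ i j, K8.dd φ i j ∈ K8.LaS φ M.E := fun i j =>
    K8.dd_mem (hM ▸ Set.mem_univ i) (hM ▸ Set.mem_univ j)
  have hb := Pool.Agent.MP_e9c0f3_ag.KH.Mat.berg_univ hM
  have pull : ∀ m ∈ La, ∃ m' ∈ K8.LaS φ M.E, ∀ v ∈ verts De, m' v = m v := fun m hm => by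
    obtain ⟨m', k1, k2⟩ := exists_pull (K8.LaS φ M.E) A (m ∘ₗ A) fun x hx =>
      hp.1 ((hA x).2 fun i j => sub_eq_zero.1 (h2 i j x ▸ hx _ (mem i j))) m hm
    refine ⟨m', k1, fun v hv => ?_⟩
    obtain ⟨s, hs', hv⟩ := mem_verts.1 hv
    obtain ⟨x, -, hx⟩ : v ∈ {y | ∃ x : E → ℝ, (∀ c, M.IsFlat {i | c ≤ x i}) ∧ y - A x ∈ perp La} :=
      hs ▸ ⟨s, hs', mem_cone_self hv⟩
    have a1 := hp.1 hx m hm
    have a2 := hp.1 hx m' (hle k1)
    have a3 := k2 x
    rw [map_sub] at a1 a2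
    rw [LinearMap.comp_apply] at a3
    linarith
  have hF' : Fan (K8.LaS φ M.E) De := by
    obtain ⟨l, hl⟩ := hF.proj
    refine ⟨hF.down, fun t ht f => ?_, l, fun t ht => ?_⟩
    · obtain ⟨m, hm, k⟩ := hF.onto t ht f
      obtain ⟨m', k1, k2⟩ := pull m hm
      exact ⟨m', k1, fun v hv => (k2 v (mem_verts.2 ⟨t, ht, hv⟩)).trans (k v hv)⟩
    · obtain ⟨m, hm, a1, a2⟩ := hl t ht
      obtain ⟨m', k1, k2⟩ := pull m hm
      exact ⟨m', k1, fun v hv => (k2 v (mem_verts.2 ⟨t, ht, hv⟩)).trans (a1 v hv),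
        fun v hv hv' => (k2 v hv).trans_lt (a2 v hv hv')⟩
  refine S.all_mono hF' (S.steps.main (fun e _ => ⟨A (Pi.single e 1), fun i _ hi => ?_⟩) hF'
    (Set.Subset.antisymm ?_ fun y hy => ?_)) _ La rfl hle pull
  · rw [h2, Pi.single_eq_same, Pi.single_eq_of_ne hi, sub_zero]
  · rintro y ⟨s, hs', c, hc, k⟩
    obtain ⟨x, hx, hx'⟩ : (∑ v ∈ s, c v • v) ∈
        {y | ∃ x : E → ℝ, (∀ c, M.IsFlat {i | c ≤ x i}) ∧ y - A x ∈ perp La} :=
      hs ▸ ⟨s, hs', c, hc, fun m _ => by simp⟩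
    refine Pool.Agent.MP_e9c0f3_ag.KH.Mat.berg_coarsen (x := x) (hb ▸ hx) fun i _ j _ hij => ?_
    have a1 := hp.1 hx' _ (h1 i j)
    have a2 := k _ (mem i j)
    rw [map_sub, h2, map_sum] at a1
    simp only [map_smul, smul_eq_mul] at a1
    rw [K8.dd_apply] at a2
    linarith
  · have hy' : φ y ∈ Pool.Agent.MP_e9c0f3_ag.KH.Mat.Berg M := hy
    rw [hb] at hy'
    obtain ⟨s, hs', c, hc, k⟩ : A (φ y) ∈ supp La De := hs ▸ ⟨φ y, hy', by simp⟩
    refine ⟨s, hs', c, hc, fun m hm => Eq.trans ?_ (k m (hle hm))⟩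
    have : K8.LaS φ M.E ≤ LinearMap.ker (Module.Dual.eval ℝ N (y - A (φ y))) :=
      Submodule.span_le.2 fun m ⟨i, _, j, _, k⟩ => by
        rw [k, SetLike.mem_coe, LinearMap.mem_ker, Module.Dual.eval_apply, map_sub, h2,
          K8.dd_apply, sub_self]
    have a := this hm
    rw [LinearMap.mem_ker, Module.Dual.eval_apply, map_sub] at a
    exact sub_eq_zero.1 a

end KH
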