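import Pool.Agent.Lib.MP_e9c0f3_ag.KH.HRen
import Pool.Agent.Lib.MP_e9c0f3_ag.KH.HEdge
import Pool.Agent.Lib.MP_e9c0f3_ag.KH.HSusp
import Pool.Agent.Lib.MP_e9c0f3_ag.KH.HModif
import Pool.Agent.Lib.MP_e9c0f3_ag.KH.K8

/-! Hodge–Riemann relations for all projective simplicial fans with Bergman support. -/

open scoped Classical

noncomputable section

namespace KH

variable {N : Type} [AddCommGroup N] [Module ℝ N]

theorem sys_hr0 : Sys (HR0 (N := N)) where
  pt _ := hr0_pt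
  ren _ _ _ _ _ hF h := hr0_ren hF h
  up _ _ _ _ _ _ hF hne h h1 h2 := hr0_up hF hne h h1 h2
  down _ _ _ _ _ _ hF hne h h1 h2 := hr0_down hF hne h h1 h2
  susp _ _ _ _ _ hF h0 he hc h h1 h2 := hr0_susp hF h0 he hc h h1 h2
  modif _ _ _ _ hF h0 hs hD he _ h1 _ h2 := hr0_modif hF h0 hs hD he h1 h2

end KH
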