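import Mathlib

/-! Subdivision of an edge: pull back and push forward of polynomials. -/

open MvPolynomial
open scoped Classical

noncomputable section

namespace KH

/-- An edge `e₁ e₂` with the new vertex `w = a₁ e₁ + a₂ e₂`. -/
structure Ed (N : Type*) where
  (e₁ e₂ w : N)
  (a₁ a₂ : ℝ)
  ne : e₁ ≠ e₂
  ne₁ : e₁ ≠ w
  ne₂ : e₂ ≠ w
  pos₁ : 0 < a₁
  pos₂ : 0 < a₂

namespace Ed

variable {N : Type*} (E : Ed N)

/-- The same edge with its ends exchanged. -/
def swap : Ed N := ⟨E.e₂, E.e₁, E.w, E.a₂, E.a₁, E.ne.symm, E.ne₂, E.ne₁, E.pos₂, E.pos₁⟩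

/-- The coefficient of a vertex in `w`. -/
def co (v : N) : ℝ := if v = E.e₁ then E.a₁ else if v = E.e₂ then E.a₂ else 0

def c₁ : MvPolynomial N ℝ := C E.a₁⁻¹ * X E.e₁

def c₂ : MvPolynomial N ℝ := C E.a₂⁻¹ * X E.e₂

abbrev Q := QuadraticAlgebra (MvPolynomial N ℝ) (-(E.c₁ * E.c₂)) (E.c₁ + E.c₂)

def pull : MvPolynomial N ℝ →ₐ[ℝ] MvPolynomial N ℝ :=
  aeval fun v => if v = E.w then 0 else X v + C (E.co v) * X E.w

def kill : MvPolynomial N ℝ →ₐ[ℝ] MvPolynomial N ℝ := aeval fun v => if v = E.w then 0 else X v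

def tau : MvPolynomial N ℝ →ₐ[ℝ] E.Q :=
  aeval fun v => if v = E.w then ⟨0, 1⟩ else ⟨X v, -C (E.co v)⟩

def push : MvPolynomial N ℝ →ₗ[ℝ] MvPolynomial N ℝ where
  toFun p := (E.tau p).re
  map_add' p q := by simp
  map_smul' c p := by simp

def push₁ : MvPolynomial N ℝ →ₗ[ℝ] MvPolynomial N ℝ where
  toFun p := (E.tau p).im
  map_add' p q := by simp
  map_smul' c p := by simp

def phi : MvPolynomial N ℝ →ₐ[ℝ] MvPolynomial N ℝ :=
  aeval fun v => if v = E.w then E.c₂ else X v - C (E.co v) * E.c₂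

theorem co₁ : E.co E.e₁ = E.a₁ := if_pos rfl

theorem co₂ : E.co E.e₂ = E.a₂ := by rw [co, if_neg E.ne.symm, if_pos rfl]

theorem co_of_ne {v : N} (h1 : v ≠ E.e₁) (h2 : v ≠ E.e₂) : E.co v = 0 := by
  rw [co, if_neg h1, if_neg h2]

theorem co_swap : E.swap.co = E.co := by
  funext v
  by_cases h1 : v = E.e₁
  · rw [h1, co₁]; exact E.swap.co₂
  by_cases h2 : v = E.e₂
  · rw [h2, co₂]; exact E.swap.co₁
  rw [E.co_of_ne h1 h2, E.swap.co_of_ne h2 h1]

theorem a_c₁ : C E.a₁ * E.c₁ = X E.e₁ := by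
  rw [c₁, ← mul_assoc, ← C_mul, mul_inv_cancel₀ E.pos₁.ne', C_1, one_mul]

theorem a_c₂ : C E.a₂ * E.c₂ = X E.e₂ := E.swap.a_c₁

theorem c_mul : E.c₁ * E.c₂ = C (E.a₁⁻¹ * E.a₂⁻¹) * (X E.e₁ * X E.e₂) := by
  rw [c₁, c₂, C_mul]; ring

theorem push_mul (p q : MvPolynomial N ℝ) :
    E.push (p * q) = E.push p * E.push q - E.c₁ * E.c₂ * (E.push₁ p * E.push₁ q) := by
  simp only [push, push₁, LinearMap.coe_mk, AddHom.coe_mk, map_mul, QuadraticAlgebra.re_mul]
  ring

theorem push₁_mul (p q : MvPolynomial N ℝ) : E.push₁ (p * q) =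
    E.push p * E.push₁ q + E.push₁ p * E.push q + (E.c₁ + E.c₂) * (E.push₁ p * E.push₁ q) := by
  simp only [push, push₁, LinearMap.coe_mk, AddHom.coe_mk, map_mul, QuadraticAlgebra.im_mul]
  ring

theorem push_C (r : ℝ) : E.push (C r) = C r := by
  simp [push, tau, Algebra.algebraMap_eq_smul_one, smul_eq_C_mul, QuadraticAlgebra.re_one]

theorem push₁_C (r : ℝ) : E.push₁ (C r) = 0 := by
  simp [push₁, tau, Algebra.algebraMap_eq_smul_one, QuadraticAlgebra.im_one]

theorem push_w : E.push (X E.w) = 0 := by simp [push, tau]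

theorem push₁_w : E.push₁ (X E.w) = 1 := by simp [push₁, tau]

theorem push_X {v : N} (h : v ≠ E.w) : E.push (X v) = X v := by simp [push, tau, h]

theorem push₁_X {v : N} (h : v ≠ E.w) : E.push₁ (X v) = -C (E.co v) := by simp [push₁, tau, h]

theorem pull_w : E.pull (X E.w) = 0 := by simp [pull]

theorem pull_X {v : N} (h : v ≠ E.w) : E.pull (X v) = X v + C (E.co v) * X E.w := by
  simp [pull, h]

theorem kill_w : E.kill (X E.w) = 0 := by simp [kill]

theorem kill_X {v : N} (h : v ≠ E.w) : E.kill (X v) = X v := by simp [kill, h]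

theorem phi_w : E.phi (X E.w) = E.c₂ := by simp [phi]

theorem phi_X {v : N} (h : v ≠ E.w) : E.phi (X v) = X v - C (E.co v) * E.c₂ := by simp [phi, h]

theorem phi₂ : E.phi (X E.e₂) = 0 := by rw [E.phi_X E.ne₂, co₂, a_c₂, sub_self]

theorem pull_swap : E.swap.pull = E.pull := by rw [pull, co_swap]; rfl

theorem push_swap' (p : MvPolynomial N ℝ) :
    E.swap.push p = E.push p ∧ E.swap.push₁ p = E.push₁ p := by
  induction p using MvPolynomial.induction_on with
  | C r => simp [push_C, push₁_C]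
  | add p q hp hq => simp [hp, hq]
  | mul_X p v hp =>
    have h1 : E.swap.push (X v) = E.push (X v) ∧ E.swap.push₁ (X v) = E.push₁ (X v) := by
      by_cases h : v = E.w
      · subst h
        exact ⟨E.swap.push_w.trans E.push_w.symm, E.swap.push₁_w.trans E.push₁_w.symm⟩
      · rw [E.swap.push_X h, E.swap.push₁_X h, E.push_X h, E.push₁_X h, co_swap]
        exact ⟨rfl, rfl⟩
    rw [push_mul, push_mul, push₁_mul, push₁_mul, hp.1, hp.2, h1.1, h1.2,
      show E.swap.c₁ = E.c₂ from rfl, show E.swap.c₂ = E.c₁ from rfl]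
    constructor <;> ring

theorem push_swap : E.swap.push = E.push := LinearMap.ext fun p => (E.push_swap' p).1

theorem push₁_swap : E.swap.push₁ = E.push₁ := LinearMap.ext fun p => (E.push_swap' p).2

theorem push_pull' (a : MvPolynomial N ℝ) :
    E.push (E.pull a) = E.kill a ∧ E.push₁ (E.pull a) = 0 := by
  induction a using MvPolynomial.induction_on with
  | C r => simp [push_C, push₁_C]
  | add p q hp hq => simp [hp, hq]
  | mul_X p v hp =>
    have h1 : E.push (E.pull (X v)) = E.kill (X v) ∧ E.push₁ (E.pull (X v)) = 0 := by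
      by_cases h : v = E.w
      · simp [h, pull_w, kill_w]
      · simp [E.pull_X h, E.kill_X h, E.push_X h, E.push₁_X h, push_mul, push₁_mul, push_C, push₁_C,
          push_w, push₁_w]
    rw [map_mul, map_mul E.kill, push_mul, push₁_mul, hp.1, hp.2, h1.1, h1.2]
    constructor <;> ring

theorem push_pull_mul (a p : MvPolynomial N ℝ) : E.push (E.pull a * p) = E.kill a * E.push p := by
  rw [push_mul, (E.push_pull' a).1, (E.push_pull' a).2]; ring

theorem push₁_pull_mul (a p : MvPolynomial N ℝ) :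
    E.push₁ (E.pull a * p) = E.kill a * E.push₁ p := by
  rw [push₁_mul, (E.push_pull' a).1, (E.push_pull' a).2]; ring

theorem push_w_mul (p : MvPolynomial N ℝ) :
    E.push (X E.w * p) = -(E.c₁ * E.c₂ * E.push₁ p) := by
  rw [push_mul, push_w, push₁_w]; ring

theorem push₁_w_mul (p : MvPolynomial N ℝ) :
    E.push₁ (X E.w * p) = E.push p + (E.c₁ + E.c₂) * E.push₁ p := by
  rw [push₁_mul, push_w, push₁_w]; ring

theorem phi_eq (p : MvPolynomial N ℝ) : E.phi p = E.push p + E.c₂ * E.push₁ p := by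
  induction p using MvPolynomial.induction_on with
  | C r => simp [push_C, push₁_C]
  | add p q hp hq => simp only [map_add, hp, hq]; ring
  | mul_X p v hp =>
    have h1 : E.phi (X v) = E.push (X v) + E.c₂ * E.push₁ (X v) := by
      by_cases h : v = E.w
      · simp [h, phi_w, push_w, push₁_w]
      · rw [E.phi_X h, E.push_X h, E.push₁_X h]; ring
    rw [map_mul, push_mul, push₁_mul, hp, h1]; ring

theorem push_e₁_mul (p : MvPolynomial N ℝ) : E.push (X E.e₁ * p) = X E.e₁ * E.phi p := by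
  rw [push_mul, E.push_X E.ne₁, E.push₁_X E.ne₁, co₁, phi_eq, ← E.a_c₁]; ring

theorem push₁_e₁_mul (p : MvPolynomial N ℝ) : E.push₁ (X E.e₁ * p) = -(C E.a₁ * E.phi p) := by
  rw [push₁_mul, E.push_X E.ne₁, E.push₁_X E.ne₁, co₁, phi_eq, ← E.a_c₁]; ring

theorem phi_pull (a : MvPolynomial N ℝ) : E.phi (E.pull a) = E.kill a := by
  rw [phi_eq, (E.push_pull' a).1, (E.push_pull' a).2]; ring

theorem pull_c₁ : E.pull E.c₁ = E.c₁ + X E.w := by
  rw [c₁, map_mul, E.pull_X E.ne₁, co₁, algHom_C, algebraMap_eq, mul_add, ← mul_assoc, ← C_mul,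
    inv_mul_cancel₀ E.pos₁.ne', C_1, one_mul]

theorem pull_c₂ : E.pull E.c₂ = E.c₂ + X E.w := by
  rw [← pull_swap]; exact E.swap.pull_c₁

/-- Every polynomial is `pull a + w * pull b` modulo `x₁ x₂`. -/
theorem split (p : MvPolynomial N ℝ) :
    X E.e₁ * X E.e₂ ∣ p - (E.pull (E.push p) + X E.w * E.pull (E.push₁ p)) := by
  induction p using MvPolynomial.induction_on with
  | C r => simp [push_C, push₁_C]
  | add p q hp hq => convert dvd_add hp hq using 1; simp only [map_add]; ring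
  | mul_X p v hp =>
    have h1 : X v = E.pull (E.push (X v)) + X E.w * E.pull (E.push₁ (X v)) := by
      by_cases h : v = E.w
      · simp [h, push_w, push₁_w]
      · rw [E.push_X h, E.push₁_X h, E.pull_X h, map_neg, algHom_C, algebraMap_eq]; ring
    have h2 : X E.e₁ * X E.e₂ ∣ E.c₁ * E.c₂ := by rw [c_mul]; exact dvd_mul_left _ _
    convert dvd_add (hp.mul_right (X v))
      (h2.mul_right (E.pull (E.push₁ p) * E.pull (E.push₁ (X v)))) using 1
    rw [push_mul, push₁_mul]
    simp only [map_sub, map_add, map_mul, pull_c₁, pull_c₂]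
    linear_combination (E.pull (E.push p) + X E.w * E.pull (E.push₁ p)) * h1

theorem hom_dvd {f : MvPolynomial N ℝ →ₐ[ℝ] MvPolynomial N ℝ} {u : MvPolynomial N ℝ}
    (h : ∀ v, u ∣ f (X v) - X v) (p : MvPolynomial N ℝ) : u ∣ f p - p := by
  induction p using MvPolynomial.induction_on with
  | C r => simp
  | add p q hp hq => convert dvd_add hp hq using 1; simp only [map_add]; ring
  | mul_X p v hp =>
    convert dvd_add (hp.mul_right (f (X v))) ((h v).mul_left p) using 1
    rw [map_mul]; ring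

theorem kill_sub (a : MvPolynomial N ℝ) : X E.w ∣ E.kill a - a := hom_dvd (fun v => by
  by_cases h : v = E.w
  · simp [h, kill_w]
  · simp [E.kill_X h]) a

theorem pull_phi (p : MvPolynomial N ℝ) : X E.e₂ ∣ E.pull (E.phi p) - p := by
  have h2 : X E.e₂ ∣ E.c₂ := dvd_mul_left _ _
  refine hom_dvd (f := E.pull.comp E.phi) (fun v => ?_) p
  rw [AlgHom.comp_apply]
  by_cases h : v = E.w
  · simpa [h, phi_w, pull_c₂] using h2
  · rw [E.phi_X h, map_sub, map_mul, pull_c₂, E.pull_X h, algHom_C, algebraMap_eq]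
    convert (h2.mul_left (C (E.co v))).neg_right using 1
    ring

theorem hom_aeval {f : MvPolynomial N ℝ →ₐ[ℝ] MvPolynomial N ℝ}
    (h : ∀ v, (f (X v)).IsHomogeneous 1) {p : MvPolynomial N ℝ} {k : ℕ} (hp : p.IsHomogeneous k) :
    (f p).IsHomogeneous k := by
  have e : f = aeval fun v => f (X v) := algHom_ext fun v => by simp
  rw [e]
  simpa using hp.aeval _ h

theorem hom_c₁ : E.c₁.IsHomogeneous 1 := (isHomogeneous_X ℝ _).C_mul _

theorem hom_c₂ : E.c₂.IsHomogeneous 1 := (isHomogeneous_X ℝ _).C_mul _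

theorem hom_pull {p : MvPolynomial N ℝ} {k : ℕ} (hp : p.IsHomogeneous k) :
    (E.pull p).IsHomogeneous k := hom_aeval (fun v => by
  by_cases h : v = E.w
  · rw [h, pull_w]; exact isHomogeneous_zero _ _ _
  · rw [E.pull_X h]; exact (isHomogeneous_X ℝ _).add ((isHomogeneous_X ℝ _).C_mul _)) hp

theorem hom_kill {p : MvPolynomial N ℝ} {k : ℕ} (hp : p.IsHomogeneous k) :
    (E.kill p).IsHomogeneous k := hom_aeval (fun v => by
  by_cases h : v = E.w
  · rw [h, kill_w]; exact isHomogeneous_zero _ _ _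
  · rw [E.kill_X h]; exact isHomogeneous_X ℝ _) hp

theorem hom_phi {p : MvPolynomial N ℝ} {k : ℕ} (hp : p.IsHomogeneous k) :
    (E.phi p).IsHomogeneous k := hom_aeval (fun v => by
  by_cases h : v = E.w
  · rw [h, phi_w]; exact E.hom_c₂
  · rw [E.phi_X h]; exact (isHomogeneous_X ℝ _).sub (E.hom_c₂.C_mul _)) hp

theorem hom_ind {P : ℕ → MvPolynomial N ℝ → Prop} (h0 : ∀ r, P 0 (C r))
    (h1 : ∀ k p q, P k p → P k q → P k (p + q)) (hz : ∀ k, P k 0)
    (h2 : ∀ k r v p, P k p → P (k + 1) (C r * X v * p)) {p : MvPolynomial N ℝ} {k : ℕ}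
    (hp : p.IsHomogeneous k) : P k p := by
  have h : p ∈ homogeneousSubmodule N ℝ 1 ^ k := by rwa [homogeneousSubmodule_one_pow]
  clear hp
  induction h using Submodule.pow_induction_on_left' with
  | algebraMap r => exact h0 r
  | add x y i _ _ hx hy => exact h1 _ _ _ hx hy
  | mem_mul m hm i x _ hx =>
    rw [homogeneousSubmodule_one_eq_span_X] at hm
    suffices ∀ r : ℝ, P (i + 1) (C r * m * x) by simpa using this 1
    induction hm using Submodule.span_induction with
    | mem _ h => obtain ⟨v, rfl⟩ := h; exact fun r => h2 _ _ _ _ hx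
    | zero => simpa using hz _
    | add a b _ _ ha hb => intro r; rw [mul_add, add_mul]; exact h1 _ _ _ (ha r) (hb r)
    | smul c a _ ha => intro r; rw [smul_eq_C_mul, ← mul_assoc, ← C_mul]; exact ha _

theorem hom_push' {p : MvPolynomial N ℝ} {k : ℕ} (hp : p.IsHomogeneous k) :
    (E.push p).IsHomogeneous k ∧ (∀ j, j + 1 = k → (E.push₁ p).IsHomogeneous j) ∧
      (k = 0 → E.push₁ p = 0) := by
  refine hom_ind (P := fun k p => (E.push p).IsHomogeneous k ∧
    (∀ j, j + 1 = k → (E.push₁ p).IsHomogeneous j) ∧ (k = 0 → E.push₁ p = 0)) (fun r => ?_)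
    (fun k p q a b => ?_) (fun k => ?_) (fun k r v p a => ?_) hp
  · exact ⟨by rw [push_C]; exact isHomogeneous_C _ _, fun j h => by omega, fun _ => E.push₁_C r⟩
  · rw [map_add, map_add]
    exact ⟨a.1.add b.1, fun j h => (a.2.1 j h).add (b.2.1 j h),
      fun h => by rw [a.2.2 h, b.2.2 h, add_zero]⟩
  · simp [isHomogeneous_zero]
  · have h1 : (E.push (X v)).IsHomogeneous 1 ∧ (E.push₁ (X v)).IsHomogeneous 0 := by
      by_cases h : v = E.w
      · rw [h, push_w, push₁_w]; exact ⟨isHomogeneous_zero _ _ _, isHomogeneous_one _ _⟩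
      · rw [E.push_X h, E.push₁_X h]; exact ⟨isHomogeneous_X _ _, (isHomogeneous_C _ _).neg⟩
    have h2 : ∀ {u : MvPolynomial N ℝ} {n : ℕ}, u.IsHomogeneous (n + 1) →
        (u * E.push₁ p).IsHomogeneous (k + n) := fun {u n} hu => by
      cases k with
      | zero => rw [a.2.2 rfl, mul_zero]; exact isHomogeneous_zero _ _ _
      | succ k => convert hu.mul (a.2.1 k rfl) using 1; ring
    rw [mul_assoc, ← smul_eq_C_mul, map_smul, map_smul, smul_eq_C_mul, smul_eq_C_mul, push_mul,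
      push₁_mul]
    refine ⟨IsHomogeneous.C_mul (IsHomogeneous.sub ?_ ?_) _, fun j h => IsHomogeneous.C_mul
      (IsHomogeneous.add (IsHomogeneous.add ?_ ?_) ?_) _, fun h => by omega⟩
    · rw [add_comm]; exact h1.1.mul a.1
    · rw [← mul_assoc]; exact h2 ((E.hom_c₁.mul E.hom_c₂).mul h1.2)
    · rw [show j = k + 0 by omega]; exact h2 h1.1
    · rw [show j = 0 + k by omega]; exact h1.2.mul a.1
    · rw [show j = k + 0 by omega, ← mul_assoc]; exact h2 ((E.hom_c₁.add E.hom_c₂).mul h1.2)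

theorem hom_push {p : MvPolynomial N ℝ} {k : ℕ} (hp : p.IsHomogeneous k) :
    (E.push p).IsHomogeneous k := (E.hom_push' hp).1

theorem hom_push₁ {p : MvPolynomial N ℝ} {k : ℕ} (hp : p.IsHomogeneous (k + 1)) :
    (E.push₁ p).IsHomogeneous k := (E.hom_push' hp).2.1 k rfl

theorem push₁_zero {p : MvPolynomial N ℝ} (hp : p.IsHomogeneous 0) : E.push₁ p = 0 :=
  (E.hom_push' hp).2.2 rfl

end Ed

end KH
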