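import Pool.Agent.Lib.MP_e9c0f3_ag.KH.Defs
import Pool.Agent.Lib.MP_e9c0f3_ag.KH.EdgeAlg
import Pool.Agent.Lib.MP_e9c0f3_ag.KH.K9

/-! Subdivision of an edge: degree maps and Poincaré duality. -/

open MvPolynomial
open scoped Classical

set_option linter.unusedSectionVars false

noncomputable section

namespace KH

variable {N : Type} [AddCommGroup N] [Module ℝ N] {La : Du N} {De De' : Finset (Finset N)}

namespace Eg

theorem mem_vert {v : N} : v ∈ verts De ↔ ∃ s ∈ De, v ∈ s := by simp [verts]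

theorem mon_mem_Jd {s : Finset N} (h : s ∉ De) : mon s ∈ Jd La De :=
  Ideal.subset_span (Or.inl ⟨s, h, rfl⟩)

theorem lin_mem_Jd {m : Module.Dual ℝ N} (h : m ∈ La) : lin De m ∈ Jd La De :=
  Ideal.subset_span (Or.inr ⟨m, h, rfl⟩)

theorem mon_insert {s : Finset N} {v : N} (h : v ∉ s) : mon (insert v s) = X v * mon s :=
  Finset.prod_insert h

theorem mon_erase {s : Finset N} {v : N} (h : v ∈ s) : mon s = X v * mon (s.erase v) :=
  (Finset.mul_prod_erase s _ h).symm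

theorem mon_sdiff {s t : Finset N} (h : t ⊆ s) : mon s = mon t * mon (s \ t) := by
  rw [mon, ← Finset.prod_sdiff h, mul_comm]; rfl

theorem Ic_eq (t : Finset N) : Ic La De t = Pool.Agent.MP_e9c0f3_ag.KH.K9.Ic (· ∈ De)
    (De.biUnion id) (La.map Pool.Agent.MP_e9c0f3_ag.KH.K9.coeL) t := by
  have h : ∀ m : N → ℝ, lin De m = Pool.Agent.MP_e9c0f3_ag.KH.K9.lin (De.biUnion id) m :=
    fun m => Finset.sum_congr rfl fun v _ => smul_eq_C_mul _ _
  unfold Ic Pool.Agent.MP_e9c0f3_ag.KH.K9.Ic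
  congr 2
  ext a
  exact ⟨fun ⟨m, hm, e⟩ => ⟨m, ⟨m, hm, rfl⟩, e.trans (h m)⟩,
    fun ⟨_, ⟨m, hm, rfl⟩, e⟩ => ⟨m, hm, e.trans (h m).symm⟩⟩

theorem _root_.KH.Valid.ecard {d : ℕ} {deg : Pol N →ₗ[ℝ] ℝ} (V : Valid La De d deg) {s : Finset N}
    (hs : s ∈ De) : s.card ≤ d := by
  obtain ⟨u, -, h, rfl⟩ := V.pure s hs
  exact Finset.card_le_card h

theorem _root_.KH.Valid.ezero {d : ℕ} {deg : Pol N →ₗ[ℝ] ℝ} (V : Valid La De d deg) {a : Pol N}
    (ha : a ∈ Jd La De) : deg a = 0 := by simpa using V.kill ha 1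

theorem map_le_of_gen {S : Set (Pol N)} {I : Ideal (Pol N)} {f : Pol N →ₗ[ℝ] Pol N}
    (h : ∀ g ∈ S, ∀ p, f (g * p) ∈ I) {a : Pol N} (ha : a ∈ Ideal.span S) : f a ∈ I := by
  suffices ∀ p, f (a * p) ∈ I by simpa using this 1
  induction ha using Submodule.span_induction with
  | mem g hg => exact h g hg
  | zero => simp
  | add x y _ _ hx hy => intro p; rw [add_mul, map_add]; exact I.add_mem (hx p) (hy p)
  | smul c x _ hx => intro p; rw [smul_eq_mul, mul_comm c, mul_assoc]; exact hx _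

end Eg

open Eg

/-- `De'` is the subdivision of `De` at the edge `E`. -/
structure Sub (E : Ed N) (La : Du N) (De De' : Finset (Finset N)) : Prop where
  down : ∀ t ∈ De, ∀ s ⊆ t, s ∈ De
  onto : ∀ t ∈ De, Onto La t
  edge : {E.e₁, E.e₂} ∈ De
  new : E.w ∉ verts De
  rel : ∀ m ∈ La, m E.w = E.a₁ * m E.e₁ + E.a₂ * m E.e₂
  eq : De' = star De {E.e₁, E.e₂} E.w

namespace Ed

variable (E : Ed N)

/-- The part of `s` away from the edge. -/
def fr (s : Finset N) : Finset N := s \ {E.w, E.e₁, E.e₂}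

theorem mem_fr {s : Finset N} {v : N} :
    v ∈ E.fr s ↔ v ∈ s ∧ v ≠ E.w ∧ v ≠ E.e₁ ∧ v ≠ E.e₂ := by simp [fr]

theorem fr_subset (s : Finset N) : E.fr s ⊆ s := Finset.sdiff_subset

theorem pull_fr (s : Finset N) : E.pull (mon (E.fr s)) = mon (E.fr s) := by
  rw [mon, map_prod]
  refine Finset.prod_congr rfl fun v hv => ?_
  obtain ⟨-, h0, h1, h2⟩ := E.mem_fr.1 hv
  rw [E.pull_X h0, E.co_of_ne h1 h2]; simp

theorem kill_mon {s : Finset N} (h : E.w ∉ s) : E.kill (mon s) = mon s := by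
  rw [mon, map_prod]
  exact Finset.prod_congr rfl fun v hv => E.kill_X fun e => h (e ▸ hv)

theorem push_fr_mul (s : Finset N) (p : Pol N) :
    E.push (mon (E.fr s) * p) = mon (E.fr s) * E.push p := by
  conv_lhs => rw [← E.pull_fr, push_pull_mul, E.kill_mon fun h => (E.mem_fr.1 h).2.1 rfl]

theorem mon_fr_union (s : Finset N) :
    mon (E.fr s ∪ {E.e₁, E.e₂}) = mon (E.fr s) * (X E.e₁ * X E.e₂) := by
  rw [mon, Finset.prod_union, Finset.prod_pair E.ne]; · rfl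
  simp only [Finset.disjoint_right, Finset.mem_insert, Finset.mem_singleton, mem_fr]
  tauto

theorem fr_union (s : Finset N) : E.fr s ∪ {E.e₁, E.e₂} = s.erase E.w ∪ {E.e₁, E.e₂} := by
  ext v
  simp only [Finset.mem_union, mem_fr, Finset.mem_insert, Finset.mem_singleton, Finset.mem_erase]
  tauto

theorem pull_mon_w {s : Finset N} (h : E.w ∈ s) : E.pull (mon s) = 0 := by
  rw [mon_erase h, map_mul, pull_w, zero_mul]

theorem pull_sub (p : Pol N) : X E.w ∣ E.pull p - p := hom_dvd (fun v => by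
  by_cases h : v = E.w
  · simp [h, pull_w]
  · simp [E.pull_X h]) p

theorem dvd_push_aux {s : Finset N} (h0 : E.w ∉ s) (h2 : E.e₂ ∉ s) :
    ∃ f : Pol N → Pol N, f 1 = 1 ∧ ∀ p, E.push (mon s * p) = mon s * f p := by
  by_cases h1 : E.e₁ ∈ s
  · have : s.erase E.e₁ = E.fr s := by
      ext v
      simp only [Finset.mem_erase, mem_fr]
      exact ⟨fun h => ⟨h.2, fun e => h0 (e ▸ h.2), h.1, fun e => h2 (e ▸ h.2)⟩,
        fun h => ⟨h.2.2.1, h.1⟩⟩
    refine ⟨E.phi, map_one _, fun p => ?_⟩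
    rw [mon_erase h1, this, mul_comm (X _), mul_assoc, push_fr_mul, push_e₁_mul, mul_assoc]
  · have : s = E.fr s := by
      ext v
      simp only [mem_fr]
      exact ⟨fun h => ⟨h, fun e => h0 (e ▸ h), fun e => h1 (e ▸ h), fun e => h2 (e ▸ h)⟩,
        fun h => h.1⟩
    refine ⟨E.push, by simpa using E.push_C 1, fun p => ?_⟩
    rw [this, push_fr_mul]

theorem dvd_push {s : Finset N} (h0 : E.w ∉ s) (h : ¬{E.e₁, E.e₂} ⊆ s) :
    ∃ f : Pol N → Pol N, f 1 = 1 ∧ ∀ p, E.push (mon s * p) = mon s * f p := by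
  by_cases h2 : E.e₂ ∈ s
  · rw [← push_swap]
    exact E.swap.dvd_push_aux h0 fun h1 => h (Finset.insert_subset h1 (by simpa using h2))
  · exact E.dvd_push_aux h0 h2

theorem push_mon {s : Finset N} (h0 : E.w ∉ s) (h : ¬{E.e₁, E.e₂} ⊆ s) :
    E.push (mon s) = mon s := by
  obtain ⟨f, h1, hf⟩ := E.dvd_push h0 h
  simpa [h1] using hf 1

theorem push_mon_w {u : Finset N} (h0 : E.w ∉ u) (h : {E.e₁, E.e₂} ⊆ u) :
    E.push (mon (insert E.w (u.erase E.e₂))) = C E.a₂⁻¹ * mon u := by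
  have h1 : E.e₁ ∈ u := h (by simp)
  have h2 : E.e₂ ∈ u := h (by simp)
  have e1 : u.erase E.e₂ = insert E.e₁ (E.fr u) := by
    ext v
    have := E.ne
    simp only [Finset.mem_erase, mem_fr, Finset.mem_insert]
    constructor
    · rintro ⟨a, b⟩
      by_cases c : v = E.e₁
      · exact Or.inl c
      · exact Or.inr ⟨b, fun e => h0 (e ▸ b), c, a⟩
    · rintro (rfl | h)
      · exact ⟨this, h1⟩
      · exact ⟨h.2.2.2, h.1⟩
  have e2 : mon (u.erase E.e₂) = X E.e₁ * mon (E.fr u) := by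
    rw [e1, mon_insert fun h => (E.mem_fr.1 h).2.2.1 rfl]
  rw [mon_insert fun h => h0 (Finset.mem_of_mem_erase h), mon_erase h2, e2,
    show X E.w * (X E.e₁ * mon (E.fr u)) = mon (E.fr u) * (X E.e₁ * X E.w) by ring, push_fr_mul,
    push_e₁_mul, phi_w, c₂]
  ring

end Ed

namespace Sub

variable {E : Ed N} (S : Sub E La De De')
include S

theorem swap : Sub E.swap La De De' :=
  ⟨S.down, S.onto, by rw [Finset.pair_comm]; exact S.edge, S.new,
    fun m hm => by rw [add_comm]; exact S.rel m hm, by rw [Finset.pair_comm]; exact S.eq⟩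

theorem w_notMem {s : Finset N} (h : s ∈ De) : E.w ∉ s := fun hw => S.new (mem_vert.2 ⟨s, h, hw⟩)

theorem mem₀ {s : Finset N} (h : E.w ∉ s) : s ∈ De' ↔ s ∈ De ∧ ¬{E.e₁, E.e₂} ⊆ s := by
  simp only [S.eq, star, Finset.mem_union, Finset.mem_filter, Finset.mem_image]
  exact or_iff_left fun ⟨t, _, e⟩ => h (e ▸ Finset.mem_insert_self _ _)

theorem mem₁ {s : Finset N} (h : E.w ∈ s) :
    s ∈ De' ↔ ¬{E.e₁, E.e₂} ⊆ s ∧ s.erase E.w ∪ {E.e₁, E.e₂} ∈ De := by
  have hw := S.w_notMem S.edge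
  simp only [S.eq, star, Finset.mem_union, Finset.mem_filter, Finset.mem_image]
  rw [or_iff_right fun a => S.w_notMem a.1 h]
  constructor
  · rintro ⟨t, ⟨h1, h2, h3⟩, rfl⟩
    rw [Finset.erase_insert (S.w_notMem h1), Finset.subset_insert_iff_of_notMem hw]
    exact ⟨h2, h3⟩
  · rintro ⟨h1, h2⟩
    exact ⟨s.erase E.w, ⟨S.down _ h2 _ Finset.subset_union_left,
      fun a => h1 (a.trans (Finset.erase_subset _ _)), h2⟩, Finset.insert_erase h⟩

theorem not_edge {s : Finset N} (h : s ∈ De') : ¬{E.e₁, E.e₂} ⊆ s := by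
  by_cases hw : E.w ∈ s
  · exact ((S.mem₁ hw).1 h).1
  · exact ((S.mem₀ hw).1 h).2

theorem verts_eq : verts De' = insert E.w (verts De) := by
  ext v
  simp only [mem_vert, Finset.mem_insert]
  constructor
  · rintro ⟨s, hs, hv⟩
    by_cases e : v = E.w
    · exact Or.inl e
    by_cases hw : E.w ∈ s
    · exact Or.inr ⟨_, ((S.mem₁ hw).1 hs).2, Finset.mem_union_left _ (Finset.mem_erase.2 ⟨e, hv⟩)⟩
    · exact Or.inr ⟨s, ((S.mem₀ hw).1 hs).1, hv⟩
  · have ns : ∀ v : N, ¬{E.e₁, E.e₂} ⊆ ({v} : Finset N) := fun v h =>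
      E.ne ((Finset.mem_singleton.1 (h (by simp))).trans (Finset.mem_singleton.1 (h (by simp))).symm)
    rintro (rfl | ⟨s, hs, hv⟩)
    · exact ⟨{E.w}, (S.mem₁ (by simp)).2 ⟨ns _, by simpa using S.edge⟩, by simp⟩
    · have h1 := S.down s hs {v} (by simpa using hv)
      exact ⟨{v}, (S.mem₀ (S.w_notMem h1)).2 ⟨h1, ns v⟩, by simp⟩

theorem e₁_mem : E.e₁ ∈ verts De := mem_vert.2 ⟨_, S.edge, by simp⟩

theorem e₂_mem : E.e₂ ∈ verts De := mem_vert.2 ⟨_, S.edge, by simp⟩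

theorem kill_lin (l : N → ℝ) : E.kill (lin De l) = lin De l := by
  rw [lin, map_sum]
  exact Finset.sum_congr rfl fun v hv => by rw [map_smul, E.kill_X fun e => S.new (e ▸ hv)]

theorem pull_lin (l : N → ℝ) :
    E.pull (lin De l) = lin De l + (E.a₁ * l E.e₁ + E.a₂ * l E.e₂) • X E.w := by
  have h : ∑ v ∈ verts De, l v * E.co v = E.a₁ * l E.e₁ + E.a₂ * l E.e₂ := by
    rw [← Finset.sum_subset (Finset.insert_subset S.e₁_mem (Finset.singleton_subset_iff.2 S.e₂_mem)),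
      Finset.sum_pair E.ne, E.co₁, E.co₂, mul_comm, mul_comm (l _)]
    intro v _ hv
    rw [E.co_of_ne (fun e => hv (by simp [e])) fun e => hv (by simp [e]), mul_zero]
  rw [lin, map_sum, ← h, Finset.sum_smul, ← Finset.sum_add_distrib]
  refine Finset.sum_congr rfl fun v hv => ?_
  rw [map_smul, E.pull_X fun e => S.new (e ▸ hv), smul_add, ← smul_eq_C_mul, smul_smul]

theorem lin_eq (l : N → ℝ) : lin De' l = lin De l + l E.w • X E.w := by
  rw [lin, S.verts_eq, Finset.sum_insert S.new, add_comm]; rfl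

theorem pull_lin_mem {m : Module.Dual ℝ N} (hm : m ∈ La) : E.pull (lin De m) = lin De' m := by
  rw [S.pull_lin, S.lin_eq, S.rel m hm]

theorem w_fr_mem {s : Finset N} (h : s.erase E.w ∪ {E.e₁, E.e₂} ∉ De) :
    X E.w * mon (E.fr s) ∈ Jd La De' := by
  have h0 : E.w ∉ E.fr s := fun h => (E.mem_fr.1 h).2.1 rfl
  rw [← mon_insert h0]
  refine mon_mem_Jd fun a => h ?_
  have := ((S.mem₁ (Finset.mem_insert_self _ _)).1 a).2
  rwa [Finset.erase_insert h0, E.fr_union] at this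

theorem edge_mem : X E.e₁ * X E.e₂ ∈ Jd La De' := by
  have : mon {E.e₁, E.e₂} ∈ Jd La De' := mon_mem_Jd fun h => S.not_edge h le_rfl
  rwa [mon, Finset.prod_pair E.ne] at this

theorem w_mem : X E.w ∈ Jd La De := by
  have : mon {E.w} ∈ Jd La De := mon_mem_Jd fun h => S.w_notMem h (by simp)
  simpa [mon] using this

theorem push_mem {a : Pol N} (ha : a ∈ Jd La De') : E.push a ∈ Jd La De := by
  refine map_le_of_gen ?_ ha
  rintro _ (⟨s, hs, rfl⟩ | ⟨m, hm, rfl⟩) p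
  · by_cases he : {E.e₁, E.e₂} ⊆ s
    · rw [mon_sdiff he, mon, Finset.prod_pair E.ne, mul_assoc, mul_assoc, E.push_e₁_mul, map_mul,
        E.phi₂, zero_mul, mul_zero]
      exact Ideal.zero_mem _
    by_cases hw : E.w ∈ s
    · have h1 : E.w ∈ s \ E.fr s := Finset.mem_sdiff.2 ⟨hw, fun h => (E.mem_fr.1 h).2.1 rfl⟩
      have h2 : mon (E.fr s ∪ {E.e₁, E.e₂}) ∈ Jd La De :=
        mon_mem_Jd fun a => hs ((S.mem₁ hw).2 ⟨he, E.fr_union s ▸ a⟩)
      rw [mon_sdiff (E.fr_subset s), mul_assoc, E.push_fr_mul, mon_erase h1, mul_assoc,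
        E.push_w_mul, E.c_mul]
      rw [E.mon_fr_union] at h2
      convert Ideal.mul_mem_right (-(C (E.a₁⁻¹ * E.a₂⁻¹) *
        E.push₁ (mon ((s \ E.fr s).erase E.w) * p))) _ h2 using 1
      ring
    · obtain ⟨f, -, hf⟩ := E.dvd_push hw he
      rw [hf]
      exact Ideal.mul_mem_right _ _ (mon_mem_Jd fun a => hs ((S.mem₀ hw).2 ⟨a, he⟩))
  · rw [← S.pull_lin_mem hm, E.push_pull_mul, S.kill_lin]
    exact Ideal.mul_mem_right _ _ (lin_mem_Jd hm)

theorem pull_mem {a : Pol N} (ha : a ∈ Jd La De) : E.pull a ∈ Jd La De' := by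
  refine map_le_of_gen (f := E.pull.toLinearMap) ?_ ha
  rintro _ (⟨s, hs, rfl⟩ | ⟨m, hm, rfl⟩) p <;> rw [AlgHom.toLinearMap_apply, map_mul] <;>
    refine Ideal.mul_mem_right _ _ ?_
  · by_cases hw : E.w ∈ s
    · rw [E.pull_mon_w hw]; exact Ideal.zero_mem _
    obtain ⟨t, ht⟩ := E.pull_sub (mon (s \ E.fr s))
    have h1 : mon s ∈ Jd La De' := mon_mem_Jd fun a => hs ((S.mem₀ hw).1 a).1
    have h2 := S.w_fr_mem (s := s) fun a => hs (S.down _ a _
      (by rw [Finset.erase_eq_of_notMem hw]; exact Finset.subset_union_left))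
    rw [mon_sdiff (E.fr_subset s)] at h1 ⊢
    rw [map_mul, E.pull_fr, sub_eq_iff_eq_add.1 ht]
    convert Ideal.add_mem _ h1 (Ideal.mul_mem_right t _ h2) using 1
    ring
  · rw [S.pull_lin_mem hm]; exact lin_mem_Jd hm

theorem w_pull_mem {a : Pol N} (ha : a ∈ Ic La De {E.e₁, E.e₂}) :
    X E.w * E.pull a ∈ Jd La De' := by
  refine map_le_of_gen (f := LinearMap.mulLeft ℝ (X E.w) ∘ₗ E.pull.toLinearMap) ?_ ha
  rintro _ (⟨s, hs, rfl⟩ | ⟨m, hm, rfl⟩) p <;>
    rw [LinearMap.comp_apply, AlgHom.toLinearMap_apply, map_mul, LinearMap.mulLeft_apply,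
      ← mul_assoc] <;> refine Ideal.mul_mem_right _ _ ?_
  · by_cases hw : E.w ∈ s
    · rw [E.pull_mon_w hw, mul_zero]; exact Ideal.zero_mem _
    rw [mon_sdiff (E.fr_subset s), map_mul, E.pull_fr, ← mul_assoc]
    exact Ideal.mul_mem_right _ _ (S.w_fr_mem (by rwa [Finset.erase_eq_of_notMem hw]))
  · rw [S.pull_lin_mem hm]; exact Ideal.mul_mem_left _ _ (lin_mem_Jd hm)

theorem lift_mem {u : Finset N} (hu : u ∈ De) (he : {E.e₁, E.e₂} ⊆ u) :
    insert E.w (u.erase E.e₂) ∈ De' ∧ (insert E.w (u.erase E.e₂)).card = u.card := by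
  have h0 : E.w ∉ u.erase E.e₂ := fun h => S.w_notMem hu (Finset.mem_of_mem_erase h)
  have h2 : E.e₂ ∈ u := he (by simp)
  refine ⟨(S.mem₁ (Finset.mem_insert_self _ _)).2 ⟨fun h => ?_, S.down u hu _ ?_⟩, ?_⟩
  · simpa [E.ne₂] using h (show E.e₂ ∈ _ by simp)
  · rw [Finset.erase_insert h0]
    exact Finset.union_subset (Finset.erase_subset _ _) he
  · rw [Finset.card_insert_of_notMem h0, Finset.card_erase_add_one h2]

/-- A face through `w` that misses `e₂` comes from a face through the edge. -/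
theorem card_aux {s : Finset N} (_hw : E.w ∈ s) (h2 : E.e₂ ∉ s) :
    s ⊆ insert E.w ((s.erase E.w ∪ {E.e₁, E.e₂}).erase E.e₂) := fun v hv => by
  by_cases e : v = E.w
  · simp [e]
  · exact Finset.mem_insert_of_mem (Finset.mem_erase.2 ⟨fun e => h2 (e ▸ hv),
      Finset.mem_union_left _ (Finset.mem_erase.2 ⟨e, hv⟩)⟩)

theorem wlog₂ {s : Finset N} (h : ¬{E.e₁, E.e₂} ⊆ s) : E.e₂ ∉ s ∨ E.e₁ ∉ s := by
  by_contra a
  push Not at a
  exact h (Finset.insert_subset a.2 (Finset.singleton_subset_iff.2 a.1))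

theorem pure_up_aux {d : ℕ} (h : ∀ s ∈ De, ∃ u ∈ De, s ⊆ u ∧ u.card = d) {s : Finset N}
    (hs : s ∈ De') (h2 : E.e₂ ∉ s) : ∃ u ∈ De', s ⊆ u ∧ u.card = d := by
  by_cases hw : E.w ∈ s
  · obtain ⟨u, hu, h1, rfl⟩ := h _ ((S.mem₁ hw).1 hs).2
    have := S.lift_mem hu (Finset.subset_union_right.trans h1)
    exact ⟨_, this.1, (S.card_aux hw h2).trans
      (Finset.insert_subset_insert _ (Finset.erase_subset_erase _ h1)), this.2⟩
  · obtain ⟨u, hu, h1, rfl⟩ := h _ ((S.mem₀ hw).1 hs).1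
    by_cases he : {E.e₁, E.e₂} ⊆ u
    · have := S.lift_mem hu he
      exact ⟨_, this.1, (Finset.subset_erase.2 ⟨h1, h2⟩).trans (Finset.subset_insert _ _), this.2⟩
    · exact ⟨u, (S.mem₀ (S.w_notMem hu)).2 ⟨hu, he⟩, h1, rfl⟩

theorem pos_up_aux {d : ℕ} {deg : Pol N →ₗ[ℝ] ℝ} (V : Valid La De d deg) {s : Finset N}
    (hs : s ∈ De') (hc : s.card = d) (hw : E.w ∈ s) (h2 : E.e₂ ∉ s) :
    0 < deg (E.push (mon s)) := by
  have hu := ((S.mem₁ hw).1 hs).2
  have h1 := S.lift_mem hu Finset.subset_union_right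
  have h3 := V.ecard hu
  have h4 := Finset.eq_of_subset_of_card_le (S.card_aux hw h2) (by omega)
  have h5 := Finset.card_le_card (S.card_aux hw h2)
  rw [h4, E.push_mon_w (S.w_notMem hu) Finset.subset_union_right, ← smul_eq_C_mul, map_smul]
  exact mul_pos (inv_pos.2 E.pos₂) (V.pos _ hu (by omega))

/-- A degree map of the fan gives one of the subdivision. -/
theorem valid_up {d : ℕ} {deg : Pol N →ₗ[ℝ] ℝ} (V : Valid La De d deg) :
    Valid La De' d (deg ∘ₗ E.push) := by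
  refine ⟨fun s hs => ?_, fun k hk a ha => V.hom k hk _ (E.hom_push ha),
    fun a ha b => V.ezero (S.push_mem (Ideal.mul_mem_right _ _ ha)), fun s hs hc => ?_⟩
  · exact (S.wlog₂ (S.not_edge hs)).elim (S.pure_up_aux V.pure hs) (S.swap.pure_up_aux V.pure hs)
  · rw [LinearMap.comp_apply]
    by_cases hw : E.w ∈ s
    · rcases S.wlog₂ (S.not_edge hs) with h | h
      · exact S.pos_up_aux V hs hc hw h
      · rw [← E.push_swap]; exact S.swap.pos_up_aux V hs hc hw h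
    · rw [E.push_mon hw (S.not_edge hs)]
      exact V.pos s ((S.mem₀ hw).1 hs).1 hc

theorem card_down_aux {d : ℕ} {deg : Pol N →ₗ[ℝ] ℝ} (V : Valid La De' d deg) {u : Finset N}
    (hu : u ∈ De') (hc : u.card = d) (hw : E.w ∈ u) (h2 : E.e₂ ∉ u) :
    (u.erase E.w ∪ {E.e₁, E.e₂}).card = d := by
  have h1 := S.lift_mem ((S.mem₁ hw).1 hu).2 Finset.subset_union_right
  have h3 := V.ecard h1.1
  have h5 := Finset.card_le_card (S.card_aux hw h2)
  omega

theorem pure_down {d : ℕ} {deg : Pol N →ₗ[ℝ] ℝ} (V : Valid La De' d deg) {s : Finset N}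
    (hs : s ∈ De) : ∃ u ∈ De, s ⊆ u ∧ u.card = d := by
  have key : ∀ u ∈ De', u.card = d → E.w ∈ u → (u.erase E.w ∪ {E.e₁, E.e₂}).card = d :=
    fun u hu hc hw => (S.wlog₂ (S.not_edge hu)).elim (S.card_down_aux V hu hc hw) fun h => by
      rw [Finset.pair_comm]; exact S.swap.card_down_aux V hu hc hw h
  have sub : ∀ {u : Finset N} {v : N}, v ∈ s → v ∈ u → v ∈ u.erase E.w ∪ {E.e₁, E.e₂} :=
    fun hv h => Finset.mem_union_left _ (Finset.mem_erase.2 ⟨fun e => S.w_notMem hs (e ▸ hv), h⟩)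
  by_cases he : {E.e₁, E.e₂} ⊆ s
  · obtain ⟨u, hu, h1, hc⟩ := V.pure _ (S.lift_mem hs he).1
    have hw := h1 (Finset.mem_insert_self _ _)
    refine ⟨_, ((S.mem₁ hw).1 hu).2, fun v hv => ?_, key u hu hc hw⟩
    by_cases e : v = E.e₂
    · simp [e]
    · exact sub hv (h1 (Finset.mem_insert_of_mem (Finset.mem_erase.2 ⟨e, hv⟩)))
  · obtain ⟨u, hu, h1, hc⟩ := V.pure _ ((S.mem₀ (S.w_notMem hs)).2 ⟨hs, he⟩)
    by_cases hw : E.w ∈ u
    · exact ⟨_, ((S.mem₁ hw).1 hu).2, fun v hv => sub hv (h1 hv), key u hu hc hw⟩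
    · exact ⟨u, ((S.mem₀ hw).1 hu).1, h1, hc⟩

theorem deg_w_pull {d : ℕ} {deg : Pol N →ₗ[ℝ] ℝ} (V : Valid La De' d deg) (b : Pol N) :
    deg (X E.w * E.pull b) = 0 := by
  rw [← sum_homogeneousComponent b, map_sum, Finset.mul_sum, map_sum]
  refine Finset.sum_eq_zero fun k _ => ?_
  have hb := homogeneousComponent_isHomogeneous k b
  by_cases hk : 1 + k = d
  · refine Pool.Agent.MP_e9c0f3_ag.KH.K9.eq_zero_of_xS
      (Pool.Agent.MP_e9c0f3_ag.KH.K9.ctx_of S.down S.onto) (t := {E.e₁, E.e₂})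
      (φ := deg ∘ₗ LinearMap.mulLeft ℝ (X E.w) ∘ₗ E.pull.toLinearMap)
      (fun q hq => V.ezero (S.w_pull_mem (by rwa [Ic_eq]))) (fun s h1 h2 h3 => ?_) hb
    obtain ⟨u, -, h4, h5⟩ := S.pure_down V h2
    have := Finset.card_le_card h4
    rw [Finset.card_union_of_disjoint h1, Finset.card_pair E.ne] at this
    omega
  · exact V.hom _ hk _ ((isHomogeneous_X ℝ _).mul (E.hom_pull hb))

theorem deg_eq {d : ℕ} {deg : Pol N →ₗ[ℝ] ℝ} (V : Valid La De' d deg) :
    (deg ∘ₗ E.pull.toLinearMap) ∘ₗ E.push = deg := by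
  refine LinearMap.ext fun p => ?_
  obtain ⟨t, ht⟩ := E.split p
  have h := V.ezero (Ideal.mul_mem_right t _ S.edge_mem)
  rw [← ht, map_sub, map_add, S.deg_w_pull V, add_zero, sub_eq_zero] at h
  exact h.symm

/-- A degree map of the subdivision comes from one of the fan. -/
theorem valid_down {d : ℕ} {deg : Pol N →ₗ[ℝ] ℝ} (V : Valid La De' d deg) :
    Valid La De d (deg ∘ₗ E.pull.toLinearMap) := by
  refine ⟨fun s hs => S.pure_down V hs, fun k hk a ha => V.hom k hk _ (E.hom_pull ha),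
    fun a ha b => V.ezero (S.pull_mem (Ideal.mul_mem_right _ _ ha)), fun s hs hc => ?_⟩
  have hw := S.w_notMem hs
  by_cases he : {E.e₁, E.e₂} ⊆ s
  · have h1 := S.lift_mem hs he
    have := V.pos _ h1.1 (h1.2.trans hc)
    rw [← S.deg_eq V, LinearMap.comp_apply, E.push_mon_w hw he, ← smul_eq_C_mul, map_smul] at this
    exact (mul_pos_iff_of_pos_left (inv_pos.2 E.pos₂)).1 this
  · have := V.pos _ ((S.mem₀ hw).2 ⟨hs, he⟩) hc
    rwa [← S.deg_eq V, LinearMap.comp_apply, E.push_mon hw he] at this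

end Sub

end KH
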