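import Pool.Agent.Lib.MP_e9c0f3_ag.KH.Chow
import Pool.Agent.Lib.MP_e9c0f3_ag.KH.EdgeVal

/-! Hodge–Riemann relations: a point, and change of one vertex. -/

open scoped Classical
open MvPolynomial

set_option linter.unusedSectionVars false

noncomputable section

namespace KH

variable {N : Type} [AddCommGroup N] [Module ℝ N] {La : Du N} {De De' : Finset (Finset N)}
  {v w : N} {a : N → ℝ} {c : ℝ}

theorem hr0_pt : HR0 La {∅} := by
  intro d deg V l _
  obtain ⟨u, hu, -, rfl⟩ := V.pure ∅ (Finset.mem_singleton_self _)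
  obtain rfl := Finset.mem_singleton.1 hu
  have := V.pos ∅ hu rfl
  rw [mon_empty] at this
  exact HR_zero zero_mv this _

/-- `De'` is `De` with the vertex `v` replaced by `w = c v`. -/
structure Rn (La : Du N) (De De' : Finset (Finset N)) (v w : N) (c : ℝ) : Prop where
  down : Down De
  down' : Down De'
  hv : {v} ∈ De
  old : v ∉ verts De'
  new : w ∉ verts De
  pos : 0 < c
  rel : ∀ m ∈ La, m w = c * m v
  mem₀ : ∀ s, v ∉ s → w ∉ s → (s ∈ De' ↔ s ∈ De)
  mem₁ : ∀ s, v ∉ s → w ∉ s → (insert w s ∈ De' ↔ insert v s ∈ De)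

/-- The substitution `x_v ↦ c x_w`, `x_w ↦ 0`. -/
def rnm (v w : N) (c : ℝ) : Pol N →ₐ[ℝ] Pol N :=
  aeval fun u => if u = v then C c * X w else if u = w then 0 else X u

/-- The face that corresponds to `s`. -/
def rnf (v w : N) (s : Finset N) : Finset N := if v ∈ s then insert w (s.erase v) else s

theorem rnm_v : rnm v w c (X v) = C c * X w := by simp [rnm]

theorem rnm_w (h : w ≠ v) : rnm v w c (X w) = 0 := by simp [rnm, h]

theorem rnm_X {u : N} (h1 : u ≠ v) (h2 : u ≠ w) : rnm v w c (X u) = X u := by simp [rnm, h1, h2]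

theorem rnm_hom {k : ℕ} {p : Pol N} (hp : p ∈ Hom N k) : rnm v w c p ∈ Hom N k :=
  Ed.hom_aeval (fun u => by
    by_cases h1 : u = v
    · rw [h1, rnm_v]; exact (isHomogeneous_X ℝ _).C_mul _
    by_cases h2 : u = w
    · rw [h2, rnm_w (h2 ▸ h1)]; exact isHomogeneous_zero _ _ _
    · rw [rnm_X h1 h2]; exact isHomogeneous_X ℝ _) hp

theorem rnm_mon₀ {s : Finset N} (h1 : v ∉ s) (h2 : w ∉ s) : rnm v w c (mon s) = mon s := by
  rw [mon, map_prod]
  exact Finset.prod_congr rfl fun u hu => rnm_X (fun e => h1 (e ▸ hu)) fun e => h2 (e ▸ hu)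

theorem rnm_mon {s : Finset N} (h : w ∉ s) :
    rnm v w c (mon s) = (if v ∈ s then c else 1) • mon (rnf v w s) := by
  have h2 : w ∉ s.erase v := fun a => h (Finset.mem_of_mem_erase a)
  unfold rnf
  split_ifs with h1
  · rw [Eg.mon_erase h1, map_mul, rnm_v, rnm_mon₀ (Finset.notMem_erase _ _) h2, mon_insert h2,
      smul_eq_C_mul, mul_assoc]
  · rw [rnm_mon₀ h1 h, one_smul]

theorem card_rnf {s : Finset N} (h : w ∉ s) : (rnf v w s).card = s.card := by
  unfold rnf
  split_ifs with h1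
  · rw [Finset.card_insert_of_notMem fun a => h (Finset.mem_of_mem_erase a),
      Finset.card_erase_add_one h1]
  · rfl

theorem mem_rnf {s : Finset N} {u : N} (h : w ∉ s) (_hne : w ≠ v) :
    u ∈ rnf v w s ↔ if u = w then v ∈ s else u ≠ v ∧ u ∈ s := by
  unfold rnf
  by_cases h1 : v ∈ s <;> by_cases h2 : u = w <;> simp [h1, h2, h]
  exact fun a e => h1 (e ▸ a)

namespace Rn

variable (S : Rn La De De' v w c)
include S

theorem ne : w ≠ v := fun e => S.new (e ▸ mem_verts.2 ⟨_, S.hv, Finset.mem_singleton_self _⟩)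

theorem symm : Rn La De' De w v c⁻¹ :=
  ⟨S.down', S.down, (S.mem₁ ∅ (by simp) (by simp)).2 S.hv, S.new, S.old, inv_pos.2 S.pos,
    fun m hm => by rw [S.rel m hm, inv_mul_cancel_left₀ S.pos.ne'],
    fun s a b => (S.mem₀ s b a).symm, fun s a b => (S.mem₁ s b a).symm⟩

theorem notMem {s : Finset N} (h : s ∈ De) : w ∉ s := fun a => S.new (mem_verts.2 ⟨s, h, a⟩)

theorem mem {s : Finset N} (h : w ∉ s) : rnf v w s ∈ De' ↔ s ∈ De := by
  unfold rnf
  split_ifs with h1
  · rw [S.mem₁ _ (Finset.notMem_erase _ _) fun a => h (Finset.mem_of_mem_erase a),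
      Finset.insert_erase h1]
  · exact S.mem₀ s h1 h

theorem verts_eq : verts De' = insert w ((verts De).erase v) := by
  ext u
  rw [Finset.mem_insert, Finset.mem_erase]
  by_cases h1 : u = w
  · simpa [h1, S.down'.mem_verts] using S.symm.hv
  by_cases h2 : u = v
  · simpa [h2, S.ne.symm] using S.old
  rw [S.down'.mem_verts, S.down.mem_verts, S.mem₀ {u} (by simpa using Ne.symm h2)
    (by simpa using Ne.symm h1)]
  simp [h1, h2]

theorem rnm_lin {l l' : N → ℝ} (h1 : l' w = c * l v) (h2 : ∀ u, u ≠ v → u ≠ w → l' u = l u) :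
    rnm v w c (lin De l) = lin De' l' := by
  have hw : w ∉ (verts De).erase v := fun a => S.new (Finset.mem_of_mem_erase a)
  rw [lin, lin, S.verts_eq, Finset.sum_insert hw, ← Finset.add_sum_erase _ _
    (S.down.mem_verts.2 S.hv), map_add, map_smul, rnm_v, h1, ← smul_eq_C_mul, smul_smul, mul_comm,
    map_sum]
  congr 1
  refine Finset.sum_congr rfl fun u hu => ?_
  have a := (Finset.mem_erase.1 hu).1
  have b : u ≠ w := fun e => hw (e ▸ hu)
  rw [map_smul, rnm_X a b, h2 u a b]

theorem rnm_mem {p : Pol N} (hp : p ∈ Jd La De) : rnm v w c p ∈ Jd La De' := by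
  refine Eg.map_le_of_gen (f := (rnm v w c).toLinearMap) ?_ hp
  rintro _ (⟨s, hs, rfl⟩ | ⟨m, hm, rfl⟩) p <;> rw [AlgHom.toLinearMap_apply, map_mul] <;>
    refine Ideal.mul_mem_right _ _ ?_
  · by_cases hw : w ∈ s
    · rw [Eg.mon_erase hw, map_mul, rnm_w S.ne, zero_mul]; exact Ideal.zero_mem _
    · rw [rnm_mon hw, smul_eq_C_mul]
      exact Ideal.mul_mem_left _ _ (mon_mem_Jd fun a => hs ((S.mem hw).1 a))
  · rw [S.rnm_lin (l' := m) (S.rel m hm) fun _ _ _ => rfl]; exact lin_mem_Jd hm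

theorem rnm_rnm (p : Pol N) : p - rnm v w c (rnm w v c⁻¹ p) ∈ Jd La De' := by
  have h : X v ∣ rnm v w c (rnm w v c⁻¹ p) - p :=
    Ed.hom_dvd (f := (rnm v w c).comp (rnm w v c⁻¹)) (fun u => by
      rw [AlgHom.comp_apply]
      by_cases h1 : u = w
      · rw [h1, rnm_v, map_mul, rnm_v, algHom_C, algebraMap_eq, ← mul_assoc, ← C_mul,
          inv_mul_cancel₀ S.pos.ne', C_1, one_mul, sub_self]
        exact dvd_zero _
      by_cases h2 : u = v
      · rw [h2, rnm_w S.ne.symm]; simp
      · rw [rnm_X h1 h2, rnm_X h2 h1, sub_self]; exact dvd_zero _) p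
  obtain ⟨t, ht⟩ := h
  rw [← neg_sub, ht]
  exact Submodule.neg_mem _ (Ideal.mul_mem_right _ _ (X_mem_Jd S.old))

theorem valid {d : ℕ} {deg : Pol N →ₗ[ℝ] ℝ} (V : Valid La De' d deg) :
    Valid La De d (deg ∘ₗ (rnm v w c).toLinearMap) := by
  refine ⟨fun s hs => ?_, fun k hk p hp => V.hom k hk _ (rnm_hom hp),
    fun p hp b => V.ezero (S.rnm_mem (Ideal.mul_mem_right _ _ hp)), fun s hs hc => ?_⟩
  · have hw := S.notMem hs
    obtain ⟨u, hu, h1, rfl⟩ := V.pure _ ((S.mem hw).2 hs)
    have hv := S.symm.notMem hu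
    refine ⟨rnf w v u, (S.symm.mem hv).2 hu, fun x hx => ?_, card_rnf hv⟩
    rw [mem_rnf hv S.ne.symm]
    split_ifs with e
    · exact h1 ((mem_rnf hw S.ne).2 (by simpa [e] using hx))
    · have : x ≠ w := fun e => hw (e ▸ hx)
      exact ⟨this, h1 ((mem_rnf hw S.ne).2 (by simp [this, e, hx]))⟩
  · have hw := S.notMem hs
    rw [LinearMap.comp_apply, AlgHom.toLinearMap_apply, rnm_mon hw, map_smul]
    refine mul_pos ?_ (V.pos _ ((S.mem hw).2 hs) ((card_rnf hw).trans hc))
    split_ifs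
    · exact S.pos
    · exact one_pos

theorem cvx {l : N → ℝ} (h : Cvx La De' l) : Cvx La De (Function.update l v (c⁻¹ * l w)) := by
  intro t ht
  have hw := S.notMem ht
  obtain ⟨m, hm, h1, h2⟩ := h _ ((S.mem hw).2 ht)
  have mv : m v = c⁻¹ * m w := S.symm.rel m hm
  refine ⟨m, hm, fun u hu => ?_, fun u hu hut => ?_⟩
  · by_cases e : u = v
    · rw [e, Function.update_self, mv, h1 w ((mem_rnf hw S.ne).2 (by simpa [e] using hu))]
    · have : u ≠ w := fun e => hw (e ▸ hu)
      rw [Function.update_of_ne e, h1 u ((mem_rnf hw S.ne).2 (by simp [this, e, hu]))]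
  · by_cases e : u = v
    · rw [e, Function.update_self, mv]
      exact mul_lt_mul_of_pos_left (h2 w (by simp [S.verts_eq])
        fun a => hut (by simpa [e] using (mem_rnf hw S.ne).1 a)) (inv_pos.2 S.pos)
    · have : u ≠ w := fun e => S.new (e ▸ hu)
      rw [Function.update_of_ne e]
      exact h2 u (by simp [S.verts_eq, e, hu])
        fun a => hut (by simpa [this, e] using (mem_rnf hw S.ne).1 a)

theorem hr0 (h : HR0 La De) : HR0 La De' := by
  intro d deg V l hl
  have h1 := h d _ (S.valid V) _ (S.cvx hl)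
  rw [← S.rnm_lin (l := Function.update l v (c⁻¹ * l w))
    (by rw [Function.update_self, mul_inv_cancel_left₀ S.pos.ne'])
    fun u a _ => (Function.update_of_ne a _ _).symm]
  exact (transfer_HR gr_mv V.dat (fun _ _ => rnm_hom) (fun _ => rfl)
    (fun y => ⟨_, V.kill (S.rnm_rnm y)⟩) _).2 h1

end Rn

theorem New.rn (hF : Fan La De) (h : New La De {v} w a) : Rn La De (star De {v} w) v w (a v) := by
  have nw : ∀ s ∈ De, w ∉ s := fun s hs b => h.fresh (mem_verts.2 ⟨s, hs, b⟩)
  have ne : v ≠ w := fun e => nw _ h.mem (by simp [e])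
  refine ⟨hF.down, (star_fan hF h).down, h.mem, fun b => ?_, h.fresh, h.pos v (by simp),
    fun m hm => by simpa using h.eq m hm, fun s h1 h2 => ?_, fun s h1 h2 => ?_⟩
  · obtain ⟨s, hs, b⟩ := mem_verts.1 b
    simp only [star, Finset.mem_union, Finset.mem_filter, Finset.mem_image,
      Finset.singleton_subset_iff] at hs
    rcases hs with hs | ⟨t, ht, rfl⟩
    · exact hs.2 b
    · exact ht.2.1 ((Finset.mem_insert.1 b).resolve_left ne)
  · simp only [star, Finset.mem_union, Finset.mem_filter, Finset.mem_image,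
      Finset.singleton_subset_iff]
    exact ⟨fun b => b.elim And.left fun ⟨t, _, e⟩ => absurd (e ▸ Finset.mem_insert_self _ _) h2,
      fun b => Or.inl ⟨b, h1⟩⟩
  · simp only [star, Finset.mem_union, Finset.mem_filter, Finset.mem_image,
      Finset.singleton_subset_iff]
    constructor
    · rintro (b | ⟨t, ht, e⟩)
      · exact absurd (Finset.mem_insert_self _ _) (nw _ b.1)
      · obtain rfl : t = s := by
          rw [← Finset.erase_insert (nw t ht.1), e, Finset.erase_insert h2]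
        rw [Finset.insert_eq, Finset.union_comm]; exact ht.2.2
    · exact fun b => Or.inr ⟨s, ⟨hF.down _ b _ (Finset.subset_insert _ _), h1,
        by rwa [Finset.union_comm, ← Finset.insert_eq]⟩, rfl⟩

theorem hr0_ren (hF : Fan La De) (h : New La De {v} w a) :
    HR0 La De ↔ HR0 La (star De {v} w) :=
  ⟨(h.rn hF).hr0, (h.rn hF).symm.hr0⟩

end KH
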