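import Pool.Agent.Lib.MP_e9c0f3_ag.KH.Ext
import Pool.Agent.Lib.MP_e9c0f3_ag.KH.HRen
import Pool.Agent.Lib.MP_e9c0f3_ag.KH.HEdge
import Pool.Agent.Lib.MP_e9c0f3_ag.KH.HSusp
import Pool.Agent.Lib.MP_e9c0f3_ag.KH.HModif

/-! Poincaré duality survives the basic operations on fans. -/

open scoped Classical
open MvPolynomial

noncomputable section

namespace KH

variable {N : Type} [AddCommGroup N] [Module ℝ N] {La : Du N}
  {De De' D T : Finset (Finset N)} {v w e e' e₁ e₂ : N} {a : N → ℝ}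

theorem pd0_pt : PD0 La {∅} := by
  intro d deg V p hp
  have hX : ∀ v, X v ∈ Jd La {∅} := fun v => X_mem_Jd (by simp [verts])
  obtain ⟨u, hu, -, rfl⟩ := V.pure ∅ (Finset.mem_singleton_self _)
  obtain rfl := Finset.mem_singleton.1 hu
  have h1 := V.pos ∅ hu rfl
  rw [mon_empty] at h1
  obtain ⟨r, hr⟩ : ∃ r : ℝ, p - C r ∈ Jd La {∅} := by
    clear hp
    induction p using MvPolynomial.induction_on with
    | C r => exact ⟨r, by simp⟩
    | add p q hp hq =>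
      obtain ⟨r, hr⟩ := hp
      obtain ⟨s, hs⟩ := hq
      refine ⟨r + s, ?_⟩
      convert Ideal.add_mem _ hr hs using 1
      rw [map_add]
      ring
    | mul_X p v _ => exact ⟨0, by simpa using Ideal.mul_mem_left _ p (hX v)⟩
  have h2 := deg_of_ann ((mem_ann_congr (V.kill hr)).1 hp)
  rw [← mul_one (C r), ← smul_eq_C_mul, map_smul, smul_eq_mul, mul_eq_zero] at h2
  obtain rfl := h2.resolve_right h1.ne'
  simpa using hr

theorem Rn.pd0 {c : ℝ} (S : Rn La De De' v w c) (h : PD0 La De) : PD0 La De' := by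
  intro d deg V p hp
  have h1 := S.rnm_rnm p
  have h2 := (transfer_ann (deg := deg ∘ₗ (rnm v w c).toLinearMap) (fun _ => rfl)
    fun y => ⟨_, V.kill (S.rnm_rnm y)⟩).1 ((mem_ann_congr (V.kill h1)).1 hp)
  simpa using Ideal.add_mem _ h1 (S.rnm_mem (h d _ (S.valid V) h2))

theorem pd0_ren (hF : Fan La De) (h : New La De {v} w a) :
    PD0 La De ↔ PD0 La (star De {v} w) :=
  ⟨(h.rn hF).pd0, (h.rn hF).symm.pd0⟩

theorem pd0_up (hF : Fan La De) (hne : e₁ ≠ e₂) (h : New La De {e₁, e₂} w a)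
    (h1 : All PD0 La De) : PD0 La (star De {e₁, e₂} w) := by
  intro d deg V
  have S := h.sub hF hne
  have V0 := S.valid_down V
  have := S.pd_up V0 (h1.at (hF.down _ h.mem _ (Finset.empty_subset _)) _ _ V0)
    (PD0.at hF V0 h.mem (h1 _ h.mem))
  rwa [S.deg_eq V] at this

theorem pd0_down (hF : Fan La De) (hne : e₁ ≠ e₂) (h : New La De {e₁, e₂} w a)
    (h1 : PD0 La (star De {e₁, e₂} w)) : PD0 La De := fun _ _ V =>
  (h.sub hF hne).pd_down V (h1 _ _ ((h.sub hF hne).valid_up V))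

theorem pd0_susp {c : ℝ} (hF : Fan (res La {e}) D) (h0 : ∅ ∈ D) (he : ∃ m ∈ La, m e = 1)
    (hc : 0 < c) (h : ∀ m ∈ La, m e' = -c * m e) (h1 : PD0 (res La {e}) D) :
    PD0 La (susp D e e') := by
  intro d deg hv p hp
  obtain ⟨m, hm, hm1⟩ := he
  obtain ⟨d, rfl⟩ := hv.susp_succ h0
  obtain ⟨hv0, B⟩ := bundle_susp hF h0 hm hm1 hc h hv
  obtain ⟨-, -, hJ, hsp⟩ := susp_rel hF h0 hm hm1 hc h
  obtain ⟨x, y, hxy⟩ := hsp p
  obtain ⟨hx, hy⟩ := B.ann.1 ((mem_ann_congr (hv.kill hxy)).1 hp)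
  have h2 := h1 d _ hv0
  simpa using Ideal.add_mem _ hxy
    (Ideal.add_mem _ (hJ (h2 hx)) (Ideal.mul_mem_left _ (X e) (hJ (h2 hy))))

open HModif in
theorem pd0_modif (hF : Fan (res La {e}) T) (hs : D ⊆ T) (hD : Down D) (he : ∃ m ∈ La, m e = 1)
    (h1 : PD0 (res La {e}) T) : PD0 La (modif T D e) := by
  intro d deg hv p hp
  have hF' := fan_modif hF hs hD he
  have hev : e ∉ verts T := hF.notMem_verts fun m hm => (mem_res_one.mp hm).2
  obtain ⟨π, -, -, p3, -, p5, p6, p7⟩ := exists_transfer hs hev he hv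
  have h2 := kil_mem_Jd hs hev (h1 d _ (valid_base hs hev hF' hv) ((transfer_ann p6 p7).2 hp))
  rw [p3] at h2
  simpa using Ideal.add_mem _ (p5 p) h2

/-- degree maps go up and down a stellar subdivision at a vertex or an edge -/
theorem valid_star_iff {z : Finset N} {d : ℕ} (hF : Fan La De) (h : New La De z w a)
    (hz : z.card ≤ 2) :
    (∃ deg, Valid La De d deg) ↔ ∃ deg, Valid La (star De z w) d deg := by
  have h0 := h.ne.card_pos
  rcases (by omega : z.card = 1 ∨ z.card = 2) with h1 | h2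
  · obtain ⟨v, rfl⟩ := Finset.card_eq_one.1 h1
    exact ⟨fun ⟨_, V⟩ => ⟨_, (h.rn hF).symm.valid V⟩, fun ⟨_, V⟩ => ⟨_, (h.rn hF).valid V⟩⟩
  · obtain ⟨x, y, hne, rfl⟩ := Finset.card_eq_two.1 h2
    exact ⟨fun ⟨_, V⟩ => ⟨_, (h.sub hF hne).valid_up V⟩,
      fun ⟨_, V⟩ => ⟨_, (h.sub hF hne).valid_down V⟩⟩

theorem sys_pd0 : Sys (PD0 (N := N)) where
  pt _ := pd0_pt
  ren _ _ _ _ _ hF h := pd0_ren hF h
  up _ _ _ _ _ _ hF hne h h1 _ := pd0_up hF hne h h1
  down _ _ _ _ _ _ hF hne h h1 _ := pd0_down hF hne h (h1.at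
    (((h.sub hF hne).mem₀ (Finset.notMem_empty _)).2
      ⟨hF.down _ h.mem _ (Finset.empty_subset _), by simp⟩))
  susp _ _ _ _ _ hF h0 he hc h h1 _ := pd0_susp hF h0 he hc h (h1.at h0)
  modif _ _ _ _ hF h0 hs hD he _ h1 _ _ := pd0_modif hF hs hD he (h1.at h0)

end KH
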