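import Pool.Agent.Lib.MP_e9c0f3_ag.KH.Ext
import Pool.Agent.Lib.MP_e9c0f3_ag.KH.HEdge

/-! Residue complex: removal of the subdivision of an edge. -/

open scoped Classical
open MvPolynomial ExteriorAlgebra

noncomputable section

namespace KH

variable {N : Type} [AddCommGroup N] [Module ℝ N] {La : Du N} {De De' D T : Finset (Finset N)}
  {e e' e₁ e₂ v w : N} {a : N → ℝ}

namespace RDown

variable {E : Ed N} {r s : Finset N}

theorem w_mem_sp (S : Sub E La De De') (h1 : E.e₁ ∈ s) (h2 : E.e₂ ∈ s) : E.w ∈ sp La s := by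
  have : E.w = (E.w - (E.a₁ • E.e₁ + E.a₂ • E.e₂)) + (E.a₁ • E.e₁ + E.a₂ • E.e₂) := by abel
  rw [this]
  refine add_mem (mem_sp_of_perp (mem_perp.2 fun m hm => ?_))
    (add_mem (Submodule.smul_mem _ _ (mem_sp_of_mem h1)) (Submodule.smul_mem _ _ (mem_sp_of_mem h2)))
  simp [S.rel m hm]

theorem e_mem_sp (S : Sub E La De De') (h1 : E.e₁ ∈ s) (h2 : E.w ∈ s) : E.e₂ ∈ sp La s := by
  have : E.e₂ = E.a₂⁻¹ • (E.w - E.a₁ • E.e₁ - (E.w - (E.a₁ • E.e₁ + E.a₂ • E.e₂))) := by
    rw [show E.w - E.a₁ • E.e₁ - (E.w - (E.a₁ • E.e₁ + E.a₂ • E.e₂)) = E.a₂ • E.e₂ by abel,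
      smul_smul, inv_mul_cancel₀ E.pos₂.ne', one_smul]
  rw [this]
  refine Submodule.smul_mem _ _ (sub_mem (sub_mem (mem_sp_of_mem h2)
    (Submodule.smul_mem _ _ (mem_sp_of_mem h1))) (mem_sp_of_perp (mem_perp.2 fun m hm => ?_)))
  simp [S.rel m hm]

theorem sp_le {u u' : Finset N} (h : ∀ v ∈ u, v ∈ sp La u') : sp La u ≤ sp La u' :=
  sup_le (Submodule.span_le.2 h) fun _ hx => mem_sp_of_perp hx

theorem pow_le {k : ℕ} {u u' : Finset N} (h : ∀ v ∈ u, v ∈ sp La u') (hu : u' ∈ De)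
    (hs : s ⊆ u') : ((sp La u).map (ι ℝ)) ^ k ≤ F La De k s :=
  (pow_le_pow_left' (Submodule.map_mono (sp_le h)) k).trans (pow_le_F hu hs)

theorem F_down (S : Sub E La De De') {k : ℕ} (hw : E.w ∉ s) : F La De' k s ≤ F La De k s := by
  refine F_le fun u hu hs => ?_
  by_cases h : E.w ∈ u
  · refine pow_le (fun v hv => ?_) ((S.mem₁ h).1 hu).2 fun v hv => ?_
    · by_cases k : v = E.w
      · rw [k]
        exact w_mem_sp S (by simp) (by simp)
      · exact mem_sp_of_mem (by simp [k, hv])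
    · have : v ≠ E.w := fun k => hw (k ▸ hv)
      simp [this, hs hv]
  · exact pow_le_F ((S.mem₀ h).1 hu).1 hs

theorem F_up_aux (S : Sub E La De De') {k : ℕ} {u : Finset N} (hu : u ∈ De) (hs : s ⊆ u)
    (h1 : E.e₁ ∈ u) (h : E.e₂ ∉ s) : ((sp La u).map (ι ℝ)) ^ k ≤ F La De' k s := by
  by_cases h2 : E.e₂ ∈ u
  · have hw := S.w_notMem hu
    refine pow_le (u' := insert E.w (u.erase E.e₂)) (fun v hv => ?_) ((S.mem₁ (by simp)).2 ⟨?_, ?_⟩)
      fun v hv => ?_
    · by_cases k : v = E.e₂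
      · rw [k]
        exact e_mem_sp S (by simp [E.ne, h1]) (by simp)
      · exact mem_sp_of_mem (by simp [k, hv])
    · intro k
      have := k (show E.e₂ ∈ _ by simp)
      simp [E.ne₂] at this
    · convert hu using 1
      ext v
      simp only [Finset.mem_union, Finset.mem_erase, Finset.mem_insert, Finset.mem_singleton]
      constructor
      · rintro (⟨k, rfl | k'⟩ | rfl | rfl)
        exacts [absurd rfl k, k'.2, h1, h2]
      · intro hv
        by_cases k : v = E.e₂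
        · exact Or.inr (Or.inr k)
        · exact Or.inl ⟨fun k => hw (k ▸ hv), Or.inr ⟨k, hv⟩⟩
    · have : v ≠ E.e₂ := fun k => h (k ▸ hv)
      simp [this, hs hv]
  · exact pow_le_F ((S.mem₀ (S.w_notMem hu)).2 ⟨hu, fun k => h2 (k (by simp))⟩) hs

theorem F_up (S : Sub E La De De') {k : ℕ} (h : ¬{E.e₁, E.e₂} ⊆ s) :
    F La De k s ≤ F La De' k s := by
  refine F_le fun u hu hs => ?_
  by_cases k : {E.e₁, E.e₂} ⊆ u
  · by_cases h2 : E.e₂ ∈ s
    · exact F_up_aux S.swap hu hs (k (show E.e₂ ∈ _ by simp)) fun h1 =>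
        h (Finset.insert_subset h1 (Finset.singleton_subset_iff.2 h2))
    · exact F_up_aux S hu hs (k (by simp)) h2
  · exact pow_le_F ((S.mem₀ (S.w_notMem hu)).2 ⟨hu, k⟩) hs

/-- sums over the neighbours of a face that misses the new vertex -/
theorem sum_nb (S : Sub E La De De') {M : Type} [AddCommMonoid M] (hw : E.w ∉ r) (f : N → M) :
    ∑ v ∈ nb De' r, f v = (if insert E.w r ∈ De' then f E.w else 0) +
      ∑ v ∈ nb De r, if insert v r ∈ De' then f v else 0 := by
  rw [← Finset.sum_filter]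
  have e : (nb De r).filter (fun v => insert v r ∈ De') = (nb De' r).erase E.w := by
    ext v
    simp only [Finset.mem_filter, mem_nb, Finset.mem_erase]
    constructor
    · rintro ⟨⟨h1, h2⟩, h3⟩
      exact ⟨fun k => S.w_notMem h2 (by simp [k]), h1, h3⟩
    · rintro ⟨h1, h2, h3⟩
      exact ⟨⟨h2, ((S.mem₀ (by simp [hw, h1.symm])).1 h3).1⟩, h3⟩
  rw [e]
  split_ifs with h
  · exact (Finset.add_sum_erase _ _ (mem_nb.2 ⟨hw, h⟩)).symm
  · rw [zero_add, Finset.erase_eq_of_notMem fun k => h (mem_nb.1 k).2]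

theorem dR_eq (S : Sub E La De De') (hw : E.w ∉ r) {y : Finset N → Ex N}
    (h : ∀ s, {E.e₁, E.e₂} ⊆ s ∨ E.w ∈ s → y s = 0) : dR De' y r = dR De y r := by
  rw [dR, sum_nb S hw, h _ (Or.inr (by simp)), mul_zero, ite_self, zero_add]
  refine Finset.sum_congr rfl fun v hv => ?_
  split_ifs with k
  · rfl
  · have h2 := (mem_nb.1 hv).2
    rw [h _ (Or.inl (not_not.1 fun k' => k ((S.mem₀ (S.w_notMem h2)).2 ⟨h2, k'⟩))), mul_zero]

theorem push_weight (S : Sub E La De De') (hF : Fan La De') {q : ℕ} (c' : Finset N → ℝ)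
    (hb : ∀ r ∈ De', E.w ∈ r → r.card = q → ∀ m ∈ La, (∀ v ∈ r, m v = 0) →
      ∑ v ∈ nb De' r, m v * c' (insert v r) = 0) :
    ∃ c : Finset N → ℝ, ∀ r ∈ De, r.card = q → ∀ m ∈ La, (∀ v ∈ r, m v = 0) →
      ∑ v ∈ nb De r, m v * c (insert v r) = ∑ v ∈ nb De' r, m v * c' (insert v r) := by
  obtain ⟨φ, -, hk, hv⟩ := exists_functional (t := {E.w}) (k := q) hF
    (c := fun s => c' (s ∪ {E.w})) fun s hs hc m hm h0 => by
      obtain ⟨h1, h2⟩ := mem_link.1 hs
      simp only [Finset.insert_union]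
      exact hb _ h2 (by simp) (by rw [Finset.card_union_of_disjoint h1]; simpa using hc) m hm h0
  choose ρ hρ using E.pull_sub
  have hX : (X E.w : Pol N) ≠ 0 := X_ne_zero _
  refine ⟨fun s => (if s ∈ De' then c' s else 0) + φ (ρ (mon s)), fun r hr hc m hm h0 => ?_⟩
  have hw := S.w_notMem hr
  have e1 : mon r * lin De m = ∑ v ∈ verts De \ r, m v • mon (insert v r) := by
    rw [lin, ← Finset.sum_subset (Finset.sdiff_subset (t := r)) fun v h1 h2 => by
      rw [h0 v (by simpa [h1] using h2), zero_smul], Finset.mul_sum]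
    refine Finset.sum_congr rfl fun v hv => ?_
    rw [mon_insert (Finset.mem_sdiff.1 hv).2, mul_smul_comm, mul_comm]
  have e2 : ∑ v ∈ verts De \ r, m v • ρ (mon (insert v r)) =
      m E.w • mon r + lin De' m * ρ (mon r) := by
    refine mul_left_cancel₀ hX ?_
    have : X E.w * ∑ v ∈ verts De \ r, m v • ρ (mon (insert v r)) =
        E.pull (mon r * lin De m) - mon r * lin De m := by
      rw [e1, map_sum, ← Finset.sum_sub_distrib, Finset.mul_sum]
      refine Finset.sum_congr rfl fun v _ => ?_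
      rw [map_smul, ← smul_sub, hρ, mul_smul_comm]
    rw [this, map_mul, S.pull_lin_mem hm, eq_add_of_sub_eq (hρ (mon r)), S.lin_eq, smul_eq_C_mul,
      smul_eq_C_mul]
    ring
  have e3 : ∀ s, s ∉ De → E.w ∉ s → φ (ρ (mon s)) = 0 := fun s hs hw => by
    have k : mon s = mon (E.fr s) * mon (s \ E.fr s) := by
      rw [← mon_union Finset.disjoint_sdiff, Finset.union_sdiff_of_subset (E.fr_subset s)]
    have : ρ (mon s) = mon (E.fr s) * ρ (mon (s \ E.fr s)) := by
      refine mul_left_cancel₀ hX ?_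
      rw [← hρ, mul_left_comm, ← hρ, mul_sub, ← k]
      conv_lhs => rw [k, map_mul, E.pull_fr, ← k]
    rw [this]
    refine hk (mon_mem_Ic fun k => hs (S.down _ ((S.mem₁ (by simp)).1 k).2 _ fun v hv => ?_)) _
    have : v ≠ E.w := fun k => hw (k ▸ hv)
    simp only [Finset.mem_union, Finset.mem_erase, E.mem_fr, Finset.mem_insert,
      Finset.mem_singleton]
    tauto
  have e4 : ∑ v ∈ nb De r, m v * φ (ρ (mon (insert v r))) = m E.w * φ (mon r) := by
    have := congrArg φ e2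
    rw [map_add, hk (lin_mem_Ic hm), add_zero, map_smul, map_sum] at this
    rw [← smul_eq_mul, ← this]
    simp only [map_smul, smul_eq_mul]
    refine Finset.sum_subset (fun v hv => Finset.mem_sdiff.2
      ⟨mem_verts.2 ⟨_, (mem_nb.1 hv).2, by simp⟩, (mem_nb.1 hv).1⟩) fun v h1 h2 => ?_
    obtain ⟨h3, h4⟩ := Finset.mem_sdiff.1 h1
    rw [e3 _ (fun k => h2 (mem_nb.2 ⟨h4, k⟩)) ?_, mul_zero]
    simp only [Finset.mem_insert, hw, or_false]
    exact fun k => S.new (k ▸ h3)
  simp only [mul_add, Finset.sum_add_distrib, e4, mul_ite, mul_zero]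
  rw [sum_nb S hw, add_comm]
  congr 1
  have e5 : insert E.w r = r ∪ {E.w} := by rw [Finset.insert_eq, Finset.union_comm]
  rw [e5]
  split_ifs with k
  · rw [hv r (mem_link.2 ⟨by simpa using hw, k⟩) hc]
  · rw [deg_of_ann (hk (mon_mem_Ic k)), mul_zero]

omit [AddCommGroup N] [Module ℝ N] in
theorem card_nb (hv : v ∈ nb De r) : (insert v r).card = r.card + 1 :=
  Finset.card_insert_of_notMem (mem_nb.1 hv).1

theorem res_down (S : Sub E La De De') (hF : Fan La De') (h1 : RES La De')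
    (h2 : RESat La De' {E.w}) (h3 : RESat La De {E.e₁, E.e₂}) : RES La De := by
  intro q j z hz hc
  obtain ⟨y0, -, hy0, hz0⟩ := h3 q j z (fun s hs _ => hz s hs) fun r hr _ => hc r hr
  let z1 : Finset N → Ex N := fun s =>
    if {E.e₁, E.e₂} ⊆ s ∨ E.w ∈ s then 0 else z s - dR De y0 s
  have z0 : ∀ s, {E.e₁, E.e₂} ⊆ s ∨ E.w ∈ s → z1 s = 0 := fun s h => if_pos h
  have hz1 : ∀ s ∈ De, s.card = q → z s - dR De y0 s - z1 s ∈ J La s := fun s hs k => by
    by_cases h : {E.e₁, E.e₂} ⊆ s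
    · rw [z0 s (Or.inl h), sub_zero]
      exact hz0 s hs h k
    · rw [show z1 s = _ from if_neg (not_or.2 ⟨h, S.w_notMem hs⟩), sub_self]
      exact zero_mem _
  obtain ⟨y', hy', hz'⟩ := h1 q j z1 (fun s hs k => by
      by_cases h : E.w ∈ s
      · rw [z0 s (Or.inr h)]
        exact zero_mem _
      · obtain ⟨h4, h5⟩ := (S.mem₀ h).1 hs
        rw [show z1 s = _ from if_neg (not_or.2 ⟨h5, h⟩)]
        exact F_up S h5 (sub_mem (hz s h4 k) (dR_mem_F fun v hv =>
          hy0 _ (mem_nb.1 hv).2 (by rw [card_nb hv, k]))))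
    fun r hr k => by
      by_cases h : E.w ∈ r
      · rw [dR, Finset.sum_eq_zero fun v _ => by rw [z0 _ (Or.inr (by simp [h])), mul_zero]]
        exact zero_mem _
      · obtain ⟨h4, -⟩ := (S.mem₀ h).1 hr
        have := dR_mem_J (La := La) (De := De) (r := r) (z := z - dR De y0 - z1) fun v hv =>
          hz1 _ (mem_nb.1 hv).2 (by rw [card_nb hv, k])
        rw [dR_sub, dR_sub, dR_dR S.down, sub_zero] at this
        rw [dR_eq S h z0]
        simpa using sub_mem (hc r h4 k) this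
  have hz2 : ∀ s ∈ De, s.card = q → z1 s - dR De' y' s ∈ J La s := fun s hs k => by
    by_cases h : {E.e₁, E.e₂} ⊆ s
    · rw [z0 s (Or.inl h), dR, Finset.sum_eq_zero fun v hv =>
        absurd (h.trans (Finset.subset_insert _ _)) (S.not_edge (mem_nb.1 hv).2), sub_zero]
      exact zero_mem _
    · exact hz' s ((S.mem₀ (S.w_notMem hs)).2 ⟨hs, h⟩) k
  have hw : ∀ r ∈ De', E.w ∈ r → r.card = q → dR De' y' r ∈ J La r := fun r hr h k => by
    have := hz' r hr k
    rwa [z0 r (Or.inr h), zero_sub, neg_mem_iff] at this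
  suffices ∃ y : Finset N → Ex N, (∀ s ∈ De, s.card = q + 1 → y s ∈ F La De j s) ∧
      ∀ s ∈ De, s.card = q → dR De' y' s - dR De y s ∈ J La s by
    obtain ⟨y, k1, k2⟩ := this
    refine ⟨y0 + y, fun s hs k => add_mem (hy0 s hs k) (k1 s hs k), fun s hs k => ?_⟩
    rw [dR_add]
    convert add_mem (add_mem (hz1 s hs k) (hz2 s hs k)) (k2 s hs k) using 1
    abel
  cases j with
  | zero =>
    choose! c' hc' using fun s hs k => mem_F_zero (hy' s hs k)
    have e1 : ∀ r : Finset N, r.card = q →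
        dR De' y' r = dR De' (fun s => algebraMap ℝ _ (c' s)) r := fun r k =>
      dR_congr fun v hv => hc' _ (mem_nb.1 hv).2 (by rw [card_nb hv, k])
    obtain ⟨c, hc⟩ := push_weight S hF (q := q) c' fun r hr h k m hm h0 => by
      have := hw r hr h k
      rw [e1 r k, ← neg_mem_iff, ← zero_sub, ← map_zero (ι ℝ)] at this
      simpa using ((dR_scalar (hF.onto r hr) c' 0).1 this m hm h0).symm
    refine ⟨fun s => algebraMap ℝ _ (c s), fun s hs _ => algebraMap_mem_F hs _, fun s hs k => ?_⟩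
    have e2 : dR De' (fun s => algebraMap ℝ _ (c' s)) s =
        ι ℝ (∑ v ∈ nb De' s, c' (insert v s) • v) := by
      rw [dR, map_sum]
      exact Finset.sum_congr rfl fun v _ => by rw [← Algebra.commutes, map_smul, Algebra.smul_def]
    rw [e1 s k, e2]
    refine (dR_scalar (S.onto s hs) c _).2 fun m hm h0 => ?_
    rw [hc s hs k m hm h0, map_sum]
    exact Finset.sum_congr rfl fun v _ => by rw [map_smul, smul_eq_mul, mul_comm]
  | succ j =>
    obtain ⟨y2, -, hy2, hz3⟩ := h2 (q + 1) j y' (fun s hs _ => hy' s hs) fun r hr h k =>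
      hw r hr (h (by simp)) (by omega)
    let y3 : Finset N → Ex N := fun s =>
      if {E.e₁, E.e₂} ⊆ s ∨ E.w ∈ s then 0 else y' s - dR De' y2 s
    have y0' : ∀ s, {E.e₁, E.e₂} ⊆ s ∨ E.w ∈ s → y3 s = 0 := fun s h => if_pos h
    refine ⟨y3, fun s hs k => ?_, fun s hs k => ?_⟩
    · by_cases h : {E.e₁, E.e₂} ⊆ s
      · rw [y0' s (Or.inl h)]
        exact zero_mem _
      · have h4 := S.w_notMem hs
        rw [show y3 s = _ from if_neg (not_or.2 ⟨h, h4⟩)]
        exact F_down S h4 (sub_mem (hy' s ((S.mem₀ h4).2 ⟨hs, h⟩) k) (dR_mem_F fun v hv =>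
          hy2 _ (mem_nb.1 hv).2 (by rw [card_nb hv, k])))
    · have := dR_mem_J (La := La) (De := De') (r := s) (z := y' - dR De' y2 - y3) fun v hv => by
        have h4 := (mem_nb.1 hv).2
        simp only [Pi.sub_apply]
        by_cases h : E.w ∈ insert v s
        · rw [y0' _ (Or.inr h), sub_zero]
          exact hz3 _ h4 (by simpa using h) (by rw [card_nb hv, k])
        · rw [show y3 _ = _ from if_neg (not_or.2 ⟨S.not_edge h4, h⟩), sub_self]
          exact zero_mem _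
      rwa [dR_sub, dR_sub, dR_dR hF.down, sub_zero, dR_eq S (S.w_notMem hs) y0'] at this

end RDown

theorem res_down (hF : Fan La De) (hne : e₁ ≠ e₂) (h : New La De {e₁, e₂} w a)
    (h1 : RES La (star De {e₁, e₂} w)) (h2 : RESat La (star De {e₁, e₂} w) {w})
    (h3 : RESat La De {e₁, e₂}) : RES La De :=
  RDown.res_down (h.sub hF hne) (star_fan hF h) h1 h2 h3

end KH
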