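import Pool.Agent.Lib.MP_e9c0f3_ag.KH.RBase

/-! Residue complex: tropical modification. -/

open scoped Classical
open ExteriorAlgebra

noncomputable section

namespace KH.R

variable {N : Type} [AddCommGroup N] [Module ℝ N] {La : Du N}
  {De T D : Finset (Finset N)} {r s : Finset N} {e : N} {m : Module.Dual ℝ N}
  {a x : Ex N} {y z : Finset N → Ex N} {j k q : ℕ}

theorem ctr_pow_mem {W : Submodule ℝ N} (k : ℕ) :
    (W.map (ι ℝ)) ^ (k + 1) ≤ ((W.map (ι ℝ)) ^ k).comap (ctr m) := by
  induction k with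
  | zero =>
    refine pow_succ_le fun x _ a ha => ?_
    have h := ha
    rw [pow_zero, Submodule.mem_one] at h
    obtain ⟨c, rfl⟩ := h
    rw [Submodule.mem_comap, ctr_ι_mul, ctr_algebraMap, mul_zero, sub_zero]
    exact Submodule.smul_mem _ _ ha
  | succ k ih =>
    refine pow_succ_le fun x hx a ha => ?_
    rw [Submodule.mem_comap, ctr_ι_mul]
    exact Submodule.sub_mem _ (Submodule.smul_mem _ _ ha) (ι_mul_pow hx (ih ha))

theorem ctr_F (h : a ∈ F La De (k + 1) s) : ctr m a ∈ F La De k s :=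
  F_le (W := (F La De k s).comap (ctr m))
    (fun _ hu p => (ctr_pow_mem k).trans (Submodule.comap_mono (le_F hu p))) h

theorem dR_smul (c : ℝ) : dR De (c • z) r = c • dR De z r := by
  simp only [dR, Pi.smul_apply, mul_smul_comm, Finset.smul_sum]

/-- coefficients of positive degree come from the cofaces -/
theorem exists_dR (hD : Down De) (h : x ∈ F La De (k + 1) s) :
    ∃ c : Finset N → Ex N, (∀ t, c t ∈ F La De k t) ∧ x - dR De c s ∈ J La s := by
  let W : Submodule ℝ (Ex N) :=
    { carrier := {x | ∃ c : Finset N → Ex N, (∀ t, c t ∈ F La De k t) ∧ x - dR De c s ∈ J La s}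
      add_mem' := fun ⟨c, h1, h2⟩ ⟨c', h3, h4⟩ => ⟨c + c', fun t => Submodule.add_mem _ (h1 t) (h3 t),
        by rw [dR_add, add_sub_add_comm]; exact Submodule.add_mem _ h2 h4⟩
      zero_mem' := ⟨0, fun _ => Submodule.zero_mem _, by
        rw [dR_eq_zero fun _ _ _ => rfl, sub_zero]; exact Submodule.zero_mem _⟩
      smul_mem' := fun b _ ⟨c, h1, h2⟩ => ⟨b • c, fun t => Submodule.smul_mem _ _ (h1 t), by
        rw [dR_smul, ← smul_sub]; exact Submodule.smul_mem _ _ h2⟩ }
  have hJ : ∀ a ∈ J La s, a ∈ W := fun a ha => ⟨0, fun _ => Submodule.zero_mem _, by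
    rwa [dR_eq_zero fun _ _ _ => rfl, sub_zero]⟩
  refine F_le (W := W) (fun u hu p => pow_succ_le fun x hx a ha => ?_) h
  refine sp_le (W := W.comap (LinearMap.mulRight ℝ a ∘ₗ ι ℝ)) (fun v hv => ?_)
    (fun x hx => hJ _ (ι_mul_mem (mem_sp_perp hx) a)) hx
  by_cases hs : v ∈ s
  · exact hJ _ (ι_mul_mem (mem_sp_self hs) a)
  have p' : insert v s ⊆ u := Finset.insert_subset hv p
  refine ⟨fun t => if t = insert v s then a else 0, fun t => ?_, ?_⟩
  · dsimp only
    split_ifs with k
    · exact k ▸ le_F hu p' ha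
    · exact Submodule.zero_mem _
  · rw [dR, Finset.sum_eq_single_of_mem v (mem_nb.2 ⟨hs, hD u hu _ p'⟩) fun w hw hne => ?_]
    · simp
    · rw [if_neg fun k => hne ?_, mul_zero]
      exact (Finset.mem_insert.1 (k ▸ Finset.mem_insert_self w s)).resolve_right (mem_nb.1 hw).1

omit [AddCommGroup N] [Module ℝ N] in
theorem subset_of_insert (hs : e ∉ s) (h : s ⊆ insert e r) : s ⊆ r := fun _ hv =>
  (Finset.mem_insert.1 (h hv)).resolve_left fun k => hs (k ▸ hv)

theorem F_new (hE : e ∉ verts T) (he : ∃ m ∈ La, m e = 1) (hs : e ∉ s) :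
    F La (modif T D e) k (insert e s) = F (res La {e}) D k s := by
  refine le_antisymm (F_le_F fun u hu p => ?_) (F_le_F fun u hu p =>
    ⟨_, mem_modif.2 (Or.inr ⟨u, hu, rfl⟩), Finset.insert_subset_insert _ p, (sp_res_one he).le⟩)
  rcases mem_modif.1 hu with h | ⟨u, h, rfl⟩
  · exact absurd (mem_verts.2 ⟨u, h, p (Finset.mem_insert_self _ _)⟩) hE
  · exact ⟨u, h, subset_of_insert hs ((Finset.subset_insert _ _).trans p), (sp_res_one he).ge⟩

theorem F_old_le (hD : D ⊆ T) (he : ∃ m ∈ La, m e = 1) (hs : e ∉ s) :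
    F La (modif T D e) k s ≤ F (res La {e}) T k s :=
  F_le_F fun u hu p => by
    rcases mem_modif.1 hu with h | ⟨u, h, rfl⟩
    · exact ⟨u, h, p, sp_anti res_le⟩
    · exact ⟨u, hD h, subset_of_insert hs p, (sp_res_one he).ge⟩

theorem apex_mem (he : ∃ m ∈ La, m e = 1) : e ∈ sp (res La {e}) s :=
  (sp_res_one he).ge (mem_sp_self (Finset.mem_insert_self _ _))

theorem F_lift (he : ∃ m ∈ La, m e = 1) :
    F (res La {e}) T k s ≤ F La (modif T D e) k s ⊔ J (res La {e}) s :=
  F_le fun u hu p => by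
    refine (pow_le_sup (W := sp La u) (La := res La {e}) (s := s) ?_ k).trans
      (sup_le_sup_right (le_F (mem_modif.2 (Or.inl hu)) p) _)
    rw [sp_res_one (s := u) he]
    refine sp_le (fun v hv => ?_) (le_sup_of_le_left le_sup_right)
    rcases Finset.mem_insert.1 hv with rfl | hv
    · exact Submodule.mem_sup_right (apex_mem he)
    · exact Submodule.mem_sup_left (mem_sp_self hv)

theorem exists_lift (hE : e ∉ verts T) (he : ∃ m ∈ La, m e = 1) (h : Ch (res La {e}) T q k y) :
    ∃ y' : Finset N → Ex N, (∀ s, y' s ∈ F La (modif T D e) k s) ∧ (∀ s, e ∈ s → y' s = 0) ∧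
      ∀ s ∈ T, s.card = q → y s - y' s ∈ J (res La {e}) s := by
  have key : ∀ s, ∃ b ∈ F La (modif T D e) k s, (e ∈ s → b = 0) ∧
      (s ∈ T → s.card = q → y s - b ∈ J (res La {e}) s) := fun s => by
    by_cases p : s ∈ T ∧ s.card = q
    · obtain ⟨b, h1, c, h2, h3⟩ := Submodule.mem_sup.1 (F_lift (D := D) he (h s p.1 p.2))
      exact ⟨b, h1, fun k => absurd (mem_verts.2 ⟨s, p.1, k⟩) hE, fun _ _ => by
        rwa [← h3, add_sub_cancel_left]⟩
    · exact ⟨0, Submodule.zero_mem _, fun _ => rfl, fun h1 h2 => absurd ⟨h1, h2⟩ p⟩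
  choose y' h1 h2 h3 using key
  exact ⟨y', h1, h2, h3⟩

/-- the kernel of the projection along the apex -/
def Ker (La : Du N) (T D : Finset (Finset N)) (e : N) : Prop :=
  ∀ j, ∀ s ∈ T, ∀ x ∈ F La (modif T D e) (j + 1) s, x ∈ J (res La {e}) s →
    ∃ a ∈ F (res La {e}) D j s, x - ι ℝ e * a ∈ J La s

theorem res_of_ker (hF : Fan (res La {e}) T) (hs : D ⊆ T) (hD : Down D) (he : ∃ m ∈ La, m e = 1)
    (hk : Ker La T D e) (hr : RES (res La {e}) T) : RES La (modif T D e) := by
  intro q j z hz hc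
  have hE : e ∉ verts T := hF.notMem_verts fun m hm =>
    (mem_res.1 hm).2 e (Finset.mem_singleton_self e)
  have fr : ∀ s ∈ T, e ∉ s := fun s h k => hE (mem_verts.2 ⟨s, h, k⟩)
  have old : ∀ s ∈ T, s ∈ modif T D e := fun s h => mem_modif.2 (Or.inl h)
  have hd : Down (modif T D e) := Down.modif hF.down hs hD
  obtain ⟨y0, y1, y2⟩ := hr q j z (fun s h p => F_old_le hs he (fr s h) (hz s (old s h) p))
    fun r h p => by
      have k := J_le_J (sp_anti (La' := res La {e}) res_le) (hc r (old r h) p)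
      rw [dR_modif_old hE hs (fr r h)] at k
      refine (Submodule.add_mem_iff_left _ ?_).1 k
      split_ifs
      exacts [ι_mul_mem (apex_mem he) _, Submodule.zero_mem _]
  obtain ⟨y, y3, y4, y5⟩ := exists_lift (D := D) hE he y1
  have hy : Ch La (modif T D e) (q + 1) j y := fun s _ _ => y3 s
  have key : ∀ s ∈ T, s.card = q → ∃ a ∈ F (res La {e}) D j s,
      (z - dR (modif T D e) y) s - ι ℝ e * a ∈ J La s := fun s h p => by
    refine hk j s h _ (Ch.sub hz hy.dR s (old s h) p) ?_
    rw [Pi.sub_apply, dR_modif_old hE hs (fr s h), y4 _ (Finset.mem_insert_self _ _), mul_zero,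
      ite_self, add_zero]
    have k := Submodule.add_mem _ (y2 s h p) (dR_mem_J (De := T) (z := y0 - y) (r := s)
      fun v hv k => y5 _ k (by rw [Finset.card_insert_of_notMem hv, p]))
    rwa [dR_sub, sub_add_sub_cancel] at k
  choose! a a1 a2 using key
  refine Bd.of_sub hy (bd_modif (y := fun s => if e ∈ s then a (s.erase e) else 0) hE hs hd
    (fun s h => (hF.onto s (hs h)).insert_of_res he) (Cy.sub_dR hd hc y) (fun s h p => ?_)
    fun s h p => ?_)
  · dsimp only
    split_ifs with k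
    · rcases mem_modif.1 h with k' | ⟨r, h', rfl⟩
      · exact absurd k (fr s k')
      · have er := fr r (hs h')
        rw [Finset.card_insert_of_notMem er] at p
        rw [Finset.erase_insert er, F_new hE he er]
        exact a1 r (hs h') (by omega)
    · exact Submodule.zero_mem _
  · rw [dR_modif_old hE hs (fr s h), dR_eq_zero fun v _ k => if_neg (fr _ k), zero_add,
      if_pos (Finset.mem_insert_self _ _), Finset.erase_insert (fr s h)]
    split_ifs with k
    · exact a2 s h p
    · simpa [F_eq_zero hD k (a1 s h p)] using a2 s h p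

theorem ker_of_all (hF : Fan (res La {e}) T) (hs : D ⊆ T) (hD : Down D) (he : ∃ m ∈ La, m e = 1)
    (hl : Lin La T D e) (hr : All RES (res La {e}) T) : Ker La T D e := by
  have hE : e ∉ verts T := hF.notMem_verts fun m hm =>
    (mem_res.1 hm).2 e (Finset.mem_singleton_self e)
  have fr : ∀ s ∈ T, e ∉ s := fun s h k => hE (mem_verts.2 ⟨s, h, k⟩)
  have hd : Down (modif T D e) := Down.modif hF.down hs hD
  have out : ∀ j, ∀ s ∈ T, s ∉ D → ∀ x ∈ F La (modif T D e) (j + 1) s, x ∈ J (res La {e}) s →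
      ∃ a ∈ F (res La {e}) D j s, x - ι ℝ e * a ∈ J La s := fun j s h h' x h1 h2 => by
    obtain ⟨k, k1, k2, k3⟩ := hl s h h'
    have z : ctr k x = 0 := F_le (W := LinearMap.ker (ctr k)) (fun u hu p => by
      rcases mem_modif.1 hu with g | ⟨u, g, rfl⟩
      · exact ctr_pow (fun x hx => kill_sp k1 (k3 u g p) hx) _
      · exact absurd (hD u g s (subset_of_insert (fr s h) p)) h') h1
    rw [J_res_one he] at h2
    exact ⟨0, Submodule.zero_mem _, z ▸ sub_ctr_mem k1 k2 (k3 s h (Finset.Subset.refl s)) h2⟩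
  intro j
  induction j with
  | zero =>
    intro s h x h1 h2
    by_cases h' : s ∈ D
    swap
    · exact out 0 s h h' x h1 h2
    obtain ⟨m, m1, m2, m3⟩ := exists_dual ((hF.onto s h).insert_of_res he) (fr s h)
    obtain ⟨c, hc⟩ := exists_of_F_zero (ctr_F (m := m) h1)
    rw [J_res_one he] at h2
    exact ⟨ctr m x, hc ▸ algebraMap_mem_F h' c, sub_ctr_mem m1 m2 m3 h2⟩
  | succ j ih =>
    intro s h x h1 h2
    by_cases h' : s ∈ D
    swap
    · exact out _ s h h' x h1 h2
    obtain ⟨c, c1, c2⟩ := exists_dR hd h1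
    rw [dR_modif_old hE hs (fr s h), if_pos h'] at c2
    obtain ⟨b0, b1, -, b2⟩ := at_of_all hF hr h (s.card + 1) j c
      (fun t ht _ _ => F_old_le hs he (fr t ht) (c1 t)) fun r _ p k => by
        rw [← Finset.eq_of_subset_of_card_le p (by omega)]
        have g := Submodule.sub_mem _ (Submodule.sub_mem _ h2
          (J_le_J (sp_anti (La' := res La {e}) res_le) c2))
          (ι_mul_mem (apex_mem he) (c (insert e s)))
        rwa [sub_sub_cancel, add_sub_cancel_right] at g
    obtain ⟨b, b3, -, b4⟩ := exists_lift (D := D) hE he b1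
    have key : ∀ t ∈ T, s ⊆ t → t.card = s.card + 1 → ∃ a ∈ F (res La {e}) D j t,
        c t - dR T b t - ι ℝ e * a ∈ J La t := fun t ht p k => by
      refine ih t ht _ (Submodule.sub_mem _ (c1 t) (dR_mem_F fun v _ _ => b3 _)) ?_
      have g := Submodule.add_mem _ (b2 t ht p k) (dR_mem_J (De := T) (z := b0 - b) (r := t)
        fun v hv g => b4 _ g (by rw [Finset.card_insert_of_notMem hv, k]))
      rwa [dR_sub, sub_add_sub_cancel] at g
    choose! a a1 a2 using key
    have g := dR_mem_J (De := T) (z := c - dR T b - fun t => ι ℝ e * a t) (r := s)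
      fun v hv k => a2 _ k (Finset.subset_insert _ _) (Finset.card_insert_of_notMem hv)
    rw [dR_sub, dR_sub, dR_dR hF.down, dR_ι_mul] at g
    refine ⟨c (insert e s) - dR T a s, Submodule.sub_mem _ (F_new hE he (fr s h) ▸ c1 _)
      (dR_mem_F fun v hv k => a1 _ k (Finset.subset_insert _ _) (Finset.card_insert_of_notMem hv)),
      ?_⟩
    convert Submodule.add_mem _ c2 g using 1
    rw [mul_sub]
    abel

end KH.R

namespace KH

variable {N : Type} [AddCommGroup N] [Module ℝ N] {La : Du N} {T D : Finset (Finset N)} {e : N}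

theorem res_modif (hF : Fan (res La {e}) T) (h0 : ∅ ∈ T) (hs : D ⊆ T) (hD : Down D)
    (he : ∃ m ∈ La, m e = 1) (hl : Lin La T D e) (hr : All RES (res La {e}) T) :
    RES La (modif T D e) :=
  R.res_of_ker hF hs hD he (R.ker_of_all hF hs hD he hl hr) (hr.at h0)

end KH
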