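import Pool.Agent.Lib.MP_e9c0f3_ag.KH.RModif

/-! Residue complex: suspension. -/

open scoped Classical
open ExteriorAlgebra

noncomputable section

namespace KH

variable {N : Type} [AddCommGroup N] [Module ℝ N] {La : Du N} {D : Finset (Finset N)} {e e' : N}

/-- the cone over a fan -/
theorem R.res_cone (hF : Fan (res La {e}) D) (he : ∃ m ∈ La, m e = 1)
    (h1 : RES (res La {e}) D) : RES La (modif D D e) := by
  refine R.res_of_ker hF (Finset.Subset.refl D) hF.down he (fun j s h x h2 h3 => ?_) h1
  have fr : e ∉ s := fun k => hF.notMem_verts (fun m hm =>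
    (mem_res.1 hm).2 e (Finset.mem_singleton_self e)) (mem_verts.2 ⟨s, h, k⟩)
  obtain ⟨m, m1, m2, m3⟩ := R.exists_dual ((hF.onto s h).insert_of_res he) fr
  rw [R.J_res_one he] at h3
  exact ⟨R.ctr m x, R.F_old_le (Finset.Subset.refl D) he fr (R.ctr_F h2),
    R.sub_ctr_mem m1 m2 m3 h3⟩

theorem res_susp {c : ℝ} (hF : Fan (res La {e}) D) (he : ∃ m ∈ La, m e = 1) (hc : 0 < c)
    (h : ∀ m ∈ La, m e' = -c * m e) (h1 : RES (res La {e}) D) : RES La (susp D e e') := by
  have z : ∀ m ∈ res La {e}, m e = 0 := fun m hm =>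
    (mem_res.1 hm).2 e (Finset.mem_singleton_self e)
  have f1 := hF.notMem_verts z
  have f2 : e' ∉ verts D := hF.notMem_verts fun m hm => by rw [h m (res_le hm), z m hm, mul_zero]
  have ne := ne_opp he hc h
  have he' := one_opp he hc h
  have hr := res_opp hc h
  have hS := fan_susp hF he hc h
  have f3 : e' ∉ verts (modif D D e) := fun k => by
    rcases Finset.mem_insert.1 (verts_modif k) with k | k
    · exact ne k.symm
    · exact f2 (by simpa using k)
  have sub : D ⊆ modif D D e := Finset.subset_union_left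
  have fr : ∀ s ∈ modif D D e, e' ∉ s := fun s hs k => f3 (mem_verts.2 ⟨s, hs, k⟩)
  have old : ∀ s ∈ modif D D e, s ∈ susp D e e' := fun s hs => mem_modif.2 (Or.inl hs)
  refine R.res_of_at hS.down (R.at_of_link (t := {e'}) (R.onto_one he') ?_) fun q j z hz hc h0 => ?_
  · rwa [susp_comm, link_susp_apex f2 f1 ne.symm, hr]
  have hle : ∀ k, ∀ s ∈ modif D D e, F La (susp D e e') k s ≤ F La (modif D D e) k s :=
    fun k s hs => R.F_le_F fun u hu p => by
      rcases mem_modif.1 hu with g | ⟨u, g, rfl⟩
      · exact ⟨u, g, p, le_rfl⟩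
      · refine ⟨insert e u, mem_modif.2 (Or.inr ⟨u, g, rfl⟩),
          (R.subset_of_insert (fr s hs) p).trans (Finset.subset_insert _ _), ?_⟩
        rw [← R.sp_res_one he, ← R.sp_res_one he', hr]
  obtain ⟨y, y1, y2⟩ := R.res_cone hF he h1 q j z (fun s hs p => hle _ s hs (hz s (old s hs) p))
    fun r g p => by
      have k := hc r (old r g) p
      rw [susp_eq, R.dR_modif_old f3 sub (fr r g)] at k
      refine (Submodule.add_mem_iff_left _ ?_).1 k
      split_ifs with g'
      · exact R.ι_mul_J_insert (h0 _ (mem_modif.2 (Or.inr ⟨r, g', rfl⟩)) (by simp)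
          (by rw [Finset.card_insert_of_notMem (fr r g), p]))
      · exact Submodule.zero_mem _
  refine R.bd_modif (T := modif D D e) (D := D) (e := e')
    (y := fun s => if e' ∈ s then 0 else y s) f3 sub hS.down
    (fun s hs => hS.onto _ (mem_modif.2 (Or.inr ⟨s, hs, rfl⟩))) hc (fun s hs p => ?_)
    fun s hs p => ?_
  · dsimp only
    split_ifs with k
    · exact Submodule.zero_mem _
    · exact R.F_mono Finset.subset_union_left (y1 s (R.modif_old k hs) p)
  · rw [R.dR_modif_old f3 sub (fr s hs), if_pos (Finset.mem_insert_self _ _), mul_zero, ite_self,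
      add_zero, R.dR_congr (z := y) fun v _ k => if_neg (fr _ k)]
    exact y2 s hs p

end KH
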