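import Pool.Agent.Lib.MP_e9c0f3_ag.KH.Ext

/-! Residue complex: subdivision of an edge. -/

open scoped Classical
open MvPolynomial ExteriorAlgebra

noncomputable section

namespace KH

variable {N : Type} [AddCommGroup N] [Module ℝ N] {La : Du N} {De D T : Finset (Finset N)}
  {e e' e₁ e₂ v w : N} {a : N → ℝ}

namespace RUp

variable {s t u : Finset N} {k : ℕ} {y y' : Finset N → Ex N}

theorem swap (h : New La De {e₁, e₂} w a) : New La De {e₂, e₁} w a := Finset.pair_comm e₁ e₂ ▸ h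

theorem key (hne : e₁ ≠ e₂) (h : New La De {e₁, e₂} w a) :
    w - (a e₁ • e₁ + a e₂ • e₂) ∈ sp La s :=
  mem_sp_of_perp (mem_perp.2 fun m hm => by simp [h.eq m hm, Finset.sum_pair hne])

theorem pos (h : New La De {e₁, e₂} w a) : a e₂ ≠ 0 := (h.pos e₂ (by simp)).ne'

theorem fresh (h : New La De {e₁, e₂} w a) (hu : u ∈ De) : w ∉ u :=
  fun k => h.fresh (mem_verts.2 ⟨u, hu, k⟩)

theorem ne_w (h : New La De {e₁, e₂} w a) : w ≠ e₂ := fun k => fresh h h.mem (by simp [k])

theorem sub_mem' (hne : e₁ ≠ e₂) (h : New La De {e₁, e₂} w a) (h1 : e₁ ∈ s) :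
    e₂ - (a e₂)⁻¹ • w ∈ sp La s := by
  have := Submodule.smul_mem _ (-(a e₂)⁻¹)
    (add_mem (key (s := s) hne h) (Submodule.smul_mem _ (a e₁) (mem_sp_of_mem h1)))
  convert this using 1
  match_scalars <;> field_simp [pos h] <;> ring

theorem sp_le (h : ∀ v ∈ s, v ∈ sp La t) : sp La s ≤ sp La t :=
  sup_le (Submodule.span_le.2 h) le_sup_right

theorem sp_new (hne : e₁ ≠ e₂) (h : New La De {e₁, e₂} w a) (h1 : e₁ ∈ t) :
    sp La (insert e₂ t) ≤ sp La (insert w t) := by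
  refine sp_le fun v hv => ?_
  rcases Finset.mem_insert.1 hv with rfl | hv
  · simpa using add_mem (sub_mem' hne h (Finset.mem_insert_of_mem (b := w) h1))
      (Submodule.smul_mem _ (a v)⁻¹ (mem_sp_of_mem (Finset.mem_insert_self w t)))
  · exact mem_sp_of_mem (Finset.mem_insert_of_mem hv)

omit [AddCommGroup N] [Module ℝ N] in
theorem union_pair (h1 : e₁ ∈ t) : t ∪ {e₁, e₂} = insert e₂ t := by
  ext v
  simp only [Finset.mem_union, Finset.mem_insert, Finset.mem_singleton]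
  exact ⟨fun k => k.elim Or.inr fun k => k.elim (fun k => Or.inr (k ▸ h1)) Or.inl,
    fun k => k.elim (fun k => Or.inr (Or.inr k)) Or.inl⟩

omit [AddCommGroup N] [Module ℝ N] in
theorem not_sub (h2 : e₂ ∉ t) : ¬({e₁, e₂} : Finset N) ⊆ t := fun k => h2 (k (by simp))

theorem new_mem (hF : Fan La De) (h : New La De {e₁, e₂} w a) (hw : w ∉ t) (h1 : e₁ ∈ t)
    (h2 : e₂ ∉ t) : insert w t ∈ star De {e₁, e₂} w ↔ insert e₂ t ∈ De := by
  rw [insert_mem_star hF.down h.fresh hw, union_pair h1, and_iff_right (not_sub h2)]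

theorem F_down (hne : e₁ ≠ e₂) (h : New La De {e₁, e₂} w a) (hw : w ∉ s) :
    F La (star De {e₁, e₂} w) k s ≤ F La De k s := F_le fun u hu hsu => by
  rcases mem_star.1 hu with ⟨k1, -⟩ | ⟨t, -, -, k3, rfl⟩
  · exact pow_le_F k1 hsu
  · refine (pow_le_pow_left' (Submodule.map_mono (sp_le fun v hv => ?_)) k).trans (pow_le_F k3
      (((Finset.subset_insert_iff_of_notMem hw).1 hsu).trans Finset.subset_union_left))
    rcases Finset.mem_insert.1 hv with rfl | hv
    · simpa using add_mem (key (s := t ∪ {e₁, e₂}) hne h) (add_mem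
        (Submodule.smul_mem _ (a e₁) (mem_sp_of_mem (v := e₁) (by simp)))
        (Submodule.smul_mem _ (a e₂) (mem_sp_of_mem (v := e₂) (by simp))))
    · exact mem_sp_of_mem (Finset.mem_union_left _ hv)

theorem pow_new (hF : Fan La De) (hne : e₁ ≠ e₂) (h : New La De {e₁, e₂} w a) (hu : u ∈ De)
    (h1 : e₁ ∈ u) (h2 : e₂ ∈ u) (hs : s ⊆ insert w (u.erase e₂)) :
    ((sp La u).map (ι ℝ)) ^ k ≤ F La (star De {e₁, e₂} w) k s := by
  have k1 : e₁ ∈ u.erase e₂ := Finset.mem_erase.2 ⟨hne, h1⟩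
  have k2 := sp_new hne h k1
  rw [Finset.insert_erase h2] at k2
  refine (pow_le_pow_left' (Submodule.map_mono k2) k).trans (pow_le_F ((new_mem hF h
    (fun k => fresh h hu (Finset.mem_of_mem_erase k)) k1 (Finset.notMem_erase _ _)).2 ?_) hs)
  rwa [Finset.insert_erase h2]

theorem F_old (hF : Fan La De) (hne : e₁ ≠ e₂) (h : New La De {e₁, e₂} w a) (h2 : e₂ ∉ s) :
    F La De k s ≤ F La (star De {e₁, e₂} w) k s := F_le fun u hu hsu => by
  by_cases k : ({e₁, e₂} : Finset N) ⊆ u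
  · exact pow_new hF hne h hu (k (by simp)) (k (by simp))
      ((Finset.subset_erase.2 ⟨hsu, h2⟩).trans (Finset.subset_insert _ _))
  · exact pow_le_F (mem_star.2 (Or.inl ⟨hu, k⟩)) hsu

theorem F_new (hF : Fan La De) (hne : e₁ ≠ e₂) (h : New La De {e₁, e₂} w a) (h1 : e₁ ∈ t)
    (h2 : e₂ ∉ t) : F La De k (insert e₂ t) ≤ F La (star De {e₁, e₂} w) k (insert w t) :=
  F_le fun _ hu hsu =>
    pow_new hF hne h hu (hsu (Finset.mem_insert_of_mem h1)) (hsu (Finset.mem_insert_self _ _))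
      (Finset.insert_subset_insert w
        (Finset.subset_erase.2 ⟨(Finset.subset_insert _ _).trans hsu, h2⟩))

theorem dR_eq (h1 : ∀ v ∈ nb De s, v ∉ nb D s → y (insert v s) = 0)
    (h2 : ∀ v ∈ nb D s, v ∉ nb De s → y' (insert v s) = 0)
    (h3 : ∀ v ∈ nb De s, v ∈ nb D s → y (insert v s) = y' (insert v s)) :
    dR De y s = dR D y' s :=
  Finset.sum_congr_of_eq_on_inter (fun v a b => by rw [h1 v a b, mul_zero])
    (fun v a b => by rw [h2 v a b, mul_zero]) fun v a b => by rw [h3 v a b]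

/-- an old face through one end of the edge -/
theorem old_one (hF : Fan La De) (hne : e₁ ≠ e₂) (h : New La De {e₁, e₂} w a)
    (p0 : ∀ s, w ∉ s → y' s = y s) (hw : w ∉ s) (h1 : e₁ ∈ s) (h2 : e₂ ∉ s)
    (p1 : y' (insert w s) = (a e₂)⁻¹ • y (insert e₂ s)) :
    dR De y s - dR (star De {e₁, e₂} w) y' s ∈ J La s := by
  have hA : (nb (star De {e₁, e₂} w) s).erase w = (nb De s).erase e₂ := by
    ext v
    simp only [Finset.mem_erase, mem_nb]
    constructor
    · rintro ⟨k1, k2, k3⟩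
      obtain ⟨k4, k5⟩ := (mem_star_not (by simp [hw, k1.symm])).1 k3
      exact ⟨fun k => k5 (by simp [Finset.insert_subset_iff, h1, k]), k2, k4⟩
    · rintro ⟨k1, k2, k3⟩
      exact ⟨fun k => fresh h k3 (by simp [k]), k2,
        mem_star.2 (Or.inl ⟨k3, not_sub (by simp [h2, k1.symm])⟩)⟩
  have hB : ∑ v ∈ (nb De s).erase e₂, ι ℝ v * y' (insert v s) =
      ∑ v ∈ (nb De s).erase e₂, ι ℝ v * y (insert v s) := Finset.sum_congr rfl fun v hv => by
    rw [p0 _ (fresh h (mem_nb.1 (Finset.mem_of_mem_erase hv)).2)]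
  have hC : w ∈ nb (star De {e₁, e₂} w) s ↔ e₂ ∈ nb De s := by
    rw [mem_nb, mem_nb, new_mem hF h hw h1 h2, and_iff_right hw, and_iff_right h2]
  by_cases k : e₂ ∈ nb De s
  · rw [dR, dR, ← Finset.add_sum_erase _ _ k, ← Finset.add_sum_erase _ _ (hC.2 k), hA, hB,
      add_sub_add_right_eq_sub, p1, mul_smul_comm, ← smul_mul_assoc, ← sub_mul, ← map_smul,
      ← map_sub]
    exact ι_mul_mem_J (sub_mem' hne h h1) _
  · rw [Finset.erase_eq_of_notMem k] at hA hB
    rw [Finset.erase_eq_of_notMem (mt hC.1 k)] at hA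
    rw [dR, dR, hA, hB, sub_self]
    exact zero_mem _

/-- an old face that misses the edge -/
theorem old_zero (hne : e₁ ≠ e₂) (h : New La De {e₁, e₂} w a)
    (p0 : ∀ s, w ∉ s → y' s = y s) (hw : w ∉ s) (h1 : e₁ ∉ s) (h2 : e₂ ∉ s)
    (p3 : y' (insert w s) = 0) : dR De y s = dR (star De {e₁, e₂} w) y' s := by
  refine dR_eq (fun v k1 k2 => (k2 ?_).elim) (fun v k1 k2 => ?_)
    fun v k1 _ => (p0 _ (fresh h (mem_nb.1 k1).2)).symm
  · refine mem_nb.2 ⟨(mem_nb.1 k1).1, mem_star.2 (Or.inl ⟨(mem_nb.1 k1).2, fun k => hne ?_⟩)⟩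
    simp only [Finset.insert_subset_iff, Finset.singleton_subset_iff, Finset.mem_insert, h1, h2,
      or_false] at k
    exact k.1.trans k.2.symm
  · by_cases k : v = w
    · rw [k, p3]
    · exact (k2 (mem_nb.2 ⟨(mem_nb.1 k1).1,
        ((mem_star_not (by simp [hw, Ne.symm k])).1 (mem_nb.1 k1).2).1⟩)).elim

/-- a new face through one end of the edge -/
theorem new_one (hF : Fan La De) (h : New La De {e₁, e₂} w a) (hw : w ∉ t) (h1 : e₁ ∈ t)
    (h2 : e₂ ∉ t)
    (p1 : ∀ t, w ∉ t → e₁ ∈ t → e₂ ∉ t → y' (insert w t) = (a e₂)⁻¹ • y (insert e₂ t)) :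
    dR (star De {e₁, e₂} w) y' (insert w t) = (a e₂)⁻¹ • dR De y (insert e₂ t) := by
  have hA : nb (star De {e₁, e₂} w) (insert w t) = nb De (insert e₂ t) := by
    ext v
    simp only [mem_nb, Finset.mem_insert, not_or]
    constructor
    · rintro ⟨⟨k1, k2⟩, k3⟩
      rw [Finset.insert_comm, insert_mem_star hF.down h.fresh (by simp [hw, Ne.symm k1]),
        union_pair (Finset.mem_insert_of_mem h1), Finset.insert_comm] at k3
      exact ⟨⟨fun k => k3.1 (by simp [Finset.insert_subset_iff, h1, k]), k2⟩, k3.2⟩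
    · rintro ⟨⟨k1, k2⟩, k3⟩
      have k4 : v ≠ w := fun k => fresh h k3 (by simp [k])
      rw [Finset.insert_comm, new_mem hF h (by simp [hw, k4.symm]) (Finset.mem_insert_of_mem h1)
        (by simp [h2, Ne.symm k1]), Finset.insert_comm]
      exact ⟨⟨k4, k2⟩, k3⟩
  rw [dR, dR, hA, Finset.smul_sum]
  refine Finset.sum_congr rfl fun v hv => ?_
  obtain ⟨k1, k3⟩ := mem_nb.1 hv
  have k4 : w ≠ v := fun k => fresh h k3 (by simp [k])
  rw [Finset.insert_comm, p1 _ (by simp [hw, k4]) (Finset.mem_insert_of_mem h1)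
    (by simpa [h2, eq_comm] using fun k => k1 (by simp [k])), Finset.insert_comm, mul_smul_comm]

/-- a new face that misses the edge -/
theorem new_zero (hF : Fan La De) (hne : e₁ ≠ e₂) (h : New La De {e₁, e₂} w a) (hw : w ∉ t)
    (h1 : e₁ ∉ t) (h2 : e₂ ∉ t) (ht : t ∪ {e₁, e₂} ∈ De)
    (p1 : ∀ t, w ∉ t → e₁ ∈ t → e₂ ∉ t → y' (insert w t) = (a e₂)⁻¹ • y (insert e₂ t))
    (p2 : ∀ t, w ∉ t → e₂ ∈ t → e₁ ∉ t → y' (insert w t) = (a e₁)⁻¹ • y (insert e₁ t))
    (p3 : ∀ t, w ∉ t → e₁ ∉ t → e₂ ∉ t → y' (insert w t) = 0) :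
    dR (star De {e₁, e₂} w) y' (insert w t) ∈ J La (insert w t) := by
  have w1 := ne_w (swap h)
  have w2 := ne_w h
  have hA : ({e₁, e₂} : Finset N) ⊆ nb (star De {e₁, e₂} w) (insert w t) := fun v hv => by
    have k : v ≠ w := fun k => fresh h h.mem (k ▸ hv)
    have k' : v ∉ t := by
      rcases Finset.mem_insert.1 hv with k | k
      · rwa [k]
      · rwa [Finset.mem_singleton.1 k]
    refine mem_nb.2 ⟨by simp [k, k'], ?_⟩
    rw [Finset.insert_comm, insert_mem_star hF.down h.fresh (by simp [hw, k.symm]),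
      Finset.insert_union, Finset.insert_eq_of_mem (Finset.mem_union_right _ hv)]
    refine ⟨fun k => hne ?_, ht⟩
    simp only [Finset.insert_subset_iff, Finset.singleton_subset_iff, Finset.mem_insert, h1, h2,
      or_false] at k
    exact k.1.trans k.2.symm
  rw [dR, ← Finset.sum_subset hA fun v k1 k2 => ?_, Finset.sum_pair hne,
    Finset.insert_comm e₁, Finset.insert_comm e₂, p1 _ (by simp [hw, w1]) (by simp)
    (by simp [h2, hne.symm]), p2 _ (by simp [hw, w2]) (by simp) (by simp [h1, hne]),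
    Finset.insert_comm e₂, mul_smul_comm, mul_smul_comm, ← smul_mul_assoc, ← smul_mul_assoc,
    ← add_mul, ← map_smul, ← map_smul, ← map_add]
  · refine ι_mul_mem_J ?_ _
    have := Submodule.smul_mem _ ((a e₁)⁻¹ * (a e₂)⁻¹) (sub_mem
      (mem_sp_of_mem (Finset.mem_insert_self w t)) (key (s := insert w t) hne h))
    convert this using 1
    match_scalars <;> field_simp [pos h, pos (swap h)] <;> ring
  · simp only [Finset.mem_insert, Finset.mem_singleton, not_or] at k2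
    have k3 : w ≠ v := fun k => (mem_nb.1 k1).1 (by simp [k])
    rw [Finset.insert_comm, p3 _ (by simp [hw, k3]) (by simp [h1, Ne.symm k2.1])
      (by simp [h2, Ne.symm k2.2]), mul_zero]

/-- subdivision of a chain -/
theorem exists_sub (e₁ e₂ w : N) (a : N → ℝ) (y : Finset N → Ex N) : ∃ y' : Finset N → Ex N,
    (∀ s, w ∉ s → y' s = y s) ∧
    (∀ t, w ∉ t → e₁ ∈ t → e₂ ∉ t → y' (insert w t) = (a e₂)⁻¹ • y (insert e₂ t)) ∧
    (∀ t, w ∉ t → e₂ ∈ t → e₁ ∉ t → y' (insert w t) = (a e₁)⁻¹ • y (insert e₁ t)) ∧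
    ∀ t, w ∉ t → e₁ ∉ t → e₂ ∉ t → y' (insert w t) = 0 := by
  refine ⟨fun s => if w ∈ s then if e₁ ∈ s.erase w then (a e₂)⁻¹ • y (insert e₂ (s.erase w))
    else if e₂ ∈ s.erase w then (a e₁)⁻¹ • y (insert e₁ (s.erase w)) else 0 else y s,
    fun s hs => if_neg hs, fun t k1 k2 k3 => ?_, fun t k1 k2 k3 => ?_, fun t k1 k2 k3 => ?_⟩ <;>
  simp only [Finset.mem_insert_self, Finset.erase_insert k1, k2, k3, if_true, if_false]

end RUp

open RUp in
theorem res_up (hF : Fan La De) (hne : e₁ ≠ e₂) (h : New La De {e₁, e₂} w a) (h1 : RES La De)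
    (h2 : RESat La (star De {e₁, e₂} w) {w}) : RES La (star De {e₁, e₂} w) := by
  intro q j z hz hc
  have hS : Down (star De {e₁, e₂} w) := (star_fan hF h).down
  have sw : star De {e₂, e₁} w = star De {e₁, e₂} w := by rw [Finset.pair_comm]
  obtain ⟨y0, -, a2, a3⟩ := h2 q j z (fun s hs _ => hz s hs) fun r hr _ => hc r hr
  obtain ⟨z1, b1, b2⟩ : ∃ z1 : Finset N → Ex N,
      (∀ s ∈ star De {e₁, e₂} w, w ∉ s → z1 s = z s - dR (star De {e₁, e₂} w) y0 s) ∧
      ∀ s, s ∉ star De {e₁, e₂} w ∨ w ∈ s → z1 s = 0 :=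
    ⟨fun s => if s ∈ star De {e₁, e₂} w ∧ w ∉ s then z s - dR (star De {e₁, e₂} w) y0 s else 0,
      fun s k1 k2 => if_pos ⟨k1, k2⟩, fun s k => if_neg (by tauto)⟩
  have b3 : ∀ s ∈ star De {e₁, e₂} w, s.card = q →
      z s - dR (star De {e₁, e₂} w) y0 s - z1 s ∈ J La s := fun s hs hq => by
    by_cases k : w ∈ s
    · rw [b2 s (Or.inr k), sub_zero]
      exact a3 s hs (Finset.singleton_subset_iff.2 k) hq
    · rw [b1 s hs k, sub_self]
      exact zero_mem _
  obtain ⟨y, c1, c2⟩ := h1 q j z1 (fun s hs hq => by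
    by_cases k : s ∈ star De {e₁, e₂} w
    · rw [b1 s k (fresh h hs)]
      refine F_down hne h (fresh h hs) (sub_mem (hz s k hq) (dR_mem_F fun v hv => ?_))
      exact a2 _ (mem_nb.1 hv).2 (by rw [Finset.card_insert_of_notMem (mem_nb.1 hv).1, hq])
    · rw [b2 s (Or.inl k)]
      exact zero_mem _) fun r hr hq => by
    by_cases k : r ∈ star De {e₁, e₂} w
    · have d1 : dR De z1 r = dR (star De {e₁, e₂} w) z1 r := dR_eq
        (fun v k1 k2 => b2 _ (Or.inl fun k3 => k2 (mem_nb.2 ⟨(mem_nb.1 k1).1, k3⟩)))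
        (fun v k1 k2 => b2 _ (Or.inr (not_not.1 fun k3 => k2 (mem_nb.2 ⟨(mem_nb.1 k1).1,
          ((mem_star_not k3).1 (mem_nb.1 k1).2).1⟩)))) fun _ _ _ => rfl
      have d2 : dR (star De {e₁, e₂} w) (z - dR (star De {e₁, e₂} w) y0 - z1) r ∈ J La r :=
        dR_mem_J fun v hv => b3 _ (mem_nb.1 hv).2
          (by rw [Finset.card_insert_of_notMem (mem_nb.1 hv).1, hq])
      rw [dR_sub, dR_sub, dR_dR hS, sub_zero] at d2
      simpa [d1] using sub_mem (hc r k hq) d2
    · refine dR_mem_J fun v _ => ?_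
      rw [b2 _ (Or.inl fun k3 => k (hS _ k3 _ (Finset.subset_insert _ _)))]
      exact zero_mem _
  obtain ⟨y', p0, p1, p2, p3⟩ := exists_sub e₁ e₂ w a y
  refine ⟨y0 + y', fun s hs hq => add_mem (a2 s hs hq) ?_, fun s hs hq => ?_⟩
  · rcases mem_star.1 hs with ⟨k1, k2⟩ | ⟨t, k1, k2, k3, rfl⟩
    · rw [p0 s (fresh h k1)]
      by_cases k : e₂ ∈ s
      · exact sw ▸ F_old hF hne.symm (swap h)
          (fun k' => k2 (by simp [Finset.insert_subset_iff, k, k'])) (c1 s k1 hq)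
      · exact F_old hF hne h k (c1 s k1 hq)
    · have hw := fresh h k1
      rw [Finset.card_insert_of_notMem hw] at hq
      by_cases k4 : e₁ ∈ t
      · have k5 : e₂ ∉ t := fun k' => k2 (by simp [Finset.insert_subset_iff, k4, k'])
        rw [p1 t hw k4 k5]
        exact Submodule.smul_mem _ _ (F_new hF hne h k4 k5 (c1 _ (union_pair k4 ▸ k3)
          (by rw [Finset.card_insert_of_notMem k5, hq])))
      · by_cases k5 : e₂ ∈ t
        · rw [p2 t hw k5 k4]
          rw [Finset.pair_comm] at k3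
          exact Submodule.smul_mem _ _ (sw ▸ F_new hF hne.symm (swap h) k5 k4
            (c1 _ (union_pair k5 ▸ k3) (by rw [Finset.card_insert_of_notMem k4, hq])))
        · rw [p3 t hw k4 k5]
          exact zero_mem _
  · suffices k : z1 s - dR (star De {e₁, e₂} w) y' s ∈ J La s by
      convert add_mem (b3 s hs hq) k using 1
      rw [dR_add]
      abel
    rcases mem_star.1 hs with ⟨k1, k2⟩ | ⟨t, k1, k2, k3, rfl⟩
    · have hw := fresh h k1
      suffices k : dR De y s - dR (star De {e₁, e₂} w) y' s ∈ J La s by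
        simpa using add_mem (c2 s k1 hq) k
      by_cases k4 : e₁ ∈ s
      · have k5 : e₂ ∉ s := fun k' => k2 (by simp [Finset.insert_subset_iff, k4, k'])
        exact old_one hF hne h p0 hw k4 k5 (p1 s hw k4 k5)
      · by_cases k5 : e₂ ∈ s
        · exact sw ▸ old_one hF hne.symm (swap h) p0 hw k5 k4 (p2 s hw k5 k4)
        · rw [old_zero hne h p0 hw k4 k5 (p3 s hw k4 k5), sub_self]
          exact zero_mem _
    · have hw := fresh h k1
      rw [Finset.card_insert_of_notMem hw] at hq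
      rw [b2 _ (Or.inr (Finset.mem_insert_self w t)), zero_sub, neg_mem_iff]
      have gen : ∀ {e₁' e₂' : N}, e₁' ≠ e₂' → New La De {e₁', e₂'} w a →
          ({e₁', e₂'} : Finset N) = {e₁, e₂} → e₁' ∈ t → e₂' ∉ t →
          dR De y (insert e₂' t) ∈ J La (insert w t) := fun {e₁' e₂'} g1 g2 g3 g4 g5 => by
        have g6 := c2 _ (union_pair g4 ▸ g3 ▸ k3 : insert e₂' t ∈ De)
          (by rw [Finset.card_insert_of_notMem g5, hq])
        rw [b2 _ (Or.inl fun g => ((mem_star_not (by simp [hw, ne_w g2])).1 g).2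
          (by rw [← g3]; simp [Finset.insert_subset_iff, g4])), zero_sub, neg_mem_iff] at g6
        exact J_of_sp_le (sp_new g1 g2 g4) g6
      by_cases k4 : e₁ ∈ t
      · have k5 : e₂ ∉ t := fun k' => k2 (by simp [Finset.insert_subset_iff, k4, k'])
        rw [new_one hF h hw k4 k5 p1]
        exact Submodule.smul_mem _ _ (gen hne h rfl k4 k5)
      · by_cases k5 : e₂ ∈ t
        · rw [← sw, new_one hF (swap h) hw k5 k4 p2]
          exact Submodule.smul_mem _ _ (gen hne.symm (swap h) (Finset.pair_comm _ _) k5 k4)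
        · exact new_zero hF hne h hw k4 k5 k3 p1 p2 p3

end KH
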