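import Pool.Agent.Lib.MP_e9c0f3_ag.KH.RRen
import Pool.Agent.Lib.MP_e9c0f3_ag.KH.RUp
import Pool.Agent.Lib.MP_e9c0f3_ag.KH.RDown
import Pool.Agent.Lib.MP_e9c0f3_ag.KH.RSusp
import Pool.Agent.Lib.MP_e9c0f3_ag.KH.RModif
import Pool.Agent.Lib.MP_e9c0f3_ag.KH.PD
import Pool.Agent.Lib.MP_e9c0f3_ag.KH.HSys

/-! The Kähler package of projective simplicial fans with Bergman support. -/

open scoped Classical
open MvPolynomial ExteriorAlgebra

noncomputable section

namespace KH

variable {N : Type} [AddCommGroup N] [Module ℝ N] {La : Du N} {De D T : Finset (Finset N)}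
  {e e' e₁ e₂ v w : N} {a : N → ℝ}

omit [AddCommGroup N] [Module ℝ N] in
theorem new_mem_star {z : Finset N} (hD : Down De) (hz : z ∈ De) (hn : z.Nonempty) :
    {w} ∈ star De z w :=
  mem_star.2 (Or.inr ⟨∅, hD _ hz _ (Finset.empty_subset _), by simpa using hn.ne_empty,
    by simpa using hz, rfl⟩)

theorem sys_res : Sys (RES (N := N)) where
  pt _ := res_pt
  ren _ _ _ _ _ hF h := res_ren hF h
  up La De e₁ e₂ w a hF hne h h1 h2 := by
    have hw : {w} ∈ star De {e₁, e₂} w := new_mem_star hF.down h.mem h.ne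
    exact res_up hF hne h (h1.at (hF.down _ h.mem _ (Finset.empty_subset _)))
      (RES.at (star_fan hF h) hw (h2 _ hw (by simp)))
  down La De e₁ e₂ w a hF hne h h1 h2 := by
    have hw : {w} ∈ star De {e₁, e₂} w := new_mem_star hF.down h.mem h.ne
    exact res_down hF hne h (h1.at ((star_fan hF h).down _ hw _ (Finset.empty_subset _)))
      (RES.at (star_fan hF h) hw (h1 _ hw)) (RES.at hF h.mem (h2 _ h.mem h.ne))
  susp _ _ _ _ _ hF h0 he hc h h1 _ := res_susp hF he hc h (h1.at h0)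
  modif _ _ _ _ hF h0 hs hD he hl h1 _ _ := res_modif hF h0 hs hD he hl h1

/-- The Kähler package for all links. -/
theorem good_of_berg [FiniteDimensional ℝ N] {E : Type} [Fintype E] (M : Matroid E)
    (hM : M.E = Set.univ) (A : (E → ℝ) →ₗ[ℝ] N) (hA : ∀ x, A x ∈ perp La ↔ ∀ i j, x i = x j)
    (hF : Fan La De)
    (hs : supp La De = {y | ∃ x : E → ℝ, (∀ c, M.IsFlat {i | c ≤ x i}) ∧ y - A x ∈ perp La}) :
    GOOD La De := fun t ht d deg hv =>
  ⟨sys_hr0.main M hM A hA hF hs t ht d deg hv, sys_pd0.main M hM A hA hF hs t ht d deg hv,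
    sys_res.main M hM A hA hF hs t ht⟩

/-- The residue complexes are exact; no degree map is needed. -/
theorem res_of_berg [FiniteDimensional ℝ N] {E : Type} [Fintype E] (M : Matroid E)
    (hM : M.E = Set.univ) (A : (E → ℝ) →ₗ[ℝ] N) (hA : ∀ x, A x ∈ perp La ↔ ∀ i j, x i = x j)
    (hF : Fan La De)
    (hs : supp La De = {y | ∃ x : E → ℝ, (∀ c, M.IsFlat {i | c ≤ x i}) ∧ y - A x ∈ perp La})
    {t : Finset N} (ht : t ∈ De) : RESat La De t :=
  RES.at hF ht (sys_res.main M hM A hA hF hs t ht)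

/-- The package in closed-star form. -/
theorem GOOD.at {d : ℕ} {deg : Pol N →ₗ[ℝ] ℝ} {t : Finset N} (h : GOOD La De) (hF : Fan La De)
    (hv : Valid La De d deg) (ht : t ∈ De) :
    (∀ l, Cvx La De l → HR (Hom N) (degAt deg (mon t)) (d - t.card) (lin De l)) ∧
      ann (degAt deg (mon t)) = Ic La De t ∧ RESat La De t :=
  ⟨fun _ hl => HR0.at hF hv ht (fun d deg hv => (h t ht d deg hv).1) hl,
    le_antisymm (PD0.at hF hv ht fun d deg hv => (h t ht d deg hv).2.1) hv.Ic_le,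
    RES.at hF ht (h t ht _ _ (hv.link hF ht)).2.2⟩

end KH
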