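import Mathlib

/-! Simplicial fans, their Chow rings seen through a degree map, and the Kähler package. -/

open scoped Classical
open MvPolynomial ExteriorAlgebra

noncomputable section

namespace KH

section Algebra

variable {R : Type} [CommRing R] [Algebra ℝ R]

/-- The radical of the pairing defined by `deg`. -/
def ann (deg : R →ₗ[ℝ] ℝ) : Ideal R where
  carrier := {a | ∀ b, deg (a * b) = 0}
  add_mem' ha hb c := by rw [add_mul, map_add, ha c, hb c, add_zero]
  zero_mem' c := by rw [zero_mul, map_zero]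
  smul_mem' c a ha b := by rw [smul_eq_mul, mul_comm c, mul_assoc]; exact ha _

theorem mem_ann {deg : R →ₗ[ℝ] ℝ} {a : R} : a ∈ ann deg ↔ ∀ b, deg (a * b) = 0 := Iff.rfl

/-- `b ↦ deg (x * b)`. -/
def degAt (deg : R →ₗ[ℝ] ℝ) (x : R) : R →ₗ[ℝ] ℝ := deg ∘ₗ LinearMap.mulLeft ℝ x

@[simp] theorem degAt_apply (deg : R →ₗ[ℝ] ℝ) (x b : R) : degAt deg x b = deg (x * b) := rfl

/-- Hard Lefschetz (injectivity form) for `L` in `R / ann deg`, top degree `d`. -/
def HL (G : ℕ → Submodule ℝ R) (deg : R →ₗ[ℝ] ℝ) (d : ℕ) (L : R) : Prop :=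
  ∀ k, 2 * k ≤ d → ∀ a ∈ G k, L ^ (d - 2 * k) * a ∈ ann deg → a ∈ ann deg

/-- The Hodge–Riemann relations for `L` in `R / ann deg`, top degree `d`. -/
def HR (G : ℕ → Submodule ℝ R) (deg : R →ₗ[ℝ] ℝ) (d : ℕ) (L : R) : Prop :=
  ∀ k, 2 * k ≤ d → ∀ a ∈ G k, L ^ (d - 2 * k + 1) * a ∈ ann deg → a ∉ ann deg →
    0 < (-1 : ℝ) ^ k * deg (L ^ (d - 2 * k) * (a * a))

end Algebra

variable {N : Type} [AddCommGroup N] [Module ℝ N]

/-- Spaces of linear forms. The fan lives in `N` modulo the common kernel. -/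
abbrev Du (N : Type) [AddCommGroup N] [Module ℝ N] := Submodule ℝ (Module.Dual ℝ N)

/-- Every function on `s` is the restriction of a member of `La`. -/
def Onto (La : Du N) (s : Finset N) : Prop :=
  ∀ f : N → ℝ, ∃ m ∈ La, ∀ v ∈ s, m v = f v

def verts (De : Finset (Finset N)) : Finset N := De.biUnion id

/-- Strictly convex piecewise linear functions, given by their values on the vertices. -/
def Cvx (La : Du N) (De : Finset (Finset N)) (l : N → ℝ) : Prop :=
  ∀ t ∈ De, ∃ m ∈ La, (∀ v ∈ t, m v = l v) ∧ ∀ v ∈ verts De, v ∉ t → m v < l v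

/-- Convex, not strictly. -/
def WCvx (La : Du N) (De : Finset (Finset N)) (l : N → ℝ) : Prop :=
  ∀ t ∈ De, ∃ m ∈ La, (∀ v ∈ t, m v = l v) ∧ ∀ v ∈ verts De, m v ≤ l v

def cone (La : Du N) (s : Finset N) : Set N :=
  {x | ∃ c : N → ℝ, (∀ v, 0 ≤ c v) ∧ ∀ m ∈ La, m x = ∑ v ∈ s, c v * m v}

def supp (La : Du N) (De : Finset (Finset N)) : Set N :=
  {x | ∃ s ∈ De, x ∈ cone La s}

/-- Projective simplicial fans. -/
structure Fan (La : Du N) (De : Finset (Finset N)) : Prop where
  down : ∀ t ∈ De, ∀ s ⊆ t, s ∈ De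
  onto : ∀ t ∈ De, Onto La t
  proj : ∃ l, Cvx La De l

/-- Stellar subdivision at the face `z` with the new vertex `w`. -/
def star (De : Finset (Finset N)) (z : Finset N) (w : N) : Finset (Finset N) :=
  De.filter (fun s => ¬z ⊆ s) ∪
    (De.filter (fun s => ¬z ⊆ s ∧ s ∪ z ∈ De)).image (insert w)

/-- The faces disjoint from `t` whose union with `t` is a face. -/
def link (De : Finset (Finset N)) (t : Finset N) : Finset (Finset N) :=
  (De.filter (t ⊆ ·)).image (· \ t)

/-- The forms of `La` that vanish on `t`. -/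
def res (La : Du N) (t : Finset N) : Du N :=
  La ⊓ (Submodule.span ℝ (t : Set N)).dualAnnihilator

/-- The vertices that can be added to `r`. -/
def nb (De : Finset (Finset N)) (r : Finset N) : Finset N :=
  (verts De).filter fun v => v ∉ r ∧ insert v r ∈ De

/-- The cone over `D` with apex `e`, glued to `T`. -/
def modif (T D : Finset (Finset N)) (e : N) : Finset (Finset N) := T ∪ D.image (insert e)

/-- The suspension of `D`. -/
def susp (D : Finset (Finset N)) (e e' : N) : Finset (Finset N) :=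
  D ∪ D.image (insert e) ∪ D.image (insert e')

/-! ### Chow rings -/

abbrev Pol (N : Type) := MvPolynomial N ℝ

/-- The grading by degree. -/
abbrev Hom (N : Type) : ℕ → Submodule ℝ (Pol N) := homogeneousSubmodule N ℝ

def mon (s : Finset N) : Pol N := ∏ v ∈ s, X v

/-- The divisor of the piecewise linear function `l`. -/
def lin (De : Finset (Finset N)) (l : N → ℝ) : Pol N := ∑ v ∈ verts De, l v • X v

/-- The relations of the Chow ring of the closed star of `t`. -/
def Ic (La : Du N) (De : Finset (Finset N)) (t : Finset N) : Ideal (Pol N) :=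
  Ideal.span ({a | ∃ s, s ∪ t ∉ De ∧ a = mon s} ∪ {a | ∃ m ∈ La, a = lin De m})

/-- The relations of the Chow ring. -/
def Jd (La : Du N) (De : Finset (Finset N)) : Ideal (Pol N) :=
  Ideal.span ({a | ∃ s, s ∉ De ∧ a = mon s} ∪ {a | ∃ m ∈ La, a = lin De m})

/-- A degree map of a pure fan whose maximal faces have `d` vertices. -/
structure Valid (La : Du N) (De : Finset (Finset N)) (d : ℕ) (deg : Pol N →ₗ[ℝ] ℝ) : Prop where
  pure : ∀ s ∈ De, ∃ u ∈ De, s ⊆ u ∧ u.card = d
  hom : ∀ k, k ≠ d → ∀ a ∈ Hom N k, deg a = 0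
  kill : Jd La De ≤ ann deg
  pos : ∀ s ∈ De, s.card = d → 0 < deg (mon s)

/-! ### The residue complex -/

abbrev Ex (N : Type) [AddCommGroup N] [Module ℝ N] := ExteriorAlgebra ℝ N

/-- The common kernel of `La`. -/
def perp (La : Du N) : Submodule ℝ N := La.dualCoannihilator

/-- The span of `s` and of the common kernel of `La`. -/
def sp (La : Du N) (s : Finset N) : Submodule ℝ N := Submodule.span ℝ (s : Set N) ⊔ perp La

/-- The multi-tangent space of degree `k` at the face `s`, before division by `J`. -/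
def F (La : Du N) (De : Finset (Finset N)) (k : ℕ) (s : Finset N) : Submodule ℝ (Ex N) :=
  ⨆ u ∈ De, ⨆ _ : s ⊆ u, ((sp La u).map (ι ℝ)) ^ k

/-- The ideal generated by `sp La s`. -/
def J (La : Du N) (s : Finset N) : Submodule ℝ (Ex N) := (sp La s).map (ι ℝ) * ⊤

/-- The differential: wedge with the vertex that is dropped. -/
def dR (De : Finset (Finset N)) (z : Finset N → Ex N) (r : Finset N) : Ex N :=
  ∑ v ∈ nb De r, ι ℝ v * z (insert v r)

/-- The residue complex is exact at all chains whose coefficients have positive degree. -/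
def RES (La : Du N) (De : Finset (Finset N)) : Prop :=
  ∀ (q j : ℕ) (z : Finset N → Ex N), (∀ s ∈ De, s.card = q → z s ∈ F La De (j + 1) s) →
    (∀ r ∈ De, r.card + 1 = q → dR De z r ∈ J La r) →
    ∃ y : Finset N → Ex N, (∀ s ∈ De, s.card = q + 1 → y s ∈ F La De j s) ∧
      ∀ s ∈ De, s.card = q → z s - dR De y s ∈ J La s

/-! ### The package -/

/-- Hodge–Riemann for all convex functions, Poincaré duality, exact residue complex. -/
def Good0 (La : Du N) (De : Finset (Finset N)) : Prop :=
  ∀ d deg, Valid La De d deg →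
    (∀ l, Cvx La De l → HR (Hom N) deg d (lin De l)) ∧ ann deg ≤ Jd La De ∧ RES La De

/-- The package for all links. -/
def GOOD (La : Du N) (De : Finset (Finset N)) : Prop :=
  ∀ t ∈ De, Good0 (res La t) (link De t)

end KH
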