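import Pool.Agent.Lib.MP_e9c0f3_ag.KH.K8

/-! Fans with Bergman support are pure of the dimension given by the rank. -/

open scoped Classical
open Matroid Pool.Agent.MP_e9c0f3_ag.KH.Mat

noncomputable section

namespace KH

section Comb

variable {N : Type} {De T D : Finset (Finset N)} {z : Finset N} {e e' w : N} {d : ℕ}

/-- every face lies in a face with `d` vertices -/
def Pure (d : ℕ) (De : Finset (Finset N)) : Prop := ∀ s ∈ De, ∃ u ∈ De, s ⊆ u ∧ u.card = d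

theorem Pure.card_le (h : Pure d De) {s : Finset N} (hs : s ∈ De) : s.card ≤ d :=
  let ⟨_, _, h1, h2⟩ := h s hs
  h2 ▸ Finset.card_le_card h1

theorem pure_star (hd : Down De) (hz : z.Nonempty) (hw : w ∉ verts De) :
    Pure d De ↔ Pure d (star De z w) := by
  have wn : ∀ t ∈ De, w ∉ t := fun t ht k => hw (mem_verts.2 ⟨t, ht, k⟩)
  have sw : ∀ u ∈ De, z ⊆ u → ∀ a ∈ z, insert w (u.erase a) ∈ star De z w ∧
      (insert w (u.erase a)).card = u.card := fun u hu p a ha => by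
    have k : w ∉ u.erase a := fun k => wn u hu (Finset.mem_of_mem_erase k)
    refine ⟨(insert_mem_star hd hw k).2 ⟨fun g => Finset.notMem_erase a u (g ha),
      hd u hu _ (Finset.union_subset (Finset.erase_subset _ _) p)⟩, ?_⟩
    rw [Finset.card_insert_of_notMem k, Finset.card_erase_add_one (p ha)]
  constructor
  · intro h s hs
    rcases mem_star.1 hs with ⟨h1, h2⟩ | ⟨t, h1, h2, h3, rfl⟩
    · obtain ⟨u, u1, u2, u3⟩ := h s h1
      by_cases p : z ⊆ u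
      · obtain ⟨a, a1, a2⟩ := Finset.not_subset.1 h2
        exact ⟨_, (sw u u1 p a a1).1, (Finset.subset_erase.2 ⟨u2, a2⟩).trans
          (Finset.subset_insert _ _), (sw u u1 p a a1).2.trans u3⟩
      · exact ⟨u, mem_star.2 (Or.inl ⟨u1, p⟩), u2, u3⟩
    · obtain ⟨u, u1, u2, u3⟩ := h _ h3
      obtain ⟨a, a1, a2⟩ := Finset.not_subset.1 h2
      have p := Finset.subset_union_right.trans u2
      exact ⟨_, (sw u u1 p a a1).1, Finset.insert_subset_insert _ (Finset.subset_erase.2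
        ⟨Finset.subset_union_left.trans u2, a2⟩), (sw u u1 p a a1).2.trans u3⟩
  · intro h s hs
    obtain ⟨a, ha⟩ := hz
    have big : ∀ t ∈ De, ¬z ⊆ t → t ∪ z ∈ De → (insert w t).card = d → (t ∪ z).card = d :=
      fun t h1 h2 h3 h4 => by
        have b := sw _ h3 Finset.subset_union_right a ha
        have c := Finset.card_lt_card (s := t) (t := t ∪ z) ⟨Finset.subset_union_left,
          fun k => h2 (Finset.subset_union_right.trans k)⟩
        rw [Finset.card_insert_of_notMem (wn t h1)] at h4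
        have := h.card_le b.1
        omega
    by_cases p : z ⊆ s
    · obtain ⟨u, u1, u2, u3⟩ := h _ (sw s hs p a ha).1
      rcases mem_star.1 u1 with ⟨h1, -⟩ | ⟨t, h1, h2, h3, rfl⟩
      · exact absurd (u2 (Finset.mem_insert_self _ _)) (wn u h1)
      · refine ⟨_, h3, fun v hv => ?_, big t h1 h2 h3 u3⟩
        by_cases k : v = a
        · exact Finset.mem_union_right _ (k ▸ ha)
        · exact Finset.mem_union_left _ ((Finset.mem_insert.1 (u2 (Finset.mem_insert_of_mem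
            (Finset.mem_erase.2 ⟨k, hv⟩)))).resolve_left fun g => wn s hs (g ▸ hv))
    · obtain ⟨u, u1, u2, u3⟩ := h s (mem_star.2 (Or.inl ⟨hs, p⟩))
      rcases mem_star.1 u1 with ⟨h1, -⟩ | ⟨t, h1, h2, h3, rfl⟩
      · exact ⟨u, h1, u2, u3⟩
      · exact ⟨_, h3, fun v hv => Finset.mem_union_left _ ((Finset.mem_insert.1 (u2 hv)).resolve_left
          fun g => wn s hs (g ▸ hv)), big t h1 h2 h3 u3⟩

theorem Pure.modif (hT : Pure (d + 1) T) (hD : Pure d D) (he : e ∉ verts D) :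
    Pure (d + 1) (modif T D e) := fun s hs => by
  rcases mem_modif.1 hs with h | ⟨t, h, rfl⟩
  · obtain ⟨u, u1, u2⟩ := hT s h
    exact ⟨u, mem_modif.2 (Or.inl u1), u2⟩
  · obtain ⟨u, u1, u2, u3⟩ := hD t h
    exact ⟨_, mem_modif.2 (Or.inr ⟨u, u1, rfl⟩), Finset.insert_subset_insert _ u2, by
      rw [Finset.card_insert_of_notMem fun k => he (mem_verts.2 ⟨u, u1, k⟩), u3]⟩

theorem Pure.susp (hD : Pure d D) (he : e ∉ verts D) (he' : e' ∉ verts D) :
    Pure (d + 1) (susp D e e') := by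
  refine Pure.modif (fun s hs => ?_) hD he'
  have k : ∀ t ∈ D, ∃ u ∈ KH.modif D D e, insert e t ⊆ u ∧ u.card = d + 1 := fun t h => by
    obtain ⟨u, u1, u2, u3⟩ := hD t h
    exact ⟨_, mem_modif.2 (Or.inr ⟨u, u1, rfl⟩), Finset.insert_subset_insert _ u2, by
      rw [Finset.card_insert_of_notMem fun k => he (mem_verts.2 ⟨u, u1, k⟩), u3]⟩
  rcases mem_modif.1 hs with h | ⟨t, h, rfl⟩
  · obtain ⟨u, u1, u2, u3⟩ := k s h
    exact ⟨u, u1, (Finset.subset_insert _ _).trans u2, u3⟩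
  · exact k t h

end Comb

variable {N : Type} [AddCommGroup N] [Module ℝ N] {La : Du N} {De : Finset (Finset N)}

theorem pure_inv (d : ℕ) : StarInv La (Pure d) := fun _ _ _ _ hF h => pure_star hF.down h.ne h.fresh

open K8 in
theorem exists_pure {E : Type} [Finite E] {φ : N →ₗ[ℝ] E → ℝ} (n : ℕ) :
    ∀ M : Matroid E, M.E.ncard = n → Sep φ M.E → ∀ B d, M.IsBase B → B.ncard = d + 1 →
    ∃ De, Fan (LaS φ M.E) De ∧ supp (LaS φ M.E) De = φ ⁻¹' Berg M ∧ Pure d De := by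
  induction n using Nat.strong_induction_on with
  | _ n ih =>
  intro M hM hS B d hB hd
  by_cases h0 : M.IsFlat ∅
  swap
  · refine ⟨∅, ⟨by simp, by simp, fun _ => 0, fun t ht => by simp at ht⟩, ?_,
      fun t ht => by simp at ht⟩
    ext x
    exact ⟨fun ⟨s, hs, _⟩ => by simp at hs, fun hx => absurd (empty_flat_of_mem hx) h0⟩
  by_cases h1 : ∃ e ∈ M.E, ∃ i ∈ M.E, i ≠ e
  swap
  · push Not at h1
    have hb : LaS φ M.E = ⊥ := by
      rw [LaS, Submodule.span_eq_bot]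
      rintro m ⟨i, hi, j, hj, rfl⟩
      rw [h1 i hi j hj, dd, sub_self]
    have h2 : B.ncard ≤ 1 := (Set.ncard_le_one (Set.toFinite _)).2 fun a ha b hb =>
      h1 b (hB.subset_ground hb) a (hB.subset_ground ha)
    rw [hb]
    refine ⟨{∅}, ⟨by simp, by simpa using onto_empty, fun _ => 0, fun t ht => ⟨0, by simp, ?_, ?_⟩⟩,
      ?_, fun s hs => ⟨s, hs, Finset.Subset.refl s, ?_⟩⟩
    · simp
    · simp [verts]
    · ext x
      refine ⟨fun _ => const_mem_berg h0 fun i hi j hj => by rw [h1 i hi j hj],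
        fun _ => ⟨∅, by simp, fun _ => 0, fun _ => le_rfl, fun m hm => ?_⟩⟩
      simp [(Submodule.mem_bot ℝ).1 hm]
    · rw [Finset.mem_singleton.1 hs, Finset.card_empty]
      omega
  obtain ⟨e, he, i, hi, hie⟩ := h1
  obtain ⟨δ, hδ⟩ := hS e he
  have hr := res_LaS hi hie hδ
  have hn := isNonloop_of_empty_flat h0 he
  have lt : (M.E \ {e}).ncard < n := hM ▸ Set.ncard_sdiff_singleton_lt_of_mem he
  by_cases hc : M.IsColoop e
  · obtain ⟨B', b1, b2⟩ := base_del_coloop hc hB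
    have b3 := base_ncard_pos (empty_flat_del h0 e) ⟨i, hi, hie⟩ b1
    obtain ⟨d, rfl⟩ : ∃ d', d = d' + 1 := ⟨d - 1, by omega⟩
    obtain ⟨T, t1, t2, t3⟩ := ih _ lt (M ＼ {e}) rfl (hS.mono Set.sdiff_subset) B' d b1 (by omega)
    rw [delete_ground] at t1 t2
    rw [← hr] at t1 t2
    refine ⟨_, K8.fan_susp t1 (dd_mem he hi) (hδ i hi hie), ?_,
      t3.susp (fresh t1) (fresh (La := LaS φ M.E) (res_neg (e := δ) ▸ t1))⟩
    rw [supp_susp t1 (dd_mem he hi) (hδ i hi hie), t2]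
    ext x
    exact (mem_berg_coloop hc).symm
  obtain ⟨B', b1, b2⟩ := base_del hc hB
  obtain ⟨T, t1, t2, t3⟩ := ih _ lt (M ＼ {e}) rfl (hS.mono Set.sdiff_subset) B' d b1 (b2.trans hd)
  rw [delete_ground] at t1 t2
  obtain ⟨T', u1, u2, u3, u4⟩ := exists_graph hn hc hδ
    (fun m hm => (mem_res_one.1 (hr ▸ hm)).2) t1
  obtain ⟨D, d1, d2, d3, -, d5⟩ := modif_data hn hc hi hie hδ u1 (u2.trans t2) u3 u4
  have p1 := (inv_supp (pure_inv d) u1 t1 u2).2 t3
  have u5 : Fan (res (LaS φ M.E) {δ}) T' := hr ▸ u1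
  refine ⟨_, K8.fan_modif u5 (dd_mem he hi) (hδ i hi hie) d1 d2, d5, ?_⟩
  obtain ⟨B2, b3, b4⟩ := base_con hn hB
  rcases d with _ | d
  · have : D = ∅ := Finset.eq_empty_of_forall_notMem fun s hs => by
      have k : (∑ v ∈ s, v) ∈ φ ⁻¹' Berg (M ／ {e}) := d3 ▸ ⟨s, hs, sum_mem_cone⟩
      rw [berg_rank_zero (M := M ／ {e}) ⟨i, hi, hie⟩ b3 (by omega)] at k
      exact k
    rwa [this, KH.modif, Finset.image_empty, Finset.union_empty]
  · obtain ⟨D', c1, c2, c3⟩ := ih _ lt (M ／ {e}) rfl (hS.mono Set.sdiff_subset) B2 d b3 (by omega)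
    rw [contract_ground] at c1 c2
    exact p1.modif ((inv_supp (pure_inv d) (fan_sub u1 d1 d2) c1 (d3.trans c2.symm)).2 c3)
      fun k => fresh u5 (verts_mono d1 k)

/-- coordinates on `N` adapted to a chart of a Bergman fan -/
theorem exists_coords {E : Type} [Fintype E] (M : Matroid E)
    (hM : M.E = Set.univ) (A : (E → ℝ) →ₗ[ℝ] N) (hA : ∀ x, A x ∈ perp La ↔ ∀ i j, x i = x j)
    (hF : Fan La De)
    (hs : supp La De = {y | ∃ x : E → ℝ, (∀ c, M.IsFlat {i | c ≤ x i}) ∧ y - A x ∈ perp La}) :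
    ∃ φ : N →ₗ[ℝ] E → ℝ, K8.Sep φ M.E ∧ Fan (K8.LaS φ M.E) De ∧
      supp (K8.LaS φ M.E) De = φ ⁻¹' Berg M := by
  have hp : ∀ {x : N}, x ∈ perp La ↔ ∀ m ∈ La, m x = 0 := Submodule.mem_dualCoannihilator _
  obtain ⟨φ, h1, h2⟩ : ∃ φ : N →ₗ[ℝ] E → ℝ, (∀ i j, K8.dd φ i j ∈ La) ∧
      ∀ i j x, K8.dd φ i j (A x) = x i - x j := by
    rcases isEmpty_or_nonempty E with hE | ⟨⟨o⟩⟩
    · exact ⟨0, fun i => hE.elim i, fun i => hE.elim i⟩
    have k := fun i => exists_pull La A (K8.dd LinearMap.id i o) fun x hx =>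
      sub_eq_zero.2 ((hA x).1 (hp.2 hx) i o)
    choose ψ k1 k2 using k
    refine ⟨LinearMap.pi ψ, fun i j => La.sub_mem (k1 i) (k1 j), fun i j x => ?_⟩
    simp [k2]
  have hle : K8.LaS φ M.E ≤ La := Submodule.span_le.2 fun m ⟨i, _, j, _, k⟩ => k ▸ h1 i j
  have mem : ∀ i j, K8.dd φ i j ∈ K8.LaS φ M.E := fun i j =>
    K8.dd_mem (hM ▸ Set.mem_univ i) (hM ▸ Set.mem_univ j)
  have hb := Pool.Agent.MP_e9c0f3_ag.KH.Mat.berg_univ hM
  have pull : ∀ m ∈ La, ∃ m' ∈ K8.LaS φ M.E, ∀ v ∈ verts De, m' v = m v := fun m hm => by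
    obtain ⟨m', k1, k2⟩ := exists_pull (K8.LaS φ M.E) A (m ∘ₗ A) fun x hx =>
      hp.1 ((hA x).2 fun i j => sub_eq_zero.1 (h2 i j x ▸ hx _ (mem i j))) m hm
    refine ⟨m', k1, fun v hv => ?_⟩
    obtain ⟨s, hs', hv⟩ := mem_verts.1 hv
    obtain ⟨x, -, hx⟩ : v ∈ {y | ∃ x : E → ℝ, (∀ c, M.IsFlat {i | c ≤ x i}) ∧ y - A x ∈ perp La} :=
      hs ▸ ⟨s, hs', mem_cone_self hv⟩
    have a1 := hp.1 hx m hm
    have a2 := hp.1 hx m' (hle k1)
    have a3 := k2 x
    rw [map_sub] at a1 a2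
    rw [LinearMap.comp_apply] at a3
    linarith
  have hF' : Fan (K8.LaS φ M.E) De := by
    obtain ⟨l, hl⟩ := hF.proj
    refine ⟨hF.down, fun t ht f => ?_, l, fun t ht => ?_⟩
    · obtain ⟨m, hm, k⟩ := hF.onto t ht f
      obtain ⟨m', k1, k2⟩ := pull m hm
      exact ⟨m', k1, fun v hv => (k2 v (mem_verts.2 ⟨t, ht, hv⟩)).trans (k v hv)⟩
    · obtain ⟨m, hm, a1, a2⟩ := hl t ht
      obtain ⟨m', k1, k2⟩ := pull m hm
      exact ⟨m', k1, fun v hv => (k2 v (mem_verts.2 ⟨t, ht, hv⟩)).trans (a1 v hv),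
        fun v hv hv' => (k2 v hv).trans_lt (a2 v hv hv')⟩
  refine ⟨φ, fun e _ => ⟨A (Pi.single e 1), fun i _ hi => ?_⟩, hF',
    Set.Subset.antisymm ?_ fun y hy => ?_⟩
  · rw [h2, Pi.single_eq_same, Pi.single_eq_of_ne hi, sub_zero]
  · rintro y ⟨s, hs', c, hc, k⟩
    obtain ⟨x, hx, hx'⟩ : (∑ v ∈ s, c v • v) ∈
        {y | ∃ x : E → ℝ, (∀ c, M.IsFlat {i | c ≤ x i}) ∧ y - A x ∈ perp La} :=
      hs ▸ ⟨s, hs', c, hc, fun m _ => by simp⟩
    refine Pool.Agent.MP_e9c0f3_ag.KH.Mat.berg_coarsen (x := x) (hb ▸ hx) fun i _ j _ hij => ?_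
    have a1 := hp.1 hx' _ (h1 i j)
    have a2 := k _ (mem i j)
    rw [map_sub, h2, map_sum] at a1
    simp only [map_smul, smul_eq_mul] at a1
    rw [K8.dd_apply] at a2
    linarith
  · have hy' : φ y ∈ Pool.Agent.MP_e9c0f3_ag.KH.Mat.Berg M := hy
    rw [hb] at hy'
    obtain ⟨s, hs', c, hc, k⟩ : A (φ y) ∈ supp La De := hs ▸ ⟨φ y, hy', by simp⟩
    refine ⟨s, hs', c, hc, fun m hm => Eq.trans ?_ (k m (hle hm))⟩
    have : K8.LaS φ M.E ≤ LinearMap.ker (Module.Dual.eval ℝ N (y - A (φ y))) :=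
      Submodule.span_le.2 fun m ⟨i, _, j, _, k⟩ => by
        rw [k, SetLike.mem_coe, LinearMap.mem_ker, Module.Dual.eval_apply, map_sub, h2,
          K8.dd_apply, sub_self]
    have a := this hm
    rw [LinearMap.mem_ker, Module.Dual.eval_apply, map_sub] at a
    exact sub_eq_zero.1 a

/-- A projective simplicial fan with Bergman support is pure. -/
theorem pure_of_berg {E : Type} [Fintype E] (M : Matroid E) (hM : M.E = Set.univ) {d : ℕ}
    (hd : M.eRank = d + 1) (A : (E → ℝ) →ₗ[ℝ] N) (hA : ∀ x, A x ∈ perp La ↔ ∀ i j, x i = x j)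
    (hF : Fan La De)
    (hs : supp La De = {y | ∃ x : E → ℝ, (∀ c, M.IsFlat {i | c ≤ x i}) ∧ y - A x ∈ perp La}) :
    ∀ s ∈ De, ∃ u ∈ De, s ⊆ u ∧ u.card = d := by
  obtain ⟨φ, h1, h2, h3⟩ := exists_coords M hM A hA hF hs
  obtain ⟨B, hB⟩ := M.exists_isBase
  have hc : B.ncard = d + 1 := by
    have := hB.encard_eq_eRank.trans hd
    rw [← (Set.toFinite B).cast_ncard_eq] at this
    exact_mod_cast this
  obtain ⟨T, t1, t2, t3⟩ := exists_pure _ M rfl h1 B d hB hc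
  exact (inv_supp (pure_inv d) h2 t1 (h3.trans t2.symm)).2 t3

end KH
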