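import Pool.Agent.Lib.MP_e9c0f3_ag.KH.K6

/-! Links, suspensions, modifications; properties that hold for all links. -/

open scoped Classical

noncomputable section

namespace KH

variable {N : Type} [AddCommGroup N] [Module ℝ N] {La : Du N}
  {De D T : Finset (Finset N)} {r s t z : Finset N} {e e' v w : N} {l l' : N → ℝ}
  {m : Module.Dual ℝ N} {Q : Du N → Finset (Finset N) → Prop}

/-- Closed under taking subsets. -/
def Down (De : Finset (Finset N)) : Prop := ∀ t ∈ De, ∀ s ⊆ t, s ∈ De

/-- `Q` holds for all links. -/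
def All (Q : Du N → Finset (Finset N) → Prop) (La : Du N) (De : Finset (Finset N)) : Prop :=
  ∀ t ∈ De, Q (res La t) (link De t)

/-- `Q` holds for the links of all nonempty faces. -/
def Below (Q : Du N → Finset (Finset N) → Prop) (La : Du N) (De : Finset (Finset N)) : Prop :=
  ∀ t ∈ De, t.Nonempty → Q (res La t) (link De t)

/-- On the closed star of a face outside `D` the fan `T` lies in a hyperplane that misses `e`. -/
def Lin (La : Du N) (T D : Finset (Finset N)) (e : N) : Prop :=
  ∀ t ∈ T, t ∉ D → ∃ k ∈ La, k e = 1 ∧ ∀ u ∈ T, t ⊆ u → ∀ v ∈ u, k v = 0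

/-- Properties of fans that survive the basic operations. -/
structure Sys (Q : Du N → Finset (Finset N) → Prop) : Prop where
  pt : ∀ La, Q La {∅}
  ren : ∀ La De v w a, Fan La De → New La De {v} w a → (Q La De ↔ Q La (star De {v} w))
  up : ∀ La De e₁ e₂ w a, Fan La De → e₁ ≠ e₂ → New La De {e₁, e₂} w a → All Q La De →
    Below Q La (star De {e₁, e₂} w) → Q La (star De {e₁, e₂} w)
  down : ∀ La De e₁ e₂ w a, Fan La De → e₁ ≠ e₂ → New La De {e₁, e₂} w a →
    All Q La (star De {e₁, e₂} w) → Below Q La De → Q La De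
  susp : ∀ La D e e' (a : ℝ), Fan (res La {e}) D → ∅ ∈ D → (∃ m ∈ La, m e = 1) → 0 < a →
    (∀ m ∈ La, m e' = -a * m e) → All Q (res La {e}) D → Below Q La (susp D e e') →
    Q La (susp D e e')
  modif : ∀ La T D e, Fan (res La {e}) T → ∅ ∈ T → D ⊆ T → Down D → (∃ m ∈ La, m e = 1) →
    Lin La T D e → All Q (res La {e}) T → All Q (res La {e}) D → Below Q La (modif T D e) → Q La (modif T D e)

omit [AddCommGroup N] [Module ℝ N] in
theorem mem_link : s ∈ link De t ↔ Disjoint s t ∧ s ∪ t ∈ De := by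
  simp only [link, Finset.mem_image, Finset.mem_filter]
  constructor
  · rintro ⟨x, ⟨h1, h2⟩, rfl⟩
    exact ⟨Finset.sdiff_disjoint, by rwa [Finset.sdiff_union_of_subset h2]⟩
  · exact fun h => ⟨s ∪ t, ⟨h.2, Finset.subset_union_right⟩, Finset.union_sdiff_cancel_right h.1⟩

theorem mem_res : m ∈ res La t ↔ m ∈ La ∧ ∀ v ∈ t, m v = 0 := by
  rw [res, Submodule.mem_inf, Submodule.mem_dualAnnihilator]
  refine and_congr_right fun _ => ⟨fun h v hv => h v (Submodule.subset_span hv), fun h x hx => ?_⟩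
  exact (Submodule.span_le (p := LinearMap.ker m)).2 (fun v hv => h v hv) hx

theorem mem_perp {x : N} : x ∈ perp La ↔ ∀ m ∈ La, m x = 0 := Submodule.mem_dualCoannihilator x

omit [AddCommGroup N] [Module ℝ N] in
theorem mem_nb : v ∈ nb De t ↔ v ∉ t ∧ insert v t ∈ De := by
  rw [nb, Finset.mem_filter]
  exact ⟨fun h => h.2, fun h => ⟨mem_verts.2 ⟨_, h.2, Finset.mem_insert_self _ _⟩, h⟩⟩

omit [AddCommGroup N] [Module ℝ N] in
theorem Down.mem_verts (h : Down De) : v ∈ verts De ↔ {v} ∈ De :=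
  ⟨fun k => let ⟨s, hs, k⟩ := KH.mem_verts.1 k; h s hs _ (Finset.singleton_subset_iff.2 k),
    fun k => KH.mem_verts.2 ⟨_, k, Finset.mem_singleton_self v⟩⟩

omit [AddCommGroup N] [Module ℝ N] in
theorem link_empty : link De ∅ = De := by
  ext s
  simp [mem_link]

theorem res_empty : res La ∅ = La := by
  ext m
  simp [mem_res]

omit [AddCommGroup N] [Module ℝ N] in
theorem link_link (h : Disjoint s t) : link (link De t) s = link De (s ∪ t) := by
  ext x
  simp only [mem_link, Finset.disjoint_union_left, Finset.disjoint_union_right, Finset.union_assoc]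
  exact ⟨fun k => ⟨⟨k.1, k.2.1.1⟩, k.2.2⟩, fun k => ⟨k.1.1, ⟨k.1.2, h⟩, k.2⟩⟩

theorem res_res : res (res La t) s = res La (s ∪ t) := by
  ext m
  simp only [mem_res, Finset.mem_union, or_imp, forall_and]
  exact ⟨fun k => ⟨k.1.1, k.2, k.1.2⟩, fun k => ⟨⟨k.1, k.2.2⟩, k.2.1⟩⟩

theorem res_comm : res (res La t) s = res (res La s) t := by
  rw [res_res, res_res, Finset.union_comm]

omit [AddCommGroup N] [Module ℝ N] in
theorem empty_mem_link : ∅ ∈ link De t ↔ t ∈ De := by
  simp [mem_link]

omit [AddCommGroup N] [Module ℝ N] in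
theorem Down.link (h : Down De) : Down (link De t) :=
  fun _ hx _ hs => mem_link.2 ⟨(mem_link.1 hx).1.mono_left hs,
    h _ (mem_link.1 hx).2 _ (Finset.union_subset_union_left hs)⟩

omit [AddCommGroup N] [Module ℝ N] in
theorem Down.link_subset (h : Down De) : KH.link De t ⊆ De :=
  fun _ hs => h _ (mem_link.1 hs).2 _ Finset.subset_union_left

omit [AddCommGroup N] [Module ℝ N] in
theorem Down.link_eq_empty (h : Down De) (ht : t ∉ De) : KH.link De t = ∅ :=
  Finset.eq_empty_of_forall_notMem fun _ hs =>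
    ht (h _ (mem_link.1 hs).2 _ Finset.subset_union_right)

omit [AddCommGroup N] [Module ℝ N] in
theorem Down.verts_link (h : Down De) : verts (KH.link De t) = nb De t := by
  ext v
  rw [h.link.mem_verts, mem_link, mem_nb, Finset.disjoint_singleton_left, ← Finset.insert_eq]

omit [AddCommGroup N] [Module ℝ N] in
theorem Down.card_link_lt (h : Down De) (ht : t ∈ De) (hn : t.Nonempty) :
    (KH.link De t).card < De.card :=
  Finset.card_image_le.trans_lt (Finset.card_lt_card ⟨Finset.filter_subset _ _, fun k =>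
    hn.ne_empty (Finset.subset_empty.1
      (Finset.mem_filter.1 (k (h t ht ∅ (Finset.empty_subset _)))).2)⟩)

omit [AddCommGroup N] [Module ℝ N] in
theorem sdiff_mem_link (h : s ∪ t ∈ De) : s \ t ∈ link De t :=
  mem_link.2 ⟨Finset.sdiff_disjoint, by rwa [Finset.sdiff_union_self_eq_union]⟩

omit [AddCommGroup N] [Module ℝ N] in
theorem verts_link_subset : verts (link De t) ⊆ verts De := fun _ hv =>
  let ⟨_, hs, k⟩ := mem_verts.1 hv
  mem_verts.2 ⟨_, (mem_link.1 hs).2, Finset.mem_union_left _ k⟩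

omit [AddCommGroup N] [Module ℝ N] in
theorem Down.mem_verts_link (h : Down De) : v ∈ verts (KH.link De t) ↔ v ∉ t ∧ insert v t ∈ De := by
  rw [h.verts_link, mem_nb]

theorem res_le : res La t ≤ La := inf_le_left

theorem res_insert : res La (insert e s) = res (res La {e}) s := by
  rw [res_res, Finset.union_comm, ← Finset.insert_eq]

theorem Onto.link (h : Onto La (s ∪ t)) (hd : Disjoint s t) : Onto (res La t) s := fun f => by
  obtain ⟨m, hm, e⟩ := h fun v => if v ∈ t then 0 else f v
  exact ⟨m, mem_res.2 ⟨hm, fun v hv => by rw [e v (Finset.mem_union_right _ hv), if_pos hv]⟩,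
    fun v hv => by rw [e v (Finset.mem_union_left _ hv), if_neg (Finset.disjoint_left.1 hd hv)]⟩

theorem Cvx.link (hF : Fan La De) (h : Cvx La De l) (hm : m ∈ La) (ht : ∀ v ∈ t, m v = l v) :
    Cvx (res La t) (link De t) (fun v => l v - m v) := fun s hs => by
  obtain ⟨h1, h2⟩ := mem_link.1 hs
  obtain ⟨k, hk, k1, k2⟩ := h _ h2
  refine ⟨k - m, mem_res.2 ⟨La.sub_mem hk hm, fun v hv => ?_⟩, fun v hv => ?_, fun v hv hn => ?_⟩
  · rw [LinearMap.sub_apply, k1 v (Finset.mem_union_right _ hv), ht v hv, sub_self]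
  · rw [LinearMap.sub_apply, k1 v (Finset.mem_union_left _ hv)]
  · obtain ⟨x, hx, hv'⟩ := mem_verts.1 hv
    have := k2 v (verts_link_subset hv) fun k => (Finset.mem_union.1 k).elim hn
      (Finset.disjoint_left.1 (mem_link.1 hx).1 hv')
    rw [LinearMap.sub_apply]
    linarith

theorem Fan.link (hF : Fan La De) (ht : t ∈ De) : Fan (res La t) (link De t) := by
  refine ⟨Down.link hF.down, fun s hs => (hF.onto _ (mem_link.1 hs).2).link (mem_link.1 hs).1, ?_⟩
  obtain ⟨l, hl⟩ := hF.proj
  obtain ⟨m, hm, e⟩ := hF.onto t ht l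
  exact ⟨_, hl.link hF hm e⟩

/-- a down-closed subfamily of a fan is a fan -/
theorem Fan.sub (hF : Fan La T) (hs : D ⊆ T) (hD : Down D) : Fan La D := by
  obtain ⟨l, hl⟩ := hF.proj
  refine ⟨hD, fun t ht => hF.onto t (hs ht), l, fun t ht => ?_⟩
  obtain ⟨m, hm, e1, e2⟩ := hl t (hs ht)
  exact ⟨m, hm, e1, fun v hv => e2 v (let ⟨u, hu, k⟩ := mem_verts.1 hv; mem_verts.2 ⟨u, hs hu, k⟩)⟩

theorem Cvx.weak (h : Cvx La De l) : WCvx La De l := fun t ht => by
  obtain ⟨m, hm, e1, e2⟩ := h t ht
  refine ⟨m, hm, e1, fun v hv => ?_⟩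
  by_cases k : v ∈ t
  exacts [(e1 v k).le, (e2 v hv k).le]

theorem Cvx.comb (h : WCvx La De l) (h' : Cvx La De l') {a b : ℝ} (ha : 0 ≤ a) (hb : 0 < b) :
    Cvx La De (fun v => a * l v + b * l' v) := fun t ht => by
  obtain ⟨m, hm, e1, e2⟩ := h t ht
  obtain ⟨k, hk, f1, f2⟩ := h' t ht
  refine ⟨a • m + b • k, La.add_mem (La.smul_mem _ hm) (La.smul_mem _ hk),
    fun v hv => by simp [e1 v hv, f1 v hv], fun v hv hn => ?_⟩
  simp only [LinearMap.add_apply, LinearMap.smul_apply, smul_eq_mul]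
  exact add_lt_add_of_le_of_lt (mul_le_mul_of_nonneg_left (e2 v hv) ha)
    (mul_lt_mul_of_pos_left (f2 v hv hn) hb)

theorem all_iff (h : ∅ ∈ De) : All Q La De ↔ Q La De ∧ Below Q La De := by
  refine ⟨fun k => ⟨by simpa only [res_empty, link_empty] using k ∅ h, fun t ht _ => k t ht⟩,
    fun k t ht => ?_⟩
  rcases t.eq_empty_or_nonempty with rfl | hn
  · simpa only [res_empty, link_empty] using k.1
  · exact k.2 t ht hn

theorem All.link' (h : All Q La De) (t : Finset N) : All Q (res La t) (link De t) := fun s hs => by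
  rw [res_res, link_link (mem_link.1 hs).1]
  exact h _ (mem_link.1 hs).2

theorem All.link (h : All Q La De) (ht : t ∈ De) : All Q (res La t) (link De t) := h.link' t

theorem All.at (h : All Q La De) (h0 : ∅ ∈ De) : Q La De := ((all_iff h0).1 h).1

theorem All.below (h : All Q La De) : Below Q La De := fun t ht _ => h t ht

theorem Below.link (h : Below Q La De) (ht : t ∈ De) (hn : t.Nonempty) :
    All Q (res La t) (link De t) := fun s hs => by
  rw [res_res, link_link (mem_link.1 hs).1]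
  exact h _ (mem_link.1 hs).2 (hn.mono Finset.subset_union_right)

theorem below_of_verts (hD : Down De)
    (h : ∀ v, {v} ∈ De → All Q (res La {v}) (link De {v})) : Below Q La De := by
  rintro t ht ⟨v, hv⟩
  have e : t.erase v ∪ {v} = t := by
    rw [Finset.union_comm, ← Finset.insert_eq, Finset.insert_erase hv]
  have d : Disjoint (t.erase v) {v} := Finset.disjoint_singleton_right.2 (Finset.notMem_erase v t)
  have := h v (hD t ht _ (Finset.singleton_subset_iff.2 hv)) _ (mem_link.2 ⟨d, e.symm ▸ ht⟩)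
  rwa [res_res, link_link d, e] at this

/-! ### suspensions and modifications -/

omit [AddCommGroup N] [Module ℝ N] in
theorem mem_modif : s ∈ modif T D e ↔ s ∈ T ∨ ∃ u ∈ D, s = insert e u := by
  simp only [modif, Finset.mem_union, Finset.mem_image, eq_comm (a := s)]

omit [AddCommGroup N] [Module ℝ N] in
theorem mem_susp : s ∈ susp D e e' ↔
    s ∈ D ∨ (∃ u ∈ D, s = insert e u) ∨ ∃ u ∈ D, s = insert e' u := by
  simp only [susp, Finset.mem_union, Finset.mem_image, or_assoc, eq_comm (a := s)]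

/-- a vector killed by `La` is not a vertex -/
theorem Fan.notMem_verts (hF : Fan La De) (h : ∀ m ∈ La, m e = 0) : e ∉ verts De := fun k => by
  obtain ⟨t, ht, k⟩ := mem_verts.1 k
  obtain ⟨m, hm, e1⟩ := hF.onto t ht fun _ => 1
  exact zero_ne_one ((h m hm).symm.trans (e1 e k))

theorem Onto.insert_of_res (h : Onto (res La {e}) s) (he : ∃ m ∈ La, m e = 1) :
    Onto La (insert e s) := fun f => by
  obtain ⟨m, hm, e1⟩ := he
  obtain ⟨k, hk, e2⟩ := h fun v => f v - f e * m v
  refine ⟨k + f e • m, La.add_mem (res_le hk) (La.smul_mem _ hm), fun v hv => ?_⟩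
  rcases Finset.mem_insert.1 hv with rfl | hv
  · simp [(mem_res.1 hk).2 v (Finset.mem_singleton_self v), e1]
  · simp [e2 v hv]

theorem exists_res_one (h : Onto (res La {e}) t) (he : ∃ m ∈ La, m e = 1) :
    ∃ m ∈ res La t, m e = 1 := by
  obtain ⟨m, hm, e1⟩ := he
  obtain ⟨k, hk, e2⟩ := h m
  exact ⟨m - k, mem_res.2 ⟨La.sub_mem hm (res_le hk), fun v hv => by simp [e2 v hv]⟩,
    by simp [(mem_res.1 hk).2 e (Finset.mem_singleton_self e), e1]⟩

omit [AddCommGroup N] [Module ℝ N] in
theorem verts_modif : verts (modif T D e) ⊆ insert e (verts T ∪ verts D) := fun v hv => by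
  obtain ⟨s, hs, hv⟩ := mem_verts.1 hv
  rcases mem_modif.1 hs with k | ⟨x, hx, rfl⟩
  · exact Finset.mem_insert_of_mem (Finset.mem_union_left _ (mem_verts.2 ⟨s, k, hv⟩))
  · exact Finset.insert_subset_insert e
      (fun y hy => Finset.mem_union_right _ (mem_verts.2 ⟨x, hx, hy⟩)) hv

omit [AddCommGroup N] [Module ℝ N] in
theorem verts_mono (hs : D ⊆ T) : verts D ⊆ verts T := fun _ hv =>
  let ⟨u, hu, k⟩ := mem_verts.1 hv
  mem_verts.2 ⟨u, hs hu, k⟩

omit [AddCommGroup N] [Module ℝ N] in
theorem susp_eq : susp D e e' = modif (modif D D e) D e' := rfl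

omit [AddCommGroup N] [Module ℝ N] in
theorem verts_susp : verts (susp D e e') ⊆ insert e (insert e' (verts D)) := fun v hv => by
  have := verts_modif (susp_eq ▸ hv)
  simp only [Finset.mem_insert, Finset.mem_union] at this ⊢
  rcases this with k | k | k
  · exact Or.inr (Or.inl k)
  · exact (by simpa using verts_modif k : v = e ∨ v ∈ verts D).imp id Or.inr
  · exact Or.inr (Or.inr k)

omit [AddCommGroup N] [Module ℝ N] in
theorem Down.modif (hT : Down T) (hs : D ⊆ T) (hD : Down D) : Down (modif T D e) := by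
  intro t ht s hst
  rcases mem_modif.1 ht with k | ⟨u, hu, rfl⟩
  · exact mem_modif.2 (Or.inl (hT t k s hst))
  · have k : s.erase e ∈ D := hD u hu _ (Finset.subset_insert_iff.1 hst)
    by_cases h : e ∈ s
    · exact mem_modif.2 (Or.inr ⟨_, k, (Finset.insert_erase h).symm⟩)
    · rw [Finset.erase_eq_of_notMem h] at k
      exact mem_modif.2 (Or.inl (hs k))

/-- small perturbations of a supporting form -/
theorem Cvx.near (h : Cvx La T l) (ht : t ∈ T) (k : N → ℝ) : ∃ m ∈ La, (∀ v ∈ t, m v = l v) ∧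
    ∀ᶠ ε in nhdsWithin (0 : ℝ) (Set.Ioi 0), 0 < ε ∧ ∀ v ∈ verts T, v ∉ t → m v + ε * k v < l v := by
  obtain ⟨m, hm, e1, e2⟩ := h t ht
  refine ⟨m, hm, e1, Filter.Eventually.and self_mem_nhdsWithin
    (Filter.Eventually.filter_mono nhdsWithin_le_nhds ?_)⟩
  rw [Filter.eventually_all_finset]
  intro v hv
  by_cases hn : v ∈ t
  · exact Filter.Eventually.of_forall fun _ k => absurd hn k
  · have c : ContinuousAt (fun ε : ℝ => m v + ε * k v) 0 := by fun_prop
    exact (c.eventually_lt continuousAt_const (by simpa using e2 v hv hn)).mono fun _ k _ => k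

theorem fan_modif (hF : Fan (res La {e}) T) (hs : D ⊆ T) (hD : Down D) (he : ∃ m ∈ La, m e = 1) :
    Fan La (modif T D e) := by
  have z : ∀ m ∈ res La {e}, m e = 0 := fun m hm =>
    (mem_res.1 hm).2 e (Finset.mem_singleton_self e)
  have en := hF.notMem_verts z
  have ne : ∀ v ∈ verts T, v ≠ e := fun v hv k => en (k ▸ hv)
  refine ⟨Down.modif hF.down hs hD, fun t ht => ?_, ?_⟩
  · rcases mem_modif.1 ht with k | ⟨u, hu, rfl⟩
    · exact (Onto.insert_of_res (hF.onto t k) he).mono (Finset.subset_insert _ _)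
    · exact Onto.insert_of_res (hF.onto u (hs hu)) he
  obtain ⟨l, hl⟩ := hF.proj
  have sv : ∀ v ∈ verts (modif T D e), v = e ∨ v ∈ verts T := fun v hv =>
    (Finset.mem_insert.1 (verts_modif hv)).imp id fun k =>
      (Finset.mem_union.1 k).elim id fun k => verts_mono hs k
  have key : ∀ t ∈ modif T D e, ∀ᶠ ε in nhdsWithin (0 : ℝ) (Set.Ioi 0), ∃ m ∈ La,
      (∀ v ∈ t, m v = Function.update l e ε v) ∧
      ∀ v ∈ verts (modif T D e), v ∉ t → m v < Function.update l e ε v := by
    intro t ht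
    rcases mem_modif.1 ht with k | ⟨u, hu, rfl⟩
    · obtain ⟨m, hm, e1, e2⟩ := hl t k
      filter_upwards [self_mem_nhdsWithin] with ε hε
      refine ⟨m, res_le hm, fun v hv => ?_, fun v hv hn => ?_⟩
      · rw [Function.update_of_ne (ne v (mem_verts.2 ⟨t, k, hv⟩)), e1 v hv]
      · rcases sv v hv with rfl | k'
        · rw [Function.update_self, z m hm]; exact hε
        · rw [Function.update_of_ne (ne v k')]; exact e2 v k' hn
    · obtain ⟨k, hk, k1⟩ := exists_res_one (hF.onto u (hs hu)) he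
      obtain ⟨m, hm, e1, e2⟩ := hl.near (hs hu) k
      refine e2.mono fun ε h => ⟨m + ε • k, La.add_mem (res_le hm) (La.smul_mem _ (res_le hk)),
        fun v hv => ?_, fun v hv hn => ?_⟩
      · rcases Finset.mem_insert.1 hv with rfl | hv
        · simp [z m hm, k1]
        · rw [Function.update_of_ne (ne v (mem_verts.2 ⟨u, hs hu, hv⟩))]
          simp [e1 v hv, (mem_res.1 hk).2 v hv]
      · rw [Finset.mem_insert, not_or] at hn
        rw [Function.update_of_ne hn.1]
        exact h.2 v ((sv v hv).resolve_left hn.1) hn.2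
  obtain ⟨ε, hε⟩ := ((Filter.eventually_all_finset _).2 key).exists
  exact ⟨_, hε⟩

theorem res_opp {a : ℝ} (ha : 0 < a) (h : ∀ m ∈ La, m e' = -a * m e) :
    res La {e'} = res La {e} := by
  ext m
  simp only [mem_res, Finset.mem_singleton, forall_eq]
  exact and_congr_right fun hm => by simp [h m hm, ha.ne']

theorem ne_opp {a : ℝ} (he : ∃ m ∈ La, m e = 1) (ha : 0 < a) (h : ∀ m ∈ La, m e' = -a * m e) :
    e ≠ e' := fun k => by
  obtain ⟨m, hm, e1⟩ := he
  have := h m hm
  rw [← k, e1] at this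
  linarith

theorem one_opp {a : ℝ} (he : ∃ m ∈ La, m e = 1) (ha : 0 < a) (h : ∀ m ∈ La, m e' = -a * m e) :
    ∃ m ∈ La, m e' = 1 := by
  obtain ⟨m, hm, e1⟩ := he
  refine ⟨(-a⁻¹) • m, La.smul_mem _ hm, ?_⟩
  rw [LinearMap.smul_apply, h m hm, e1, smul_eq_mul]
  field_simp

theorem fan_susp {a : ℝ} (hF : Fan (res La {e}) D) (he : ∃ m ∈ La, m e = 1) (ha : 0 < a)
    (h : ∀ m ∈ La, m e' = -a * m e) : Fan La (susp D e e') := by
  have z : ∀ m ∈ res La {e}, m e = 0 := fun m hm =>
    (mem_res.1 hm).2 e (Finset.mem_singleton_self e)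
  have z' : ∀ m ∈ res La {e}, m e' = 0 := fun m hm => by rw [h m (res_le hm), z m hm, mul_zero]
  have ee := ne_opp he ha h
  have ne : ∀ v ∈ verts D, v ≠ e := fun v hv k => hF.notMem_verts z (k ▸ hv)
  have ne' : ∀ v ∈ verts D, v ≠ e' := fun v hv k => hF.notMem_verts z' (k ▸ hv)
  refine ⟨Down.modif (Down.modif hF.down (Finset.Subset.refl D) hF.down)
    (fun x hx => mem_modif.2 (Or.inl hx)) hF.down, fun t ht => ?_, ?_⟩
  · rcases mem_susp.1 ht with k | ⟨u, hu, rfl⟩ | ⟨u, hu, rfl⟩
    · exact (Onto.insert_of_res (hF.onto t k) he).mono (Finset.subset_insert _ _)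
    · exact Onto.insert_of_res (hF.onto u hu) he
    · exact Onto.insert_of_res (res_opp ha h ▸ hF.onto u hu) (one_opp he ha h)
  obtain ⟨l, hl⟩ := hF.proj
  have sv : ∀ v ∈ verts (susp D e e'), v = e ∨ v = e' ∨ v ∈ verts D := fun v hv => by
    simpa using verts_susp hv
  have key : ∀ t ∈ susp D e e', ∀ᶠ ε in nhdsWithin (0 : ℝ) (Set.Ioi 0), ∃ m ∈ La,
      (∀ v ∈ t, m v = if v = e ∨ v = e' then ε else l v) ∧
      ∀ v ∈ verts (susp D e e'), v ∉ t → m v < if v = e ∨ v = e' then ε else l v := by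
    intro t ht
    rcases mem_susp.1 ht with k | ⟨u, hu, rfl⟩ | ⟨u, hu, rfl⟩
    · obtain ⟨m, hm, e1, e2⟩ := hl t k
      filter_upwards [self_mem_nhdsWithin] with ε hε
      refine ⟨m, res_le hm, fun v hv => ?_, fun v hv hn => ?_⟩
      · have := mem_verts.2 ⟨t, k, hv⟩
        rw [if_neg (not_or.2 ⟨ne v this, ne' v this⟩), e1 v hv]
      · rcases sv v hv with rfl | rfl | k'
        · rw [if_pos (Or.inl rfl), z m hm]; exact hε
        · rw [if_pos (Or.inr rfl), z' m hm]; exact hε
        · rw [if_neg (not_or.2 ⟨ne v k', ne' v k'⟩)]; exact e2 v k' hn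
    · obtain ⟨k, hk, k1⟩ := exists_res_one (hF.onto u hu) he
      obtain ⟨m, hm, e1, e2⟩ := hl.near hu k
      refine e2.mono fun ε hε => ⟨m + ε • k, La.add_mem (res_le hm) (La.smul_mem _ (res_le hk)),
        fun v hv => ?_, fun v hv hn => ?_⟩
      · rcases Finset.mem_insert.1 hv with rfl | hv
        · simp [z m hm, k1]
        · have := mem_verts.2 ⟨u, hu, hv⟩
          simp [ne v this, ne' v this, e1 v hv, (mem_res.1 hk).2 v hv]
      · rw [Finset.mem_insert, not_or] at hn
        rcases sv v hv with k' | rfl | k'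
        · exact absurd k' hn.1
        · simp only [or_true, if_true, LinearMap.add_apply, LinearMap.smul_apply, z' m hm,
            h k (res_le hk), k1, smul_eq_mul]
          nlinarith [mul_pos hε.1 ha, hε.1]
        · rw [if_neg (not_or.2 ⟨ne v k', ne' v k'⟩)]
          exact hε.2 v k' hn.2
    · obtain ⟨k, hk, k1⟩ := exists_res_one (res_opp ha h ▸ hF.onto u hu) (one_opp he ha h)
      obtain ⟨m, hm, e1, e2⟩ := hl.near hu k
      refine e2.mono fun ε hε => ⟨m + ε • k, La.add_mem (res_le hm) (La.smul_mem _ (res_le hk)),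
        fun v hv => ?_, fun v hv hn => ?_⟩
      · rcases Finset.mem_insert.1 hv with rfl | hv
        · simp [z' m hm, k1]
        · have := mem_verts.2 ⟨u, hu, hv⟩
          simp [ne v this, ne' v this, e1 v hv, (mem_res.1 hk).2 v hv]
      · rw [Finset.mem_insert, not_or] at hn
        rcases sv v hv with rfl | k' | k'
        · have k2 := h k (res_le hk)
          rw [k1] at k2
          have k3 : k v < 0 := by nlinarith
          simp only [true_or, if_true, LinearMap.add_apply, LinearMap.smul_apply, z m hm,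
            smul_eq_mul]
          nlinarith [mul_neg_of_pos_of_neg hε.1 k3, hε.1]
        · exact absurd k' hn.1
        · rw [if_neg (not_or.2 ⟨ne v k', ne' v k'⟩)]
          exact hε.2 v k' hn.2
  obtain ⟨ε, hε⟩ := ((Filter.eventually_all_finset _).2 key).exists
  exact ⟨_, hε⟩

omit [AddCommGroup N] [Module ℝ N] in
theorem link_modif_old (he : e ∉ t) : link (modif T D e) t = modif (link T t) (link D t) e := by
  ext s
  rw [mem_link, mem_modif, mem_modif, mem_link]
  constructor
  · rintro ⟨h1, h2 | ⟨x, hx, h2⟩⟩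
    · exact Or.inl ⟨h1, h2⟩
    · have tx : t ⊆ x := fun y hy => (Finset.mem_insert.1
        (h2 ▸ Finset.mem_union_right s hy)).resolve_left fun k : y = e => he (k ▸ hy)
      refine Or.inr ⟨x \ t, sdiff_mem_link (by rwa [Finset.union_eq_left.2 tx]), ?_⟩
      rw [← Finset.insert_sdiff_of_notMem _ he, ← h2, Finset.union_sdiff_cancel_right h1]
  · rintro (h | ⟨x, hx, rfl⟩)
    · exact ⟨h.1, Or.inl h.2⟩
    · obtain ⟨h1, h2⟩ := mem_link.1 hx
      exact ⟨Finset.disjoint_insert_left.2 ⟨he, h1⟩, Or.inr ⟨_, h2, Finset.insert_union _ _ _⟩⟩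

omit [AddCommGroup N] [Module ℝ N] in
theorem link_modif_new (h1 : e ∉ verts T) (h2 : e ∉ verts D) (he : e ∉ r) :
    link (modif T D e) (insert e r) = link D r := by
  ext s
  rw [mem_link, mem_modif, mem_link, Finset.disjoint_insert_right, Finset.union_insert]
  constructor
  · rintro ⟨⟨k1, k2⟩, k3 | ⟨x, hx, k3⟩⟩
    · exact absurd (mem_verts.2 ⟨_, k3, Finset.mem_insert_self _ _⟩) h1
    · refine ⟨k2, ?_⟩
      rwa [← Finset.erase_insert (s := s ∪ r) (a := e) (by simp [k1, he]), k3,
        Finset.erase_insert fun k => h2 (mem_verts.2 ⟨x, hx, k⟩)]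
  · exact fun k => ⟨⟨fun k' => h2 (mem_verts.2 ⟨_, k.2, Finset.mem_union_left _ k'⟩), k.1⟩,
      Or.inr ⟨_, k.2, rfl⟩⟩

omit [AddCommGroup N] [Module ℝ N] in
theorem link_susp_new (h : e' ∉ verts D) (hne : e ≠ e') (he : e' ∉ r) :
    link (susp D e e') (insert e' r) = link D r :=
  link_modif_new (fun k => by simpa [hne.symm, h] using verts_modif k) h he

omit [AddCommGroup N] [Module ℝ N] in
theorem link_modif_of_notMem (he : e ∉ verts T) (hs : D ⊆ T) (ht : e ∉ t) :
    link (modif T D e) t = modif (link T t) (link D t) e := link_modif_old ht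

omit [AddCommGroup N] [Module ℝ N] in
theorem link_modif_apex (he : e ∉ verts T) (hs : D ⊆ T) : link (modif T D e) {e} = D :=
  (link_modif_new he (fun k => he (verts_mono hs k)) (Finset.notMem_empty e)).trans link_empty

omit [AddCommGroup N] [Module ℝ N] in
theorem link_susp_of_notMem (he : e ∉ verts D) (he' : e' ∉ verts D) (ht : e ∉ t) (ht' : e' ∉ t) :
    link (susp D e e') t = susp (link D t) e e' := by
  rw [susp_eq, link_modif_old ht', link_modif_old ht, susp_eq]

omit [AddCommGroup N] [Module ℝ N] in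
theorem susp_comm : susp D e e' = susp D e' e := by
  ext s
  rw [mem_susp, mem_susp, or_comm (a := ∃ u ∈ D, s = insert e u)]

omit [AddCommGroup N] [Module ℝ N] in
theorem link_susp_apex (he : e ∉ verts D) (he' : e' ∉ verts D) (hne : e ≠ e') :
    link (susp D e e') {e} = D := by
  rw [susp_comm]
  exact (link_susp_new he hne.symm (Finset.notMem_empty e)).trans link_empty

/-! ### links in stellar subdivisions -/

omit [AddCommGroup N] [Module ℝ N] in
theorem star_of_notMem (hD : Down De) (hz : z ∉ De) : star De z w = De := by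
  ext s
  rw [mem_star]
  exact ⟨fun h => h.elim And.left fun ⟨t, _, _, k, _⟩ =>
    absurd (hD _ k z Finset.subset_union_right) hz,
    fun h => Or.inl ⟨h, fun k => hz (hD s h z k)⟩⟩

omit [AddCommGroup N] [Module ℝ N] in
theorem star_empty : star De ∅ w = ∅ := by
  simp [star]

omit [AddCommGroup N] [Module ℝ N] in
/-- The link of an old face in a stellar subdivision. -/
theorem link_star_old (hd : Down De) (hw : w ∉ verts De) (hwt : w ∉ t) :
    link (star De z w) t = star (link De t) (z \ t) w := by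
  have a1 : ∀ x : Finset N, z ⊆ x ∪ t ↔ z \ t ⊆ x := fun x => by
    rw [Finset.union_comm]
    exact sdiff_le_iff.symm
  ext s
  by_cases h : w ∈ s
  · obtain ⟨x, hx, rfl⟩ : ∃ x, w ∉ x ∧ insert w x = s :=
      ⟨s.erase w, Finset.notMem_erase _ _, Finset.insert_erase h⟩
    rw [mem_link, Finset.insert_union, insert_mem_star hd hw (by simp [hx, hwt]),
      insert_mem_star hd.link (fun k => hw (verts_link_subset k)) hx, mem_link, a1,
      Finset.disjoint_insert_left, Finset.disjoint_union_left, Finset.union_assoc x (z \ t),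
      Finset.sdiff_union_self_eq_union, Finset.union_assoc, Finset.union_comm t]
    exact ⟨fun k => ⟨k.2.1, ⟨k.1.2, Finset.sdiff_disjoint⟩, k.2.2⟩,
      fun k => ⟨⟨hwt, k.2.1.1⟩, k.1, k.2.2⟩⟩
  · rw [mem_link, mem_star_not h, mem_star_not (by simp [h, hwt]), mem_link, a1, and_assoc]

omit [AddCommGroup N] [Module ℝ N] in
theorem link_star_far (hd : Down De) (hw : w ∉ verts De) (hwt : w ∉ t)
    (h : z ∪ t ∉ De) : link (star De z w) t = link De t := by
  rw [link_star_old hd hw hwt, star_of_notMem hd.link fun k => h ?_]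
  simpa using (mem_link.1 k).2

omit [AddCommGroup N] [Module ℝ N] in
/-- The link of a new face in a stellar subdivision. -/
theorem mem_link_star_new (hd : Down De) (hw : w ∉ verts De) (hwr : w ∉ r) :
    s ∈ link (star De z w) (insert w r) ↔ Disjoint s r ∧ ¬z ⊆ s ∪ r ∧ s ∪ r ∪ z ∈ De := by
  rw [mem_link, Finset.disjoint_insert_right, Finset.union_insert]
  constructor
  · rintro ⟨⟨h1, h2⟩, h3⟩
    exact ⟨h2, (insert_mem_star hd hw (by simp [h1, hwr])).1 h3⟩
  · rintro ⟨h1, h2, h3⟩
    have : w ∉ s := fun k => hw (mem_verts.2 ⟨_, h3, by simp [k]⟩)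
    exact ⟨⟨this, h1⟩, (insert_mem_star hd hw (by simp [this, hwr])).2 ⟨h2, h3⟩⟩

omit [AddCommGroup N] [Module ℝ N] in
/-- The new face contains all vertices of `z` but one. -/
theorem link_star_one' (hd : Down De) (hw : w ∉ verts De) (hwr : w ∉ r)
    (h : z \ r = {e}) : link (star De z w) (insert w r) = link De (r ∪ z) := by
  have a1 : ∀ x : Finset N, z ⊆ x ∪ r ↔ e ∈ x := fun x => by
    rw [Finset.union_comm, ← Finset.singleton_subset_iff, ← h]
    exact sdiff_le_iff.symm
  ext s
  rw [mem_link_star_new hd hw hwr, mem_link, a1, Finset.union_assoc,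
    ← Finset.union_sdiff_self_eq_union (s := r) (t := z), h, Finset.disjoint_union_right,
    Finset.disjoint_singleton_right, and_assoc]

omit [AddCommGroup N] [Module ℝ N] in
/-- The new face contains all vertices of `z` but two. -/
theorem link_star_two (hd : Down De) (hw : w ∉ verts De) (hwr : w ∉ r)
    (h : z \ r = {e, e'}) (he : e ≠ e') :
    link (star De z w) (insert w r) = susp (link De (r ∪ z)) e e' := by
  have a1 : ∀ x : Finset N, z ⊆ x ∪ r ↔ e ∈ x ∧ e' ∈ x := fun x => by
    rw [Finset.union_comm, ← Finset.singleton_subset_iff (a := e'), ← Finset.insert_subset_iff, ← h]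
    exact sdiff_le_iff.symm
  have a2 : r ∪ z = r ∪ {e, e'} := by rw [← h, Finset.union_sdiff_self_eq_union]
  have e1 : e ∈ z \ r := h ▸ Finset.mem_insert_self _ _
  have e2 : e' ∈ z \ r := h ▸ Finset.mem_insert_of_mem (Finset.mem_singleton_self _)
  obtain ⟨e1, e3⟩ := Finset.mem_sdiff.1 e1
  obtain ⟨e2, e4⟩ := Finset.mem_sdiff.1 e2
  have a3 : ∀ x : Finset N, Disjoint x (r ∪ z) ↔ Disjoint x r ∧ e ∉ x ∧ e' ∉ x := fun x => by
    rw [a2, Finset.disjoint_union_right, Finset.disjoint_insert_right,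
      Finset.disjoint_singleton_right]
  have a4 : ∀ y ∈ z, ∀ x : Finset N, insert y x ∪ (r ∪ z) = x ∪ (r ∪ z) := fun y hy x => by
    rw [Finset.insert_union, Finset.insert_eq_of_mem (by simp [hy])]
  ext s
  rw [mem_link_star_new hd hw hwr, mem_susp, a1, Finset.union_assoc]
  constructor
  · rintro ⟨h1, h2, h3⟩
    by_cases k1 : e ∈ s
    · refine Or.inr (Or.inl ⟨s.erase e, mem_link.2 ⟨(a3 _).2 ⟨h1.mono_left (Finset.erase_subset _ _),
        Finset.notMem_erase _ _, fun k => h2 ⟨k1, Finset.mem_of_mem_erase k⟩⟩, ?_⟩,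
        (Finset.insert_erase k1).symm⟩)
      rwa [← a4 e e1, Finset.insert_erase k1]
    by_cases k2 : e' ∈ s
    · refine Or.inr (Or.inr ⟨s.erase e', mem_link.2 ⟨(a3 _).2
        ⟨h1.mono_left (Finset.erase_subset _ _), fun k => k1 (Finset.mem_of_mem_erase k),
        Finset.notMem_erase _ _⟩, ?_⟩, (Finset.insert_erase k2).symm⟩)
      rwa [← a4 e' e2, Finset.insert_erase k2]
    · exact Or.inl (mem_link.2 ⟨(a3 _).2 ⟨h1, k1, k2⟩, h3⟩)
  · rintro (k | ⟨x, k, rfl⟩ | ⟨x, k, rfl⟩)
    · obtain ⟨k1, k2⟩ := mem_link.1 k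
      exact ⟨((a3 _).1 k1).1, fun k => ((a3 _).1 k1).2.1 k.1, k2⟩
    · obtain ⟨k1, k2⟩ := mem_link.1 k
      obtain ⟨k3, -, k5⟩ := (a3 _).1 k1
      exact ⟨Finset.disjoint_insert_left.2 ⟨e3, k3⟩, fun k =>
        (Finset.mem_insert.1 k.2).elim he.symm k5, by rwa [a4 e e1]⟩
    · obtain ⟨k1, k2⟩ := mem_link.1 k
      obtain ⟨k3, k4, -⟩ := (a3 _).1 k1
      exact ⟨Finset.disjoint_insert_left.2 ⟨e4, k3⟩, fun k =>
        (Finset.mem_insert.1 k.1).elim he k4, by rwa [a4 e' e2]⟩

omit [AddCommGroup N] [Module ℝ N] in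
theorem link_star_of_ne (hD : Down De) (hw : w ∉ verts De) (hv : v ≠ w) :
    link (star De z w) {v} = star (link De {v}) (z.erase v) w := by
  rw [link_star_old hD hw (by simpa using hv.symm), Finset.sdiff_singleton_eq_erase]

omit [AddCommGroup N] [Module ℝ N] in
theorem link_star_new (hD : Down De) (hw : w ∉ verts De) (hne : e ≠ e') :
    link (star De {e, e'} w) {w} = susp (link De {e, e'}) e e' := by
  simpa using link_star_two hD hw (Finset.notMem_empty w) (Finset.sdiff_empty) hne

omit [AddCommGroup N] [Module ℝ N] in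
theorem link_star_one (hD : Down De) (hw : w ∉ verts De) :
    link (star De {v} w) {w} = link De {v} := by
  simpa using link_star_one' hD hw (Finset.notMem_empty w) (Finset.sdiff_empty)

theorem New.link' {a : N → ℝ} (h : New La De z w a) (hz : ¬z ⊆ t) (ht : z ∪ t ∈ De) :
    New (res La t) (link De t) (z \ t) w a := by
  refine ⟨sdiff_mem_link ht, Finset.sdiff_nonempty.2 hz, fun k => h.fresh (verts_link_subset k),
    fun v hv => h.pos v (Finset.mem_sdiff.1 hv).1, fun m hm => ?_⟩
  rw [h.eq m (res_le hm)]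
  refine (Finset.sum_subset Finset.sdiff_subset fun v h1 h2 => ?_).symm
  rw [(mem_res.1 hm).2 v (not_not.1 fun k => h2 (Finset.mem_sdiff.2 ⟨h1, k⟩)), mul_zero]

/-- The value at the new vertex of a form that vanishes on `r`. -/
theorem New.eq_res {a : N → ℝ} (h : New La De z w a) (hm : m ∈ La) (h0 : ∀ v ∈ r, m v = 0) :
    m w = ∑ v ∈ z \ r, a v * m v := by
  rw [h.eq m hm]
  refine (Finset.sum_subset Finset.sdiff_subset fun v h1 h2 => ?_).symm
  rw [h0 v (not_not.1 fun k => h2 (Finset.mem_sdiff.2 ⟨h1, k⟩)), mul_zero]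

theorem New.res_one {a : N → ℝ} (h : New La De z w a) (he : z \ r = {e}) :
    res La (insert w r) = res La (r ∪ z) := by
  have e1 : e ∈ z := (Finset.mem_sdiff.1 (he ▸ Finset.mem_singleton_self e)).1
  ext m
  rw [mem_res, mem_res, ← Finset.union_sdiff_self_eq_union, he]
  simp only [Finset.mem_insert, Finset.mem_union, Finset.mem_singleton, or_imp, forall_and,
    forall_eq]
  refine and_congr_right fun hm => ⟨fun k => ⟨k.2, ?_⟩, fun k => ⟨?_, k.1⟩⟩
  · have := h.eq_res hm k.2
    rw [he, Finset.sum_singleton, k.1] at this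
    exact (mul_eq_zero.1 this.symm).resolve_left (h.pos e e1).ne'
  · rw [h.eq_res hm k.1, he, Finset.sum_singleton, k.2, mul_zero]

theorem New.res_two {a : N → ℝ} (h : New La De z w a) (he : z \ r = {e, e'}) (ne : e ≠ e')
    (hm : m ∈ res La (insert w r)) : a e * m e + a e' * m e' = 0 := by
  obtain ⟨h1, h2⟩ := mem_res.1 hm
  have := h.eq_res h1 fun v hv => h2 v (Finset.mem_insert_of_mem hv)
  rw [he, Finset.sum_pair ne, h2 w (Finset.mem_insert_self _ _)] at this
  exact this.symm

theorem New.res_two' {a : N → ℝ} (h : New La De z w a) (he : z \ r = {e, e'}) (ne : e ≠ e') :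
    res (res La (insert w r)) {e} = res La (r ∪ z) := by
  have e2 : e' ∈ z := (Finset.mem_sdiff.1
    (he ▸ Finset.mem_insert_of_mem (Finset.mem_singleton_self e'))).1
  ext m
  constructor
  · intro hm
    obtain ⟨h1, h2⟩ := mem_res.1 hm
    have h3 := h2 e (Finset.mem_singleton_self e)
    have h4 := h.res_two he ne h1
    rw [h3, mul_zero, zero_add] at h4
    have h5 := (mul_eq_zero.1 h4).resolve_left (h.pos e' e2).ne'
    refine mem_res.2 ⟨res_le h1, fun v hv => ?_⟩
    rw [← Finset.union_sdiff_self_eq_union, he] at hv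
    simp only [Finset.mem_union, Finset.mem_insert, Finset.mem_singleton] at hv
    rcases hv with k | rfl | rfl
    exacts [(mem_res.1 h1).2 v (Finset.mem_insert_of_mem k), h3, h5]
  · intro hm
    obtain ⟨h1, h2⟩ := mem_res.1 hm
    have e1 : e ∈ z := (Finset.mem_sdiff.1 (he ▸ Finset.mem_insert_self e _)).1
    refine mem_res.2 ⟨mem_res.2 ⟨h1, fun v hv => ?_⟩, fun v hv => ?_⟩
    · rcases Finset.mem_insert.1 hv with rfl | k
      · rw [h.eq m h1]
        exact Finset.sum_eq_zero fun y hy => by rw [h2 y (Finset.mem_union_right _ hy), mul_zero]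
      · exact h2 v (Finset.mem_union_left _ k)
    · rw [Finset.mem_singleton.1 hv]
      exact h2 e (Finset.mem_union_right _ e1)

theorem New.link {a : N → ℝ} (hD : Down De) (h : New La De z w a) (hz : z.erase v ∈ link De {v})
    (hn : (z.erase v).Nonempty) : New (res La {v}) (link De {v}) (z.erase v) w a := by
  rw [← Finset.sdiff_singleton_eq_erase] at hz hn ⊢
  exact h.link' (Finset.sdiff_nonempty.1 hn) (by simpa using (mem_link.1 hz).2)

end KH
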