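import Pool.Agent.Lib.MP_e9c0f3_ag.KH.Link

/-! The support of a link is a tangent cone. -/

open scoped Classical Topology
open Filter

noncomputable section

namespace KH.Wt

variable {N : Type} [AddCommGroup N] [Module ℝ N] {La : Du N} {De : Finset (Finset N)}
  {t : Finset N} {a : N → ℝ} {x y : N}

theorem supp_link (hF : Fan La De) (ht : t ∈ De) (ha : ∀ v ∈ t, 0 < a v)
    (hx : ∀ m ∈ La, m x = ∑ v ∈ t, a v * m v) :
    y ∈ supp (res La t) (link De t) ↔ ∀ᶠ ε in 𝓝[>] (0 : ℝ), x + ε • y ∈ supp La De := by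
  constructor
  · rintro ⟨s, hs, c, hc, hy⟩
    obtain ⟨hd, hu⟩ := mem_link.1 hs
    choose k hk hk' using fun v : N => hF.onto t ht fun u => if u = v then 1 else 0
    set b : N → ℝ := fun v => k v y - ∑ u ∈ s, c u * k v u with hb
    have e : ∀ m ∈ La, m y = ∑ u ∈ s, c u * m u + ∑ v ∈ t, b v * m v := fun m hm => by
      have := hy (m - ∑ v ∈ t, m v • k v) (mem_res.2 ⟨sub_mem hm (Submodule.sum_mem _ fun v _ =>
        Submodule.smul_mem _ _ (hk v)), fun u hu => by
          simp [LinearMap.sum_apply, hk' _ u hu, hu]⟩)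
      simp only [LinearMap.sub_apply, LinearMap.sum_apply, LinearMap.smul_apply, smul_eq_mul,
        mul_sub, Finset.sum_sub_distrib, Finset.mul_sum] at this
      simp only [hb, sub_mul, Finset.sum_sub_distrib, Finset.sum_mul]
      rw [Finset.sum_comm (s := t)]
      simp only [mul_comm (k _ y), mul_assoc, mul_comm (k _ _) (m _)]
      linarith
    have ev : ∀ᶠ ε in 𝓝[>] (0 : ℝ), ∀ v ∈ t, 0 < a v + ε * b v :=
      (eventually_all_finset t).2 fun v hv => (ContinuousAt.eventually_lt (f := fun _ => (0 : ℝ))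
        (g := fun ε => a v + ε * b v) (by fun_prop) (by fun_prop)
        (by simpa using ha v hv)).filter_mono nhdsWithin_le_nhds
    filter_upwards [ev, self_mem_nhdsWithin] with ε h1 (h0 : 0 < ε)
    refine ⟨s ∪ t, hu, fun v => if v ∈ t then a v + ε * b v else ε * c v, fun v => ?_,
      fun m hm => ?_⟩
    · dsimp only
      split_ifs with h
      · exact (h1 v h).le
      · exact mul_nonneg h0.le (hc v)
    · dsimp only
      rw [Finset.sum_union hd, Finset.sum_congr rfl fun v hv => by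
        rw [if_neg (Finset.disjoint_left.1 hd hv)], Finset.sum_congr (s₁ := t) rfl fun v hv => by
        rw [if_pos hv], map_add, map_smul, hx m hm, e m hm]
      simp only [smul_eq_mul, mul_add, add_mul, Finset.sum_add_distrib, Finset.mul_sum, mul_assoc]
      ring
  · intro h
    obtain ⟨u, hu, hfr⟩ : ∃ u ∈ De, ∃ᶠ ε in 𝓝[>] (0 : ℝ), x + ε • y ∈ cone La u := by
      by_contra hn
      push Not at hn
      obtain ⟨ε, ⟨s, hs, h1⟩, h2⟩ := (h.and ((eventually_all_finset De).2 hn)).exists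
      exact h2 s hs h1
    obtain ⟨l, hl⟩ := hF.proj
    obtain ⟨m, hm, m1, m2⟩ := hl t ht
    obtain ⟨m', hm', m1', m2'⟩ := hl u hu
    have htu : t ⊆ u := fun v hv => by_contra fun hv' => by
      have hlt : m' x < m x := by
        rw [hx m hm, hx m' hm']
        refine Finset.sum_lt_sum (fun w hw => mul_le_mul_of_nonneg_left ?_ (ha w hw).le)
          ⟨v, hv, mul_lt_mul_of_pos_left ?_ (ha v hv)⟩
        · rw [m1 w hw]
          by_cases hw' : w ∈ u
          · exact (m1' w hw').le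
          · exact (m2' w (mem_verts.2 ⟨t, ht, hw⟩) hw').le
        · rw [m1 v hv]; exact m2' v (mem_verts.2 ⟨t, ht, hv⟩) hv'
      have ev : ∀ᶠ ε in 𝓝[>] (0 : ℝ), m' x + ε * m' y < m x + ε * m y :=
        (ContinuousAt.eventually_lt (by fun_prop) (by fun_prop)
          (by simpa using hlt)).filter_mono nhdsWithin_le_nhds
      obtain ⟨ε, ⟨c, hc, e⟩, h2⟩ := (hfr.and_eventually ev).exists
      have e1 := e m hm
      have e2 := e m' hm'
      simp only [map_add, map_smul, smul_eq_mul] at e1 e2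
      rw [e1, e2] at h2
      refine h2.not_ge (Finset.sum_le_sum fun w hw => mul_le_mul_of_nonneg_left ?_ (hc w))
      rw [m1' w hw]
      by_cases hw' : w ∈ t
      · exact (m1 w hw').le
      · exact (m2 w (mem_verts.2 ⟨u, hu, hw⟩) hw').le
    obtain ⟨ε, ⟨c, hc, e⟩, (h0 : 0 < ε)⟩ := (hfr.and_eventually self_mem_nhdsWithin).exists
    refine ⟨u \ t, mem_link.2 ⟨Finset.sdiff_disjoint, by rwa [Finset.sdiff_union_of_subset htu]⟩,
      fun v => ε⁻¹ * c v, fun v => mul_nonneg (inv_pos.2 h0).le (hc v), fun k hk => ?_⟩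
    obtain ⟨k1, k2⟩ := mem_res.1 hk
    have e1 := e k k1
    rw [map_add, map_smul, hx k k1, ← Finset.sum_sdiff htu,
      Finset.sum_eq_zero fun v hv => by rw [k2 v hv, mul_zero],
      Finset.sum_eq_zero (s := t) fun v hv => by rw [k2 v hv, mul_zero], zero_add, add_zero] at e1
    simp only [mul_assoc, ← Finset.mul_sum, ← e1, smul_eq_mul]
    rw [inv_mul_cancel_left₀ h0.ne']

theorem mem_span_iff : y ∈ Submodule.span ℝ (t : Set N) ↔
    ∀ m : Module.Dual ℝ N, (∀ v ∈ t, m v = 0) → m y = 0 := by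
  refine ⟨fun h m hm => (Submodule.span_le (p := LinearMap.ker m)).2 hm h, fun h => ?_⟩
  by_contra hn
  obtain ⟨f, h1, h2⟩ := Submodule.exists_dual_map_eq_bot_of_notMem hn inferInstance
  exact h1 (h f fun v hv => (Submodule.eq_bot_iff _).1 h2 _ ⟨v, Submodule.subset_span hv, rfl⟩)

/-- The support of the link of a face of codimension one. -/
theorem mem_supp_ray (hc : ∀ s ∈ De, t ⊆ s → s.card ≤ t.card + 1) (ht : t ∈ De) :
    y ∈ supp (res ⊤ t) (link De t) ↔ y ∈ Submodule.span ℝ (t : Set N) ∨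
      ∃ v ∈ nb De t, ∃ c : ℝ, 0 < c ∧ y - c • v ∈ Submodule.span ℝ (t : Set N) := by
  constructor
  · rintro ⟨s, hs, c, h0, hy⟩
    obtain ⟨hd, hu⟩ := mem_link.1 hs
    have h1 := hc _ hu Finset.subset_union_right
    rw [Finset.card_union_of_disjoint hd] at h1
    obtain ⟨v, hv⟩ := Finset.card_le_one_iff_subset_singleton.1 (show s.card ≤ 1 by omega)
    rcases Finset.subset_singleton_iff.1 hv with rfl | rfl
    · exact Or.inl (mem_span_iff.2 fun m hm => by simpa using hy m (mem_res.2 ⟨trivial, hm⟩))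
    · have e : y - c v • v ∈ Submodule.span ℝ (t : Set N) := mem_span_iff.2 fun m hm => by
        simpa [sub_eq_zero] using hy m (mem_res.2 ⟨trivial, hm⟩)
      rcases (h0 v).eq_or_lt with h | h
      · exact Or.inl (by simpa [← h] using e)
      · exact Or.inr ⟨v, mem_nb.2 ⟨by simpa using hd, by simpa using hu⟩, _, h, e⟩
  · rintro (h | ⟨v, hv, c, h0, h⟩)
    · exact ⟨∅, empty_mem_link.2 ht, 0, fun _ => le_rfl, fun m hm => by
        simpa using mem_span_iff.1 h m (mem_res.1 hm).2⟩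
    · exact ⟨{v}, mem_link.2 ⟨by simpa using (mem_nb.1 hv).1, by simpa using (mem_nb.1 hv).2⟩,
        fun _ => c, fun _ => h0.le, fun m hm => by
          simpa [sub_eq_zero] using mem_span_iff.1 h m (mem_res.1 hm).2⟩

theorem nb_notMem (hF : Fan ⊤ De) {v : N} (hv : v ∈ nb De t) :
    v ∉ Submodule.span ℝ (t : Set N) := fun h => by
  obtain ⟨m, -, hm⟩ := hF.onto _ (mem_nb.1 hv).2 fun u => if u = v then 1 else 0
  have := mem_span_iff.1 h m fun u hu => by
    rw [hm u (Finset.mem_insert_of_mem hu), if_neg fun (e : u = v) => (mem_nb.1 hv).1 (e ▸ hu)]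
  rw [hm v (Finset.mem_insert_self _ _), if_pos rfl] at this
  exact one_ne_zero this

theorem nb_unique (hF : Fan ⊤ De) {v w : N} (hv : v ∈ nb De t) (hw : w ∈ nb De t) {c c' : ℝ}
    (hc : 0 < c) (hc' : 0 < c') (h : c • v - c' • w ∈ Submodule.span ℝ (t : Set N)) : v = w := by
  by_contra hne
  obtain ⟨l, hl⟩ := hF.proj
  obtain ⟨m, -, m1, m2⟩ := hl _ (mem_nb.1 hv).2
  obtain ⟨m', -, m1', m2'⟩ := hl _ (mem_nb.1 hw).2
  have e := mem_span_iff.1 h (m - m') fun u hu => by
    rw [LinearMap.sub_apply, m1 u (Finset.mem_insert_of_mem hu),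
      m1' u (Finset.mem_insert_of_mem hu), sub_self]
  have h1 := m2 w (mem_verts.2 ⟨_, (mem_nb.1 hw).2, Finset.mem_insert_self _ _⟩)
    (by simp [Ne.symm hne, (mem_nb.1 hw).1])
  have h2 := m2' v (mem_verts.2 ⟨_, (mem_nb.1 hv).2, Finset.mem_insert_self _ _⟩)
    (by simp [hne, (mem_nb.1 hv).1])
  simp only [LinearMap.sub_apply, map_sub, map_smul, smul_eq_mul,
    m1 v (Finset.mem_insert_self _ _), m1' w (Finset.mem_insert_self _ _)] at e
  nlinarith

end KH.Wt
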