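import Pool.Agent.Lib.MP_e9c0f3_ag.KH.WtB
import Pool.Agent.Lib.MP_e9c0f3_ag.KH.WtC

/-! The inverse lattice volumes are balanced on a fan with unimodular Bergman charts. -/

open scoped Classical Topology
open Filter Set

noncomputable section

namespace KH.Wt

variable {N : Type} [AddCommGroup N] [Module ℝ N] {E : Type} [Fintype E] {M : Matroid E}
  {t m : Module.Dual ℝ N} {Z : Set (Module.Dual ℝ N)} {De : Finset (Finset N)} {τ : Finset N}
  {B : (E → ℝ) →ₗ[ℝ] N} {Λ : N →ₗ[ℝ] E → ℝ} {i₀ : E} {x : E → ℝ}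

/-- The span of the lifts of the vertices of a face. -/
abbrev Ws (Λ : N →ₗ[ℝ] E → ℝ) (τ : Finset N) : Submodule ℝ (E → ℝ) :=
  Submodule.span ℝ (range fun v : τ => Λ v)

/-- The local picture at a face of codimension one. -/
structure Loc (M : Matroid E) (De : Finset (Finset N)) (τ : Finset N) (B : (E → ℝ) →ₗ[ℝ] N)
    (Λ : N →ₗ[ℝ] E → ℝ) (x : E → ℝ) : Prop where
  fan : Fan ⊤ De
  bg : Bg M x
  lift : ∀ v ∈ τ, B (Λ v) = v
  lift' : ∀ v ∈ nb De τ, B (Λ v) = v
  mem : ∀ z, z ∈ Ws Λ τ ↔ B z ∈ Submodule.span ℝ (τ : Set N)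
  li : LinearIndependent ℝ fun v : τ => Λ v
  le : Ws Λ τ ≤ Vx x
  lc : ∀ z, Lc M x z ↔ z ∈ Ws Λ τ ∨ ∃ y ∈ nb De τ, ∃ c : ℝ, 0 < c ∧ z - c • Λ y ∈ Ws Λ τ

omit [Fintype E] in
theorem Loc.thin (h : Loc M De τ B Λ x) : Thin M x (Ws Λ τ) := by
  intro p q H
  by_cases h0 : ∃ s : ℝ, 0 < s ∧ p + s • q ∈ Ws Λ τ
  · obtain ⟨s, -, hs⟩ := h0
    exact ⟨1, s, Or.inl one_ne_zero, by simpa using hs⟩
  have : ∀ n : ℕ, ∃ y : nb De τ, ∃ c : ℝ, 0 < c ∧ p + ((n : ℝ) + 1) • q - c • Λ y ∈ Ws Λ τ :=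
    fun n => by
      obtain ⟨y, hy, c, hc⟩ := ((h.lc _).1 (H _ (Nat.cast_add_one_pos n))).resolve_left
        fun h => h0 ⟨_, Nat.cast_add_one_pos n, h⟩
      exact ⟨⟨y, hy⟩, c, hc⟩
  choose y c hc hm using this
  obtain ⟨n, n', hne, e⟩ := Finite.exists_ne_map_eq_of_infinite y
  refine ⟨c n' - c n, c n' * (n + 1) - c n * (n' + 1), ?_, ?_⟩
  · by_contra hn
    push Not at hn
    have h1 : c n' = c n := sub_eq_zero.1 hn.1
    have h2 := mul_left_cancel₀ (hc n).ne' (h1 ▸ sub_eq_zero.1 hn.2)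
    exact hne (by exact_mod_cast add_right_cancel h2)
  · convert sub_mem (Submodule.smul_mem _ (c n') (hm n)) (Submodule.smul_mem _ (c n) (hm n'))
      using 1
    rw [e]
    module

omit [Fintype E] in
theorem Loc.notMem (h : Loc M De τ B Λ x) {y : N} (hy : y ∈ nb De τ) : Λ y ∉ Ws Λ τ := by
  rw [h.mem, h.lift' y hy]
  exact nb_notMem h.fan hy

omit [Fintype E] in
theorem Loc.lc_nb (h : Loc M De τ B Λ x) {y : N} (hy : y ∈ nb De τ) : Lc M x (Λ y) :=
  (h.lc _).2 (Or.inr ⟨y, hy, 1, one_pos, by simp⟩)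

/-- A family of directions with the same volume and with sum zero. -/
theorem Loc.sum (h : Loc M De τ B Λ x) (hC : Chart t Z B i₀) (hm : ∀ v ∈ τ, m v = 0) {δ : Type}
    [Nonempty δ] (D : Finset δ) (z : δ → E → ℝ) {Δ : ℝ} (h0 : Δ ≠ 0)
    (ha : ∀ y ∈ nb De τ, ∃ d ∈ D, ∃ c : ℝ, 0 < c ∧ Λ y - c • z d ∈ Ws Λ τ)
    (hv : ∀ d ∈ D, ∃ (π : E → τ ⊕ Unit) (r : τ ⊕ Unit → E), (∀ k, π (r k) = k) ∧
      (∀ (v : τ) i, Λ v i = Λ v (r (π i))) ∧ (∀ i, z d i = z d (r (π i))) ∧
      (Matrix.of fun j k => Sum.elim (fun v : τ => Λ v) (fun _ => z d) j (r k)).det ^ 2 = Δ ^ 2)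
    (hb : ∀ d ∈ D, Lc M x (z d) ∧ z d ∉ Ws Λ τ)
    (hd : ∀ d ∈ D, ∀ d' ∈ D, ∀ c : ℝ, 0 < c → z d - c • z d' ∈ Ws Λ τ → d = d')
    (he : ∑ d ∈ D, z d ∈ Ws Λ τ) : ∑ y ∈ nb De τ, m y * wt t Z (insert y τ) = 0 := by
  have kill : ∀ w ∈ Ws Λ τ, m (B w) = 0 := fun w hw => mem_span_iff.1 ((h.mem w).1 hw) m hm
  choose! d hdD c hc hW using ha
  rw [Finset.sum_bij (t := D) (g := fun d => m (B (z d)) * |Δ|⁻¹) (fun y _ => d y) hdD,
    ← Finset.sum_mul, ← map_sum, ← map_sum, kill _ he, zero_mul]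
  · intro y hy y' hy' e
    refine nb_unique h.fan hy hy' (hc y' hy') (hc y hy) ?_
    have e2 := (h.mem (c y' • Λ y - c y • Λ y')).1 ?_
    · rwa [map_sub, map_smul, map_smul, h.lift' y hy, h.lift' y' hy'] at e2
    convert sub_mem (Submodule.smul_mem _ (c y') (hW y hy))
      (Submodule.smul_mem _ (c y) (hW y' hy')) using 1
    rw [show d y = d y' from e]
    module
  · intro d' hd'
    obtain ⟨y, hy, c', hc', hw⟩ := ((h.lc _).1 (hb d' hd').1).resolve_left (hb d' hd').2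
    refine ⟨y, hy, (hd d' hd' _ (hdD y hy) _ (mul_pos hc' (hc y hy)) ?_).symm⟩
    convert add_mem hw (Submodule.smul_mem _ c' (hW y hy)) using 1
    module
  · intro y hy
    obtain ⟨π, r, h1, h2, h3, h4⟩ := hv _ (hdD y hy)
    have hyτ := (mem_nb.1 hy).1
    let e : τ ⊕ Unit ≃ (insert y τ : Finset N) := Equiv.ofBijective
      (Sum.elim (fun v => ⟨v, Finset.mem_insert_of_mem v.2⟩) fun _ => ⟨y, Finset.mem_insert_self _ _⟩)
      ⟨by
        rintro (a | a) (b | b) hab
        · exact congrArg _ (Subtype.ext (congrArg Subtype.val hab :))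
        · exact absurd a.2 ((congrArg Subtype.val hab :).symm ▸ hyτ)
        · exact absurd b.2 ((congrArg Subtype.val hab :) ▸ hyτ)
        · rfl, by
        rintro ⟨v, hv⟩
        rcases Finset.mem_insert.1 hv with rfl | hv
        · exact ⟨Sum.inr (), rfl⟩
        · exact ⟨Sum.inl ⟨v, hv⟩, rfl⟩⟩
    have hc' : ∀ w ∈ Ws Λ τ, ∀ i, w i = w (r (π i)) := fun w hw i =>
      LinearMap.eqOn_span (f := LinearMap.proj (R := ℝ) (φ := fun _ : E => ℝ) i)
        (g := LinearMap.proj (r (π i))) (by rintro _ ⟨v, rfl⟩; exact h2 v i) hw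
    have g := hC.Gd_eq π r h1 (Sum.elim (fun v : τ => Λ v) fun _ => Λ y) (by
      rintro (v | v) i
      · exact h2 v i
      · have := hc' _ (hW y hy) i
        simp only [Pi.sub_apply, Pi.smul_apply, ← h3 i] at this
        exact sub_left_injective this)
    rw [det_last _ r (hW y hy)] at g
    have ab := (sq_eq_sq_iff_abs_eq_abs _ _).1 h4
    rw [wt_eq (mul_ne_zero (hc y hy).ne' fun h5 => h0 (by simpa [h5] using ab.symm))
      ((Gd_equiv e _).symm.trans (Eq.trans (congrArg _ (funext ?_)) g)), abs_mul, ab,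
      abs_of_pos (hc y hy)]
    · have := kill _ (hW y hy)
      rw [map_sub, map_sub, h.lift' y hy, map_smul, map_smul, sub_eq_zero] at this
      have hc0 := (hc y hy).ne'
      rw [this, smul_eq_mul]
      field_simp
    · rintro (v | v)
      · exact (h.lift v v.2).symm
      · exact (h.lift' y hy).symm

theorem Loc.bal (h : Loc M De τ B Λ x) (hM : M.E = univ) (hC : Chart t Z B i₀)
    (hm : ∀ v ∈ τ, m v = 0) : ∑ y ∈ nb De τ, m y * wt t Z (insert y τ) = 0 := by
  by_cases hV : Vx x ≤ Ws Λ τ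
  · have e : Ws Λ τ = Vx x := le_antisymm h.le hV
    have H : Thin M x (Vx x) := e ▸ h.thin
    obtain ⟨π, r, h1, h2, h3⟩ := exists_label h.li e
    have hv : ∀ (v : τ) i j, x i = x j → Λ v i = Λ v j := fun v =>
      h.le (Submodule.subset_span ⟨v, rfl⟩)
    refine h.sum hC hm (Finset.univ.filter (Mid M x)) ind h3 (fun y hy => ?_) (fun G hG => ?_)
      (fun G hG => ⟨(Finset.mem_filter.1 hG).2.lc h.bg, fun h' => one_ne_zero
        ((Finset.mem_filter.1 hG).2.smul_mem (c := 1) (by simpa using h.le h'))⟩)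
      (fun G hG G' hG' c hc h' => (Finset.mem_filter.1 hG).2.eq (Finset.mem_filter.1 hG').2 hc
        (h.le h')) (hV (H.sum hM h.bg))
    · obtain ⟨G, hG, c, hc, h'⟩ := H.dir h.bg (h.lc_nb hy) fun h' => h.notMem hy (hV h')
      exact ⟨G, by simpa using hG, c, hc, hV h'⟩
    · obtain ⟨a, g1, ⟨i, hi⟩, ⟨j, hj, hj'⟩, -⟩ := (Finset.mem_filter.1 hG).2
      let r' : τ → E := fun k => if k = π j then j else r k
      have p1 : ∀ k, π (r' k) = k := fun k => by
        by_cases hk : k = π j <;> simp [r', hk, h1]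
      have p2 : ∀ k, r' k ∉ G := fun k hk => by
        by_cases hk' : k = π j
        · exact hj' (by simpa [r', hk'] using hk)
        · exact hk' ((p1 k).symm.trans ((h2 _ _).2 ((g1 _ hk).trans hj.symm)))
      refine ⟨fun l => if l ∈ G then Sum.inr () else Sum.inl (π l), Sum.elim r' fun _ => i, ?_,
        fun v l => ?_, fun l => ?_, ?_⟩
      · rintro (k | k)
        · simp [p1, p2]
        · simp [hi]
      · by_cases hl : l ∈ G
        · simpa [hl] using hv v l i ((g1 l hl).trans (g1 i hi).symm)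
        · simpa [hl] using hv v l _ ((h2 _ _).1 (p1 _).symm)
      · by_cases hl : l ∈ G <;> simp [ind, hl, hi, p2]
      · congr 1
        rw [← mul_one (Matrix.det (Matrix.of fun (j : τ) k => Λ j (r k))),
          ← Matrix.det_one (n := Unit), ← Matrix.det_fromBlocks_zero₂₁ _
            (Matrix.of fun (j : τ) _ => Λ j i)]
        congr 1
        ext (a | a) (b | b)
        · exact hv a _ _ ((h2 _ _).1 ((p1 b).trans (h1 b).symm))
        · rfl
        · simp [ind, p2]
        · simp [ind, hi]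
  · obtain ⟨z, hz, hz'⟩ := SetLike.not_le_iff_exists.1 hV
    have key : ∀ y, Lc M x y → ∃ c : ℝ, y - c • z ∈ Ws Λ τ := fun y hy => by
      obtain ⟨α, β, h0, h1⟩ := h.thin y z fun s _ => hy.add h.bg (Submodule.smul_mem _ s hz)
      have hα : α ≠ 0 := by
        rintro rfl
        have hβ := h0.resolve_left (by simp)
        exact hz' (by simpa [hβ] using Submodule.smul_mem _ β⁻¹ h1)
      refine ⟨-(α⁻¹ * β), ?_⟩
      convert Submodule.smul_mem _ α⁻¹ h1 using 1
      rw [smul_add, smul_smul, smul_smul, inv_mul_cancel₀ hα, one_smul, neg_smul, sub_neg_eq_add]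
    have hi : LinearIndependent ℝ (Sum.elim (fun v : τ => Λ v) fun _ : Unit => z) :=
      h.li.sum_type (linearIndependent_unique_iff.2 fun h0 => hz' (h0 ▸ zero_mem _))
        (by rw [range_const]; exact (Submodule.disjoint_span_singleton_of_notMem hz'))
    have hs : Submodule.span ℝ (range (Sum.elim (fun v : τ => Λ v) fun _ : Unit => z)) = Vx x := by
      rw [Sum.elim_range, Submodule.span_union, range_const]
      refine le_antisymm (sup_le h.le ((Submodule.span_singleton_le_iff_mem _ _).2 hz))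
        fun w hw => ?_
      obtain ⟨c, hc⟩ := key w (h.bg.lc hw)
      rw [← sub_add_cancel w (c • z)]
      exact Submodule.add_mem_sup hc (Submodule.smul_mem _ _ (Submodule.mem_span_singleton_self z))
    obtain ⟨π, r, h1, h2, h3⟩ := exists_label hi hs
    have hv : ∀ w ∈ Vx x, ∀ i, w i = w (r (π i)) := fun w hw i => hw _ _ ((h2 _ _).1 (h1 _).symm)
    have nz : ∀ c : ℝ, c • z ∈ Ws Λ τ → c = 0 := fun c hc => by_contra fun h0 =>
      hz' (by simpa [h0] using Submodule.smul_mem _ c⁻¹ hc)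
    refine h.sum hC hm ({1, -1} : Finset ℝ) (fun s => s • z) h3 (fun y hy => ?_) (fun s hs => ?_)
      (fun s hs => ⟨h.bg.lc (Submodule.smul_mem _ _ hz), fun h' => ?_⟩)
      (fun s hs s' hs' c hc h' => ?_) (by rw [Finset.sum_pair (by norm_num)]; simp)
    · obtain ⟨c, hc⟩ := key _ (h.lc_nb hy)
      rcases lt_trichotomy c 0 with h0 | h0 | h0
      · exact ⟨-1, by simp, -c, neg_pos.2 h0, by simpa using hc⟩
      · exact absurd (by simpa [h0] using hc) (h.notMem hy)
      · exact ⟨1, by simp, c, h0, by simpa using hc⟩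
    · refine ⟨π, r, h1, fun v => hv _ (h.le (Submodule.subset_span ⟨v, rfl⟩)),
        hv _ (Submodule.smul_mem _ _ hz), ?_⟩
      rw [det_last (y := s • z) (z := z) (c := s) _ r (by simp), mul_pow]
      rcases Finset.mem_insert.1 hs with rfl | hs
      · simp
      · simp [Finset.mem_singleton.1 hs]
    · have := nz s h'
      simp only [Finset.mem_insert, Finset.mem_singleton] at hs
      rcases hs with rfl | rfl <;> norm_num at this
    · have := nz (s - c * s') (by simpa [sub_smul, mul_smul] using h')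
      simp only [Finset.mem_insert, Finset.mem_singleton] at hs hs'
      rcases hs with rfl | rfl <;> rcases hs' with rfl | rfl <;> first | rfl | linarith

omit [AddCommGroup N] [Module ℝ N] in
theorem exists_pos_gen {ι : Type} [Finite ι] (f : ι → Module.Dual ℝ (N → ℝ))
    (h : ∀ i, ∃ x, f i x ≠ 0) (s : Finset N) :
    ∃ a : N → ℝ, (∀ v ∈ s, 0 < a v) ∧ ∀ i, f i a ≠ 0 := by
  obtain ⟨D, hD⟩ := Module.Dual.exists_forall_ne_zero_of_forall_exists f h
  have h1 : ∀ᶠ c in atTop, ∀ v ∈ s, 0 < c + D v := (eventually_all_finset _).2 fun v _ =>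
    (eventually_gt_atTop (-D v)).mono fun c hc => by linarith
  have h2 : ∀ᶠ c in atTop, ∀ i, f i (c • (1 : N → ℝ) + D) ≠ 0 := eventually_all.2 fun i => by
    by_cases h0 : f i 1 = 0
    · exact Eventually.of_forall fun c => by
        rw [map_add, map_smul, h0, smul_zero, zero_add]; exact hD i
    · refine (eventually_ne_atTop (-f i D / f i 1)).mono fun c hc e => hc ?_
      rw [map_add, map_smul, smul_eq_mul] at e
      field_simp
      linarith
  obtain ⟨c, c1, c2⟩ := (h1.and h2).exists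
  exact ⟨_, fun v hv => by simpa using c1 v hv, c2⟩

/-- The inverse lattice volumes are balanced at every face of codimension one through `v₀`. -/
theorem wt_bal (hM : M.E = univ) (hF : Fan ⊤ De) (hC : Chart t Z B i₀)
    (hB : Function.Injective B) {v₀ : N} (h1 : B (fun _ => 1) = v₀)
    (hs : supp (res ⊤ {v₀}) (link De {v₀}) = B '' {x | Bg M x}) (hτ : τ ∈ De) (hv : v₀ ∈ τ)
    (hc : ∀ s ∈ De, τ ⊆ s → s.card ≤ τ.card + 1) (hm : ∀ v ∈ τ, m v = 0) :
    ∑ y ∈ nb De τ, m y * wt t Z (insert y τ) = 0 := by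
  obtain ⟨Λ, hΛ⟩ := B.exists_leftInverse_of_injective (LinearMap.ker_eq_bot.2 hB)
  have hΛ' : ∀ z, Λ (B z) = z := fun z => LinearMap.congr_fun hΛ z
  have hL := hF.link (hF.down τ hτ {v₀} (by simpa using hv))
  have hd : Disjoint (τ.erase v₀) {v₀} := by simp
  have hu : τ.erase v₀ ∪ {v₀} = τ := by
    rw [Finset.union_comm, ← Finset.insert_eq, Finset.insert_erase hv]
  have hτ' : τ.erase v₀ ∈ link De {v₀} := mem_link.2 ⟨hd, hu.symm ▸ hτ⟩
  have lift : ∀ s ∈ De, v₀ ∈ s → ∀ v ∈ s, B (Λ v) = v := fun s hs' h0 v hv => by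
    by_cases e : v = v₀
    · rw [e, ← h1, hΛ']
    · obtain ⟨z, -, rfl⟩ : v ∈ B '' {x | Bg M x} := hs ▸ ⟨{v}, mem_link.2 ⟨by simpa using e,
        hF.down s hs' _ (by simp [Finset.insert_subset_iff, hv, h0])⟩, mem_cone_self (by simp)⟩
      rw [hΛ']
  obtain ⟨a, ha, hg⟩ := exists_pos_gen
    (ι := {p : E × E // ∃ v ∈ τ.erase v₀, Λ v p.1 ≠ Λ v p.2})
    (fun p => ∑ v ∈ τ.erase v₀, (Λ v p.1.1 - Λ v p.1.2) • LinearMap.proj v)
    (fun p => by
      obtain ⟨v, hv, h⟩ := p.2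
      refine ⟨Pi.single v 1, ?_⟩
      simpa [LinearMap.sum_apply, Pi.single_apply, hv, sub_eq_zero] using h) (τ.erase v₀)
  have hx : ∀ k : Module.Dual ℝ N, k (B (∑ v ∈ τ.erase v₀, a v • Λ v)) =
      ∑ v ∈ τ.erase v₀, a v * k v := fun k => by
    rw [map_sum, map_sum]
    exact Finset.sum_congr rfl fun v hv' => by
      rw [map_smul, map_smul, lift τ hτ hv v (Finset.mem_of_mem_erase hv'), smul_eq_mul]
  have bg : ∀ z, Bg M z ↔ B z ∈ supp (res ⊤ {v₀}) (link De {v₀}) := fun z => by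
    rw [hs, hB.mem_set_image]; rfl
  have hbg : Bg M (∑ v ∈ τ.erase v₀, a v • Λ v) := (bg _).2 ⟨_, hτ',
    fun v => if v ∈ τ.erase v₀ then a v else 0, fun v => by
      dsimp only
      split_ifs with h
      · exact (ha v h).le
      · exact le_rfl, fun k _ => (hx k).trans (Finset.sum_congr rfl fun v h => by simp only [h, if_true])⟩
  have mem : ∀ z, z ∈ Ws Λ τ ↔ B z ∈ Submodule.span ℝ (τ : Set N) := fun z => by
    have e : (Ws Λ τ).map B = Submodule.span ℝ (τ : Set N) := by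
      rw [Submodule.map_span, ← range_comp]
      congr 1
      ext w
      exact ⟨by rintro ⟨v, rfl⟩; simp [lift τ hτ hv],
        fun h => ⟨⟨w, h⟩, lift τ hτ hv w h⟩⟩
    rw [← e]
    exact ⟨Submodule.mem_map_of_mem, fun ⟨w, h, e⟩ => hB e ▸ h⟩
  have lift' : ∀ v ∈ nb De τ, B (Λ v) = v := fun v h =>
    lift _ (mem_nb.1 h).2 (Finset.mem_insert_of_mem hv) v (Finset.mem_insert_self _ _)
  refine Loc.bal (x := ∑ v ∈ τ.erase v₀, a v • Λ v) ⟨hF, hbg, lift τ hτ hv, lift', mem, ?_, ?_,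
    fun z => ?_⟩ hM hC hm
  · refine Fintype.linearIndependent_iff.2 fun g hg' u => ?_
    obtain ⟨k, -, hk⟩ := hF.onto τ hτ fun w => if w = u then 1 else 0
    have := congrArg (fun w => k (B w)) hg'
    simpa [map_sum, lift τ hτ hv, hk, ← Subtype.ext_iff] using this
  · refine Submodule.span_le.2 ?_
    rintro _ ⟨v, rfl⟩ i j e
    by_cases h0 : (v : N) = v₀
    · simp only [h0, ← h1, hΛ']
    · by_contra hne
      refine hg ⟨(i, j), v, Finset.mem_erase.2 ⟨h0, v.2⟩, hne⟩ ?_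
      simp only [Finset.sum_apply, Pi.smul_apply, smul_eq_mul] at e
      simp only [LinearMap.sum_apply, LinearMap.smul_apply, LinearMap.proj_apply, smul_eq_mul,
        mul_comm _ (a _), mul_sub, Finset.sum_sub_distrib, e, sub_self]
  · have := supp_link (y := B z) hL hτ' ha fun k _ => hx k
    rw [res_res, link_link hd, hu, mem_supp_ray hc hτ] at this
    rw [← loc_iff hbg, mem]
    simp only [bg, map_add, map_smul, ← this, mem, map_sub]
    exact or_congr_right (exists_congr fun y => and_congr_right fun hy => by rw [lift' y hy])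

end KH.Wt
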