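import Pool.Agent.Lib.MP_e9c0f3_ag.KH.Link
import Pool.Agent.Lib.MP_e9c0f3_ag.KH.Alg
import Pool.Agent.Lib.MP_e9c0f3_ag.KH.K9

/-! Degree maps of fans and of their links. -/

open scoped Classical
open MvPolynomial

noncomputable section

namespace KH

variable {N : Type} [AddCommGroup N] [Module ℝ N] {La : Du N}
  {De : Finset (Finset N)} {s t : Finset N} {v : N} {l l' : N → ℝ} {m : Module.Dual ℝ N}
  {d k : ℕ} {deg : Pol N →ₗ[ℝ] ℝ} {a : Pol N}

/-- Sets the variables in `t` to zero. -/
def kil (t : Finset N) : Pol N →ₐ[ℝ] Pol N := aeval fun v => if v ∈ t then 0 else X v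

/-- The degree map of the link of `t`. -/
def degLk (deg : Pol N →ₗ[ℝ] ℝ) (t : Finset N) : Pol N →ₗ[ℝ] ℝ :=
  degAt deg (mon t) ∘ₗ (kil t).toLinearMap

/-- The Hodge–Riemann relations for all degree maps and all convex functions. -/
def HR0 (La : Du N) (De : Finset (Finset N)) : Prop :=
  ∀ d deg, Valid La De d deg → ∀ l, Cvx La De l → HR (Hom N) deg d (lin De l)

/-- Balanced weights on the faces with `k` vertices of the link of `t`. -/
def Bal (La : Du N) (De : Finset (Finset N)) (t : Finset N) (k : ℕ) (c : Finset N → ℝ) : Prop :=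
  ∀ s ∈ link De t, s.card + 1 = k → ∀ m ∈ La, (∀ v ∈ s ∪ t, m v = 0) →
    ∑ v ∈ nb De (s ∪ t), m v * c (insert v s) = 0

omit [AddCommGroup N] [Module ℝ N] in
theorem degLk_apply (b : Pol N) : degLk deg t b = deg (mon t * kil t b) := rfl

omit [AddCommGroup N] [Module ℝ N] in
theorem mon_empty : mon (∅ : Finset N) = 1 := Finset.prod_empty

omit [AddCommGroup N] [Module ℝ N] in
theorem mon_singleton : mon ({v} : Finset N) = X v := Finset.prod_singleton _ _

omit [AddCommGroup N] [Module ℝ N] in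
theorem mon_insert (h : v ∉ s) : mon (insert v s) = X v * mon s := Finset.prod_insert h

omit [AddCommGroup N] [Module ℝ N] in
theorem mon_union (h : Disjoint s t) : mon (s ∪ t) = mon s * mon t := Finset.prod_union h

omit [AddCommGroup N] [Module ℝ N] in
theorem mon_dvd (h : s ⊆ t) : mon s ∣ mon t := Finset.prod_dvd_prod_of_subset _ _ _ h

omit [AddCommGroup N] [Module ℝ N] in
theorem mon_union_dvd : mon (s ∪ t) ∣ mon s * mon t := ⟨mon (s ∩ t), Finset.prod_union_inter.symm⟩

omit [AddCommGroup N] [Module ℝ N] in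
theorem mon_hom : mon s ∈ Hom N s.card := by
  have := IsHomogeneous.prod s (fun v => (X v : Pol N)) (fun _ => 1) fun v _ => isHomogeneous_X ℝ v
  simpa [mon] using this

omit [AddCommGroup N] [Module ℝ N] in
theorem X_hom : (X v : Pol N) ∈ Hom N 1 := isHomogeneous_X ℝ v

omit [AddCommGroup N] [Module ℝ N] in
theorem lin_hom : lin De l ∈ Hom N 1 :=
  Submodule.sum_mem _ fun _ _ => Submodule.smul_mem _ _ X_hom

omit [AddCommGroup N] [Module ℝ N] in
theorem lin_comb (x y : ℝ) :
    lin De (fun v => x * l v + y * l' v) = x • lin De l + y • lin De l' := by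
  simp [lin, add_smul, Finset.sum_add_distrib, Finset.smul_sum, smul_smul]

omit [AddCommGroup N] [Module ℝ N] in
theorem lin_sub : lin De (fun v => l v - l' v) = lin De l - lin De l' := by
  simp [lin, sub_smul, Finset.sum_sub_distrib]

omit [AddCommGroup N] [Module ℝ N] in
theorem lin_congr (h : ∀ v ∈ verts De, l v = l' v) : lin De l = lin De l' :=
  Finset.sum_congr rfl fun v hv => by rw [h v hv]

omit [AddCommGroup N] [Module ℝ N] in
theorem kil_X : kil t (X v) = if v ∈ t then 0 else X v := aeval_X _ _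

namespace Tr

omit [AddCommGroup N] [Module ℝ N]

/-- Substitution of `g v` for the variables `v` in `t`. -/
def subs (t : Finset N) (g : N → Pol N) : Pol N →ₐ[ℝ] Pol N :=
  aeval fun v => if v ∈ t then g v else X v

variable {g : N → Pol N}

theorem subs_zero : subs t (fun _ => 0) = kil t := rfl

theorem subs_in (h : v ∈ t) : subs t g (X v) = g v := by simp [subs, h]

theorem subs_out (h : v ∉ t) : subs t g (X v) = X v := by simp [subs, h]

theorem subs_mon (h : Disjoint s t) : subs t g (mon s) = mon s := by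
  rw [mon, map_prod]
  exact Finset.prod_congr rfl fun v hv => subs_out (Finset.disjoint_left.mp h hv)

theorem subs_sum {S : Finset N} (h : ∀ v ∈ S, v ∉ t) (l : N → ℝ) :
    subs t g (∑ v ∈ S, l v • X v) = ∑ v ∈ S, l v • X v := by
  rw [map_sum]
  exact Finset.sum_congr rfl fun v hv => by rw [map_smul, subs_out (h v hv)]

theorem notMem_of_verts_link (hv : v ∈ verts (link De t)) : v ∉ t := by
  obtain ⟨s, hs, hv⟩ := mem_verts.mp hv
  exact Finset.disjoint_left.mp (mem_link.mp hs).1 hv

theorem verts_link_subset : verts (link De t) ⊆ verts De := by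
  intro v hv
  obtain ⟨s, hs, hv⟩ := mem_verts.mp hv
  exact mem_verts.mpr ⟨_, (mem_link.mp hs).2, Finset.mem_union_left _ hv⟩

theorem subs_lin (l : N → ℝ) : subs t g (lin (link De t) l) = lin (link De t) l :=
  subs_sum (fun _ => notMem_of_verts_link) l

theorem subs_subs {g' : N → Pol N} (hg : ∀ v ∈ t, subs t g' (g v) = g v) (a : Pol N) :
    subs t g' (subs t g a) = subs t g a := by
  have : (subs t g').comp (subs t g) = subs t g := by
    ext1 v
    by_cases h : v ∈ t
    · rw [AlgHom.comp_apply, subs_in h, hg v h]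
    · rw [AlgHom.comp_apply, subs_out h, subs_out h]
  exact DFunLike.congr_fun this a

theorem subs_mem_ideal {I : Ideal (Pol N)} (h : ∀ v ∈ t, X v - g v ∈ I) (a : Pol N) :
    a - subs t g a ∈ I := by
  induction a using MvPolynomial.induction_on with
  | C r => simp [subs]
  | add p q hp hq =>
    rw [map_add, add_sub_add_comm]; exact add_mem hp hq
  | mul_X p v hp =>
    have h1 : X v - subs t g (X v) ∈ I := by
      by_cases hv : v ∈ t
      · rw [subs_in hv]; exact h v hv
      · rw [subs_out hv, sub_self]; exact zero_mem _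
    have : p * X v - subs t g (p * X v) =
        (p - subs t g p) * X v + subs t g p * (X v - subs t g (X v)) := by rw [map_mul]; ring
    rw [this]
    exact add_mem (I.mul_mem_right _ hp) (I.mul_mem_left _ h1)

theorem subs_hom (hg : ∀ v, g v ∈ Hom N 1) (k : ℕ) : ∀ a ∈ Hom N k, subs t g a ∈ Hom N k := by
  intro a ha
  have := IsHomogeneous.aeval (n := 1) ha (fun v => if v ∈ t then g v else (X v : Pol N))
    fun v => by
      split_ifs
      · exact hg v
      · exact isHomogeneous_X ℝ v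
  rwa [one_mul] at this

end Tr

open Tr

omit [AddCommGroup N] [Module ℝ N] in
theorem kil_hom (h : a ∈ Hom N k) : kil t a ∈ Hom N k := subs_hom (fun _ => zero_mem _) k a h

omit [AddCommGroup N] [Module ℝ N] in
theorem kil_mon : kil t (mon s) = if Disjoint s t then mon s else 0 := by
  split_ifs with h
  · exact subs_mon h
  · obtain ⟨v, h1, h2⟩ := Finset.not_disjoint_iff.mp h
    rw [mon, map_prod]
    exact Finset.prod_eq_zero h1 (by rw [kil_X, if_pos h2])

omit [AddCommGroup N] [Module ℝ N] in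
theorem kil_kil : kil t (kil t a) = kil t a := subs_subs (fun _ _ => map_zero _) a

omit [AddCommGroup N] [Module ℝ N] in
/-- `kil t` changes a polynomial by a member of the ideal of the variables in `t` -/
theorem sub_kil_mem {I : Ideal (Pol N)} (h : ∀ v ∈ t, X v ∈ I) : a - kil t a ∈ I :=
  subs_mem_ideal (fun v hv => by simpa using h v hv) a

theorem mon_mem_Ic (h : s ∪ t ∉ De) : mon s ∈ Ic La De t := Ideal.subset_span (.inl ⟨s, h, rfl⟩)

theorem lin_mem_Ic (h : m ∈ La) : lin De m ∈ Ic La De t := Ideal.subset_span (.inr ⟨m, h, rfl⟩)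

theorem Ic_empty : Ic La De ∅ = Jd La De := by simp only [Ic, Jd, Finset.union_empty]

theorem mon_mem_Jd (h : s ∉ De) : mon s ∈ Jd La De := Ideal.subset_span (.inl ⟨s, h, rfl⟩)

theorem lin_mem_Jd (h : m ∈ La) : lin De m ∈ Jd La De := Ideal.subset_span (.inr ⟨m, h, rfl⟩)

theorem X_mem_Jd (h : v ∉ verts De) : X v ∈ Jd La De := by
  rw [← mon_singleton]
  exact mon_mem_Jd fun h' => h (mem_verts.mpr ⟨_, h', Finset.mem_singleton_self _⟩)

theorem Jd_le_Ic (hD : Down De) : Jd La De ≤ Ic La De t := by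
  refine Ideal.span_le.mpr ?_
  rintro _ (⟨s, hs, rfl⟩ | ⟨m, hm, rfl⟩)
  · exact mon_mem_Ic fun h => hs (hD _ h _ Finset.subset_union_left)
  · exact lin_mem_Ic hm

theorem mon_mul_mem_Jd (h : a ∈ Ic La De t) : mon t * a ∈ Jd La De := by
  refine Submodule.span_induction (p := fun a _ => mon t * a ∈ Jd La De) ?_ (by simp)
    (fun x y _ _ hx hy => by rw [mul_add]; exact add_mem hx hy)
    (fun c x _ hx => by rw [smul_eq_mul, mul_left_comm]; exact Ideal.mul_mem_left _ _ hx) h
  rintro _ (⟨s, hs, rfl⟩ | ⟨m, hm, rfl⟩)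
  · rw [mul_comm]
    exact Ideal.mem_of_dvd _ mon_union_dvd (mon_mem_Jd hs)
  · exact Ideal.mul_mem_left _ _ (lin_mem_Jd hm)

theorem lin_sub_link (hD : Down De) (hl : ∀ v ∈ t, l v = 0) :
    lin De l - lin (link De t) l ∈ Ic La De t := by
  rw [lin, lin, ← Finset.sum_sdiff verts_link_subset, add_sub_cancel_right]
  refine Ideal.sum_mem _ fun v hv => ?_
  by_cases h : v ∈ t
  · rw [hl v h, zero_smul]; exact zero_mem _
  · rw [smul_eq_C_mul, ← mon_singleton]
    refine Ideal.mul_mem_left _ _ (mon_mem_Ic fun h' => (Finset.mem_sdiff.mp hv).2 ?_)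
    rw [hD.verts_link, mem_nb]
    exact ⟨h, by simpa using h'⟩

/-- `kil t` maps the relations of the link to relations of the closed star -/
theorem kil_mem_Ic (hD : Down De) (h : a ∈ Jd (res La t) (link De t)) :
    kil t a ∈ Ic La De t := by
  have : Jd (res La t) (link De t) ≤ (Ic La De t).comap (kil t) := by
    refine Ideal.span_le.mpr ?_
    rintro _ (⟨s, hs, rfl⟩ | ⟨m, hm, rfl⟩) <;> rw [SetLike.mem_coe, Ideal.mem_comap]
    · rw [kil_mon]
      split_ifs with h
      · exact mon_mem_Ic fun h' => hs (mem_link.mpr ⟨h, h'⟩)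
      · exact zero_mem _
    · rw [← subs_zero, subs_lin]
      have := sub_mem (lin_mem_Ic (De := De) (t := t) (mem_res.mp hm).1)
        (lin_sub_link hD (mem_res.mp hm).2)
      rwa [sub_sub_cancel] at this
  exact this h

open Pool.Agent.MP_e9c0f3_ag.KH in
theorem Ic_eq_K9 : Ic La De t = K9.Ic (· ∈ De) (De.biUnion id) (La.map K9.coeL) t := by
  have e : ∀ m : N → ℝ, lin De m = K9.lin (De.biUnion id) m := fun m =>
    Finset.sum_congr rfl fun v _ => smul_eq_C_mul _ _
  unfold Ic K9.Ic
  congr 2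
  ext a
  constructor
  · rintro ⟨m, hm, rfl⟩
    exact ⟨m, ⟨m, hm, rfl⟩, e m⟩
  · rintro ⟨_, ⟨m, hm, rfl⟩, rfl⟩
    exact ⟨m, hm, (e m).symm⟩

open Pool.Agent.MP_e9c0f3_ag.KH in
theorem bal_iff_K9 {c : Finset N → ℝ} :
    Bal La De t k c ↔ K9.Bal (· ∈ De) (De.biUnion id) (La.map K9.coeL) t k c := by
  have e : ∀ s : Finset N, nb De (s ∪ t) =
      (De.biUnion id).filter fun v => v ∉ s ∪ t ∧ insert v s ∪ t ∈ De := fun s => by
    simp only [nb, verts, Finset.insert_union]
  constructor
  · rintro h s h1 h2 h3 _ ⟨m, hm, rfl⟩ h4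
    have := h s (mem_link.mpr ⟨h1, h2⟩) h3 m hm h4
    rw [e] at this
    convert this using 2 <;> first | rfl | convert rfl
  · intro h s h1 h3 m hm h4
    have := h s (mem_link.mp h1).1 (mem_link.mp h1).2 h3 m ⟨m, hm, rfl⟩ h4
    rw [e]
    convert this

/-- squarefree monomials span (K9) -/
theorem spanning (hF : Fan La De) (h : a ∈ Hom N k) :
    a ∈ Submodule.span ℝ {q | ∃ s ∈ link De t, s.card = k ∧ q = mon s} ⊔
      (Ic La De t).restrictScalars ℝ := by
  have := Pool.Agent.MP_e9c0f3_ag.KH.K9.spanning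
    (Pool.Agent.MP_e9c0f3_ag.KH.K9.ctx_of hF.down hF.onto) t h
  rw [← Ic_eq_K9] at this
  convert this using 3
  ext q
  exact ⟨fun ⟨s, h1, h3, h4⟩ => ⟨s, (mem_link.mp h1).1, (mem_link.mp h1).2, h3, h4⟩,
    fun ⟨s, h1, h2, h3, h4⟩ => ⟨s, mem_link.mpr ⟨h1, h2⟩, h3, h4⟩⟩

/-- above the dimension of the link everything is a relation -/
theorem mem_Ic_of_lt (hF : Fan La De) (hk : ∀ s ∈ link De t, s.card < k) (h : a ∈ Hom N k) :
    a ∈ Ic La De t := by
  have h1 : Submodule.span ℝ {q | ∃ s ∈ link De t, s.card = k ∧ q = mon s} ≤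
      (Ic La De t).restrictScalars ℝ := by
    refine Submodule.span_le.mpr ?_
    rintro _ ⟨s, hs, hc, rfl⟩
    exact absurd hc (hk s hs).ne
  exact sup_le h1 le_rfl (spanning hF h)

/-- A graded substitution that eliminates the variables in `t`. -/
theorem exists_subs (ht : t ∈ De) (hon : Onto La t) : ∃ g : N → Pol N, (∀ v, g v ∈ Hom N 1) ∧
    (∀ a, kil t (subs t g a) = subs t g a) ∧ ∀ a, a - subs t g a ∈ Jd La De := by
  choose f hf hf' using fun v => hon fun u => if u = v then 1 else 0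
  refine ⟨fun v => -∑ u ∈ verts De \ t, f v u • X u, fun v => neg_mem (Submodule.sum_mem _
    fun u _ => Submodule.smul_mem _ _ X_hom), subs_subs fun v _ => ?_,
    subs_mem_ideal fun v hv => ?_⟩
  · rw [map_neg, subs_sum fun u hu => (Finset.mem_sdiff.mp hu).2]
  · have e1 : ∑ u ∈ t, f v u • (X u : Pol N) = X v := by
      rw [Finset.sum_congr rfl fun u hu => by rw [hf' v u hu]]
      simp [ite_smul, hv]
    have e : X v - -∑ u ∈ verts De \ t, f v u • X u = lin De (f v) := by
      rw [lin, ← Finset.sum_sdiff (fun u hu => mem_verts.mpr ⟨t, ht, hu⟩ : t ⊆ verts De), e1,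
        sub_neg_eq_add, add_comm]
    rw [e]; exact lin_mem_Jd (hf v)

/-- modulo the relations of the closed star, the variables in `t` are not needed -/
theorem exists_kil (hF : Fan La De) (a : Pol N) : ∃ b, a - kil t b ∈ Ic La De t := by
  by_cases ht : t ∈ De
  · obtain ⟨g, -, h1, h2⟩ := exists_subs ht (hF.onto t ht)
    exact ⟨subs t g a, by rw [h1]; exact Jd_le_Ic hF.down (h2 a)⟩
  · have := mon_mem_Ic (La := La) (De := De) (s := ∅) (t := t) (by simpa using ht)
    rw [mon_empty] at this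
    exact ⟨0, by simpa using Ideal.mul_mem_left _ a this⟩

/-- a balanced weight is given by a functional (K9) -/
theorem exists_functional (hF : Fan La De) {c : Finset N → ℝ} (h : Bal La De t k c) :
    ∃ φ : Pol N →ₗ[ℝ] ℝ, (∀ j, j ≠ k → ∀ a ∈ Hom N j, φ a = 0) ∧ Ic La De t ≤ ann φ ∧
      ∀ s ∈ link De t, s.card = k → φ (mon s) = c s := by
  obtain ⟨φ, h1, h2, h3⟩ := Pool.Agent.MP_e9c0f3_ag.KH.K9.exists_functional
    (Pool.Agent.MP_e9c0f3_ag.KH.K9.ctx_of hF.down hF.onto) (bal_iff_K9.mp h)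
  rw [← Ic_eq_K9] at h2
  exact ⟨φ, h1, fun a ha b => h2 _ (Ideal.mul_mem_right _ _ ha),
    fun s hs hc => h3 s (mem_link.mp hs).1 (mem_link.mp hs).2 hc⟩

theorem bal_of_functional {φ : Pol N →ₗ[ℝ] ℝ} (h : Ic La De t ≤ ann φ) :
    Bal La De t k fun s => φ (mon s) :=
  bal_iff_K9.mpr (Pool.Agent.MP_e9c0f3_ag.KH.K9.bal_of_functional k fun _ hq =>
    deg_of_ann (h (by rwa [Ic_eq_K9])))

/-- a positive balanced weight on a pure fan gives a degree map -/
theorem exists_valid (hF : Fan La De) (hp : ∀ s ∈ De, ∃ u ∈ De, s ⊆ u ∧ u.card = d)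
    {c : Finset N → ℝ} (h : Bal La De ∅ d c) (hc : ∀ s ∈ De, s.card = d → 0 < c s) :
    ∃ deg, Valid La De d deg ∧ ∀ s ∈ De, s.card = d → deg (mon s) = c s := by
  obtain ⟨φ, h1, h2, h3⟩ := exists_functional hF h
  rw [link_empty] at h3
  rw [Ic_empty] at h2
  exact ⟨φ, ⟨hp, h1, h2, fun s hs hd => by rw [h3 s hs hd]; exact hc s hs hd⟩, h3⟩

theorem Valid.card_le (h : Valid La De d deg) (hs : s ∈ De) : s.card ≤ d := by
  obtain ⟨u, -, h1, h2⟩ := h.pure s hs
  exact h2 ▸ Finset.card_le_card h1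

theorem Valid.dat (h : Valid La De d deg) : Dat (Hom N) deg d :=
  dat_mv (verts De) (fun _ hv => h.kill (X_mem_Jd hv)) h.hom

theorem Valid.Ic_le (h : Valid La De d deg) : Ic La De t ≤ ann (degAt deg (mon t)) :=
  fun _ ha => mem_ann_degAt.mpr (h.kill (mon_mul_mem_Jd ha))

theorem Valid.dat_at (h : Valid La De d deg) (ht : t ∈ De) :
    Dat (Hom N) (degAt deg (mon t)) (d - t.card) :=
  Dat.degAt (by rw [Nat.sub_add_cancel (h.card_le ht)]; exact h.dat) mon_hom

omit [AddCommGroup N] [Module ℝ N] in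
theorem mem_ann_degLk_of (h : kil t a ∈ ann (degAt deg (mon t))) : a ∈ ann (degLk deg t) :=
  fun b => by rw [degLk_apply, map_mul (kil t)]; exact h _

theorem Valid.link (hF : Fan La De) (h : Valid La De d deg) (ht : t ∈ De) :
    Valid (res La t) (link De t) (d - t.card) (degLk deg t) := by
  have hc := h.card_le ht
  refine ⟨fun s hs => ?_, fun k hk a ha => h.hom (t.card + k) (by omega) _
    (IsHomogeneous.mul mon_hom (kil_hom ha)),
    fun a ha => mem_ann_degLk_of (h.Ic_le (kil_mem_Ic hF.down ha)), fun s hs hd => ?_⟩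
  · obtain ⟨h1, h2⟩ := mem_link.mp hs
    obtain ⟨u, a, b, c⟩ := h.pure _ h2
    have htu : t ⊆ u := Finset.subset_union_right.trans b
    refine ⟨u \ t, mem_link.mpr ⟨Finset.sdiff_disjoint, by rwa [Finset.sdiff_union_of_subset htu]⟩,
      Finset.subset_sdiff.mpr ⟨Finset.subset_union_left.trans b, h1⟩, ?_⟩
    rw [Finset.card_sdiff_of_subset htu, c]
  · obtain ⟨h1, h2⟩ := mem_link.mp hs
    have := h.pos _ h2 (by rw [Finset.card_union_of_disjoint h1]; omega)
    rwa [degLk_apply, kil_mon, if_pos h1, mul_comm, ← mon_union h1]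

theorem Valid.mem_ann_degLk (hF : Fan La De) (h : Valid La De d deg) :
    a ∈ ann (degLk deg t) ↔ kil t a ∈ ann (degAt deg (mon t)) := by
  refine ⟨fun ha b => ?_, mem_ann_degLk_of⟩
  obtain ⟨c, hc⟩ := exists_kil (t := t) hF b
  have h1 := ha c
  rw [degLk_apply, map_mul (kil t), ← degAt_apply] at h1
  rw [← h1]
  refine deg_congr ?_
  rw [← mul_sub]
  exact Ideal.mul_mem_left _ _ (h.Ic_le hc)

/-- Hodge–Riemann for a linear form on the link, read on the closed star. -/
theorem hr_link_iff (hF : Fan La De) (hv : Valid La De d deg) (ht : t ∈ De) (hm : m ∈ La)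
    (hm' : ∀ v ∈ t, m v = l v) :
    HR (Hom N) (degLk deg t) (d - t.card) (lin (link De t) fun v => l v - m v) ↔
      HR (Hom N) (degAt deg (mon t)) (d - t.card) (lin De l) := by
  obtain ⟨g, g1, g2, g3⟩ := exists_subs ht (hF.onto t ht)
  have g4 : ∀ a, degLk deg t (subs t g a) = degAt deg (mon t) a := fun a => by
    rw [degLk_apply, g2, ← degAt_apply]
    exact (deg_congr (hv.Ic_le (Jd_le_Ic hF.down (g3 a)))).symm
  have g5 : ∀ y, ∃ a, y - subs t g a ∈ ann (degLk deg t) := fun y => ⟨kil t y, mem_ann_degLk_of (by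
    rw [map_sub, g2, ← subs_zero, subs_subs fun _ _ => map_zero _, sub_self]; exact zero_mem _)⟩
  rw [← subs_lin (g := g), transfer_HR gr_mv (hv.link hF ht).dat (subs_hom g1) g4 g5]
  refine (HR_congr (hv.Ic_le ?_)).symm
  have := add_mem (lin_sub_link (La := La) hF.down (t := t) (l := fun v => l v - m v)
    fun v hv => by rw [hm' v hv, sub_self]) (lin_mem_Ic hm)
  rwa [lin_sub, sub_add_eq_add_sub, sub_add_cancel] at this

/-- the closed-star form of the Hodge–Riemann relations of a link -/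
theorem HR0.at (hF : Fan La De) (hv : Valid La De d deg) (ht : t ∈ De)
    (h : HR0 (res La t) (link De t)) (hl : Cvx La De l) :
    HR (Hom N) (degAt deg (mon t)) (d - t.card) (lin De l) := by
  obtain ⟨m, a, b, -⟩ := hl t ht
  exact (hr_link_iff hF hv ht a b).mp (h _ _ (hv.link hF ht) _ (hl.link hF a b))

/-- local to global -/
theorem hl_of_below (hF : Fan La De) (hv : Valid La De d deg) (h : Below HR0 La De)
    (hl : Cvx La De l) : HL (Hom N) deg d (lin De l) := by
  cases d with
  | zero => intro k _ a _ h; simpa using h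
  | succ d =>
    by_cases h0 : ∅ ∈ De
    swap
    · intro k _ a _ _
      have := hv.kill (mon_mem_Jd h0)
      rw [mon_empty] at this
      simpa using Ideal.mul_mem_left _ a this
    obtain ⟨m, a, -, c⟩ := hl _ h0
    refine local_global hv.dat (verts De) X (fun v => l v - m v)
      (fun v hv => sub_pos.mpr (c v hv (by simp))) ?_ (pos_mem_mv _ fun v => ?_) fun v hv' => ?_
    · have := hv.kill (lin_mem_Jd (De := De) a)
      rwa [← sub_sub_cancel (lin De l) (lin De m), ← lin_sub] at this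
    · by_cases hv' : v ∈ verts De
      · exact Ideal.mem_sup_left (Ideal.subset_span ⟨v, hv', rfl⟩)
      · exact Ideal.mem_sup_right (hv.kill (X_mem_Jd hv'))
    · have h1 : {v} ∈ De := (Down.mem_verts hF.down).mp hv'
      have := HR0.at hF hv h1 (h _ h1 (Finset.singleton_nonempty v)) hl
      rwa [mon_singleton, Finset.card_singleton, Nat.add_sub_cancel] at this

/-- one weakly convex function with the Hodge–Riemann relations is enough -/
theorem hr_of_weak (hF : Fan La De) (hv : Valid La De d deg) (h : Below HR0 La De)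
    (h0 : WCvx La De l') (h1 : HR (Hom N) deg d (lin De l')) (hl : Cvx La De l) :
    HR (Hom N) deg d (lin De l) := by
  obtain ⟨ε, h2, h3⟩ := (((HR.perturb hv.dat (lin De l) h1).filter_mono
    (nhdsWithin_le_nhds (s := Set.Ioi 0))).and self_mem_nhdsWithin).exists
  have h3' : 0 < ε := h3
  refine HR.of_segment hv.dat (add_mem lin_hom (Submodule.smul_mem _ _ lin_hom)) lin_hom
    (fun c a b => ?_) h2
  have e : (1 - c) • (lin De l' + ε • lin De l) + c • lin De l =
      (1 - c) • lin De l' + ((1 - c) * ε + c) • lin De l := by module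
  rw [e, ← lin_comb]
  refine hl_of_below hF hv h (Cvx.comb h0 hl (sub_nonneg.mpr b) ?_)
  rcases a.eq_or_lt with rfl | a'
  · simpa using h3'
  · exact add_pos_of_nonneg_of_pos (mul_nonneg (sub_nonneg.mpr b) h3'.le) a'

end KH
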