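import Pool.Agent.Lib.MP_e9c0f3_ag.KH.Link

/-! The basic operations preserve `All Q`: induction on the number of faces. -/

open scoped Classical

noncomputable section

namespace KH

variable {N : Type} [AddCommGroup N] [Module ℝ N] {La : Du N}
  {De D T : Finset (Finset N)} {z : Finset N} {e e' v w : N} {a : N → ℝ}
  {Q : Du N → Finset (Finset N) → Prop}

theorem Below.all (h : Below Q La De) (h0 : Q La De) : All Q La De := fun t ht => by
  rcases t.eq_empty_or_nonempty with rfl | k
  · simpa only [res_empty, link_empty] using h0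
  · exact h t ht k

theorem Sys.all_pt (S : Sys Q) : All Q La {∅} := fun t ht => by
  rw [Finset.mem_singleton.1 ht, link_empty]
  exact S.pt _

theorem Sys.all_susp (S : Sys Q) {c : ℝ} (hF : Fan (res La {e}) D) (he : ∃ m ∈ La, m e = 1)
    (hc : 0 < c) (h : ∀ m ∈ La, m e' = -c * m e) (hD : All Q (res La {e}) D) :
    All Q La (KH.susp D e e') := by
  induction hn : D.card using Nat.strong_induction_on generalizing La D with
  | _ n ih =>
    have z : ∀ m ∈ res La {e}, m e = 0 := fun m hm =>
      (mem_res.1 hm).2 e (Finset.mem_singleton_self e)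
    have f1 := hF.notMem_verts z
    have f2 : e' ∉ verts D :=
      hF.notMem_verts fun m hm => by rw [h m (res_le hm), z m hm, mul_zero]
    have ne := ne_opp he hc h
    have fr : ∀ {y : N}, y ∉ verts D → ∀ x ∈ D, y ∉ x := fun hy x hx k =>
      hy (mem_verts.2 ⟨x, hx, k⟩)
    have key : Below Q La (KH.susp D e e') := fun t ht hne => by
      rcases mem_susp.1 ht with k | ⟨x, hx, rfl⟩ | ⟨x, hx, rfl⟩
      · refine All.at ?_ (empty_mem_link.2 ht)
        rw [link_susp_of_notMem f1 f2 (fr f1 t k) (fr f2 t k)]
        exact ih _ (hn ▸ Down.card_link_lt hF.down k hne)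
          (by rw [res_comm]; exact hF.link k)
          (exists_res_one (hF.onto t k) he) (fun m hm => h m (res_le hm))
          (by rw [res_comm]; exact hD.link' t) rfl
      · rw [susp_comm, link_susp_new f1 ne.symm (fr f1 x hx), res_insert]
        exact hD x hx
      · rw [link_susp_new f2 ne (fr f2 x hx), res_insert, res_opp hc h]
        exact hD x hx
    intro t ht
    have h0 : ∅ ∈ D := by
      rcases mem_susp.1 ht with k | ⟨x, k, -⟩ | ⟨x, k, -⟩ <;>
        exact hF.down _ k ∅ (Finset.empty_subset _)
    exact key.all (S.susp La D e e' c hF h0 he hc h hD key) t ht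

theorem Lin.link (h : Lin La T D e) (t : Finset N) :
    Lin (res La t) (KH.link T t) (KH.link D t) e := fun s hs hs' => by
  obtain ⟨a1, a2⟩ := mem_link.1 hs
  obtain ⟨k, k1, k2, k3⟩ := h _ a2 fun p => hs' (mem_link.2 ⟨a1, p⟩)
  exact ⟨k, mem_res.2 ⟨k1, fun v hv => k3 _ a2 (Finset.Subset.refl _) v
    (Finset.mem_union_right _ hv)⟩, k2, fun u hu hsu v hv => k3 _ (mem_link.1 hu).2
      (Finset.union_subset_union_left hsu) v (Finset.mem_union_left _ hv)⟩

theorem Sys.all_modif (S : Sys Q) (hF : Fan (res La {e}) T) (hs : D ⊆ T) (hd : Down D)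
    (he : ∃ m ∈ La, m e = 1) (hl : Lin La T D e) (hT : All Q (res La {e}) T)
    (hD : All Q (res La {e}) D) : All Q La (KH.modif T D e) := by
  induction hn : T.card using Nat.strong_induction_on generalizing La T D with
  | _ n ih =>
    have f1 : e ∉ verts T := hF.notMem_verts fun m hm =>
      (mem_res.1 hm).2 e (Finset.mem_singleton_self e)
    have fr : ∀ x ∈ T, e ∉ x := fun x hx k => f1 (mem_verts.2 ⟨x, hx, k⟩)
    have key : Below Q La (KH.modif T D e) := fun t ht hne => by
      rcases mem_modif.1 ht with k | ⟨x, hx, rfl⟩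
      · refine All.at ?_ (empty_mem_link.2 ht)
        rw [link_modif_old (fr t k)]
        exact ih _ (hn ▸ Down.card_link_lt hF.down k hne)
          (by rw [res_comm]; exact hF.link k)
          (fun s k => mem_link.2 ⟨(mem_link.1 k).1, hs (mem_link.1 k).2⟩) hd.link
          (exists_res_one (hF.onto t k) he) (hl.link t)
          (by rw [res_comm]; exact hT.link' t) (by rw [res_comm]; exact hD.link' t) rfl
      · rw [link_modif_new f1 (fun k => f1 (verts_mono hs k)) (fr x (hs hx)), res_insert]
        exact hD x hx
    intro t ht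
    have h0 : ∅ ∈ T := by
      rcases mem_modif.1 ht with k | ⟨x, k, -⟩
      exacts [hF.down _ k ∅ (Finset.empty_subset _), hF.down _ (hs k) ∅ (Finset.empty_subset _)]
    exact key.all (S.modif La T D e hF h0 hs hd he hl hT hD key) t ht

theorem Sys.all_up (S : Sys Q) (hc : z.card ≤ 2) (hF : Fan La De) (h : New La De z w a)
    (hQ : All Q La De) : All Q La (star De z w) := by
  induction hn : De.card using Nat.strong_induction_on generalizing La De z with
  | _ n ih =>
    have hd : Down De := hF.down
    have wn : ∀ t ∈ De, w ∉ t := fun t ht k => h.fresh (mem_verts.2 ⟨t, ht, k⟩)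
    have key : Below Q La (star De z w) := fun t ht ne => by
      rcases mem_star.1 ht with ⟨k1, k2⟩ | ⟨r, k1, k2, k3, rfl⟩
      · by_cases k3 : z ∪ t ∈ De
        · refine All.at ?_ (empty_mem_link.2 ht)
          rw [link_star_old hd h.fresh (wn t k1)]
          exact ih _ (hn ▸ hd.card_link_lt k1 ne)
            ((Finset.card_le_card Finset.sdiff_subset).trans hc)
            (hF.link k1) (h.link' k2 k3) (hQ.link' t) rfl
        · rw [link_star_far hd h.fresh (wn t k1) k3]
          exact hQ t k1
      · have c1 : 0 < (z \ r).card := Finset.card_pos.2 (Finset.sdiff_nonempty.2 k2)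
        have c2 : (z \ r).card ≤ 2 := (Finset.card_le_card Finset.sdiff_subset).trans hc
        by_cases c3 : (z \ r).card = 1
        · obtain ⟨e, he⟩ := Finset.card_eq_one.1 c3
          rw [link_star_one' hd h.fresh (wn r k1) he, h.res_one he]
          exact hQ _ k3
        · obtain ⟨e, e', ne, he⟩ := Finset.card_eq_two.1 (by omega : (z \ r).card = 2)
          have e0 : e ∈ z \ r := he ▸ Finset.mem_insert_self e _
          obtain ⟨e1, e3⟩ := Finset.mem_sdiff.1 e0
          have e2 : e' ∈ z := (Finset.mem_sdiff.1
            (he ▸ Finset.mem_insert_of_mem (Finset.mem_singleton_self e'))).1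
          have p := h.pos e' e2
          refine All.at ?_ (empty_mem_link.2 ht)
          have ev : e ∈ verts (link (star De z w) (insert w r)) := by
            rw [link_star_two hd h.fresh (wn r k1) he ne]
            exact mem_verts.2 ⟨_, mem_susp.2 (Or.inr (Or.inl ⟨∅, empty_mem_link.2 k3, rfl⟩)),
              Finset.mem_insert_self _ _⟩
          obtain ⟨u, hu, hu'⟩ := mem_verts.1 ev
          obtain ⟨m, hm, m1⟩ := ((star_fan hF h).link ht).onto u hu fun _ => 1
          rw [link_star_two hd h.fresh (wn r k1) he ne]
          refine S.all_susp (c := a e / a e') (h.res_two' he ne ▸ hF.link k3) ⟨m, hm, m1 e hu'⟩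
            (div_pos (h.pos e e1) p) (fun m hm => ?_) (h.res_two' he ne ▸ hQ.link' _)
          have := h.res_two he ne hm
          field_simp
          linarith
    have c1 : 0 < z.card := Finset.card_pos.2 h.ne
    refine key.all ?_
    by_cases c3 : z.card = 1
    · obtain ⟨v, rfl⟩ := Finset.card_eq_one.1 c3
      exact (S.ren La De v w a hF h).1 (hQ.at (hd _ h.mem ∅ (Finset.empty_subset _)))
    · obtain ⟨e, e', ne, rfl⟩ := Finset.card_eq_two.1 (by omega : z.card = 2)
      exact S.up La De e e' w a hF ne h hQ key

theorem Sys.all_down (S : Sys Q) (hc : z.card ≤ 2) (hF : Fan La De) (h : New La De z w a)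
    (hQ : All Q La (star De z w)) : All Q La De := by
  induction hn : De.card using Nat.strong_induction_on generalizing La De z with
  | _ n ih =>
    have hd : Down De := hF.down
    have key : Below Q La De := fun t ht ne => by
      have wn : w ∉ t := fun k => h.fresh (mem_verts.2 ⟨t, ht, k⟩)
      by_cases k2 : z ⊆ t
      · obtain ⟨e, he⟩ := h.ne
        have a1 : z \ t.erase e = {e} := by
          ext y
          simp only [Finset.mem_sdiff, Finset.mem_erase, Finset.mem_singleton]
          exact ⟨fun k => not_not.1 fun k' => k.2 ⟨k', k2 k.1⟩, fun k => ⟨k ▸ he, fun k' => k'.1 k⟩⟩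
        have a2 : t.erase e ∪ z = t := Finset.Subset.antisymm
          (Finset.union_subset (Finset.erase_subset _ _) k2) fun y hy => by
            by_cases k : y = e
            · exact Finset.mem_union_right _ (k ▸ he)
            · exact Finset.mem_union_left _ (Finset.mem_erase.2 ⟨k, hy⟩)
        have wn' : w ∉ t.erase e := fun k => wn (Finset.mem_of_mem_erase k)
        have := hQ _ ((insert_mem_star hF.down h.fresh wn').2
          ⟨fun k => Finset.notMem_erase e t (k he), a2.symm ▸ ht⟩)
        rwa [link_star_one' hd h.fresh wn' a1, h.res_one a1, a2] at this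
      · by_cases k3 : z ∪ t ∈ De
        · exact All.at (ih _ (hn ▸ hd.card_link_lt ht ne)
            ((Finset.card_le_card Finset.sdiff_subset).trans hc) (hF.link ht) (h.link' k2 k3)
            (link_star_old hd h.fresh wn ▸ hQ.link' t) rfl) (empty_mem_link.2 ht)
        · rw [← link_star_far hd h.fresh wn k3]
          exact hQ t (mem_star.2 (Or.inl ⟨ht, k2⟩))
    have c1 : 0 < z.card := Finset.card_pos.2 h.ne
    refine key.all ?_
    by_cases c3 : z.card = 1
    · obtain ⟨v, rfl⟩ := Finset.card_eq_one.1 c3
      exact (S.ren La De v w a hF h).2 (hQ.at (mem_star.2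
        (Or.inl ⟨hd _ h.mem ∅ (Finset.empty_subset _), by simp⟩)))
    · obtain ⟨e, e', ne, rfl⟩ := Finset.card_eq_two.1 (by omega : z.card = 2)
      exact S.down La De e e' w a hF ne h hQ key

theorem Sys.all_ren (S : Sys Q) (hF : Fan La De) (h : New La De {v} w a) :
    All Q La De ↔ All Q La (star De {v} w) :=
  ⟨S.all_up (by simp) hF h, S.all_down (by simp) hF h⟩

theorem Sys.all_edge (S : Sys Q) (hF : Fan La De) (hne : e ≠ e') (h : New La De {e, e'} w a) :
    All Q La De ↔ All Q La (star De {e, e'} w) :=
  ⟨S.all_up (Finset.card_pair hne).le hF h, S.all_down (Finset.card_pair hne).le hF h⟩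

end KH
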