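import Pool.Agent.Lib.MP_e9c0f3_ag.KH.Defs

/-! Cones and support forms of projective fans. -/

open scoped Classical

noncomputable section

namespace KH

variable {N : Type} [AddCommGroup N] [Module ℝ N] {La : Du N}
  {De S T : Finset (Finset N)} {s t z C : Finset N} {w x : N} {l : N → ℝ}

omit [AddCommGroup N] [Module ℝ N] in
theorem mem_verts : x ∈ verts De ↔ ∃ s ∈ De, x ∈ s := by simp [verts]

theorem Onto.mono (h : Onto La t) (hs : s ⊆ t) : Onto La s := fun f =>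
  let ⟨m, hm, e⟩ := h f
  ⟨m, hm, fun v hv => e v (hs hv)⟩

theorem onto_empty : Onto La (∅ : Finset N) := fun _ => ⟨0, La.zero_mem, by simp⟩

theorem cone_mono (hs : s ⊆ t) : cone La s ⊆ cone La t := by
  rintro x ⟨c, hc, e⟩
  refine ⟨fun v => if v ∈ s then c v else 0, fun v => by dsimp only; split_ifs; exacts [hc v, le_rfl],
    fun m hm => ?_⟩
  rw [e m hm, ← Finset.sum_subset hs (fun v _ hv => by simp [hv])]
  exact Finset.sum_congr rfl fun v hv => by simp [hv]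

theorem mem_cone_self (h : x ∈ s) : x ∈ cone La s :=
  ⟨fun v => if v = x then 1 else 0, fun v => by dsimp only; split_ifs; exacts [zero_le_one, le_rfl],
    fun m _ => by simp [h]⟩

/-- a nonnegative combination of members of a cone lies in the cone -/
theorem cone_comb {a : N → ℝ} (ha : ∀ v ∈ s, 0 ≤ a v) (hs : ∀ v ∈ s, v ∈ cone La C)
    (e : ∀ m ∈ La, m x = ∑ v ∈ s, a v * m v) : x ∈ cone La C := by
  choose! c hc hc' using hs
  refine ⟨fun u => ∑ v ∈ s, a v * c v u,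
    fun u => Finset.sum_nonneg fun v hv => mul_nonneg (ha v hv) (hc v hv u), fun m hm => ?_⟩
  rw [e m hm]
  simp only [Finset.sum_mul]
  rw [Finset.sum_comm]
  refine Finset.sum_congr rfl fun v hv => ?_
  rw [hc' v hv m hm, Finset.mul_sum]
  exact Finset.sum_congr rfl fun u _ => by ring

/-- support forms of a projective fan -/
def Sup (La : Du N) (S : Finset (Finset N))
    (μ : Finset N → Module.Dual ℝ N) : Prop :=
  (∀ C ∈ S, μ C ∈ La) ∧ ∀ C ∈ S, ∀ C' ∈ S, ∀ x ∈ cone La C',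
    μ C x ≤ μ C' x ∧ (μ C' x ≤ μ C x → x ∈ cone La C)

theorem Fan.sup (h : Fan La S) : ∃ μ, Sup La S μ := by
  obtain ⟨l, hl⟩ := h.proj
  choose! μ h1 h2 h3 using hl
  refine ⟨μ, h1, fun C hC C' hC' x ⟨c, hc, e⟩ => ?_⟩
  have k : ∀ v ∈ C', μ C v ≤ μ C' v := fun v hv => by
    rw [h2 C' hC' v hv]
    by_cases hv' : v ∈ C
    · exact (h2 C hC v hv').le
    · exact (h3 C hC v (mem_verts.2 ⟨C', hC', hv⟩) hv').le
  rw [e _ (h1 C hC), e _ (h1 C' hC')]
  refine ⟨Finset.sum_le_sum fun v hv => mul_le_mul_of_nonneg_left (k v hv) (hc v), fun hle => ?_⟩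
  have z : ∀ v ∈ C', v ∉ C → c v = 0 := fun v hv hv' => by
    by_contra hne
    refine absurd hle (not_le.2 (Finset.sum_lt_sum
      (fun v hv => mul_le_mul_of_nonneg_left (k v hv) (hc v)) ⟨v, hv, ?_⟩))
    refine mul_lt_mul_of_pos_left ?_ (lt_of_le_of_ne (hc v) (Ne.symm hne))
    rw [h2 C' hC' v hv]
    exact h3 C hC v (mem_verts.2 ⟨C', hC', hv⟩) hv'
  refine cone_mono (s := C' ∩ C) Finset.inter_subset_right ⟨c, hc, fun m hm => ?_⟩
  rw [e m hm]
  exact (Finset.sum_subset Finset.inter_subset_left fun v hv hv' => by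
    rw [z v hv fun k => hv' (Finset.mem_inter.2 ⟨hv, k⟩), zero_mul]).symm

/-- the face argument -/
theorem Sup.face {μ : Finset N → Module.Dual ℝ N} (h : Sup La S μ) {C' : Finset N} (hC : C ∈ S)
    (hC' : C' ∈ S) {a : N → ℝ} (ha : ∀ v ∈ s, 0 < a v) (hs : ∀ v ∈ s, v ∈ cone La C')
    (e : ∀ m ∈ La, m x = ∑ v ∈ s, a v * m v) (hx : x ∈ cone La C) : ∀ v ∈ s, v ∈ cone La C := by
  intro v hv
  refine (h.2 C hC C' hC' v (hs v hv)).2 ?_
  by_contra hlt
  have k := (h.2 C' hC' C hC x hx).1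
  rw [e _ (h.1 C hC), e _ (h.1 C' hC')] at k
  exact absurd k (not_le.2 (Finset.sum_lt_sum
    (fun u hu => mul_le_mul_of_nonneg_left (h.2 C hC C' hC' u (hs u hu)).1 (ha u hu).le)
    ⟨v, hv, mul_lt_mul_of_pos_left (not_le.1 hlt) (ha v hv)⟩))

end KH
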