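import Pool.Agent.Lib.MP_e9c0f3_ag.KH.K7A

/-! Stellar subdivisions. -/

open scoped Classical

noncomputable section

namespace KH

variable {N : Type} [AddCommGroup N] [Module ℝ N] {La : Du N}
  {De S T : Finset (Finset N)} {s t z C : Finset N} {w x : N} {l a : N → ℝ}

omit [AddCommGroup N] [Module ℝ N] in
theorem mem_star : s ∈ star De z w ↔ (s ∈ De ∧ ¬z ⊆ s) ∨
    ∃ t ∈ De, ¬z ⊆ t ∧ t ∪ z ∈ De ∧ insert w t = s := by
  simp only [star, Finset.mem_union, Finset.mem_filter, Finset.mem_image]
  constructor
  · rintro (h | ⟨t, ⟨h1, h2, h3⟩, h4⟩)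
    exacts [Or.inl h, Or.inr ⟨t, h1, h2, h3, h4⟩]
  · rintro (h | ⟨t, h1, h2, h3, h4⟩)
    exacts [Or.inl h, Or.inr ⟨t, ⟨h1, h2, h3⟩, h4⟩]

/-- `w` is a new vertex in the relative interior of the face `z` -/
structure New (La : Du N) (De : Finset (Finset N)) (z : Finset N)
    (w : N) (a : N → ℝ) : Prop where
  mem : z ∈ De
  ne : z.Nonempty
  fresh : w ∉ verts De
  pos : ∀ v ∈ z, 0 < a v
  eq : ∀ m ∈ La, m w = ∑ v ∈ z, a v * m v

theorem New.cone (h : New La De z w a) : w ∈ cone La z :=
  cone_comb (fun v hv => (h.pos v hv).le) (fun _ hv => mem_cone_self hv) h.eq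

/-- every face of the subdivision lies in an old cone -/
theorem star_inside (h : New La De z w a) (hs : s ∈ star De z w) :
    ∃ t ∈ De, ∀ v ∈ s, v ∈ cone La t := by
  rcases mem_star.1 hs with ⟨h1, -⟩ | ⟨t, -, -, h3, rfl⟩
  · exact ⟨s, h1, fun v hv => mem_cone_self hv⟩
  · refine ⟨t ∪ z, h3, fun v hv => ?_⟩
    rcases Finset.mem_insert.1 hv with rfl | hv
    · exact cone_mono Finset.subset_union_right h.cone
    · exact mem_cone_self (Finset.mem_union_left _ hv)

theorem star_fan (hF : Fan La De) (h : New La De z w a) : Fan La (star De z w) := by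
  have wn : ∀ t ∈ De, w ∉ t := fun t ht hw => h.fresh (mem_verts.2 ⟨t, ht, hw⟩)
  refine ⟨fun t ht s hs => ?_, fun t ht => ?_, ?_⟩
  · rcases mem_star.1 ht with ⟨h1, h2⟩ | ⟨t, h1, h2, h3, rfl⟩
    · exact mem_star.2 (Or.inl ⟨hF.down t h1 s hs, fun k => h2 (k.trans hs)⟩)
    · have e : s.erase w ⊆ t := Finset.subset_insert_iff.1 hs
      by_cases hw : w ∈ s
      · exact mem_star.2 (Or.inr ⟨s.erase w, hF.down t h1 _ e, fun k => h2 (k.trans e),
          hF.down _ h3 _ (Finset.union_subset_union_left e), Finset.insert_erase hw⟩)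
      · rw [Finset.erase_eq_of_notMem hw] at e
        exact mem_star.2 (Or.inl ⟨hF.down t h1 s e, fun k => h2 (k.trans e)⟩)
  · rcases mem_star.1 ht with ⟨h1, -⟩ | ⟨t, h1, h2, h3, rfl⟩
    · exact hF.onto t h1
    · obtain ⟨u, hu, hu'⟩ := Finset.not_subset.1 h2
      intro f
      obtain ⟨m, hm, e⟩ := hF.onto _ h3 f
      obtain ⟨k, hk, e'⟩ := hF.onto _ h3 (fun v => if v = u then 1 else 0)
      have kw : k w = a u := by
        rw [h.eq k hk, Finset.sum_congr rfl fun v hv => by
          rw [e' v (Finset.mem_union_right _ hv)]]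
        simp [hu]
      refine ⟨m + ((f w - m w) / a u) • k, La.add_mem hm (La.smul_mem _ hk), fun v hv => ?_⟩
      have := (h.pos u hu).ne'
      rcases Finset.mem_insert.1 hv with rfl | hv
      · simp only [LinearMap.add_apply, LinearMap.smul_apply, kw, smul_eq_mul]
        field_simp
        ring
      · have hvu : v ≠ u := fun k => hu' (k ▸ hv)
        simp [e v (Finset.mem_union_left _ hv), e' v (Finset.mem_union_left _ hv), hvu]
  · obtain ⟨l, hl⟩ := hF.proj
    have sv : ∀ v ∈ verts (star De z w), v = w ∨ v ∈ verts De := fun v hv => by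
      obtain ⟨s, hs, hv⟩ := mem_verts.1 hv
      rcases mem_star.1 hs with ⟨h1, -⟩ | ⟨t, h1, -, -, rfl⟩
      · exact Or.inr (mem_verts.2 ⟨s, h1, hv⟩)
      · exact (Finset.mem_insert.1 hv).imp id fun k => mem_verts.2 ⟨t, h1, k⟩
    have key : ∀ s ∈ star De z w, ∀ᶠ ε in nhdsWithin (0 : ℝ) (Set.Ioi 0), ∃ m ∈ La,
        (∀ v ∈ s, m v = Function.update l w (∑ v ∈ z, a v * l v - ε) v) ∧
        ∀ v ∈ verts (star De z w), v ∉ s →
          m v < Function.update l w (∑ v ∈ z, a v * l v - ε) v := by
      intro s hs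
      rcases mem_star.1 hs with ⟨h1, h2⟩ | ⟨t, h1, h2, h3, rfl⟩
      · obtain ⟨m, hm, e1, e2⟩ := hl s h1
        obtain ⟨u, hu, hu'⟩ := Finset.not_subset.1 h2
        have lt : m w < ∑ v ∈ z, a v * l v := by
          rw [h.eq m hm]
          refine Finset.sum_lt_sum (fun v hv => mul_le_mul_of_nonneg_left ?_ (h.pos v hv).le)
            ⟨u, hu, mul_lt_mul_of_pos_left (e2 u (mem_verts.2 ⟨z, h.mem, hu⟩) hu') (h.pos u hu)⟩
          by_cases k : v ∈ s
          · exact (e1 v k).le
          · exact (e2 v (mem_verts.2 ⟨z, h.mem, hv⟩) k).le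
        have ev : ∀ᶠ ε in nhds (0 : ℝ), ε < ∑ v ∈ z, a v * l v - m w :=
          eventually_lt_nhds (by linarith)
        refine (ev.filter_mono nhdsWithin_le_nhds).mono fun ε hε => ⟨m, hm, fun v hv => ?_,
          fun v hv hv' => ?_⟩
        · rw [Function.update_of_ne (fun k : v = w => wn s h1 (k ▸ hv)), e1 v hv]
        · rcases sv v hv with rfl | k
          · rw [Function.update_self]; linarith
          · rw [Function.update_of_ne (fun k' : v = w => h.fresh (k' ▸ k))]
            exact e2 v k hv'
      · obtain ⟨m, hm, e1, e2⟩ := hl _ h3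
        obtain ⟨k, hk, e⟩ := hF.onto _ h3 (fun v => if v ∈ t then 0 else 1)
        obtain ⟨u, hu, hu'⟩ := Finset.not_subset.1 h2
        have kw : 0 < k w := by
          rw [h.eq k hk]
          refine Finset.sum_pos' (fun v hv => mul_nonneg (h.pos v hv).le ?_) ⟨u, hu, ?_⟩
          · rw [e v (Finset.mem_union_right _ hv)]; split_ifs; exacts [le_rfl, zero_le_one]
          · rw [e u (Finset.mem_union_right _ hu), if_neg hu', mul_one]; exact h.pos u hu
        have mw : m w = ∑ v ∈ z, a v * l v := by
          rw [h.eq m hm]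
          exact Finset.sum_congr rfl fun v hv => by rw [e1 v (Finset.mem_union_right _ hv)]
        have ev : ∀ᶠ ε in nhds (0 : ℝ), ∀ v ∈ verts De, v ∉ t ∪ z →
            m v - ε / k w * k v < l v := by
          rw [Filter.eventually_all_finset]
          intro v hv
          by_cases hv' : v ∈ t ∪ z
          · exact Filter.Eventually.of_forall fun _ k => absurd hv' k
          · have c : ContinuousAt (fun ε : ℝ => m v - ε / k w * k v) 0 := by fun_prop
            exact (c.eventually_lt continuousAt_const (by simpa using e2 v hv hv')).mono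
              fun _ k _ => k
        filter_upwards [ev.filter_mono nhdsWithin_le_nhds, self_mem_nhdsWithin] with ε h4 h5
        have h5' : 0 < ε := h5
        refine ⟨m - (ε / k w) • k, La.sub_mem hm (La.smul_mem _ hk), fun v hv => ?_,
          fun v hv hv' => ?_⟩
        · rcases Finset.mem_insert.1 hv with rfl | hv
          · rw [Function.update_self, ← mw]
            simp only [LinearMap.sub_apply, LinearMap.smul_apply, smul_eq_mul]
            field_simp
          · rw [Function.update_of_ne (fun k : v = w => wn t h1 (k ▸ hv))]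
            simp [e1 v (Finset.mem_union_left _ hv), e v (Finset.mem_union_left _ hv), hv]
        · rw [Finset.mem_insert, not_or] at hv'
          rw [Function.update_of_ne hv'.1]
          simp only [LinearMap.sub_apply, LinearMap.smul_apply, smul_eq_mul]
          by_cases hz : v ∈ t ∪ z
          · rw [e v hz, if_neg hv'.2, e1 v hz]
            linarith [div_pos h5' kw]
          · exact h4 v ((sv v hv).resolve_left hv'.1) hz
    obtain ⟨ε, hε⟩ := ((Filter.eventually_all_finset _).2 key).exists
    exact ⟨_, hε⟩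

theorem supp_star (hF : Fan La De) (h : New La De z w a) :
    supp La (star De z w) = supp La De := by
  refine Set.Subset.antisymm ?_ ?_
  · rintro x ⟨s, hs, c, hc, e⟩
    obtain ⟨t, ht, k⟩ := star_inside h hs
    exact ⟨t, ht, cone_comb (fun v _ => hc v) k e⟩
  · rintro x ⟨s, hs, c, hc, e⟩
    by_cases hz : z ⊆ s
    swap
    · exact ⟨s, mem_star.2 (Or.inl ⟨hs, hz⟩), c, hc, e⟩
    obtain ⟨u, hu, hmin⟩ := z.exists_min_image (fun v => c v / a v) h.ne
    have wn : w ∉ s.erase u := fun k => h.fresh (mem_verts.2 ⟨s, hs, Finset.mem_of_mem_erase k⟩)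
    refine ⟨insert w (s.erase u), mem_star.2 (Or.inr ⟨s.erase u,
      hF.down s hs _ (Finset.erase_subset _ _), fun k => Finset.notMem_erase u s (k hu),
      hF.down s hs _ (Finset.union_subset (Finset.erase_subset _ _) hz), rfl⟩), ?_⟩
    have au := h.pos u hu
    refine cone_comb (s := insert w (s.erase u))
      (a := fun v => if v = w then c u / a u else if v ∈ z then c v - c u / a u * a v else c v)
      (fun v _ => ?_) (fun v hv => mem_cone_self hv) fun m hm => ?_
    · split_ifs with h1 h2
      · exact div_nonneg (hc u) au.le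
      · have := hmin v h2
        rw [le_div_iff₀ (h.pos v h2)] at this
        linarith
      · exact hc v
    · rw [Finset.sum_insert wn, if_pos rfl, e m hm, h.eq m hm]
      have e1 : ∑ v ∈ s.erase u, (if v = w then c u / a u else
          if v ∈ z then c v - c u / a u * a v else c v) * m v =
          ∑ v ∈ s, (c v * m v - if v ∈ z then c u / a u * (a v * m v) else 0) := by
        rw [← Finset.sum_erase s (a := u) (by rw [if_pos hu]; field_simp; ring)]
        refine Finset.sum_congr rfl fun v hv => ?_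
        rw [if_neg fun k : v = w => wn (k ▸ hv)]
        split_ifs <;> ring
      rw [e1, Finset.sum_sub_distrib, Finset.sum_ite_mem, Finset.inter_eq_right.2 hz,
        Finset.mul_sum]
      ring

/-- a fresh vertex on a given ray -/
theorem exists_new (hF : Fan La De) (hz : z ∈ De) (hne : z.Nonempty) (ha : ∀ v ∈ z, 0 < a v)
    (W : Finset N) : ∃ r : ℝ, 0 < r ∧ r • ∑ v ∈ z, a v • v ∉ W := by
  obtain ⟨m, -, e⟩ := hF.onto z hz (fun _ => 1)
  have pos : 0 < m (∑ v ∈ z, a v • v) := by
    rw [map_sum]
    exact Finset.sum_pos (fun v hv => by simpa [e v hv] using ha v hv) hne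
  have ne : ∑ v ∈ z, a v • v ≠ 0 := fun k => by simp [k] at pos
  have inj : Function.Injective fun r : ℝ => r • ∑ v ∈ z, a v • v := smul_left_injective ℝ ne
  obtain ⟨r, hr, k⟩ := (Set.Ioi_infinite (0 : ℝ)).exists_notMem_finite
    (W.finite_toSet.preimage inj.injOn)
  exact ⟨r, hr, k⟩

/-- `P` is invariant under stellar subdivisions of projective fans -/
def StarInv (La : Du N) (P : Finset (Finset N) → Prop) : Prop :=
  ∀ De z w a, Fan La De → New La De z w a → (P De ↔ P (star De z w))

end KH
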