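import Pool.Agent.Lib.MP_e9c0f3_ag.KH.K7B

/-! Cutting a fan along hyperplanes. -/

open scoped Classical

noncomputable section

namespace KH.K7

variable {N : Type} [AddCommGroup N] [Module ℝ N] {La : Du N}
  {De S T : Finset (Finset N)} {s t z C : Finset N} {w x : N} {l a : N → ℝ}
  {P : Finset (Finset N) → Prop}

/-- `m` has one sign on every face -/
def OneSign (T : Finset (Finset N)) (m : Module.Dual ℝ N) : Prop :=
  ∀ t ∈ T, (∀ v ∈ t, 0 ≤ m v) ∨ ∀ v ∈ t, m v ≤ 0

theorem OneSign.star {m : Module.Dual ℝ N} (hm : m ∈ La) (h : New La De z w a)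
    (k : OneSign De m) : OneSign (star De z w) m := fun s hs => by
  obtain ⟨t, ht, e⟩ := star_inside h hs
  refine (k t ht).imp (fun k v hv => ?_) fun k v hv => ?_
  · obtain ⟨c, hc, e'⟩ := e v hv
    rw [e' m hm]
    exact Finset.sum_nonneg fun u hu => mul_nonneg (hc u) (k u hu)
  · obtain ⟨c, hc, e'⟩ := e v hv
    rw [e' m hm]
    exact Finset.sum_nonpos fun u hu => mul_nonpos_of_nonneg_of_nonpos (hc u) (k u hu)

/-- edges that cross the hyperplane `m = 0` -/
def cross (T : Finset (Finset N)) (m : Module.Dual ℝ N) : Finset (Finset N) :=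
  T.filter fun e => ∃ u v, e = {u, v} ∧ 0 < m u ∧ m v < 0

theorem cut_one (hP : StarInv La P) {m : Module.Dual ℝ N} (hm : m ∈ La) (n : ℕ) :
    ∀ T, Fan La T → (cross T m).card = n → ∃ T', Fan La T' ∧ supp La T' = supp La T ∧
      (P T ↔ P T') ∧ OneSign T' m ∧ ∀ m' ∈ La, OneSign T m' → OneSign T' m' := by
  induction n using Nat.strong_induction_on with
  | _ n ih =>
    intro T hT hn
    by_cases h0 : (cross T m).Nonempty
    swap
    · refine ⟨T, hT, rfl, Iff.rfl, fun t ht => ?_, fun _ _ h => h⟩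
      by_contra hc
      push Not at hc
      obtain ⟨⟨v, hv, h1⟩, u, hu, h2⟩ := hc
      exact h0 ⟨{u, v}, Finset.mem_filter.2 ⟨hT.down t ht _ (by
        simp [Finset.insert_subset_iff, hu, hv]), u, v, rfl, h2, h1⟩⟩
    obtain ⟨e, he⟩ := h0
    obtain ⟨he1, u, v, rfl, hu, hv⟩ := Finset.mem_filter.1 he
    have uv : u ≠ v := fun k => by rw [k] at hu; linarith
    have ha : ∀ y ∈ ({u, v} : Finset N), 0 < (fun y => if y = u then -m v else m u) y := by
      intro y _
      dsimp only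
      split_ifs <;> linarith
    obtain ⟨r, hr, hw⟩ := exists_new hT he1 (Finset.insert_nonempty _ _) ha (verts T)
    set w := r • ∑ y ∈ ({u, v} : Finset N), (fun y => if y = u then -m v else m u) y • y with hw'
    have nw : New La T {u, v} w fun y => r * if y = u then -m v else m u :=
      ⟨he1, Finset.insert_nonempty _ _, hw, fun y hy => mul_pos hr (ha y hy), fun k _ => by
        simp only [hw', map_smul, map_sum, smul_eq_mul, Finset.mul_sum, mul_assoc]⟩
    have mw : m w = 0 := by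
      rw [nw.eq m hm, Finset.sum_pair uv, if_pos rfl, if_neg uv.symm]; ring
    have sub : cross (star T {u, v} w) m ⊆ (cross T m).erase {u, v} := fun e he => by
      obtain ⟨k1, u', v', k2, k3, k4⟩ := Finset.mem_filter.1 he
      rcases mem_star.1 k1 with ⟨k5, k6⟩ | ⟨t, -, -, -, k5⟩
      · exact Finset.mem_erase.2 ⟨fun k => k6 (k ▸ Finset.Subset.refl _),
          Finset.mem_filter.2 ⟨k5, u', v', k2, k3, k4⟩⟩
      · have : w ∈ ({u', v'} : Finset N) := by
          rw [← k2, ← k5]; exact Finset.mem_insert_self _ _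
        rcases Finset.mem_insert.1 this with k | k
        · rw [← k, mw] at k3; exact absurd k3 (lt_irrefl _)
        · rw [← Finset.mem_singleton.1 k, mw] at k4; exact absurd k4 (lt_irrefl _)
    obtain ⟨T', f1, f2, f3, f4, f5⟩ := ih _ (hn ▸ (Finset.card_le_card sub).trans_lt
      (Finset.card_erase_lt_of_mem he)) _ (star_fan hT nw) rfl
    exact ⟨T', f1, f2.trans (supp_star hT nw), (hP _ _ _ _ hT nw).trans f3, f4,
      fun m' hm' k => f5 m' hm' (k.star hm' nw)⟩

theorem cut_all (hP : StarInv La P) (hT : Fan La T) (M : Finset (Module.Dual ℝ N))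
    (hM : ∀ m ∈ M, m ∈ La) : ∃ T', Fan La T' ∧ supp La T' = supp La T ∧ (P T ↔ P T') ∧
      ∀ m ∈ M, OneSign T' m := by
  induction M using Finset.induction_on with
  | empty => exact ⟨T, hT, rfl, Iff.rfl, by simp⟩
  | insert m M _ ih =>
    obtain ⟨T₁, f1, f2, f3, f4⟩ := ih fun k hk => hM k (Finset.mem_insert_of_mem hk)
    obtain ⟨T₂, g1, g2, g3, g4, g5⟩ :=
      cut_one hP (hM m (Finset.mem_insert_self _ _)) _ T₁ f1 rfl
    refine ⟨T₂, g1, g2.trans f2, f3.trans g3, fun k hk => ?_⟩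
    rcases Finset.mem_insert.1 hk with rfl | hk'
    · exact g4
    · exact g5 k (hM k hk) (f4 k hk')

/-- every face of `T` lies in a cone of `S` -/
def Refines (La : Du N) (T S : Finset (Finset N)) : Prop :=
  ∀ t ∈ T, ∃ C ∈ S, ∀ v ∈ t, v ∈ cone La C

theorem exists_refine (hP : StarInv La P) (hS : Fan La S) (hT : Fan La T)
    (e : supp La S = supp La T) :
    ∃ T', Fan La T' ∧ supp La T' = supp La S ∧ (P T ↔ P T') ∧ Refines La T' S := by
  obtain ⟨μ, hμ⟩ := hS.sup
  obtain ⟨T', f1, f2, f3, f4⟩ := cut_all hP hT ((S ×ˢ S).image fun p => μ p.1 - μ p.2) (by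
    intro m hm
    obtain ⟨p, hp, rfl⟩ := Finset.mem_image.1 hm
    exact La.sub_mem (hμ.1 _ (Finset.mem_product.1 hp).1) (hμ.1 _ (Finset.mem_product.1 hp).2))
  refine ⟨T', f1, f2.trans e.symm, f3, fun t ht => ?_⟩
  have ins : ∀ x ∈ cone La t, x ∈ supp La S := fun x hx => by
    rw [e, ← f2]; exact ⟨t, ht, hx⟩
  obtain ⟨C, hC, hb⟩ := ins (∑ v ∈ t, v) ⟨fun _ => 1, fun _ => zero_le_one, fun m _ => by simp⟩
  refine ⟨C, hC, fun v hv => ?_⟩
  obtain ⟨C', hC', hv'⟩ := ins v (mem_cone_self hv)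
  refine (hμ.2 C hC C' hC' v hv').2 ?_
  have k := (hμ.2 C' hC' C hC _ hb).1
  rcases f4 _ (Finset.mem_image_of_mem _ (Finset.mk_mem_product hC hC')) t ht with g | g
  · simpa using g v hv
  · have s0 : ∑ u ∈ t, (μ C - μ C') u = 0 := by
      refine le_antisymm (Finset.sum_nonpos g) ?_
      rw [← map_sum, LinearMap.sub_apply]
      linarith
    have := (Finset.sum_eq_zero_iff_of_nonpos g).1 s0 v hv
    rw [LinearMap.sub_apply] at this
    linarith

end KH.K7
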