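import Pool.Agent.Lib.MP_e9c0f3_ag.KH.K7C

/-! Regular subdivisions relative to a base fan. -/

open scoped Classical
open Filter Topology

noncomputable section

namespace KH.K7

variable {N : Type} [AddCommGroup N] [Module ℝ N] {La : Du N}
  {De S T : Finset (Finset N)} {s t z C W : Finset N} {w x : N} {l a D : N → ℝ}
  {m k : Module.Dual ℝ N} {μ : Finset N → Module.Dual ℝ N}

/-- `t` is the lower face cut out by `m` for the heights `l` inside the cone of `C` -/
structure Face (La : Du N) (W : Finset N) (l : N → ℝ) (C t : Finset N)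
    (m : Module.Dual ℝ N) : Prop where
  mem : m ∈ La
  sub : t ⊆ W
  ins : ∀ v ∈ t, v ∈ cone La C
  eq : ∀ v ∈ t, m v = l v
  lt : ∀ v ∈ W, v ∈ cone La C → v ∉ t → m v < l v

theorem Face.le (h : Face La W l C t m) {v : N} (hv : v ∈ W) (hc : v ∈ cone La C) : m v ≤ l v := by
  by_cases k : v ∈ t
  · exact (h.eq v k).le
  · exact (h.lt v hv hc k).le

theorem face_tight (hm : m ∈ La) (h : ∀ v ∈ W, v ∈ cone La C → m v ≤ l v) :
    Face La W l C (W.filter fun v => v ∈ cone La C ∧ m v = l v) m :=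
  ⟨hm, Finset.filter_subset _ _, fun _ hv => (Finset.mem_filter.1 hv).2.1,
    fun _ hv => (Finset.mem_filter.1 hv).2.2, fun v hv hc hn =>
      lt_of_le_of_ne (h v hv hc) fun e => hn (Finset.mem_filter.2 ⟨hv, hc, e⟩)⟩

/-- the regular subdivision of `S` with vertices in `W` and heights `l` -/
def G (La : Du N) (S : Finset (Finset N)) (W : Finset N) (l : N → ℝ) :
    Finset (Finset N) :=
  W.powerset.filter fun t => ∃ C ∈ S, ∃ m, Face La W l C t m

theorem mem_G : t ∈ G La S W l ↔ ∃ C ∈ S, ∃ m, Face La W l C t m := by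
  rw [G, Finset.mem_filter, Finset.mem_powerset]
  exact ⟨fun h => h.2, fun ⟨C, hC, m, h⟩ => ⟨h.sub, C, hC, m, h⟩⟩

theorem verts_G : verts (G La S W l) ⊆ W := fun v hv => by
  obtain ⟨t, ht, hv⟩ := mem_verts.1 hv
  obtain ⟨C, -, m, h⟩ := mem_G.1 ht
  exact h.sub hv

theorem Face.pert (h : Face La W l C t m) (hs : s ⊆ t) (hk : k ∈ La) (k1 : ∀ v ∈ s, k v = D v)
    (k2 : ∀ v ∈ t, v ∉ s → k v < D v) :
    ∀ᶠ ε in 𝓝[>] (0 : ℝ), Face La W (l + ε • D) C s (m + ε • k) := by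
  have ev : ∀ᶠ ε in 𝓝 (0 : ℝ), ∀ v ∈ W, m v < l v → m v + ε * k v < l v + ε * D v := by
    rw [eventually_all_finset]
    intro v _
    by_cases hv : m v < l v
    · have c1 : ContinuousAt (fun ε : ℝ => m v + ε * k v) 0 := by fun_prop
      have c2 : ContinuousAt (fun ε : ℝ => l v + ε * D v) 0 := by fun_prop
      exact (c1.eventually_lt c2 (by simpa using hv)).mono fun _ k _ => k
    · exact Eventually.of_forall fun _ k => absurd k hv
  filter_upwards [ev.filter_mono nhdsWithin_le_nhds, self_mem_nhdsWithin] with ε h1 h2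
  have h2' : 0 < ε := h2
  refine ⟨La.add_mem h.mem (La.smul_mem _ hk), hs.trans h.sub, fun v hv => h.ins v (hs hv),
    fun v hv => by simp [h.eq v (hs hv), k1 v hv], fun v hv hc hn => ?_⟩
  simp only [LinearMap.add_apply, LinearMap.smul_apply, smul_eq_mul, Pi.add_apply, Pi.smul_apply]
  by_cases ht : v ∈ t
  · rw [h.eq v ht]
    linarith [mul_lt_mul_of_pos_left (k2 v ht hn) h2']
  · exact h1 v hv (h.lt v hv hc ht)

theorem _root_.KH.Onto.split (h : Onto La t) (s : Finset N) (D : N → ℝ) :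
    ∃ k ∈ La, (∀ v ∈ t, v ∈ s → k v = D v) ∧ ∀ v ∈ t, v ∉ s → k v < D v := by
  obtain ⟨k, hk, e⟩ := h fun v => if v ∈ s then D v else D v - 1
  exact ⟨k, hk, fun v hv hs => by rw [e v hv, if_pos hs], fun v hv hs => by
    rw [e v hv, if_neg hs]; linarith⟩

theorem G_down (ht : t ∈ G La S W l) (ho : Onto La t) (hs : s ⊆ t) : s ∈ G La S W l := by
  obtain ⟨C, hC, m, h⟩ := mem_G.1 ht
  obtain ⟨k, hk, k1, k2⟩ := ho.split s 0
  obtain ⟨ε, hε⟩ := (h.pert hs hk (fun v hv => k1 v (hs hv) hv) k2).exists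
  rw [smul_zero, add_zero] at hε
  exact mem_G.2 ⟨C, hC, _, hε⟩

/-- generic heights -/
def Gen (La : Du N) (W : Finset N) (l : N → ℝ) : Prop :=
  ∀ t ⊆ W, ∀ m ∈ La, (∀ v ∈ t, m v = l v) → Onto La t

theorem Gen.onto (h : Gen La W l) (ht : t ∈ G La S W l) : Onto La t :=
  let ⟨_, _, m, f⟩ := mem_G.1 ht
  h t f.sub m f.mem f.eq

theorem G_fan (hμ : Sup La S μ) (hW : ∀ v ∈ W, v ∈ supp La S) (h : Gen La W l) :
    Fan La (G La S W l) := by
  refine ⟨fun t ht s hs => G_down ht (h.onto ht) hs, fun t ht => h.onto ht, ?_⟩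
  choose! c hc hc' using hW
  have key : ∀ t ∈ G La S W l, ∀ᶠ r in (atTop : Filter ℝ), ∃ m ∈ La,
      (∀ v ∈ t, m v = l v + r * μ (c v) v) ∧
      ∀ v ∈ verts (G La S W l), v ∉ t → m v < l v + r * μ (c v) v := by
    intro t ht
    obtain ⟨C, hC, m, f⟩ := mem_G.1 ht
    have eqc : ∀ v ∈ W, v ∈ cone La C → μ C v = μ (c v) v := fun v hv k =>
      le_antisymm (hμ.2 C hC _ (hc v hv) v (hc' v hv)).1 (hμ.2 _ (hc v hv) C hC v k).1
    have ev : ∀ᶠ r in (atTop : Filter ℝ), ∀ v ∈ W, v ∉ cone La C →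
        m v + r * μ C v < l v + r * μ (c v) v := by
      rw [eventually_all_finset]
      intro v hv
      by_cases k : v ∈ cone La C
      · exact Eventually.of_forall fun _ k' => absurd k k'
      · have lt : 0 < μ (c v) v - μ C v :=
          sub_pos.2 (not_le.1 fun e => k ((hμ.2 C hC _ (hc v hv) v (hc' v hv)).2 e))
        filter_upwards [eventually_gt_atTop ((m v - l v) / (μ (c v) v - μ C v))] with r hr _
        rw [div_lt_iff₀ lt] at hr
        linarith
    refine ev.mono fun r hr => ⟨m + r • μ C, La.add_mem f.mem (La.smul_mem _ (hμ.1 C hC)),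
      fun v hv => by simp [f.eq v hv, eqc v (f.sub hv) (f.ins v hv)], fun v hv hn => ?_⟩
    simp only [LinearMap.add_apply, LinearMap.smul_apply, smul_eq_mul]
    by_cases k : v ∈ cone La C
    · rw [eqc v (verts_G hv) k]
      linarith [f.lt v (verts_G hv) k hn]
    · exact hr v (verts_G hv) k
  obtain ⟨r, hr⟩ := ((eventually_all_finset _).2 key).exists
  exact ⟨fun v => l v + r * μ (c v) v, hr⟩

theorem G_eq (hμ : Sup La S μ) (hT : Fan La T) (h : T ⊆ G La S W l)
    (e : supp La S ⊆ supp La T) : G La S W l = T := by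
  refine Finset.Subset.antisymm (fun s hs => ?_) h
  obtain ⟨C, hC, m, f⟩ := mem_G.1 hs
  have b1 : ∀ k ∈ La, k (∑ v ∈ s, v) = ∑ v ∈ s, (fun _ => (1 : ℝ)) v * k v := fun k _ => by simp
  have hb : ∑ v ∈ s, v ∈ cone La C := cone_comb (fun _ _ => zero_le_one) f.ins b1
  obtain ⟨t', ht', c, hc, e'⟩ := e ⟨C, hC, hb⟩
  have ht : t'.filter (fun v => 0 < c v) ∈ T := hT.down t' ht' _ (Finset.filter_subset _ _)
  set t := t'.filter (fun v => 0 < c v) with tdef
  have cp : ∀ v ∈ t, 0 < c v := fun v hv => (Finset.mem_filter.1 hv).2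
  have b2 : ∀ k ∈ La, k (∑ v ∈ s, v) = ∑ v ∈ t, c v * k v := fun k hk => by
    rw [e' k hk, tdef]
    refine (Finset.sum_filter_of_ne fun v _ hne => ?_).symm
    exact lt_of_le_of_ne (hc v) fun k => hne (by rw [← k, zero_mul])
  obtain ⟨C', hC', m', f'⟩ := mem_G.1 (h ht)
  have hb' : ∑ v ∈ s, v ∈ cone La C' := cone_comb (fun v _ => hc v) f'.ins b2
  have s1 := hμ.face hC' hC (fun _ _ => one_pos) f.ins b1 hb'
  have t1 := hμ.face hC hC' cp f'.ins b2 hb
  refine hT.down t ht s fun v hv => ?_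
  by_contra hn
  have i1 : m' (∑ v ∈ s, v) < m (∑ v ∈ s, v) := by
    rw [map_sum, map_sum]
    refine Finset.sum_lt_sum (fun u hu => ?_) ⟨v, hv, ?_⟩
    · rw [f.eq u hu]; exact f'.le (f.sub hu) (s1 u hu)
    · rw [f.eq v hv]; exact f'.lt v (f.sub hv) (s1 v hv) hn
  have i2 : m (∑ v ∈ s, v) ≤ m' (∑ v ∈ s, v) := by
    rw [b2 m f.mem, b2 m' f'.mem]
    refine Finset.sum_le_sum fun u hu => mul_le_mul_of_nonneg_left ?_ (hc u)
    rw [f'.eq u hu]; exact f.le (f'.sub hu) (t1 u hu)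
  linarith

theorem G_near (hT : Fan La T) (hr : Refines La T S) (hW : verts T ⊆ W) :
    ∃ l, ∀ D : N → ℝ, ∀ᶠ ε in 𝓝[>] (0 : ℝ), T ⊆ G La S W (l + ε • D) := by
  obtain ⟨l, hl⟩ := hT.proj
  have key : ∀ t ∈ T, ∀ᶠ r in (atTop : Filter ℝ),
      t ∈ G La S W fun v => if v ∈ verts T then l v else r := by
    intro t ht
    obtain ⟨m, hm, e1, e2⟩ := hl t ht
    obtain ⟨C, hC, hc⟩ := hr t ht
    have ev : ∀ᶠ r in (atTop : Filter ℝ), ∀ v ∈ W, m v < r :=
      (eventually_all_finset _).2 fun v _ => eventually_gt_atTop _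
    refine ev.mono fun r h => mem_G.2 ⟨C, hC, m, hm, fun v hv => hW (mem_verts.2 ⟨t, ht, hv⟩), hc,
      fun v hv => by rw [if_pos (mem_verts.2 ⟨t, ht, hv⟩), e1 v hv], fun v hv _ hn => ?_⟩
    split_ifs with k
    exacts [e2 v k hn, h v hv]
  obtain ⟨r, h⟩ := ((eventually_all_finset _).2 key).exists
  refine ⟨fun v => if v ∈ verts T then l v else r, fun D => ?_⟩
  refine ((eventually_all_finset T).2 fun t ht => ?_).mono fun _ k t ht => k t ht
  obtain ⟨C, hC, m, f⟩ := mem_G.1 (h t ht)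
  obtain ⟨k, hk, e⟩ := hT.onto t ht D
  exact (f.pert (Finset.Subset.refl t) hk e fun v hv hn => absurd hv hn).mono
    fun ε k => mem_G.2 ⟨C, hC, _, k⟩

theorem Face.extend (h : Face La W l C s m) (hC : C ⊆ W) : ∃ t m', s ⊆ t ∧ Face La W l C t m' ∧
    ∀ k ∈ La, (∀ v ∈ t, k v = 0) → ∀ v ∈ C, k v = 0 := by
  obtain ⟨t, ht, hmax⟩ := (W.powerset.filter fun t => s ⊆ t ∧ ∃ m', Face La W l C t m').exists_max_image
    Finset.card ⟨s, Finset.mem_filter.2 ⟨Finset.mem_powerset.2 h.sub, Finset.Subset.refl s, m, h⟩⟩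
  obtain ⟨-, hs, m', f⟩ := Finset.mem_filter.1 ht
  have main : ∀ k ∈ La, (∀ v ∈ t, k v = 0) → ∀ v ∈ C, k v ≤ 0 := by
    intro k hk k0 e he
    by_contra hlt
    obtain ⟨u, hu, hmin⟩ := (W.filter fun v => v ∈ cone La C ∧ 0 < k v).exists_min_image
      (fun v => (l v - m' v) / k v)
      ⟨e, Finset.mem_filter.2 ⟨hC he, mem_cone_self he, not_le.1 hlt⟩⟩
    obtain ⟨u1, u2, u3⟩ := Finset.mem_filter.1 hu
    have a0 : 0 ≤ (l u - m' u) / k u := div_nonneg (sub_nonneg.2 (f.le u1 u2)) u3.le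
    have f' := face_tight (W := W) (l := l) (C := C)
      (La.add_mem f.mem (La.smul_mem ((l u - m' u) / k u) hk)) fun v hv hc => by
        simp only [LinearMap.add_apply, LinearMap.smul_apply, smul_eq_mul]
        rcases lt_or_ge 0 (k v) with p | p
        · have := hmin v (Finset.mem_filter.2 ⟨hv, hc, p⟩)
          rw [le_div_iff₀ p] at this
          linarith
        · linarith [f.le hv hc, mul_nonpos_of_nonneg_of_nonpos a0 p]
    have sub : t ⊆ W.filter fun v => v ∈ cone La C ∧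
        (m' + ((l u - m' u) / k u) • k) v = l v := fun v hv =>
      Finset.mem_filter.2 ⟨f.sub hv, f.ins v hv, by simp [k0 v hv, f.eq v hv]⟩
    refine absurd (hmax _ (Finset.mem_filter.2 ⟨Finset.mem_powerset.2 f'.sub, hs.trans sub, _, f'⟩))
      (not_le.2 (Finset.card_lt_card ⟨sub, fun k' => ?_⟩))
    have : u ∈ t := k' (Finset.mem_filter.2 ⟨u1, u2, by
      simp only [LinearMap.add_apply, LinearMap.smul_apply, smul_eq_mul]
      field_simp
      ring⟩)
    exact u3.ne' (k0 u this)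
  refine ⟨t, m', hs, f, fun k hk k0 v hv => le_antisymm (main k hk k0 v hv) ?_⟩
  simpa using main (-k) (La.neg_mem hk) (fun v hv => by simp [k0 v hv]) v hv

/-- the subdivision of the faces of `G l` by the direction `D` -/
def Rf (La : Du N) (S : Finset (Finset N)) (W : Finset N) (l D : N → ℝ)
    (s : Finset N) : Prop :=
  ∃ t ∈ G La S W l, s ⊆ t ∧ ∃ k ∈ La, (∀ v ∈ s, k v = D v) ∧ ∀ v ∈ t, v ∉ s → k v < D v

theorem G_pert (hS : verts S ⊆ W) (l D : N → ℝ) : ∀ᶠ ε in 𝓝[>] (0 : ℝ),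
    Gen La W (l + ε • D) → ∀ s, s ∈ G La S W (l + ε • D) ↔ Rf La S W l D s := by
  have low : ∀ᶠ ε in 𝓝[>] (0 : ℝ), ∀ s ∈ W.powerset, Rf La S W l D s →
      s ∈ G La S W (l + ε • D) := by
    rw [eventually_all_finset]
    intro s _
    by_cases h : Rf La S W l D s
    · obtain ⟨t, ht, hs, k, hk, k1, k2⟩ := h
      obtain ⟨C, hC, m, f⟩ := mem_G.1 ht
      exact (f.pert hs hk k1 k2).mono fun ε e _ => mem_G.2 ⟨C, hC, _, e⟩
    · exact Eventually.of_forall fun _ k => absurd k h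
  have lift : ∀ f : N → ℝ, ∀ t, Onto La t → ∃ m ∈ La, ∀ v ∈ t, m v = f v := fun f t h => h f
  choose! σ σ1 σ2 using lift
  have up : ∀ᶠ ε in 𝓝 (0 : ℝ), ∀ t ∈ W.powerset, ∀ v ∈ W, l v < σ l t v →
      l v + ε * D v < σ l t v + ε * σ D t v := by
    rw [eventually_all_finset]
    intro t _
    rw [eventually_all_finset]
    intro v _
    by_cases hv : l v < σ l t v
    · have c1 : ContinuousAt (fun ε : ℝ => l v + ε * D v) 0 := by fun_prop
      have c2 : ContinuousAt (fun ε : ℝ => σ l t v + ε * σ D t v) 0 := by fun_prop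
      exact (c1.eventually_lt c2 (by simpa using hv)).mono fun _ k _ => k
    · exact Eventually.of_forall fun _ k => absurd k hv
  filter_upwards [low, up.filter_mono nhdsWithin_le_nhds, self_mem_nhdsWithin] with ε h1 h2 h3 hg s
  have h3' : 0 < ε := h3
  refine ⟨fun hs => ?_, fun hs => ?_⟩
  swap
  · obtain ⟨t, ht, hs', -⟩ := id hs
    obtain ⟨C, -, m, f⟩ := mem_G.1 ht
    exact h1 s (Finset.mem_powerset.2 (hs'.trans f.sub)) hs
  obtain ⟨C, hC, m, f⟩ := mem_G.1 hs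
  obtain ⟨t, m', st, f', sp⟩ := f.extend fun v hv => hS (mem_verts.2 ⟨C, hC, hv⟩)
  have ot : Onto La t := hg t f'.sub m' f'.mem f'.eq
  have km : m' - (σ l t + ε • σ D t) ∈ La :=
    La.sub_mem f'.mem (La.add_mem (σ1 l t ot) (La.smul_mem _ (σ1 D t ot)))
  have agree : ∀ v ∈ cone La C, m' v = σ l t v + ε * σ D t v := by
    rintro v ⟨c, -, e⟩
    have := e _ km
    rw [Finset.sum_eq_zero fun u hu => by
      rw [sp _ km (fun y hy => by simp [f'.eq y hy, σ2 l t ot y hy, σ2 D t ot y hy]) u hu,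
        mul_zero]] at this
    simpa [sub_eq_zero] using this
  have f0 := face_tight (W := W) (l := l) (C := C) (σ1 l t ot) fun v hv hc => by
    by_contra hlt
    have i1 := h2 t (Finset.mem_powerset.2 f'.sub) v hv (not_le.1 hlt)
    have i2 := f'.le hv hc
    rw [agree v hc] at i2
    simp only [Pi.add_apply, Pi.smul_apply, smul_eq_mul] at i2
    linarith
  have sub : s ⊆ W.filter fun v => v ∈ cone La C ∧ σ l t v = l v := fun v hv =>
    Finset.mem_filter.2 ⟨f.sub hv, f.ins v hv, σ2 l t ot v (st hv)⟩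
  refine ⟨_, mem_G.2 ⟨C, hC, _, f0⟩, sub, ε⁻¹ • (m - σ l t),
    La.smul_mem _ (La.sub_mem f.mem (σ1 l t ot)), fun v hv => ?_, fun v hv hn => ?_⟩
  · simp only [LinearMap.smul_apply, LinearMap.sub_apply, f.eq v hv, f0.eq v (sub hv),
      Pi.add_apply, Pi.smul_apply, smul_eq_mul]
    field_simp
    ring
  · have := f.lt v (f0.sub hv) (f0.ins v hv) hn
    simp only [LinearMap.smul_apply, LinearMap.sub_apply, f0.eq v hv,
      Pi.add_apply, Pi.smul_apply, smul_eq_mul] at this ⊢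
    rw [inv_mul_lt_iff₀ h3']
    linarith

end KH.K7
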