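import Pool.Agent.Lib.MP_e9c0f3_ag.KH.K7D

/-! Crossing one wall. -/

open scoped Classical
open Filter Topology

noncomputable section

namespace KH.K7

variable {N : Type} [AddCommGroup N] [Module ℝ N] {La : Du N}
  {De S T : Finset (Finset N)} {s t z C W Z : Finset N} {w x : N} {l a c D : N → ℝ}
  {m k : Module.Dual ℝ N} {μ : Finset N → Module.Dual ℝ N} {P : Finset (Finset N) → Prop}

/-- the heights `l` lie on the wall of the circuit `Z` with coefficients `c` -/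
structure Wall (La : Du N) (S : Finset (Finset N)) (W : Finset N)
    (l : N → ℝ) (Z : Finset N) (c : N → ℝ) : Prop where
  ne : Z.Nonempty
  nz : ∀ v ∈ Z, c v ≠ 0
  dep : ∀ m ∈ La, ∑ v ∈ Z, c v * m v = 0
  face : ∃ t ∈ G La S W l, Z ⊆ t
  uniq : ∀ t ∈ G La S W l, ∀ z ∈ Z, Onto La (t.erase z)

/-- the positive part of a circuit -/
def pp (Z : Finset N) (c : N → ℝ) : Finset N := Z.filter fun v => 0 < c v

theorem Wall.neg (h : Wall La S W l Z c) : Wall La S W l Z (-c) :=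
  ⟨h.ne, fun v hv => neg_ne_zero.2 (h.nz v hv), fun m hm => by
    simp [Finset.sum_neg_distrib, h.dep m hm], h.face, h.uniq⟩

theorem Wall.cases (h : Wall La S W l Z c) {v : N} (hv : v ∈ Z) :
    v ∈ pp Z c ∨ v ∈ pp Z (-c) := by
  rcases lt_or_gt_of_ne (h.nz v hv) with k | k
  · exact Or.inr (Finset.mem_filter.2 ⟨hv, neg_pos.2 k⟩)
  · exact Or.inl (Finset.mem_filter.2 ⟨hv, k⟩)

theorem Wall.split (h : Wall La S W l Z c) (f : N → ℝ) :
    ∑ v ∈ Z, c v * f v = ∑ v ∈ pp Z c, c v * f v - ∑ v ∈ pp Z (-c), (-c) v * f v := by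
  rw [← Finset.sum_filter_add_sum_filter_not Z (fun v => 0 < c v), sub_eq_add_neg,
    ← Finset.sum_neg_distrib]
  congr 1
  refine Finset.sum_congr (Finset.filter_congr fun v hv => ?_) fun v _ => by simp
  simp only [Pi.neg_apply, neg_pos, not_lt]
  exact ⟨fun k => lt_of_le_of_ne k (h.nz v hv), le_of_lt⟩

theorem Wall.pp_ne (h : Wall La S W l Z c) (hS : Fan La S)
    (h0 : ∀ v ∈ W, ∃ m ∈ La, m v ≠ 0) : (pp Z c).Nonempty := by
  by_contra hn
  obtain ⟨t, ht, hz⟩ := h.face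
  obtain ⟨C, hC, m, f⟩ := mem_G.1 ht
  obtain ⟨k, hk, e⟩ := hS.onto C hC fun _ => 1
  refine absurd (h.dep k hk) (Finset.sum_neg (fun v hv => ?_) h.ne).ne
  refine mul_neg_of_neg_of_pos (lt_of_le_of_ne (not_lt.1 fun p =>
    hn ⟨v, Finset.mem_filter.2 ⟨hv, p⟩⟩) (h.nz v hv)) ?_
  obtain ⟨b, hb, e'⟩ := f.ins v (hz hv)
  obtain ⟨m', hm', ne⟩ := h0 v (f.sub (hz hv))
  rw [e' m' hm'] at ne
  obtain ⟨u, hu, ne'⟩ := Finset.exists_ne_zero_of_sum_ne_zero ne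
  rw [e' k hk]
  refine Finset.sum_pos' (fun y hy => by rw [e y hy, mul_one]; exact hb y) ⟨u, hu, ?_⟩
  rw [e u hu, mul_one]
  exact lt_of_le_of_ne (hb u) (left_ne_zero_of_mul ne').symm

theorem Wall.close (h : Wall La S W l Z c) (hμ : Sup La S μ) (ht : t ∈ G La S W l)
    (hp : pp Z c ⊆ t) : Z ⊆ t := by
  obtain ⟨t₁, ht₁, hz⟩ := h.face
  obtain ⟨C₁, hC₁, m₁, f₁⟩ := mem_G.1 ht₁
  obtain ⟨C, hC, m, f⟩ := mem_G.1 ht
  have e1 : ∀ k ∈ La, k (∑ v ∈ pp Z c, c v • v) = ∑ v ∈ pp Z c, c v * k v := fun k _ => by simp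
  have e2 : ∀ k ∈ La, k (∑ v ∈ pp Z c, c v • v) = ∑ v ∈ pp Z (-c), (-c) v * k v := fun k hk => by
    rw [e1 k hk]
    linarith [h.split k, h.dep k hk]
  have sub : ∀ {b : N → ℝ} {v}, v ∈ pp Z b → v ∈ Z := fun hv => (Finset.mem_filter.1 hv).1
  have pos : ∀ {b : N → ℝ} {v}, v ∈ pp Z b → 0 < b v := fun hv => (Finset.mem_filter.1 hv).2
  have ins := hμ.face hC hC₁ (fun v hv => pos hv) (fun v hv => f₁.ins v (hz (sub hv))) e2
    (cone_comb (fun v hv => (pos hv).le) (fun v hv => f.ins v (hp hv)) e1)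
  intro v hv
  rcases h.cases hv with k | k
  · exact hp k
  by_contra hn
  have i1 : ∑ v ∈ pp Z (-c), (-c) v * m v < ∑ v ∈ pp Z (-c), (-c) v * l v :=
    Finset.sum_lt_sum (fun u hu => mul_le_mul_of_nonneg_left
      (f.le (f₁.sub (hz (sub hu))) (ins u hu)) (pos hu).le)
      ⟨v, k, mul_lt_mul_of_pos_left (f.lt v (f₁.sub (hz hv)) (ins v k) hn) (pos k)⟩
  have i2 : ∑ v ∈ pp Z c, c v * m v = ∑ v ∈ pp Z c, c v * l v :=
    Finset.sum_congr rfl fun u hu => by rw [f.eq u (hp hu)]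
  have i3 : ∑ v ∈ Z, c v * m₁ v = ∑ v ∈ Z, c v * l v :=
    Finset.sum_congr rfl fun u hu => by rw [f₁.eq u (hz hu)]
  linarith [h.split m, h.split l, h.dep m f.mem, h.dep m₁ f₁.mem]

theorem Wall.rf (h : Wall La S W l Z c) (hμ : Sup La S μ) (hD : 0 < ∑ v ∈ Z, c v * D v) :
    Rf La S W l D s ↔ ∃ t ∈ G La S W l, s ⊆ t ∧ ¬pp Z c ⊆ s := by
  constructor
  · rintro ⟨t, ht, hs, k, hk, k1, k2⟩
    refine ⟨t, ht, hs, fun hp => ?_⟩
    have hz := h.close hμ ht (hp.trans hs)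
    refine absurd hD (not_lt.2 ?_)
    rw [← h.dep k hk]
    refine Finset.sum_le_sum fun v hv => ?_
    by_cases hv' : v ∈ s
    · rw [k1 v hv']
    · exact mul_le_mul_of_nonpos_left (k2 v (hz hv) hv').le
        (not_lt.1 fun p => hv' (hp (Finset.mem_filter.2 ⟨hv, p⟩)))
  · rintro ⟨t, ht, hs, hp⟩
    refine ⟨t, ht, hs, ?_⟩
    by_cases hz : Z ⊆ t
    swap
    · obtain ⟨y, hy, hy'⟩ := Finset.not_subset.1 hz
      have ot := h.uniq t ht y hy
      rw [Finset.erase_eq_of_notMem hy'] at ot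
      obtain ⟨k, hk, k1, k2⟩ := ot.split s D
      exact ⟨k, hk, fun v hv => k1 v (hs hv) hv, k2⟩
    obtain ⟨y, hy, hy'⟩ := Finset.not_subset.1 hp
    obtain ⟨y1, y2⟩ := Finset.mem_filter.1 hy
    have ot := h.uniq t ht y y1
    obtain ⟨k₁, hk₁, e₁⟩ := ot D
    obtain ⟨k₂, hk₂, e₂⟩ := ot fun v => if v ∈ s then 0 else 1
    have lt : k₁ y < D y := by
      have d := h.dep k₁ hk₁
      rw [← Finset.add_sum_erase Z _ y1] at d hD
      rw [Finset.sum_congr rfl fun v hv => by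
        rw [e₁ v (Finset.erase_subset_erase y hz hv)]] at d
      exact lt_of_mul_lt_mul_left (by linarith) y2.le
    have c1 : ContinuousAt (fun ε : ℝ => k₁ y - ε * k₂ y) 0 := by fun_prop
    obtain ⟨ε, h1, h2⟩ := (((c1.eventually_lt continuousAt_const (by simpa using lt)).filter_mono
      (nhdsWithin_le_nhds (s := Set.Ioi 0))).and self_mem_nhdsWithin).exists
    have h2' : 0 < ε := h2
    refine ⟨k₁ - ε • k₂, La.sub_mem hk₁ (La.smul_mem _ hk₂), fun v hv => ?_, fun v hv hn => ?_⟩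
    · have : v ∈ t.erase y := Finset.mem_erase.2 ⟨fun e => hy' (e ▸ hv), hs hv⟩
      simp [e₁ v this, e₂ v this, hv]
    · by_cases e : v = y
      · simpa [e] using h1
      · have : v ∈ t.erase y := Finset.mem_erase.2 ⟨e, hv⟩
        simp [e₁ v this, e₂ v this, hn, h2']

omit [AddCommGroup N] [Module ℝ N] in
theorem star_flip {H A B : Finset (Finset N)} {p q : Finset N} (hd : Disjoint p q)
    (h1 : ∀ t ∈ H, q ⊆ t → p ⊆ t)
    (hA : ∀ s, s ∈ A ↔ ∃ t ∈ H, s ⊆ t ∧ ¬p ⊆ s) (hB : ∀ s, s ∈ B ↔ ∃ t ∈ H, s ⊆ t ∧ ¬q ⊆ s) :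
    star A q w ⊆ star B p w := fun s hs => by
  rcases mem_star.1 hs with ⟨k1, k2⟩ | ⟨r, k1, k2, k3, rfl⟩
  · obtain ⟨t, ht, e1, e2⟩ := (hA s).1 k1
    exact mem_star.2 (Or.inl ⟨(hB s).2 ⟨t, ht, e1, k2⟩, e2⟩)
  · obtain ⟨t, ht, e1, e2⟩ := (hA r).1 k1
    obtain ⟨t', ht', e3, -⟩ := (hA _).1 k3
    refine mem_star.2 (Or.inr ⟨r, (hB r).2 ⟨t, ht, e1, k2⟩, e2, (hB _).2 ⟨t', ht',
      Finset.union_subset (Finset.subset_union_left.trans e3)
        (h1 t' ht' (Finset.subset_union_right.trans e3)), fun k => k2 fun v hv => ?_⟩, rfl⟩)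
    exact (Finset.mem_union.1 (k hv)).resolve_right (Finset.disjoint_right.1 hd hv)

theorem Wall.cross (h : Wall La S W l Z c) (hP : StarInv La P) (hS : Fan La S)
    (h0 : ∀ v ∈ W, ∃ m ∈ La, m v ≠ 0) {A B : Finset (Finset N)} (fA : Fan La A) (fB : Fan La B)
    (wA : verts A ⊆ W) (wB : verts B ⊆ W) (hD : 0 < ∑ v ∈ Z, c v * D v)
    (hA : ∀ s, s ∈ A ↔ Rf La S W l D s) (hB : ∀ s, s ∈ B ↔ Rf La S W l (-D) s) : P A ↔ P B := by
  obtain ⟨μ, hμ⟩ := hS.sup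
  have hA' := fun s => (hA s).trans (h.rf hμ hD)
  have hB' := fun s => (hB s).trans (h.neg.rf hμ (D := -D) (by simpa using hD))
  have n1 := h.pp_ne hS h0
  have n2 := h.neg.pp_ne hS h0
  have hd : Disjoint (pp Z c) (pp Z (-c)) := Finset.disjoint_filter.2 fun v _ k k' => by
    simp only [Pi.neg_apply] at k'
    linarith
  obtain ⟨t, ht, hz⟩ := h.face
  have s1 : pp Z c ⊆ Z := Finset.filter_subset _ _
  have s2 : pp Z (-c) ⊆ Z := Finset.filter_subset _ _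
  have m1 : pp Z c ∈ B := (hB' _).2 ⟨t, ht, s1.trans hz, fun k =>
    let ⟨v, hv⟩ := n2
    Finset.disjoint_right.1 hd hv (k hv)⟩
  have m2 : pp Z (-c) ∈ A := (hA' _).2 ⟨t, ht, s2.trans hz, fun k =>
    let ⟨v, hv⟩ := n1
    Finset.disjoint_left.1 hd hv (k hv)⟩
  obtain ⟨r, hr, hw⟩ := exists_new (a := c) fB m1 n1 (fun v hv => (Finset.mem_filter.1 hv).2) W
  have e1 : ∀ k ∈ La, k (r • ∑ v ∈ pp Z c, c v • v) = ∑ v ∈ pp Z c, r * c v * k v := fun k _ => by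
    simp only [map_smul, map_sum, smul_eq_mul, Finset.mul_sum, mul_assoc]
  have nB : New La B (pp Z c) (r • ∑ v ∈ pp Z c, c v • v) fun v => r * c v :=
    ⟨m1, n1, fun k => hw (wB k), fun v hv => mul_pos hr (Finset.mem_filter.1 hv).2, e1⟩
  have nA : New La A (pp Z (-c)) (r • ∑ v ∈ pp Z c, c v • v) fun v => r * (-c) v :=
    ⟨m2, n2, fun k => hw (wA k), fun v hv => mul_pos hr (Finset.mem_filter.1 hv).2, fun k hk => by
      rw [e1 k hk]
      simp only [mul_assoc, ← Finset.mul_sum]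
      congr 1
      linarith [h.split k, h.dep k hk]⟩
  rw [hP _ _ _ _ fA nA, hP _ _ _ _ fB nB, Finset.Subset.antisymm
    (star_flip hd (fun t ht k => s1.trans (h.neg.close hμ ht k)) hA' hB')
    (star_flip hd.symm (fun t ht k => s2.trans (h.close hμ ht k)) hB' hA')]

end KH.K7
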