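import Pool.Agent.Lib.MP_e9c0f3_ag.KH.K7E

/-! Support invariance. -/

open scoped Classical
open Filter Topology

noncomputable section

namespace KH.K7

variable {N : Type} [AddCommGroup N] [Module ℝ N] {La : Du N}
  {De S T : Finset (Finset N)} {s t z C W Z : Finset N} {w x : N} {l a c D : N → ℝ}
  {m k : Module.Dual ℝ N} {μ : Finset N → Module.Dual ℝ N} {P : Finset (Finset N) → Prop}

theorem exists_dep (h : ¬Onto La Z) :
    ∃ c : N → ℝ, (∃ v ∈ Z, c v ≠ 0) ∧ ∀ m ∈ La, ∑ v ∈ Z, c v * m v = 0 := by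
  let R : La →ₗ[ℝ] (Z → ℝ) := LinearMap.pi fun v => (Module.Dual.eval ℝ N v.1).domRestrict La
  have lt : LinearMap.range R < ⊤ := lt_top_iff_ne_top.2 fun e => h fun f => by
    obtain ⟨m, hm⟩ := LinearMap.range_eq_top.1 e fun v => f v.1
    exact ⟨m.1, m.2, fun v hv => congrFun hm ⟨v, hv⟩⟩
  obtain ⟨φ, h0, h1⟩ := Submodule.exists_le_ker_of_lt_top _ lt
  refine ⟨fun v => φ fun j => if v = j.1 then 1 else 0, ?_, fun m hm => ?_⟩
  · by_contra hc
    push Not at hc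
    refine h0 (LinearMap.ext fun y => ?_)
    rw [φ.pi_apply_eq_sum_univ y]
    refine Finset.sum_eq_zero fun i _ => ?_
    have := hc i.1 i.2
    simp only [Subtype.coe_inj] at this
    rw [this, smul_zero]
  · have e : φ (R ⟨m, hm⟩) = 0 := h1 (LinearMap.mem_range_self R ⟨m, hm⟩)
    rw [φ.pi_apply_eq_sum_univ] at e
    rw [← Finset.sum_coe_sort Z]
    refine (Finset.sum_congr rfl fun i _ => ?_).trans e
    simp only [Subtype.coe_inj, smul_eq_mul]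
    rw [mul_comm]
    rfl

/-- minimal dependent sets -/
def Circ (La : Du N) (Z : Finset N) : Prop :=
  ¬Onto La Z ∧ ∀ z ∈ Z, Onto La (Z.erase z)

theorem exists_circ (h : ¬Onto La t) : ∃ Z ⊆ t, Circ La Z := by
  obtain ⟨Z, hZ, hmin⟩ := (t.powerset.filter fun Z => ¬Onto La Z).exists_min_image Finset.card
    ⟨t, Finset.mem_filter.2 ⟨Finset.mem_powerset_self t, h⟩⟩
  obtain ⟨h1, h2⟩ := Finset.mem_filter.1 hZ
  refine ⟨Z, Finset.mem_powerset.1 h1, h2, fun z hz => ?_⟩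
  by_contra hn
  exact absurd (hmin _ (Finset.mem_filter.2 ⟨Finset.mem_powerset.2
    ((Finset.erase_subset _ _).trans (Finset.mem_powerset.1 h1)), hn⟩))
    (not_le.2 (Finset.card_erase_lt_of_mem hz))

theorem Circ.ne (h : Circ La Z) : Z.Nonempty :=
  Finset.nonempty_iff_ne_empty.2 fun e => h.1 (e ▸ onto_empty)

theorem Circ.coef (h : Circ La Z) :
    ∃ c : N → ℝ, (∀ v ∈ Z, c v ≠ 0) ∧ ∀ m ∈ La, ∑ v ∈ Z, c v * m v = 0 := by
  obtain ⟨c, ⟨u, hu, hu'⟩, e⟩ := exists_dep h.1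
  refine ⟨c, fun v hv h0 => hu' ?_, e⟩
  have uv : u ≠ v := fun k => hu' (k ▸ h0)
  obtain ⟨m, hm, e'⟩ := h.2 v hv fun y => if y = u then 1 else 0
  have := e m hm
  rw [← Finset.add_sum_erase Z _ hv, h0, zero_mul, zero_add,
    Finset.sum_congr rfl fun y hy => by rw [e' y hy]] at this
  simpa [Finset.mem_erase, uv, hu] using this

theorem Circ.eq {Z' : Finset N} (h : Circ La Z) (h' : Circ La Z') (hs : Z ⊆ Z') : Z = Z' := by
  refine Finset.Subset.antisymm hs fun v hv => ?_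
  by_contra hn
  exact h.1 ((h'.2 v hv).mono (Finset.subset_erase.2 ⟨hs, hn⟩))

theorem ev_ne {x y : ℝ} (h : x ≠ 0 ∨ y ≠ 0) : ∀ᶠ ε in 𝓝[>] (0 : ℝ), x + ε * y ≠ 0 := by
  by_cases hx : x = 0
  · filter_upwards [self_mem_nhdsWithin] with ε hε
    rw [hx, zero_add]
    exact mul_ne_zero (ne_of_gt hε) (h.resolve_left (not_not.2 hx))
  · have c1 : ContinuousAt (fun ε : ℝ => x + ε * y) 0 := by fun_prop
    exact (c1.eventually_ne (by simpa using hx)).filter_mono nhdsWithin_le_nhds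

omit [AddCommGroup N] [Module ℝ N] in
theorem exists_generic {ι : Type} [Finite ι] (f : ι → Module.Dual ℝ (N → ℝ))
    (h : ∀ i, ∃ x, f i x ≠ 0) {Q : (N → ℝ) → Prop}
    (hQ : ∀ D : N → ℝ, ∀ᶠ ε in 𝓝[>] (0 : ℝ), Q (l + ε • D)) : ∃ l', Q l' ∧ ∀ i, f i l' ≠ 0 := by
  obtain ⟨D, hD⟩ := Module.Dual.exists_forall_ne_zero_of_forall_exists f h
  obtain ⟨ε, h1, h2⟩ := ((hQ D).and (eventually_all.2 fun i =>
    ev_ne (x := f i l) (Or.inr (hD i)))).exists
  exact ⟨_, h1, fun i => by simpa using h2 i⟩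

/-- the circuit forms -/
structure Forms (La : Du N) (c : Finset N → N → ℝ) : Prop where
  nz : ∀ Z, Circ La Z → ∀ v ∈ Z, c Z v ≠ 0
  dep : ∀ Z, Circ La Z → ∀ m ∈ La, ∑ v ∈ Z, c Z v * m v = 0

theorem Forms.zero {c : Finset N → N → ℝ} (h : Forms La c) (hZ : Circ La Z) (hm : m ∈ La)
    (e : ∀ v ∈ Z, m v = l v) : ∑ v ∈ Z, c Z v * l v = 0 := by
  rw [← h.dep Z hZ m hm]
  exact Finset.sum_congr rfl fun v hv => by rw [e v hv]

theorem Forms.gen {c : Finset N → N → ℝ} (h : Forms La c)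
    (hl : ∀ Z ⊆ W, Circ La Z → ∑ v ∈ Z, c Z v * l v ≠ 0) : Gen La W l := fun t ht m hm e => by
  by_contra hn
  obtain ⟨Z, h1, h2⟩ := exists_circ hn
  exact hl Z (h1.trans ht) h2 (h.zero h2 hm fun v hv => e v (h1 hv))

theorem Forms.ev_gen {c : Finset N → N → ℝ} (h : Forms La c)
    (h1 : ∀ Z ⊆ W, Circ La Z → ∑ v ∈ Z, c Z v * l v = 0 → ∑ v ∈ Z, c Z v * D v ≠ 0) :
    ∀ᶠ ε in 𝓝[>] (0 : ℝ), Gen La W (l + ε • D) := by
  have : ∀ᶠ ε in 𝓝[>] (0 : ℝ), ∀ Z ∈ W.powerset, Circ La Z →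
      ∑ v ∈ Z, c Z v * l v + ε * ∑ v ∈ Z, c Z v * D v ≠ 0 := by
    rw [eventually_all_finset]
    intro Z hZ
    by_cases k : Circ La Z
    · exact (ev_ne (or_iff_not_imp_left.2 fun e =>
        h1 Z (Finset.mem_powerset.1 hZ) k (not_not.1 e))).mono fun _ e _ => e
    · exact Eventually.of_forall fun _ e => absurd e k
  refine this.mono fun ε e => h.gen fun Z hZ k e' => e Z (Finset.mem_powerset.2 hZ) k ?_
  rw [← e', Finset.mul_sum, ← Finset.sum_add_distrib]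
  exact Finset.sum_congr rfl fun v _ => by simp only [Pi.add_apply, Pi.smul_apply, smul_eq_mul]; ring

theorem rf_onto (h : ∀ t ∈ G La S W l, Onto La t) : Rf La S W l D s ↔ s ∈ G La S W l := by
  refine ⟨fun ⟨t, ht, hs, _⟩ => G_down ht (h t ht) hs, fun hs => ?_⟩
  obtain ⟨k, hk, e⟩ := h s hs D
  exact ⟨s, hs, Finset.Subset.refl s, k, hk, e, fun v hv hn => absurd hv hn⟩

theorem loc_const {c : Finset N → N → ℝ} (h : Forms La c) (hP : StarInv La P) (hS : Fan La S)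
    (hSW : verts S ⊆ W) (hW : ∀ v ∈ W, v ∈ supp La S) (h0 : ∀ v ∈ W, ∃ m ∈ La, m v ≠ 0)
    (h1 : ∀ Z ⊆ W, Circ La Z → ∑ v ∈ Z, c Z v * l v = 0 → ∑ v ∈ Z, c Z v * D v ≠ 0)
    (h2 : ∀ Z ⊆ W, ∀ Z' ⊆ W, Circ La Z → Circ La Z' → ∑ v ∈ Z, c Z v * l v = 0 →
      ∑ v ∈ Z', c Z' v * l v = 0 → Z = Z') :
    ∃ p : Prop, (∀ᶠ ε in 𝓝[≠] (0 : ℝ), (P (G La S W (l + ε • D)) ↔ p)) ∧
      (Gen La W l → (p ↔ P (G La S W l))) := by
  obtain ⟨μ, hμ⟩ := hS.sup
  have g1 := (h.ev_gen h1).and (G_pert (La := La) hSW l D)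
  have g2 := (h.ev_gen (D := -D) fun Z k1 k2 k3 => by simpa using h1 Z k1 k2 k3).and
    (G_pert (La := La) hSW l (-D))
  obtain ⟨ε₁, a1, a2⟩ := g1.exists
  obtain ⟨ε₂, b1, b2⟩ := g2.exists
  have AB : P (G La S W (l + ε₁ • D)) ↔ P (G La S W (l + ε₂ • -D)) := by
    by_cases ho : ∀ t ∈ G La S W l, Onto La t
    · rw [Finset.ext fun s => (a2 a1 s).trans (rf_onto ho),
        Finset.ext fun s => (b2 b1 s).trans (rf_onto ho)]
    push Not at ho
    obtain ⟨t, ht, hn⟩ := ho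
    obtain ⟨Z, z1, z2⟩ := exists_circ hn
    have zero : ∀ t ∈ G La S W l, ∀ Z ⊆ t, Circ La Z →
        Z ⊆ W ∧ ∑ v ∈ Z, c Z v * l v = 0 := fun t ht Z k1 k2 =>
      let ⟨_, _, _, f⟩ := mem_G.1 ht
      ⟨k1.trans f.sub, h.zero k2 f.mem fun v hv => f.eq v (k1 hv)⟩
    obtain ⟨z3, z4⟩ := zero t ht Z z1 z2
    have wall : Wall La S W l Z (c Z) := ⟨z2.ne, h.nz Z z2, h.dep Z z2, ⟨t, ht, z1⟩,
      fun t' ht' y hy => by
        by_contra hn'
        obtain ⟨Z', y1, y2⟩ := exists_circ hn'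
        obtain ⟨y3, y4⟩ := zero t' ht' Z' (y1.trans (Finset.erase_subset _ _)) y2
        exact Finset.notMem_erase y t' (y1 (h2 Z z3 Z' y3 z2 y2 z4 y4 ▸ hy))⟩
    rcases lt_or_gt_of_ne (h1 Z z3 z2 z4) with k | k
    · exact wall.neg.cross hP hS h0 (G_fan hμ hW a1) (G_fan hμ hW b1) verts_G verts_G
        (by simpa using k) (a2 a1) (b2 b1)
    · exact wall.cross hP hS h0 (G_fan hμ hW a1) (G_fan hμ hW b1) verts_G verts_G k
        (a2 a1) (b2 b1)
  refine ⟨P (G La S W (l + ε₁ • D)), ?_, fun hg => ?_⟩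
  · rw [← nhdsLT_sup_nhdsGT, eventually_sup]
    constructor
    · have tn : Tendsto (fun ε : ℝ => -ε) (𝓝[<] 0) (𝓝[>] 0) := by
        simpa using tendsto_neg_nhdsLT (a := (0 : ℝ))
      refine (tn.eventually g2).mono fun ε e => ?_
      rw [AB, ← neg_smul_neg ε D, Finset.ext fun s => (e.2 e.1 s).trans (b2 b1 s).symm]
    · exact g1.mono fun ε e => by rw [Finset.ext fun s => (e.2 e.1 s).trans (a2 a1 s).symm]
  · rw [Finset.ext fun s => (a2 a1 s).trans (rf_onto fun t ht => hg.onto ht)]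

theorem const_of_loc {Q : ℝ → Prop} {p : ℝ → Prop}
    (h : ∀ τ, ∀ᶠ ε in 𝓝[≠] (0 : ℝ), (Q (τ + ε) ↔ p τ)) : p 0 ↔ p 1 := by
  have h' : ∀ τ, ∀ᶠ σ in 𝓝[≠] τ, (Q σ ↔ p τ) := fun τ => by
    have tn : Tendsto (fun σ : ℝ => σ - τ) (𝓝[≠] τ) (𝓝[≠] 0) :=
      tendsto_nhdsWithin_iff.2 ⟨((continuous_sub_right τ).tendsto' τ 0 (sub_self τ)).mono_left
        nhdsWithin_le_nhds, eventually_mem_nhdsWithin.mono fun σ k => sub_ne_zero.2 k⟩
    exact (tn.eventually (h τ)).mono fun σ e => by simpa using e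
  have lc : IsLocallyConstant p := (IsLocallyConstant.iff_eventually_eq p).2 fun x => by
    filter_upwards [(eventually_nhdsWithin_iff.1 (h' x)).eventually_nhds] with y hy
    by_cases e : y = x
    · rw [e]
    · obtain ⟨σ, ⟨k1, k2⟩, k3⟩ := (((h' y).and (hy.filter_mono nhdsWithin_le_nhds)).and
        ((eventually_ne_nhds e).filter_mono nhdsWithin_le_nhds)).exists
      exact propext (k1.symm.trans (k2 k3))
  rw [lc.apply_eq_of_preconnectedSpace 0 1]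

theorem inv_refine (hP : StarInv La P) (hS : Fan La S) (hT : Fan La T) (e : supp La T = supp La S)
    (hr : Refines La T S) : P T ↔ P S := by
  obtain ⟨μ, hμ⟩ := hS.sup
  have co := fun Z (h : Circ La Z) => h.coef
  choose! c c1 c2 using co
  have hc : Forms La c := ⟨c1, c2⟩
  set W := verts S ∪ verts T
  have vs : ∀ {U}, Fan La U → ∀ v ∈ verts U, v ∈ supp La U ∧ ∃ m ∈ La, m v ≠ 0 := fun hU v hv =>
    let ⟨t, ht, hv⟩ := mem_verts.1 hv
    let ⟨m, hm, k⟩ := hU.onto t ht fun _ => 1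
    ⟨⟨t, ht, mem_cone_self hv⟩, m, hm, by rw [k v hv]; exact one_ne_zero⟩
  have hW : ∀ v ∈ W, v ∈ supp La S := fun v hv =>
    (Finset.mem_union.1 hv).elim (fun k => (vs hS v k).1) fun k => e ▸ (vs hT v k).1
  have h0 : ∀ v ∈ W, ∃ m ∈ La, m v ≠ 0 := fun v hv =>
    (Finset.mem_union.1 hv).elim (fun k => (vs hS v k).2) fun k => (vs hT v k).2
  let φ : Finset N → Module.Dual ℝ (N → ℝ) := fun Z => ∑ v ∈ Z, c Z v • LinearMap.proj v
  have φe : ∀ Z f, φ Z f = ∑ v ∈ Z, c Z v * f v := fun Z f => by simp [φ]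
  have φs : ∀ Z u, φ Z (Pi.single u 1) = if u ∈ Z then c Z u else 0 := fun Z u => by
    simp [φe, Pi.single_apply]
  let I := {Z // Z ∈ W.powerset.filter (Circ La)}
  have I1 : ∀ i : I, Circ La i.1 := fun i => (Finset.mem_filter.1 i.2).2
  have I2 : ∀ Z ⊆ W, Circ La Z → Z ∈ W.powerset.filter (Circ La) := fun Z k1 k2 =>
    Finset.mem_filter.2 ⟨Finset.mem_powerset.2 k1, k2⟩
  have n1 : ∀ i : I, ∃ x, φ i.1 x ≠ 0 := fun i =>
    let ⟨u, hu⟩ := (I1 i).ne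
    ⟨Pi.single u 1, by rw [φs, if_pos hu]; exact c1 _ (I1 i) u hu⟩
  obtain ⟨l₁, q₁⟩ := G_near (W := W) hS (fun t ht => ⟨t, ht, fun v hv => mem_cone_self hv⟩)
    Finset.subset_union_left
  obtain ⟨b, b1, b2⟩ := exists_generic (Q := fun f => S ⊆ G La S W f) (fun i : I => φ i.1) n1 q₁
  obtain ⟨l₀, q₀⟩ := G_near (W := W) hT hr Finset.subset_union_right
  obtain ⟨a, a1, a2⟩ := exists_generic (Q := fun f => T ⊆ G La S W f)
    (fun j : I × I => if j.1 = j.2 then φ j.1.1 else φ j.2.1 b • φ j.1.1 - φ j.1.1 b • φ j.2.1)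
    (fun j => by
      by_cases k : j.1 = j.2
      · simpa only [if_pos k] using n1 j.1
      · obtain ⟨u, u1, u2⟩ := Finset.not_subset.1 fun k' =>
          k (Subtype.ext ((I1 j.1).eq (I1 j.2) k'))
        refine ⟨Pi.single u 1, ?_⟩
        simp only [if_neg k, LinearMap.sub_apply, LinearMap.smul_apply, φs, if_pos u1, if_neg u2,
          smul_eq_mul, mul_zero, sub_zero]
        exact mul_ne_zero (b2 j.2) (c1 _ (I1 j.1) u u1)) q₀
  have a3 : ∀ i : I, φ i.1 a ≠ 0 := fun i => by simpa using a2 (i, i)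
  have loc := fun τ : ℝ => loc_const (l := a + τ • (b - a)) (D := b - a) hc hP hS
    Finset.subset_union_left hW h0
    (fun Z k1 k2 k3 k4 => by
      rw [← φe] at k3 k4
      rw [map_add, map_smul, k4, smul_zero, add_zero] at k3
      exact a3 ⟨Z, I2 Z k1 k2⟩ k3)
    (fun Z k1 Z' k2 k3 k4 k5 k6 => by
      by_contra hne
      have k7 := a2 (⟨Z, I2 Z k1 k3⟩, ⟨Z', I2 Z' k2 k4⟩)
      rw [if_neg fun k => hne (congrArg Subtype.val k)] at k7
      rw [← φe] at k5 k6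
      simp only [map_add, map_smul, map_sub, smul_eq_mul, LinearMap.sub_apply,
        LinearMap.smul_apply] at k5 k6 k7
      by_cases k8 : τ = 1
      · exact b2 ⟨Z, I2 Z k1 k3⟩ (by rw [k8] at k5; linarith)
      · exact k7 (mul_left_cancel₀ (sub_ne_zero.2 (Ne.symm k8))
          (by linear_combination φ Z' b * k5 - φ Z b * k6)))
  choose p p1 p2 using loc
  have main := const_of_loc (Q := fun σ => P (G La S W (a + σ • (b - a)))) (p := p) fun τ =>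
    (p1 τ).mono fun ε k => by rwa [add_smul, ← add_assoc]
  have e0 := p2 0
  have e1 := p2 1
  rw [zero_smul, add_zero] at e0
  rw [one_smul, add_sub_cancel] at e1
  rw [G_eq hμ hT a1 e.ge] at e0
  rw [G_eq hμ hS b1 (Set.Subset.refl _)] at e1
  rw [← e0 (hc.gen fun Z k1 k2 => φe Z a ▸ a3 ⟨Z, I2 Z k1 k2⟩),
    ← e1 (hc.gen fun Z k1 k2 => φe Z b ▸ b2 ⟨Z, I2 Z k1 k2⟩), main]

/-- support invariance -/
theorem _root_.KH.inv_supp (hP : StarInv La P) (hS : Fan La S) (hT : Fan La T) (e : supp La S = supp La T) :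
    P S ↔ P T := by
  obtain ⟨T', f1, f2, f3, f4⟩ := exists_refine hP hS hT e
  exact (inv_refine hP hS f1 f2 f4).symm.trans f3.symm

end KH.K7
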