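import Pool.Agent.Lib.MP_e9c0f3_ag.KH.K7F

/-! Fans built from fans: subfans, moved vertices, suspensions and modifications. -/

open scoped Classical

noncomputable section

namespace KH.K8

variable {N : Type} [AddCommGroup N] [Module ℝ N] {La La' : Du N}
  {De D T : Finset (Finset N)} {s t : Finset N} {e v w x : N} {l : N → ℝ}
  {m n : Module.Dual ℝ N}

theorem mem_res' : m ∈ res La t ↔ m ∈ La ∧ ∀ v ∈ t, m v = 0 := by
  rw [res, Submodule.mem_inf, Submodule.mem_dualAnnihilator]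
  refine and_congr_right fun _ => ⟨fun h v hv => h v (Submodule.subset_span hv), fun h v hv => ?_⟩
  induction hv using Submodule.span_induction with
  | mem x hx => exact h x hx
  | zero => exact map_zero m
  | add x y _ _ hx hy => rw [map_add, hx, hy, add_zero]
  | smul a x _ hx => rw [map_smul, hx, smul_zero]

theorem mem_res_one : m ∈ res La {e} ↔ m ∈ La ∧ m e = 0 := by
  rw [mem_res']
  simp

theorem res_neg : res La {-e} = res La {e} := by
  ext m
  rw [mem_res_one, mem_res_one, map_neg, neg_eq_zero]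

theorem sub_mem_res (hn : n ∈ La) (hne : n e = 1) (hm : m ∈ La) : m - m e • n ∈ res La {e} :=
  mem_res_one.2 ⟨La.sub_mem hm (La.smul_mem _ hn), by simp [hne]⟩

theorem fan_sub (hT : Fan La T) (hD : D ⊆ T) (hd : ∀ t ∈ D, ∀ s ⊆ t, s ∈ D) : Fan La D := by
  obtain ⟨l, hl⟩ := hT.proj
  refine ⟨hd, fun t ht => hT.onto t (hD ht), l, fun t ht => ?_⟩
  obtain ⟨m, hm, h1, h2⟩ := hl t (hD ht)
  refine ⟨m, hm, h1, fun v hv => h2 v ?_⟩
  obtain ⟨s, hs, hv⟩ := mem_verts.1 hv
  exact mem_verts.2 ⟨s, hD hs, hv⟩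

theorem single_mem (hT : Fan La T) (hv : v ∈ verts T) : {v} ∈ T := by
  obtain ⟨s, hs, hv⟩ := mem_verts.1 hv
  exact hT.down s hs _ (Finset.singleton_subset_iff.2 hv)

theorem exists_one (hT : Fan La T) (hv : v ∈ verts T) : ∃ m ∈ La, m v = 1 := by
  obtain ⟨m, hm, h⟩ := hT.onto _ (single_mem hT hv) fun _ => 1
  exact ⟨m, hm, h v (Finset.mem_singleton_self v)⟩

/-- the forms separate the vertices -/
theorem eq_of_forms (hT : Fan La T) (hv : v ∈ verts T) (hw : w ∈ verts T)
    (h : ∀ m ∈ La, m v = m w) : v = w := by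
  by_contra hne
  obtain ⟨l, hl⟩ := hT.proj
  obtain ⟨m, hm, h1, h2⟩ := hl _ (single_mem hT hv)
  obtain ⟨m', hm', h3, h4⟩ := hl _ (single_mem hT hw)
  have a1 := h1 v (Finset.mem_singleton_self v)
  have a2 := h2 w hw (by rw [Finset.mem_singleton]; exact Ne.symm hne)
  have a3 := h3 w (Finset.mem_singleton_self w)
  have a4 := h4 v hv (by rwa [Finset.mem_singleton])
  linarith [h m hm, h m' hm']

/-- moving the vertices along the common kernel -/
theorem fan_map (hT : Fan La T) (g : N → N) (hg : ∀ v, ∀ m ∈ La, m (g v) = m v) :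
    Fan La (T.image (Finset.image g)) ∧ supp La (T.image (Finset.image g)) = supp La T := by
  have inj : Set.InjOn g (verts T) := fun v hv w hw h =>
    eq_of_forms hT hv hw fun m hm => by rw [← hg v m hm, h, hg w m hm]
  have sub : ∀ t ∈ T, ∀ v ∈ t, v ∈ verts T := fun t ht v hv => mem_verts.2 ⟨t, ht, hv⟩
  have inv : ∀ v ∈ verts T, Function.invFunOn g (verts T) (g v) = v := fun v hv =>
    inj.leftInvOn_invFunOn hv
  refine ⟨⟨fun t0 ht0 s0 hs0 => ?_, fun t0 ht0 f => ?_, ?_⟩, Set.Subset.antisymm ?_ ?_⟩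
  · obtain ⟨t, ht, rfl⟩ := Finset.mem_image.1 ht0
    obtain ⟨s, hs, rfl⟩ := Finset.subset_image_iff.1 hs0
    exact Finset.mem_image_of_mem _ (hT.down t ht s hs)
  · obtain ⟨t, ht, rfl⟩ := Finset.mem_image.1 ht0
    obtain ⟨m, hm, h⟩ := hT.onto t ht (f ∘ g)
    refine ⟨m, hm, fun v0 hv0 => ?_⟩
    obtain ⟨v, hv, rfl⟩ := Finset.mem_image.1 hv0
    rw [hg v m hm, h v hv, Function.comp_apply]
  · obtain ⟨l, hl⟩ := hT.proj
    refine ⟨l ∘ Function.invFunOn g (verts T), fun t0 ht0 => ?_⟩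
    obtain ⟨t, ht, rfl⟩ := Finset.mem_image.1 ht0
    obtain ⟨m, hm, h1, h2⟩ := hl t ht
    refine ⟨m, hm, fun v0 hv0 => ?_, fun v0 hv0 hv' => ?_⟩
    · obtain ⟨v, hv, rfl⟩ := Finset.mem_image.1 hv0
      rw [hg v m hm, h1 v hv, Function.comp_apply, inv v (sub t ht v hv)]
    · obtain ⟨s0, hs0, hv1⟩ := mem_verts.1 hv0
      obtain ⟨s, hs, rfl⟩ := Finset.mem_image.1 hs0
      obtain ⟨v, hv, rfl⟩ := Finset.mem_image.1 hv1
      rw [hg v m hm, Function.comp_apply, inv v (sub s hs v hv)]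
      exact h2 v (sub s hs v hv) fun k => hv' (Finset.mem_image_of_mem _ k)
  · rintro x ⟨t0, ht0, c, hc, h⟩
    obtain ⟨t, ht, rfl⟩ := Finset.mem_image.1 ht0
    refine ⟨t, ht, c ∘ g, fun v => hc _, fun m hm => ?_⟩
    rw [h m hm, Finset.sum_image fun v hv w hw => inj (sub t ht v hv) (sub t ht w hw)]
    exact Finset.sum_congr rfl fun v _ => by rw [hg v m hm, Function.comp_apply]
  · rintro x ⟨t, ht, c, hc, h⟩
    refine ⟨_, Finset.mem_image_of_mem _ ht, c ∘ Function.invFunOn g (verts T), fun v => hc _,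
      fun m hm => ?_⟩
    rw [h m hm, Finset.sum_image fun v hv w hw => inj (sub t ht v hv) (sub t ht w hw)]
    exact Finset.sum_congr rfl fun v hv => by
      rw [hg v m hm, Function.comp_apply, inv v (sub t ht v hv)]

theorem fresh (hT : Fan (res La {e}) T) : e ∉ verts T := fun he => by
  obtain ⟨m, hm, h⟩ := exists_one hT he
  rw [(mem_res_one.1 hm).2] at h
  exact zero_ne_one h

theorem onto_ins (h : Onto (res La {e}) t) (hn : n ∈ La) (hne : n e = 1) :
    Onto La (insert e t) := fun f => by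
  obtain ⟨m, hm, k⟩ := h fun v => f v - f e * n v
  obtain ⟨h1, h2⟩ := mem_res_one.1 hm
  refine ⟨m + f e • n, La.add_mem h1 (La.smul_mem _ hn), fun v hv => ?_⟩
  rcases Finset.mem_insert.1 hv with rfl | hv
  · simp [h2, hne]
  · simp [k v hv]

/-- a form with value one at the apex that kills a given face -/
theorem exists_apex (hT : Fan (res La {e}) T) (hn : n ∈ La) (hne : n e = 1) (ht : t ∈ T) :
    ∃ k ∈ La, k e = 1 ∧ ∀ v ∈ t, k v = 0 := by
  obtain ⟨k, hk, h⟩ := onto_ins (hT.onto t ht) hn hne fun v => if v = e then 1 else 0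
  refine ⟨k, hk, by simpa using h e (Finset.mem_insert_self _ _), fun v hv => ?_⟩
  rw [h v (Finset.mem_insert_of_mem hv), if_neg]
  rintro rfl
  exact fresh hT (mem_verts.2 ⟨t, ht, hv⟩)

theorem cvx_ins (hT : Fan (res La {e}) T) (hn : n ∈ La) (hne : n e = 1)
    (hl : Cvx (res La {e}) T l) (ht : t ∈ T) :
    ∀ᶠ ε in nhds (0 : ℝ), ∃ m ∈ La, (∀ v ∈ t, m v = l v) ∧ m e = ε ∧
      ∀ v ∈ verts T, v ∉ t → m v < l v := by
  obtain ⟨m, hm, h1, h2⟩ := hl t ht
  obtain ⟨k, hk, k1, k2⟩ := exists_apex hT hn hne ht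
  obtain ⟨m1, m2⟩ := mem_res_one.1 hm
  have ev : ∀ᶠ ε in nhds (0 : ℝ), ∀ v ∈ verts T, v ∉ t → m v + ε * k v < l v := by
    rw [Filter.eventually_all_finset]
    intro v hv
    by_cases hv' : v ∈ t
    · exact Filter.Eventually.of_forall fun _ k => absurd hv' k
    · have c : ContinuousAt (fun ε : ℝ => m v + ε * k v) 0 := by fun_prop
      exact (c.eventually_lt continuousAt_const (by simpa using h2 v hv hv')).mono
        fun _ k _ => k
  refine ev.mono fun ε hε => ⟨m + ε • k, La.add_mem m1 (La.smul_mem _ hk), fun v hv => ?_, ?_,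
    fun v hv hv' => ?_⟩
  · simp [h1 v hv, k2 v hv]
  · simp [m2, k1]
  · simpa using hε v hv hv'

omit [AddCommGroup N] [Module ℝ N] in
theorem mem_susp {e' : N} : s ∈ susp D e e' ↔
    s ∈ D ∨ (∃ t ∈ D, insert e t = s) ∨ ∃ t ∈ D, insert e' t = s := by
  simp only [susp, Finset.mem_union, Finset.mem_image, or_assoc]

omit [AddCommGroup N] [Module ℝ N] in
theorem mem_modif : s ∈ modif T D e ↔ s ∈ T ∨ ∃ t ∈ D, insert e t = s := by
  simp only [modif, Finset.mem_union, Finset.mem_image]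

omit [AddCommGroup N] [Module ℝ N] in
theorem down_ins (hd : ∀ t ∈ D, ∀ s ⊆ t, s ∈ D) (ht : t ∈ D) (hs : s ⊆ insert e t) :
    s ∈ D ∨ ∃ t ∈ D, insert e t = s := by
  have k : s.erase e ⊆ t := Finset.subset_insert_iff.1 hs
  by_cases he : e ∈ s
  · exact Or.inr ⟨_, hd t ht _ k, Finset.insert_erase he⟩
  · rw [Finset.erase_eq_of_notMem he] at k
    exact Or.inl (hd t ht s k)

theorem fan_susp (hT : Fan (res La {e}) T) (hn : n ∈ La) (hne : n e = 1) :
    Fan La (susp T e (-e)) := by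
  have hT' : Fan (res La {-e}) T := res_neg (La := La) (e := e) ▸ hT
  have hne' : (-n) (-e) = 1 := by simp [hne]
  refine ⟨fun t ht s hs => mem_susp.2 ?_, fun t ht => ?_, ?_⟩
  · rcases mem_susp.1 ht with h | ⟨t, h, rfl⟩ | ⟨t, h, rfl⟩
    · exact Or.inl (hT.down t h s hs)
    · exact (down_ins hT.down h hs).imp id Or.inl
    · exact (down_ins hT.down h hs).imp id Or.inr
  · rcases mem_susp.1 ht with h | ⟨t, h, rfl⟩ | ⟨t, h, rfl⟩
    · exact (onto_ins (hT.onto t h) hn hne).mono (Finset.subset_insert _ _)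
    · exact onto_ins (hT.onto t h) hn hne
    · exact onto_ins (hT'.onto t h) (La.neg_mem hn) hne'
  · obtain ⟨l, hl⟩ := hT.proj
    have hl' : Cvx (res La {-e}) T l := res_neg (La := La) (e := e) ▸ hl
    have sv : ∀ v ∈ verts (susp T e (-e)), v ∈ verts T ∨ v = e ∨ v = -e := fun v hv => by
      obtain ⟨s, hs, hv⟩ := mem_verts.1 hv
      rcases mem_susp.1 hs with h | ⟨t, h, rfl⟩ | ⟨t, h, rfl⟩
      · exact Or.inl (mem_verts.2 ⟨s, h, hv⟩)
      · rcases Finset.mem_insert.1 hv with k | k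
        · exact Or.inr (Or.inl k)
        · exact Or.inl (mem_verts.2 ⟨t, h, k⟩)
      · rcases Finset.mem_insert.1 hv with k | k
        · exact Or.inr (Or.inr k)
        · exact Or.inl (mem_verts.2 ⟨t, h, k⟩)
    have key : ∀ s ∈ susp T e (-e), ∀ᶠ ε in nhdsWithin (0 : ℝ) (Set.Ioi 0), ∃ m ∈ La,
        (∀ v ∈ s, m v = if v ∈ verts T then l v else ε) ∧
        ∀ v ∈ verts (susp T e (-e)), v ∉ s → m v < if v ∈ verts T then l v else ε := by
      intro s hs
      rcases mem_susp.1 hs with h | ⟨t, h, rfl⟩ | ⟨t, h, rfl⟩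
      · obtain ⟨m, hm, h1, h2⟩ := hl s h
        obtain ⟨m1, m2⟩ := mem_res_one.1 hm
        filter_upwards [self_mem_nhdsWithin] with ε hε
        have hε' : 0 < ε := hε
        refine ⟨m, m1, fun v hv => ?_, fun v hv hv' => ?_⟩
        · rw [if_pos (mem_verts.2 ⟨s, h, hv⟩), h1 v hv]
        · rcases sv v hv with k | rfl | rfl
          · rw [if_pos k]
            exact h2 v k hv'
          · rwa [if_neg (fresh hT), m2]
          · rwa [if_neg (fresh hT'), map_neg, m2, neg_zero]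
      · filter_upwards [(cvx_ins hT hn hne hl h).filter_mono nhdsWithin_le_nhds,
          self_mem_nhdsWithin] with ε ⟨m, hm, h1, h2, h3⟩ hε
        have hε' : 0 < ε := hε
        refine ⟨m, hm, fun v hv => ?_, fun v hv hv' => ?_⟩
        · rcases Finset.mem_insert.1 hv with rfl | hv
          · rw [if_neg (fresh hT), h2]
          · rw [if_pos (mem_verts.2 ⟨t, h, hv⟩), h1 v hv]
        · rw [Finset.mem_insert, not_or] at hv'
          rcases sv v hv with k | k | rfl
          · rw [if_pos k]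
            exact h3 v k hv'.2
          · exact absurd k hv'.1
          · rw [if_neg (fresh hT'), map_neg, h2]
            linarith
      · filter_upwards [(cvx_ins hT' (La.neg_mem hn) hne' hl' h).filter_mono nhdsWithin_le_nhds,
          self_mem_nhdsWithin] with ε ⟨m, hm, h1, h2, h3⟩ hε
        have hε' : 0 < ε := hε
        refine ⟨m, hm, fun v hv => ?_, fun v hv hv' => ?_⟩
        · rcases Finset.mem_insert.1 hv with rfl | hv
          · rw [if_neg (fresh hT'), h2]
          · rw [if_pos (mem_verts.2 ⟨t, h, hv⟩), h1 v hv]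
        · rw [Finset.mem_insert, not_or] at hv'
          rcases sv v hv with k | rfl | k
          · rw [if_pos k]
            exact h3 v k hv'.2
          · rw [map_neg] at h2
            rw [if_neg (fresh hT)]
            linarith
          · exact absurd k hv'.1
    obtain ⟨ε, hε⟩ := ((Filter.eventually_all_finset _).2 key).exists
    exact ⟨_, hε⟩

theorem fan_modif (hT : Fan (res La {e}) T) (hn : n ∈ La) (hne : n e = 1) (hD : D ⊆ T)
    (hd : ∀ t ∈ D, ∀ s ⊆ t, s ∈ D) : Fan La (modif T D e) := by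
  refine fan_sub (fan_susp hT hn hne) (fun s hs => mem_susp.2 ?_) fun t ht s hs => mem_modif.2 ?_
  · rcases mem_modif.1 hs with h | ⟨t, h, k⟩
    · exact Or.inl h
    · exact Or.inr (Or.inl ⟨t, hD h, k⟩)
  · rcases mem_modif.1 ht with h | ⟨t, h, rfl⟩
    · exact Or.inl (hT.down t h s hs)
    · exact (down_ins hd h hs).imp (fun k => hD k) id

/-- cones through the apex -/
theorem mem_cone_ins (he : e ∉ s) (hn : n ∈ La) (hne : n e = 1) (hs : ∀ v ∈ s, n v = 0) :
    x ∈ cone La (insert e s) ↔ x ∈ cone (res La {e}) s ∧ 0 ≤ n x := by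
  constructor
  · rintro ⟨c, hc, h⟩
    refine ⟨⟨c, hc, fun m hm => ?_⟩, ?_⟩
    · obtain ⟨m1, m2⟩ := mem_res_one.1 hm
      rw [h m m1, Finset.sum_insert he, m2, mul_zero, zero_add]
    · rw [h n hn, Finset.sum_insert he, hne, mul_one,
        Finset.sum_eq_zero fun v hv => by rw [hs v hv, mul_zero], add_zero]
      exact hc e
  · rintro ⟨⟨c, hc, h⟩, hx⟩
    refine ⟨Function.update c e (n x), fun v => ?_, fun m hm => ?_⟩
    · by_cases k : v = e
      · rw [k, Function.update_self]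
        exact hx
      · rw [Function.update_of_ne k]
        exact hc v
    · have k := h _ (sub_mem_res hn hne hm)
      rw [Finset.sum_insert he, Function.update_self, Finset.sum_congr rfl fun v hv =>
        show Function.update c e (n x) v * m v = c v * (m - m e • n) v by
          rw [Function.update_of_ne fun k : v = e => he (k ▸ hv)]
          simp [hs v hv], ← k]
      simp only [LinearMap.sub_apply, LinearMap.smul_apply, smul_eq_mul]
      ring

/-- cones in the graph -/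
theorem mem_cone_graph (hn : n ∈ La) (hne : n e = 1) (hs : ∀ v ∈ s, n v = 0) :
    x ∈ cone La s ↔ x ∈ cone (res La {e}) s ∧ n x = 0 := by
  constructor
  · rintro ⟨c, hc, h⟩
    refine ⟨⟨c, hc, fun m hm => h m (mem_res_one.1 hm).1⟩, ?_⟩
    rw [h n hn]
    exact Finset.sum_eq_zero fun v hv => by rw [hs v hv, mul_zero]
  · rintro ⟨⟨c, hc, h⟩, hx⟩
    refine ⟨c, hc, fun m hm => ?_⟩
    have k := h _ (sub_mem_res hn hne hm)
    rw [Finset.sum_congr rfl fun v hv => show c v * (m - m e • n) v = c v * m v by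
      simp [hs v hv]] at k
    simpa [hx] using k

theorem supp_susp (hT : Fan (res La {e}) T) (hn : n ∈ La) (hne : n e = 1) :
    supp La (susp T e (-e)) = supp (res La {e}) T := by
  have hT' : Fan (res La {-e}) T := res_neg (La := La) (e := e) ▸ hT
  have hne' : (-n) (-e) = 1 := by simp [hne]
  have f1 : ∀ t ∈ T, e ∉ t := fun t ht k => fresh hT (mem_verts.2 ⟨t, ht, k⟩)
  have f2 : ∀ t ∈ T, -e ∉ t := fun t ht k => fresh hT' (mem_verts.2 ⟨t, ht, k⟩)
  refine Set.Subset.antisymm ?_ ?_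
  · rintro x ⟨s, hs, hx⟩
    rcases mem_susp.1 hs with h | ⟨t, h, rfl⟩ | ⟨t, h, rfl⟩
    · obtain ⟨k, hk, k1, k2⟩ := exists_apex hT hn hne h
      exact ⟨s, h, ((mem_cone_graph hk k1 k2).1 hx).1⟩
    · obtain ⟨k, hk, k1, k2⟩ := exists_apex hT hn hne h
      exact ⟨t, h, ((mem_cone_ins (f1 t h) hk k1 k2).1 hx).1⟩
    · obtain ⟨k, hk, k1, k2⟩ := exists_apex hT' (La.neg_mem hn) hne' h
      exact ⟨t, h, res_neg (La := La) (e := e) ▸ ((mem_cone_ins (f2 t h) hk k1 k2).1 hx).1⟩
  · rintro x ⟨t, h, hx⟩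
    obtain ⟨k, hk, k1, k2⟩ := exists_apex hT hn hne h
    rcases le_total 0 (k x) with p | p
    · exact ⟨_, mem_susp.2 (Or.inr (Or.inl ⟨t, h, rfl⟩)),
        (mem_cone_ins (f1 t h) hk k1 k2).2 ⟨hx, p⟩⟩
    · refine ⟨_, mem_susp.2 (Or.inr (Or.inr ⟨t, h, rfl⟩)),
        (mem_cone_ins (n := -k) (f2 t h) (La.neg_mem hk) (by simp [k1])
          (fun v hv => by simp [k2 v hv])).2 ⟨res_neg (La := La) (e := e) ▸ hx, by simpa using p⟩⟩

/-- every point of a cone is a positive combination on a face -/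
theorem exists_carrier (hx : x ∈ cone La s) :
    ∃ t ⊆ s, ∃ c : N → ℝ, (∀ v ∈ t, 0 < c v) ∧ (∀ v, 0 ≤ c v) ∧
      ∀ m ∈ La, m x = ∑ v ∈ t, c v * m v := by
  obtain ⟨c, hc, h⟩ := hx
  refine ⟨s.filter fun v => 0 < c v, Finset.filter_subset _ _, c,
    fun v hv => (Finset.mem_filter.1 hv).2, hc, fun m hm => ?_⟩
  rw [h m hm, Finset.sum_filter]
  refine Finset.sum_congr rfl fun v _ => ?_
  split_ifs with k
  · rfl
  · rw [le_antisymm (not_lt.1 k) (hc v), zero_mul]

end KH.K8
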