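import Pool.Agent.Lib.MP_e9c0f3_ag.KH.Link

/-! Basic facts on the residue complex. -/

open scoped Classical
open ExteriorAlgebra

noncomputable section

namespace KH.R

variable {N : Type} [AddCommGroup N] [Module ℝ N] {La La' : Du N}
  {De T D U : Finset (Finset N)} {r s t u : Finset N} {e v w x : N} {m : Module.Dual ℝ N}
  {a b : Ex N} {y z : Finset N → Ex N} {j k q : ℕ}

/-! ### the spaces `sp` -/

theorem mem_sp_self (h : v ∈ s) : v ∈ sp La s :=
  Submodule.mem_sup_left (Submodule.subset_span h)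

theorem mem_sp_perp (h : x ∈ perp La) : x ∈ sp La s := Submodule.mem_sup_right h

theorem sp_le {W : Submodule ℝ N} (h1 : ∀ v ∈ s, v ∈ W) (h2 : perp La ≤ W) : sp La s ≤ W :=
  sup_le (Submodule.span_le.2 h1) h2

theorem sp_le_sp (h : ∀ v ∈ s, v ∈ sp La t) : sp La s ≤ sp La t := sp_le h le_sup_right

theorem sp_mono (h : s ⊆ t) : sp La s ≤ sp La t := sp_le_sp fun _ hv => mem_sp_self (h hv)

theorem kill_sp (hm : m ∈ La) (h : ∀ v ∈ s, m v = 0) (hx : x ∈ sp La s) : m x = 0 :=
  sp_le (W := LinearMap.ker m) h (fun _ k => mem_perp.1 k m hm) hx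

theorem perp_anti (h : La' ≤ La) : perp La ≤ perp La' := fun _ k =>
  mem_perp.2 fun m hm => mem_perp.1 k m (h hm)

theorem sp_anti (h : La' ≤ La) : sp La s ≤ sp La' s := sup_le_sup_left (perp_anti h) _

theorem perp_res (h : Onto La t) : perp (res La t) = sp La t := by
  refine le_antisymm (fun x hx => ?_) (sp_le (fun v hv => mem_perp.2 fun m hm =>
    (mem_res.1 hm).2 v hv) (perp_anti res_le))
  choose μ h1 h2 using fun u => h fun v => if v = u then 1 else 0
  have k : x - ∑ u ∈ t, μ u x • u ∈ perp La := mem_perp.2 fun m hm => by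
    have p := mem_perp.1 hx (m - ∑ u ∈ t, m u • μ u) (mem_res.2
      ⟨La.sub_mem hm (La.sum_mem fun u _ => La.smul_mem _ (h1 u)), fun v hv => by
        simp [h2 _ v hv, hv]⟩)
    simp only [LinearMap.sub_apply, LinearMap.sum_apply, LinearMap.smul_apply, smul_eq_mul] at p
    simp only [map_sub, map_sum, map_smul, smul_eq_mul]
    rw [← p]
    congr 1
    exact Finset.sum_congr rfl fun _ _ => mul_comm _ _
  simpa using (sp La t).add_mem (mem_sp_perp k)
    (Submodule.sum_mem _ fun u hu => (sp La t).smul_mem (μ u x) (mem_sp_self hu))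

theorem sp_res (h : Onto La t) : sp (res La t) s = sp La (s ∪ t) := by
  rw [sp, perp_res h, sp, sp, Finset.coe_union, Submodule.span_union, sup_assoc]

theorem onto_one (he : ∃ m ∈ La, m e = 1) : Onto La {e} := fun f =>
  let ⟨m, hm, k⟩ := he
  ⟨f e • m, La.smul_mem _ hm, fun v hv => by simp [Finset.mem_singleton.1 hv, k]⟩

theorem sp_res_one (he : ∃ m ∈ La, m e = 1) : sp (res La {e}) s = sp La (insert e s) := by
  rw [sp_res (onto_one he), Finset.union_comm, Finset.insert_eq]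

theorem mem_sp_insert (hx : x ∈ sp La (insert v s)) : ∃ c : ℝ, x - c • v ∈ sp La s := by
  have k : sp La (insert v s) ≤ (ℝ ∙ v) ⊔ sp La s := sp_le (fun u hu => by
    rcases Finset.mem_insert.1 hu with rfl | hu
    · exact Submodule.mem_sup_left (Submodule.mem_span_singleton_self _)
    · exact Submodule.mem_sup_right (mem_sp_self hu)) (le_sup_of_le_right le_sup_right)
  obtain ⟨p, hp, p', hp', rfl⟩ := Submodule.mem_sup.1 (k hx)
  obtain ⟨c, rfl⟩ := Submodule.mem_span_singleton.1 hp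
  exact ⟨c, by simpa using hp'⟩

/-- a form with value one at a vertex of a face that kills the other vertices -/
theorem exists_dual (h : Onto La (insert v r)) (hv : v ∉ r) :
    ∃ m ∈ La, m v = 1 ∧ ∀ u ∈ r, m u = 0 := by
  obtain ⟨m, hm, k⟩ := h fun u => if u = v then 1 else 0
  refine ⟨m, hm, by simpa using k v (Finset.mem_insert_self _ _), fun u hu => ?_⟩
  rw [k u (Finset.mem_insert_of_mem hu), if_neg fun p : u = v => hv (p ▸ hu)]

/-! ### the ideals `J` -/

theorem anti (v x : N) (a : Ex N) : ι ℝ v * (ι ℝ x * a) = -(ι ℝ x * (ι ℝ v * a)) := by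
  rw [← mul_assoc, ← mul_assoc, eq_neg_iff_add_eq_zero, ← add_mul, ι_add_mul_swap, zero_mul]

theorem sq (v : N) (a : Ex N) : ι ℝ v * (ι ℝ v * a) = 0 := by
  rw [← mul_assoc, ι_sq_zero, zero_mul]

theorem ι_mul_mem (hx : x ∈ sp La s) (a : Ex N) : ι ℝ x * a ∈ J La s :=
  Submodule.mul_mem_mul (Submodule.mem_map_of_mem hx) Submodule.mem_top

theorem J_le {W : Submodule ℝ (Ex N)} (h : ∀ x ∈ sp La s, ∀ a, ι ℝ x * a ∈ W) : J La s ≤ W :=
  Submodule.mul_le.2 fun _ ⟨x, hx, k⟩ a _ => k ▸ h x hx a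

theorem J_le_J (h : sp La s ≤ sp La' t) : J La s ≤ J La' t := J_le fun _ hx a => ι_mul_mem (h hx) a

theorem J_congr (h : sp La s = sp La' t) : J La s = J La' t := by rw [J, J, h]

theorem J_mono (h : s ⊆ t) : J La s ≤ J La t := J_le_J (sp_mono h)

theorem J_res_one (he : ∃ m ∈ La, m e = 1) : J (res La {e}) s = J La (insert e s) :=
  J_congr (sp_res_one he)

theorem ι_mul_J (v : N) (h : a ∈ J La s) : ι ℝ v * a ∈ J La s :=
  J_le (W := (J La s).comap (LinearMap.mulLeft ℝ (ι ℝ v))) (fun x hx a => by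
    rw [Submodule.mem_comap, LinearMap.mulLeft_apply, anti]
    exact (J La s).neg_mem (ι_mul_mem hx _)) h

theorem J_mul (h : a ∈ J La s) (b : Ex N) : a * b ∈ J La s :=
  J_le (W := (J La s).comap (LinearMap.mulRight ℝ b)) (fun x hx a => by
    rw [Submodule.mem_comap, LinearMap.mulRight_apply, mul_assoc]
    exact ι_mul_mem hx _) h

theorem ι_mul_J_insert (h : a ∈ J La (insert v s)) : ι ℝ v * a ∈ J La s :=
  J_le (W := (J La s).comap (LinearMap.mulLeft ℝ (ι ℝ v))) (fun x hx a => by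
    obtain ⟨c, hc⟩ := mem_sp_insert hx
    have k := ι_mul_J v (ι_mul_mem hc a)
    rw [map_sub, map_smul, sub_mul, mul_sub, smul_mul_assoc, mul_smul_comm, sq, smul_zero,
      sub_zero] at k
    exact k) h

/-- contraction with a form -/
def ctr (m : Module.Dual ℝ N) : Ex N →ₗ[ℝ] Ex N := CliffordAlgebra.contractLeft m

theorem ctr_ι_mul (x : N) (a : Ex N) : ctr m (ι ℝ x * a) = m x • a - ι ℝ x * ctr m a :=
  CliffordAlgebra.contractLeft_ι_mul m x a

theorem ctr_algebraMap (c : ℝ) : ctr m (algebraMap ℝ (Ex N) c) = 0 :=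
  CliffordAlgebra.contractLeft_algebraMap _ m c

theorem ctr_J (hm : m ∈ La) (h0 : ∀ v ∈ s, m v = 0) (h : a ∈ J La s) : ctr m a ∈ J La s :=
  J_le (W := (J La s).comap (ctr m)) (fun x hx a => by
    rw [Submodule.mem_comap, ctr_ι_mul, kill_sp hm h0 hx, zero_smul, zero_sub]
    exact (J La s).neg_mem (ι_mul_mem hx _)) h

theorem mem_J_insert (hm : m ∈ La) (h1 : m v = 1) (h0 : ∀ u ∈ s, m u = 0)
    (h : ι ℝ v * a ∈ J La s) : a ∈ J La (insert v s) := by
  have k := J_mono (Finset.subset_insert v s) (ctr_J hm h0 h)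
  rw [ctr_ι_mul, h1, one_smul] at k
  simpa using (J La _).add_mem k (ι_mul_mem (mem_sp_self (Finset.mem_insert_self v s)) (ctr m a))

theorem sub_ctr_mem (hm : m ∈ La) (h1 : m v = 1) (h0 : ∀ u ∈ s, m u = 0)
    (h : a ∈ J La (insert v s)) : a - ι ℝ v * ctr m a ∈ J La s := by
  have k := ctr_J hm h0 (ι_mul_J_insert h)
  rwa [ctr_ι_mul, h1, one_smul] at k

/-! ### the spaces `F` -/

theorem le_F (hu : u ∈ De) (hs : s ⊆ u) : ((sp La u).map (ι ℝ)) ^ k ≤ F La De k s :=
  le_iSup₂_of_le (f := fun u (_ : u ∈ De) => ⨆ _ : s ⊆ u, ((sp La u).map (ι ℝ)) ^ k) u hu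
    (le_iSup (fun _ : s ⊆ u => ((sp La u).map (ι ℝ)) ^ k) hs)

theorem F_le {W : Submodule ℝ (Ex N)}
    (h : ∀ u ∈ De, s ⊆ u → ((sp La u).map (ι ℝ)) ^ k ≤ W) : F La De k s ≤ W :=
  iSup₂_le fun u hu => iSup_le (h u hu)

theorem F_le_F {De' : Finset (Finset N)}
    (h : ∀ u ∈ De, s ⊆ u → ∃ u' ∈ De', t ⊆ u' ∧ sp La u ≤ sp La' u') :
    F La De k s ≤ F La' De' k t :=
  F_le fun u hu hs =>
    let ⟨_, h1, h2, h3⟩ := h u hu hs
    (pow_le_pow_left' (Submodule.map_mono h3) k).trans (le_F h1 h2)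

theorem F_anti (h : s ⊆ t) : F La De k t ≤ F La De k s :=
  F_le_F fun u hu ht => ⟨u, hu, h.trans ht, le_rfl⟩

theorem F_mono (h : U ⊆ De) : F La U k s ≤ F La De k s :=
  F_le_F fun u hu ht => ⟨u, h hu, ht, le_rfl⟩

theorem F_eq_zero (hD : Down De) (hs : s ∉ De) (h : a ∈ F La De k s) : a = 0 :=
  (Submodule.mem_bot ℝ).1 (F_le (fun u hu p => absurd (hD u hu s p) hs) h)

theorem ι_mul_pow {W : Submodule ℝ N} (hx : x ∈ W) (h : a ∈ (W.map (ι ℝ)) ^ k) :
    ι ℝ x * a ∈ (W.map (ι ℝ)) ^ (k + 1) := by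
  by_cases hk : k = 0
  · subst hk
    rw [pow_zero, Submodule.mem_one] at h
    obtain ⟨c, rfl⟩ := h
    rw [zero_add, pow_one, ← Algebra.commutes, ← Algebra.smul_def]
    exact Submodule.smul_mem _ _ (Submodule.mem_map_of_mem hx)
  · rw [Submodule.pow_succ' _ hk]
    exact Submodule.mul_mem_mul (Submodule.mem_map_of_mem hx) h

theorem pow_succ_le {W : Submodule ℝ N} {Z : Submodule ℝ (Ex N)}
    (h : ∀ x ∈ W, ∀ a ∈ (W.map (ι ℝ)) ^ k, ι ℝ x * a ∈ Z) : (W.map (ι ℝ)) ^ (k + 1) ≤ Z := by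
  by_cases hk : k = 0
  · subst hk
    rw [zero_add, pow_one]
    rintro _ ⟨x, hx, rfl⟩
    simpa using h x hx 1 (by rw [pow_zero]; exact Submodule.one_le.1 le_rfl)
  · rw [Submodule.pow_succ' _ hk]
    exact Submodule.mul_le.2 fun _ ⟨x, hx, p⟩ a ha => p ▸ h x hx a ha

theorem ι_mul_F (h : a ∈ F La De k (insert v s)) : ι ℝ v * a ∈ F La De (k + 1) s :=
  F_le (W := (F La De (k + 1) s).comap (LinearMap.mulLeft ℝ (ι ℝ v))) (fun _ hu p _ ha =>
    le_F hu ((Finset.subset_insert _ _).trans p)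
      (ι_mul_pow (mem_sp_self (p (Finset.mem_insert_self _ _))) ha)) h

theorem algebraMap_mem_F (hs : s ∈ De) (c : ℝ) : algebraMap ℝ (Ex N) c ∈ F La De 0 s :=
  le_F hs (Finset.Subset.refl s) (by rw [pow_zero]; exact Submodule.algebraMap_mem c)

theorem exists_of_F_zero (h : a ∈ F La De 0 s) : ∃ c : ℝ, algebraMap ℝ (Ex N) c = a :=
  Submodule.mem_one.1 (F_le (fun _ _ _ => (pow_zero _).le) h)

theorem exists_of_F_one (h : a ∈ F La De 1 s) : ∃ x, ι ℝ x = a :=
  F_le (W := LinearMap.range (ι ℝ)) (fun _ _ _ => (pow_one _).le.trans LinearMap.map_le_range) h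

theorem ctr_pow {W : Submodule ℝ N} (hW : ∀ x ∈ W, m x = 0) (k : ℕ) :
    (W.map (ι ℝ)) ^ k ≤ LinearMap.ker (ctr m) := by
  induction k with
  | zero =>
    intro a ha
    rw [pow_zero, Submodule.mem_one] at ha
    obtain ⟨c, rfl⟩ := ha
    exact ctr_algebraMap c
  | succ k ih =>
    refine pow_succ_le fun x hx a ha => ?_
    rw [LinearMap.mem_ker, ctr_ι_mul, hW x hx, ih ha, zero_smul, mul_zero, sub_zero]

/-- powers of a larger space, modulo the ideal -/
theorem pow_le_sup {W W' : Submodule ℝ N} (h : W' ≤ W ⊔ sp La s) (k : ℕ) :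
    (W'.map (ι ℝ)) ^ k ≤ (W.map (ι ℝ)) ^ k ⊔ J La s := by
  induction k with
  | zero => rw [pow_zero, pow_zero]; exact le_sup_left
  | succ k ih =>
    refine pow_succ_le fun x hx a ha => ?_
    obtain ⟨x1, h1, x2, h2, rfl⟩ := Submodule.mem_sup.1 (h hx)
    obtain ⟨a1, k1, a2, k2, rfl⟩ := Submodule.mem_sup.1 (ih ha)
    rw [map_add, add_mul, mul_add]
    exact Submodule.add_mem _ (Submodule.add_mem_sup (ι_mul_pow h1 k1) (ι_mul_J _ k2))
      (Submodule.mem_sup_right (ι_mul_mem h2 _))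

/-! ### the differential -/

theorem dR_sub : dR De (y - z) r = dR De y r - dR De z r := by
  simp only [dR, Pi.sub_apply, mul_sub, Finset.sum_sub_distrib]

theorem dR_add : dR De (y + z) r = dR De y r + dR De z r := by
  simp only [dR, Pi.add_apply, mul_add, Finset.sum_add_distrib]

theorem dR_congr (h : ∀ v, v ∉ r → insert v r ∈ De → y (insert v r) = z (insert v r)) :
    dR De y r = dR De z r :=
  Finset.sum_congr rfl fun v hv => by rw [h v (mem_nb.1 hv).1 (mem_nb.1 hv).2]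

theorem dR_eq_zero (h : ∀ v, v ∉ r → insert v r ∈ De → y (insert v r) = 0) : dR De y r = 0 :=
  Finset.sum_eq_zero fun v hv => by rw [h v (mem_nb.1 hv).1 (mem_nb.1 hv).2, mul_zero]

theorem dR_mem_J (h : ∀ v, v ∉ r → insert v r ∈ De → z (insert v r) ∈ J La (insert v r)) :
    dR De z r ∈ J La r :=
  Submodule.sum_mem _ fun v hv => ι_mul_J_insert (h v (mem_nb.1 hv).1 (mem_nb.1 hv).2)

theorem dR_mem_F {De' : Finset (Finset N)}
    (h : ∀ v, v ∉ r → insert v r ∈ De → z (insert v r) ∈ F La De' k (insert v r)) :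
    dR De z r ∈ F La De' (k + 1) r :=
  Submodule.sum_mem _ fun v hv => ι_mul_F (h v (mem_nb.1 hv).1 (mem_nb.1 hv).2)

theorem dR_ι_mul (e : N) : dR De (fun s => ι ℝ e * z s) r = -(ι ℝ e * dR De z r) := by
  rw [dR, dR, Finset.mul_sum, ← Finset.sum_neg_distrib]
  exact Finset.sum_congr rfl fun v _ => anti _ _ _

theorem dR_dR (hD : Down De) : dR De (dR De y) r = 0 := by
  have key : ∀ v ∈ nb De r, ι ℝ v * dR De y (insert v r) = ∑ w ∈ nb De r,
      if v ≠ w ∧ insert w (insert v r) ∈ De then ι ℝ v * (ι ℝ w * y (insert w (insert v r)))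
      else 0 := fun v hv => by
    rw [dR, Finset.mul_sum, ← Finset.sum_filter]
    refine Finset.sum_congr ?_ fun _ _ => rfl
    ext w
    rw [Finset.mem_filter, mem_nb, mem_nb, Finset.mem_insert, not_or]
    exact ⟨fun ⟨⟨h1, h2⟩, h3⟩ => ⟨⟨h2, hD _ h3 _ (Finset.insert_subset_insert _
      (Finset.subset_insert _ _))⟩, Ne.symm h1, h3⟩, fun ⟨⟨h1, _⟩, h2, h3⟩ => ⟨⟨h2.symm, h1⟩, h3⟩⟩
  have k : dR De (dR De y) r = -dR De (dR De y) r := by
    rw [dR, Finset.sum_congr rfl key]
    conv_lhs => rw [Finset.sum_comm]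
    rw [← Finset.sum_neg_distrib]
    refine Finset.sum_congr rfl fun v _ => ?_
    rw [← Finset.sum_neg_distrib]
    refine Finset.sum_congr rfl fun w _ => ?_
    rw [Finset.insert_comm v w]
    by_cases p : v ≠ w ∧ insert w (insert v r) ∈ De
    · rw [if_pos p, if_pos ⟨p.1.symm, p.2⟩, anti]
    · rw [if_neg p, if_neg fun p' => p ⟨p'.1.symm, p'.2⟩, neg_zero]
  have k2 : (2 : ℝ) • dR De (dR De y) r = 0 := by
    rw [two_smul]
    exact add_eq_zero_iff_eq_neg.2 k
  exact (smul_eq_zero.1 k2).resolve_left two_ne_zero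

/-- the differential in a subfamily and the remaining terms -/
theorem dR_split (h : U ⊆ De) : dR De z r = dR U z r +
    ∑ v ∈ (nb De r).filter (fun v => insert v r ∉ U), ι ℝ v * z (insert v r) := by
  rw [dR, dR, ← Finset.sum_filter_add_sum_filter_not (nb De r) fun v => insert v r ∈ U]
  congr 2
  ext v
  rw [Finset.mem_filter, mem_nb, mem_nb]
  exact ⟨fun ⟨⟨h1, _⟩, h2⟩ => ⟨h1, h2⟩, fun ⟨h1, h2⟩ => ⟨⟨h1, h h2⟩, h2⟩⟩

theorem dR_sub_family (h : U ⊆ De)
    (h0 : ∀ v, v ∉ r → insert v r ∈ De → insert v r ∉ U → z (insert v r) = 0) :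
    dR De z r = dR U z r := by
  rw [dR_split h, Finset.sum_eq_zero fun v hv => ?_, add_zero]
  obtain ⟨h1, h2⟩ := Finset.mem_filter.1 hv
  rw [h0 v (mem_nb.1 h1).1 (mem_nb.1 h1).2 h2, mul_zero]

theorem dR_split_one (h : U ⊆ De) (hv : v ∉ r) (h1 : insert v r ∈ De) (h2 : insert v r ∉ U)
    (h3 : ∀ w, w ∉ r → insert w r ∈ De → insert w r ∉ U → w = v) :
    dR De z r = dR U z r + ι ℝ v * z (insert v r) := by
  rw [dR_split h, Finset.sum_eq_single_of_mem v (Finset.mem_filter.2 ⟨mem_nb.2 ⟨hv, h1⟩, h2⟩)]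
  intro w hw hne
  obtain ⟨p1, p2⟩ := Finset.mem_filter.1 hw
  exact absurd (h3 w (mem_nb.1 p1).1 (mem_nb.1 p1).2 p2) hne

omit [AddCommGroup N] [Module ℝ N] in
theorem modif_old (hs : e ∉ s) (h : s ∈ modif T D e) : s ∈ T := by
  rcases mem_modif.1 h with k | ⟨u, -, rfl⟩
  · exact k
  · exact absurd (Finset.mem_insert_self _ _) hs

omit [AddCommGroup N] [Module ℝ N] in
theorem modif_new (he : e ∉ verts T) (hD : D ⊆ T) (hs : e ∉ s) :
    insert e s ∈ modif T D e ↔ s ∈ D := by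
  refine ⟨fun h => ?_, fun h => mem_modif.2 (Or.inr ⟨s, h, rfl⟩)⟩
  rcases mem_modif.1 h with k | ⟨u, hu, k⟩
  · exact absurd (mem_verts.2 ⟨_, k, Finset.mem_insert_self _ _⟩) he
  · have hu' : e ∉ u := fun p => he (mem_verts.2 ⟨u, hD hu, p⟩)
    rwa [← Finset.erase_insert hs, k, Finset.erase_insert hu']

theorem dR_modif_old (he : e ∉ verts T) (hD : D ⊆ T) (hr : e ∉ r) :
    dR (modif T D e) z r = dR T z r + if r ∈ D then ι ℝ e * z (insert e r) else 0 := by
  have key : ∀ w, insert w r ∈ modif T D e → insert w r ∉ T → w = e := fun w h1 h2 => by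
    by_contra p
    exact h2 (modif_old (by rw [Finset.mem_insert, not_or]; exact ⟨Ne.symm p, hr⟩) h1)
  split_ifs with h
  · exact dR_split_one Finset.subset_union_left hr ((modif_new he hD hr).2 h)
      (fun k => he (mem_verts.2 ⟨_, k, Finset.mem_insert_self _ _⟩)) fun w _ => key w
  · rw [add_zero]
    refine dR_sub_family Finset.subset_union_left fun w _ h1 h2 => ?_
    rw [key w h1 h2] at h1
    exact absurd ((modif_new he hD hr).1 h1) h

/-- a cycle that vanishes at all cofaces of `r` but one vanishes at the last one -/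
theorem top (ho : Onto La (insert v r)) (hv : v ∉ r) (h1 : insert v r ∈ De)
    (hc : dR De z r ∈ J La r)
    (h : ∀ w, w ∉ r → insert w r ∈ De → w ≠ v → z (insert w r) ∈ J La (insert w r)) :
    z (insert v r) ∈ J La (insert v r) := by
  obtain ⟨m, hm, m1, m0⟩ := exists_dual ho hv
  refine mem_J_insert hm m1 m0 ?_
  rw [dR, ← Finset.add_sum_erase _ _ (mem_nb.2 ⟨hv, h1⟩)] at hc
  refine (Submodule.add_mem_iff_left _ (Submodule.sum_mem _ fun w hw => ?_)).1 hc
  obtain ⟨p1, p2⟩ := Finset.mem_erase.1 hw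
  exact ι_mul_J_insert (h w (mem_nb.1 p2).1 (mem_nb.1 p2).2 p1)

/-! ### chains, cycles, boundaries -/

/-- chains on the faces with `q` vertices, with coefficients of degree `k` -/
def Ch (La : Du N) (De : Finset (Finset N)) (q k : ℕ) (z : Finset N → Ex N) : Prop :=
  ∀ s ∈ De, s.card = q → z s ∈ F La De k s

/-- cycles -/
def Cy (La : Du N) (De : Finset (Finset N)) (q : ℕ) (z : Finset N → Ex N) : Prop :=
  ∀ r ∈ De, r.card + 1 = q → dR De z r ∈ J La r

/-- boundaries -/
def Bd (La : Du N) (De : Finset (Finset N)) (q j : ℕ) (z : Finset N → Ex N) : Prop :=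
  ∃ y, Ch La De (q + 1) j y ∧ ∀ s ∈ De, s.card = q → z s - dR De y s ∈ J La s

theorem res_iff : RES La De ↔ ∀ q j z, Ch La De q (j + 1) z → Cy La De q z → Bd La De q j z :=
  Iff.rfl

theorem Ch.dR (h : Ch La De (q + 1) k y) : Ch La De q (k + 1) (dR De y) := fun s _ hq =>
  dR_mem_F fun v hv p => h _ p (by rw [Finset.card_insert_of_notMem hv, hq])

theorem Ch.sub (h : Ch La De q k z) (h' : Ch La De q k y) : Ch La De q k (z - y) :=
  fun s hs hq => Submodule.sub_mem _ (h s hs hq) (h' s hs hq)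

theorem Cy.sub_dR (hD : Down De) (h : Cy La De q z) (y : Finset N → Ex N) :
    Cy La De q (z - dR De y) := fun r hr hq => by
  rw [dR_sub, dR_dR hD, sub_zero]
  exact h r hr hq

theorem Bd.of_sub (hy : Ch La De (q + 1) j y) (h : Bd La De q j (z - dR De y)) :
    Bd La De q j z := by
  obtain ⟨y', h1, h2⟩ := h
  refine ⟨y + y', fun s hs hq => Submodule.add_mem _ (hy s hs hq) (h1 s hs hq), fun s hs hq => ?_⟩
  rw [dR_add, ← sub_sub]
  exact h2 s hs hq

/-- in a modification it is enough to check a boundary on the old faces -/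
theorem bd_modif (he : e ∉ verts T) (hD : D ⊆ T) (hd : Down (modif T D e))
    (ho : ∀ s ∈ D, Onto La (insert e s)) (hc : Cy La (modif T D e) q z)
    (hy : Ch La (modif T D e) (q + 1) j y)
    (h : ∀ s ∈ T, s.card = q → z s - dR (modif T D e) y s ∈ J La s) :
    Bd La (modif T D e) q j z := by
  refine ⟨y, hy, fun s hs hq => ?_⟩
  rcases mem_modif.1 hs with k | ⟨r, hr, rfl⟩
  · exact h s k hq
  have er : e ∉ r := fun p => he (mem_verts.2 ⟨r, hD hr, p⟩)
  rw [Finset.card_insert_of_notMem er] at hq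
  refine top (z := z - dR (modif T D e) y) (ho r hr) er hs
    (hc.sub_dR hd y r (mem_modif.2 (Or.inl (hD hr))) hq) fun w hw p hne => h _ (modif_old ?_ p) ?_
  · rw [Finset.mem_insert, not_or]
    exact ⟨hne.symm, er⟩
  · rw [Finset.card_insert_of_notMem hw, hq]

/-! ### the complex at a face -/

/-- exactness of the residue complex of the faces through `t` -/
def At (La : Du N) (De : Finset (Finset N)) (t : Finset N) : Prop :=
  ∀ (q j : ℕ) (z : Finset N → Ex N),
    (∀ s ∈ De, t ⊆ s → s.card = q → z s ∈ F La De (j + 1) s) →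
    (∀ r ∈ De, t ⊆ r → r.card + 1 = q → dR De z r ∈ J La r) →
    ∃ y, Ch La De (q + 1) j y ∧ (∀ s, ¬t ⊆ s → y s = 0) ∧
      ∀ s ∈ De, t ⊆ s → s.card = q → z s - dR De y s ∈ J La s

theorem F_link (ho : Onto La t) (hs : Disjoint s t) :
    F (res La t) (link De t) k s = F La De k (s ∪ t) := by
  refine le_antisymm (F_le_F fun u hu p => ⟨u ∪ t, (mem_link.1 hu).2,
    Finset.union_subset_union_left p, (sp_res ho).le⟩) (F_le_F fun u hu p => ?_)
  have h1 : u \ t ∪ t = u := Finset.sdiff_union_of_subset (Finset.subset_union_right.trans p)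
  refine ⟨u \ t, mem_link.2 ⟨Finset.sdiff_disjoint, h1.symm ▸ hu⟩,
    Finset.subset_sdiff.2 ⟨Finset.subset_union_left.trans p, hs⟩, ?_⟩
  rw [sp_res ho, h1]

theorem dR_link (hs : Disjoint s t) :
    dR (link De t) (fun s => z (s ∪ t)) s = dR De z (s ∪ t) := by
  refine Finset.sum_congr ?_ fun v _ => by rw [← Finset.insert_union]
  ext v
  rw [mem_nb, mem_nb, mem_link, Finset.insert_union, Finset.disjoint_insert_left, Finset.mem_union]
  tauto

theorem at_of_link (ho : Onto La t) (h : RES (res La t) (link De t)) : At La De t := by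
  intro q j z hz hc
  have un : ∀ s, t ⊆ s → s \ t ∪ t = s := fun s => Finset.sdiff_union_of_subset
  by_cases hq : q < t.card
  · exact ⟨0, fun s _ _ => Submodule.zero_mem _, fun _ _ => rfl, fun s _ p k =>
      absurd (Finset.card_le_card p) (by omega)⟩
  obtain ⟨q, rfl⟩ : ∃ q', q = q' + t.card := ⟨q - t.card, by omega⟩
  obtain ⟨y, y1, y2⟩ := h q j (fun s => z (s ∪ t)) (fun s hs k => by
      obtain ⟨a1, a2⟩ := mem_link.1 hs
      rw [F_link ho a1]
      exact hz _ a2 Finset.subset_union_right (by rw [Finset.card_union_of_disjoint a1, k]))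
    fun r hr k => by
      obtain ⟨a1, a2⟩ := mem_link.1 hr
      rw [dR_link a1, J_congr (sp_res ho)]
      exact hc _ a2 Finset.subset_union_right (by rw [Finset.card_union_of_disjoint a1]; omega)
  have lk : ∀ s ∈ De, t ⊆ s → s \ t ∈ link De t := fun s hs p =>
    mem_link.2 ⟨Finset.sdiff_disjoint, (un s p).symm ▸ hs⟩
  refine ⟨fun s => if t ⊆ s then y (s \ t) else 0, fun s hs k => ?_, fun s p => if_neg p,
    fun s hs p k => ?_⟩
  · dsimp only
    split_ifs with p
    · have := y1 _ (lk s hs p) (by rw [Finset.card_sdiff_of_subset p]; omega)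
      rwa [F_link ho Finset.sdiff_disjoint, un s p] at this
    · exact Submodule.zero_mem _
  · have a := y2 _ (lk s hs p) (by rw [Finset.card_sdiff_of_subset p]; omega)
    rw [J_congr (sp_res ho), un s p] at a
    convert a using 2
    conv_lhs => rw [← un s p, ← dR_link Finset.sdiff_disjoint]
    refine dR_congr fun v _ k => ?_
    rw [if_pos Finset.subset_union_right, Finset.union_sdiff_cancel_right (mem_link.1 k).1]

theorem at_of_all (hF : Fan La De) (h : All RES La De) (ht : t ∈ De) : At La De t :=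
  at_of_link (hF.onto t ht) (h t ht)

theorem at_of_below (hF : Fan La De) (h : Below RES La De) (ht : t ∈ De) (hn : t.Nonempty) :
    At La De t := at_of_link (hF.onto t ht) (h t ht hn)

/-- it is enough to treat cycles that vanish on the faces through `t` -/
theorem res_of_at (hD : Down De) (ht : At La De t)
    (h : ∀ q j z, Ch La De q (j + 1) z → Cy La De q z →
      (∀ s ∈ De, t ⊆ s → s.card = q → z s ∈ J La s) → Bd La De q j z) : RES La De := by
  intro q j z hz hc
  obtain ⟨y, y1, -, y2⟩ := ht q j z (fun s hs _ => hz s hs) fun r hr _ => hc r hr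
  exact Bd.of_sub y1 (h q j _ (Ch.sub hz y1.dR) (Cy.sub_dR hD hc y) y2)

theorem res_pt : RES La {∅} := by
  intro q j z hz _
  refine ⟨0, fun _ _ _ => Submodule.zero_mem _, fun s hs hq => ?_⟩
  rw [dR_eq_zero fun _ _ _ => rfl, sub_zero]
  refine F_le (fun u hu p => pow_succ_le fun x hx a _ => ι_mul_mem ?_ a) (hz s hs hq)
  rwa [Finset.mem_singleton.1 hs, ← Finset.mem_singleton.1 hu]

end KH.R
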