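import Pool.Agent.Lib.MP_e9c0f3_ag.KH.Ext
import Pool.Agent.Lib.MP_e9c0f3_ag.KH.HRen

/-! Residue complex: a point, and change of one vertex. -/

open scoped Classical
open MvPolynomial ExteriorAlgebra

noncomputable section

namespace KH

variable {N : Type} [AddCommGroup N] [Module ℝ N] {La : Du N} {De De' D T : Finset (Finset N)}
  {e e' e₁ e₂ v w : N} {a : N → ℝ} {c : ℝ}

theorem res_pt : RES La {∅} := by
  intro q j z hz _
  refine ⟨0, fun s _ _ => Submodule.zero_mem _, fun s hs hq => ?_⟩
  have h0 : dR {∅} (0 : Finset N → Ex N) s = 0 := by simp [dR]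
  rw [h0, sub_zero]
  refine F_le (fun u hu _ => ?_) (hz s hs hq)
  rw [Finset.mem_singleton.1 hu, Finset.mem_singleton.1 hs, pow_succ']
  exact mul_le_mul' le_rfl le_top

namespace RRen

omit [AddCommGroup N] [Module ℝ N] in
theorem rnf_image {s : Finset N} :
    rnf v w s = s.image fun u => if u = v then w else u := by
  unfold rnf
  ext x
  split_ifs with h
  · simp only [Finset.mem_insert, Finset.mem_erase, Finset.mem_image]
    constructor
    · rintro (rfl | ⟨h1, h2⟩)
      · exact ⟨v, h, by simp⟩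
      · exact ⟨x, h2, by simp [h1]⟩
    · rintro ⟨u, hu, rfl⟩
      by_cases h1 : u = v
      · simp [h1]
      · simp [h1, hu]
  · simp only [Finset.mem_image]
    constructor
    · exact fun hx => ⟨x, hx, if_neg fun e : x = v => h (e ▸ hx)⟩
    · rintro ⟨u, hu, rfl⟩
      rwa [if_neg fun e : u = v => h (e ▸ hu)]

omit [AddCommGroup N] [Module ℝ N] in
theorem rnf_mono {s t : Finset N} (h : s ⊆ t) : rnf v w s ⊆ rnf v w t := by
  rw [rnf_image, rnf_image]
  exact Finset.image_subset_image h

omit [AddCommGroup N] [Module ℝ N] in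
theorem rnf_insert {s : Finset N} {u : N} :
    rnf v w (insert u s) = insert (if u = v then w else u) (rnf v w s) := by
  rw [rnf_image, rnf_image, Finset.image_insert]

omit [AddCommGroup N] [Module ℝ N] in
theorem rnf_rnf {s : Finset N} (h : w ∉ s) : rnf w v (rnf v w s) = s := by
  by_cases h1 : v ∈ s
  · have h2 : rnf v w s = insert w (s.erase v) := if_pos h1
    rw [h2, rnf, if_pos (Finset.mem_insert_self _ _),
      Finset.erase_insert fun b => h (Finset.mem_of_mem_erase b), Finset.insert_erase h1]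
  · have h2 : rnf v w s = s := if_neg h1
    rw [h2, rnf, if_neg h]

variable (S : Rn La De De' v w c)
include S

theorem perp_mem : c • v - w ∈ perp La := by
  rw [perp, Submodule.mem_dualCoannihilator]
  intro m hm
  rw [map_sub, map_smul, S.rel m hm, smul_eq_mul, sub_self]

theorem sp_le (s : Finset N) : sp La s ≤ sp La (rnf v w s) := by
  refine sup_le (Submodule.span_le.2 fun u hu => ?_) le_sup_right
  have h1 : (if u = v then w else u) ∈ sp La (rnf v w s) :=
    mem_sp_of_mem (by rw [rnf_image]; exact Finset.mem_image_of_mem _ hu)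
  split_ifs at h1 with h
  · have h2 : v = c⁻¹ • ((c • v - w) + w) := by
      rw [sub_add_cancel, smul_smul, inv_mul_cancel₀ S.pos.ne', one_smul]
    have h3 := Submodule.smul_mem _ c⁻¹ (Submodule.add_mem _ (mem_sp_of_perp (perp_mem S)) h1)
    rw [← h2] at h3
    rw [h]
    exact h3
  · exact h1

theorem F_rn {k : ℕ} (s : Finset N) : F La De k s ≤ F La De' k (rnf v w s) :=
  F_le fun u hu h => le_trans (pow_le_pow_left' (Submodule.map_mono (sp_le S u)) k)
    (pow_le_F ((S.mem (S.notMem hu)).2 hu) (rnf_mono h))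

theorem nb_sub {r : Finset N} {u : N} (hr : w ∉ r) (hu : u ∈ nb De r) :
    (if u = v then w else u) ∈ nb De' (rnf v w r) := by
  obtain ⟨h1, h2, h3⟩ := Finset.mem_filter.1 hu |>.imp_right id
  have h4 : rnf v w (insert u r) ∈ De' := (S.mem (S.notMem h3)).2 h3
  rw [rnf_insert] at h4
  refine Finset.mem_filter.2 ⟨mem_verts.2 ⟨_, h4, Finset.mem_insert_self _ _⟩, ?_, h4⟩
  rw [mem_rnf hr S.ne]
  by_cases h : u = v
  · simpa [h] using h ▸ h2
  · have h5 : u ≠ w := fun e => S.new (e ▸ h1)
    simp [h, h5, h2]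

theorem dR_rn (z : Finset N → Ex N) {r : Finset N} (hr : w ∉ r) :
    dR De (fun s => (if v ∈ s then c else 1) • z (rnf v w s)) r -
      (if v ∈ r then c else 1) • dR De' z (rnf v w r) ∈ J La r := by
  have hv : v ∉ rnf v w r := by
    rw [mem_rnf hr S.ne]
    simp [S.ne.symm]
  have h1 : dR De' z (rnf v w r) =
      ∑ u ∈ nb De r, ι ℝ (if u = v then w else u) * z (rnf v w (insert u r)) := by
    symm
    refine Finset.sum_bij' (fun u _ => if u = v then w else u) (fun u _ => if u = w then v else u)
      (fun u hu => nb_sub S hr hu) (fun u hu => ?_) (fun u hu => ?_) (fun u hu => ?_)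
      fun u _ => by rw [rnf_insert]
    · have := nb_sub S.symm hv hu
      rwa [rnf_rnf hr] at this
    · have h5 : u ≠ w := fun e => S.new (e ▸ (Finset.mem_filter.1 hu).1)
      by_cases h : u = v <;> simp [h, h5]
    · have h5 : u ≠ v := fun e => S.old (e ▸ (Finset.mem_filter.1 hu).1)
      by_cases h : u = w <;> simp [h, h5]
  rw [h1, dR, Finset.smul_sum, ← Finset.sum_sub_distrib]
  refine Submodule.sum_mem _ fun u hu => ?_
  have h2 : u ∉ r := (Finset.mem_filter.1 hu).2.1
  by_cases h : u = v
  · subst h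
    rw [if_pos (Finset.mem_insert_self _ _), if_neg h2, if_pos rfl, one_smul, mul_smul_comm,
      ← smul_mul_assoc, ← sub_mul, ← map_smul, ← map_sub]
    exact ι_mul_mem_J (mem_sp_of_perp (perp_mem S)) _
  · have h3 : v ∈ insert u r ↔ v ∈ r := by simp [Ne.symm h]
    simp only [h3, if_neg h, mul_smul_comm, sub_self]
    exact Submodule.zero_mem _

theorem res (h : RES La De) : RES La De' := by
  intro q j z hz hc
  have hJ : ∀ s, w ∉ s → J La (rnf v w s) ≤ J La s := fun s hs =>
    J_of_sp_le (by simpa only [rnf_rnf hs] using sp_le S.symm (rnf v w s))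
  obtain ⟨y, hy, hz'⟩ := h q j (fun s => (if v ∈ s then c else 1) • z (rnf v w s))
    (fun s hs hq => Submodule.smul_mem _ _ (by
      have hw := S.notMem hs
      have := F_rn S.symm (k := j + 1) _ (hz _ ((S.mem hw).2 hs) ((card_rnf hw).trans hq))
      rwa [rnf_rnf hw] at this))
    fun r hr hq => by
      have hw := S.notMem hr
      have h1 := hJ r hw (hc _ ((S.mem hw).2 hr) (by rw [card_rnf hw, hq]))
      simpa using Submodule.add_mem _ (dR_rn S z hw)
        (Submodule.smul_mem _ (if v ∈ r then c else 1) h1)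
  refine ⟨fun s => (if w ∈ s then c⁻¹ else 1) • y (rnf w v s), fun s hs hq => ?_,
    fun s hs hq => ?_⟩
  · have hv := S.symm.notMem hs
    have := F_rn S (k := j) _ (hy _ ((S.symm.mem hv).2 hs) ((card_rnf hv).trans hq))
    rw [rnf_rnf hv] at this
    exact Submodule.smul_mem _ _ this
  · have hv := S.symm.notMem hs
    have h1 := hz' _ ((S.symm.mem hv).2 hs) ((card_rnf hv).trans hq)
    have h2 : J La (rnf w v s) ≤ J La s :=
      J_of_sp_le (by simpa only [rnf_rnf hv] using sp_le S (rnf w v s))
    have h3 := Submodule.sub_mem _ (Submodule.smul_mem _ (if w ∈ s then c⁻¹ else 1) (h2 h1))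
      (dR_rn S.symm y hv)
    have h4 : v ∈ rnf w v s ↔ w ∈ s := by
      rw [mem_rnf hv S.ne.symm, if_pos rfl]
    have h5 : (if w ∈ s then c⁻¹ else 1) * (if w ∈ s then c else 1) = 1 := by
      split_ifs
      · exact inv_mul_cancel₀ S.pos.ne'
      · exact one_mul _
    simp only [rnf_rnf hv, h4, smul_sub, smul_smul, h5, one_smul] at h3
    convert h3 using 1
    abel

end RRen

theorem res_ren (hF : Fan La De) (h : New La De {v} w a) :
    RES La De ↔ RES La (star De {v} w) :=
  ⟨RRen.res (h.rn hF), RRen.res (h.rn hF).symm⟩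

end KH
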