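import Mathlib

/-! The local structure of a Bergman fan in codimension one. -/

open scoped Classical Topology
open Filter Set

noncomputable section

namespace KH.Wt

variable {E : Type} [Fintype E] {M : Matroid E} {x y z : E → ℝ}

/-- All superlevel sets are flats. -/
def Bg (M : Matroid E) (x : E → ℝ) : Prop := ∀ c, M.IsFlat {i | c ≤ x i}

/-- The tangent cone of the Bergman fan at `x`. -/
def Lc (M : Matroid E) (x y : E → ℝ) : Prop :=
  ∀ a s, M.IsFlat ({i | a < x i} ∪ {i | x i = a ∧ s ≤ y i})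

/-- Functions that are constant on the level sets of `x`. -/
def Vx (x : E → ℝ) : Submodule ℝ (E → ℝ) where
  carrier := {z | ∀ i j, x i = x j → z i = z j}
  add_mem' ha hb i j h := by simp [ha i j h, hb i j h]
  zero_mem' _ _ _ := rfl
  smul_mem' c _ ha i j h := by simp [ha i j h]

/-- The indicator function. -/
def ind (G : Set E) : E → ℝ := fun i => if i ∈ G then 1 else 0

theorem Bg.gt (h : Bg M x) (a : ℝ) : M.IsFlat {i | a < x i} := by
  have : ∀ᶠ c in 𝓝[>] a, ∀ i, a < x i → c ≤ x i := eventually_all.2 fun i => by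
    by_cases hi : a < x i
    · exact (mem_nhdsWithin_of_mem_nhds (Iic_mem_nhds hi) : _) |> fun h =>
        mem_of_superset h fun c hc _ => hc
    · exact Eventually.of_forall fun _ h => absurd h hi
  obtain ⟨c, h1, h2⟩ := (this.and self_mem_nhdsWithin).exists
  convert h c using 1
  exact Set.ext fun i => ⟨h1 i, fun hi => lt_of_lt_of_le h2 hi⟩

omit [Fintype E] in
theorem Bg.add_const (h : Bg M x) (c : ℝ) : Bg M fun i => x i + c := fun a => by
  simpa only [sub_le_iff_le_add] using h (a - c)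

theorem ev_lt (x y : E → ℝ) :
    ∀ᶠ ε in 𝓝[>] (0 : ℝ), ∀ i j, x i < x j → x i + ε * y i < x j + ε * y j := by
  refine eventually_all.2 fun i => eventually_all.2 fun j => ?_
  by_cases h : x i < x j
  · have : ∀ᶠ ε in 𝓝 (0 : ℝ), x i + ε * y i < x j + ε * y j :=
      ContinuousAt.eventually_lt (by fun_prop) (by fun_prop) (by simpa using h)
    exact (this.filter_mono nhdsWithin_le_nhds).mono fun _ h _ => h
  · exact Eventually.of_forall fun _ h' => absurd h' h

omit [Fintype E] in
theorem level_eq {ε : ℝ} (h0 : 0 < ε) (h : ∀ i j, x i < x j → x i + ε * y i < x j + ε * y j)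
    (k : E) : {i | x k + ε * y k ≤ x i + ε * y i} =
      {i | x k < x i} ∪ {i | x i = x k ∧ y k ≤ y i} := by
  ext i
  simp only [mem_ofPred_eq, mem_union]
  rcases lt_trichotomy (x k) (x i) with hi | hi | hi
  · simp [hi, (h k i hi).le]
  · rw [hi]; simp [h0]
  · simp [hi.not_gt, hi.ne, h i k hi]

theorem Lc.coarsen (hx : Bg M x) (h : Lc M x y)
    (hz : ∀ i k, x i = x k → y i ≤ y k → z i ≤ z k) : Lc M x z := fun a s => by
  by_cases hn : {i | x i = a ∧ s ≤ z i}.Nonempty
  · obtain ⟨k, hk, hm⟩ := exists_min_image _ y (toFinite _) hn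
    convert h a (y k) using 2
    exact Set.ext fun i => ⟨fun hi => ⟨hi.1, hm i hi⟩,
      fun hi => ⟨hi.1, hk.2.trans (hz k i (hk.1.trans hi.1.symm) hi.2)⟩⟩
  · rw [not_nonempty_iff_eq_empty.1 hn, union_empty]; exact hx.gt a

theorem loc_iff (hx : Bg M x) : (∀ᶠ ε in 𝓝[>] (0 : ℝ), Bg M (x + ε • y)) ↔ Lc M x y := by
  constructor
  · intro h a s
    obtain ⟨ε, ⟨h1, h2⟩, h0⟩ := ((h.and (ev_lt x y)).and self_mem_nhdsWithin).exists
    by_cases hn : {i | x i = a ∧ s ≤ y i}.Nonempty
    · obtain ⟨k, hk, hm⟩ := exists_min_image _ y (toFinite _) hn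
      have := h1 (x k + ε * y k)
      simp only [Pi.add_apply, Pi.smul_apply, smul_eq_mul] at this
      rw [level_eq h0 h2, hk.1] at this
      convert this using 2
      exact Set.ext fun i => ⟨fun hi => ⟨hi.1, hm i hi⟩, fun hi => ⟨hi.1, hk.2.trans hi.2⟩⟩
    · rw [not_nonempty_iff_eq_empty.1 hn, union_empty]; exact hx.gt a
  · intro h
    filter_upwards [ev_lt x y, self_mem_nhdsWithin] with ε h2 h0 c
    simp only [Pi.add_apply, Pi.smul_apply, smul_eq_mul]
    by_cases hn : {i | c ≤ x i + ε * y i}.Nonempty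
    · obtain ⟨k, hk, hm⟩ := exists_min_image _ (fun i => x i + ε * y i) (toFinite _) hn
      have := h (x k) (y k)
      rw [← level_eq h0 h2] at this
      convert this using 1
      exact Set.ext fun i => ⟨fun hi => hm i hi, fun hi => le_trans (b := x k + ε * y k) hk hi⟩
    · rw [not_nonempty_iff_eq_empty.1 hn]
      obtain ⟨b, hb⟩ := (finite_range x).bddAbove
      convert hx.gt b using 1
      exact (eq_empty_of_forall_notMem fun i hi => not_lt.2 (hb ⟨i, rfl⟩) hi).symm

theorem Bg.lc_zero (hx : Bg M x) : Lc M x 0 := fun a s => by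
  by_cases hs : s ≤ 0
  · convert hx a using 1
    ext i; simp [hs, le_iff_lt_or_eq, eq_comm]
  · convert hx.gt a using 1
    ext i; simp [hs]

theorem Lc.add (hx : Bg M x) (h : Lc M x y) (hz : z ∈ Vx x) : Lc M x (y + z) :=
  h.coarsen hx fun i k e hy => by simp [hz i k e, hy]

theorem Bg.lc (hx : Bg M x) (hz : z ∈ Vx x) : Lc M x z := by
  simpa using hx.lc_zero.add hx hz

/-- `G` gives a flat strictly between two consecutive superlevel sets. -/
def Mid (M : Matroid E) (x : E → ℝ) (G : Set E) : Prop :=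
  ∃ a, (∀ i ∈ G, x i = a) ∧ G.Nonempty ∧ (∃ j, x j = a ∧ j ∉ G) ∧ M.IsFlat ({i | a < x i} ∪ G)

theorem lc_ind_add (hx : Bg M x) {G G' : Set E} (hG : G ⊆ G') {a : ℝ} (ha : ∀ i ∈ G', x i = a)
    (h : M.IsFlat ({i | a < x i} ∪ G)) (h' : M.IsFlat ({i | a < x i} ∪ G')) {s : ℝ} (hs : 0 < s) :
    Lc M x (ind G + s • ind G') := fun b r => by
  have v : ∀ i, (ind G + s • ind G') i = if i ∈ G then 1 + s else if i ∈ G' then s else 0 :=
    fun i => by
      by_cases h1 : i ∈ G
      · simp [ind, h1, hG h1]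
      · by_cases h2 : i ∈ G' <;> simp [ind, h1, h2]
  simp only [v]
  by_cases r0 : r ≤ 0
  · convert hx.lc_zero b r using 2
    refine Set.ext fun i => and_congr_right fun _ => ⟨fun _ => r0, fun _ => r0.trans ?_⟩
    split_ifs <;> linarith
  by_cases hb : b = a
  · subst hb
    by_cases r1 : r ≤ s
    · convert h' using 2
      ext i
      by_cases h1 : i ∈ G
      · simp [h1, hG h1, ha i (hG h1)]; linarith
      · by_cases h2 : i ∈ G'
        · simp [h1, h2, ha i h2, r1]
        · simp [h1, h2, r0]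
    by_cases r2 : r ≤ 1 + s
    · convert h using 2
      ext i
      by_cases h1 : i ∈ G
      · simp [h1, ha i (hG h1), r2]
      · by_cases h2 : i ∈ G' <;> simp [h1, h2, r0, r1]
    · convert hx.gt b using 1
      refine union_eq_left.2 fun i hi => absurd hi.2 ?_
      split_ifs <;> assumption
  · convert hx.gt b using 1
    refine union_eq_left.2 fun i hi => absurd hi.2 ?_
    have : i ∉ G' := fun h => hb (hi.1.symm.trans (ha i h))
    rw [if_neg fun h => this (hG h), if_neg this]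
    exact r0

theorem Mid.lc (hx : Bg M x) {G : Set E} (h : Mid M x G) : Lc M x (ind G) := by
  obtain ⟨a, h1, -, -, h2⟩ := h
  refine (lc_ind_add hx Subset.rfl h1 h2 h2 one_pos).coarsen hx fun i k _ => ?_
  simp only [one_smul, Pi.add_apply]
  intro h; linarith

omit [Fintype E] in
theorem Mid.smul_mem {G : Set E} (h : Mid M x G) {c : ℝ} (hc : c • ind G ∈ Vx x) : c = 0 := by
  obtain ⟨a, h1, ⟨i, hi⟩, ⟨j, hj, hj'⟩, -⟩ := h
  simpa [ind, hi, hj'] using hc i j ((h1 i hi).trans hj.symm)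

omit [Fintype E] in
theorem Mid.eq {G G' : Set E} (h : Mid M x G) (h' : Mid M x G') {c : ℝ} (hc : 0 < c)
    (e : ind G - c • ind G' ∈ Vx x) : G = G' := by
  have key : ∀ {G G' : Set E} {α β : ℝ}, Mid M x G → 0 < α → 0 < β →
      α • ind G - β • ind G' ∈ Vx x → G ⊆ G' := by
    rintro G G' α β ⟨a, h1, -, ⟨j, hj, hj'⟩, -⟩ hα hβ e i hi
    by_contra hi'
    have := e i j ((h1 i hi).trans hj.symm)
    by_cases hj2 : j ∈ G' <;> simp [ind, hi, hi', hj', hj2] at this <;> linarith
  exact (key h one_pos hc (by simpa using e)).antisymm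
    (key h' hc one_pos (by simpa using neg_mem e))

/-- The tangent cone contains no two-dimensional cone modulo the lineality space. -/
def Thin (M : Matroid E) (x : E → ℝ) (W : Submodule ℝ (E → ℝ)) : Prop :=
  ∀ p q, (∀ s : ℝ, 0 < s → Lc M x (p + s • q)) → ∃ α β : ℝ, (α ≠ 0 ∨ β ≠ 0) ∧ α • p + β • q ∈ W

theorem Thin.dir (hx : Bg M x) (H : Thin M x (Vx x)) (h : Lc M x y) (hy : y ∉ Vx x) :
    ∃ G, Mid M x G ∧ ∃ c : ℝ, 0 < c ∧ y - c • ind G ∈ Vx x := by
  obtain ⟨i, j, e, hlt⟩ : ∃ i j, x i = x j ∧ y i < y j := by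
    by_contra hn
    push Not at hn
    exact hy fun i j e => le_antisymm (hn j i e.symm) (hn i j e)
  have hG : Mid M x {k | x k = x j ∧ y j ≤ y k} :=
    ⟨x j, fun _ hk => hk.1, ⟨j, rfl, le_rfl⟩, ⟨i, e, fun h => h.2.not_gt hlt⟩, h _ _⟩
  obtain ⟨α, β, h0, hm⟩ := H y (ind {k | x k = x j ∧ y j ≤ y k}) fun s hs =>
    h.coarsen hx fun k l e' hy' => by
      simp only [Pi.add_apply, Pi.smul_apply, ind, mem_ofPred_eq, smul_eq_mul]
      split_ifs with h1 h2 h2
      · linarith
      · exact absurd ⟨e'.symm.trans h1.1, h1.2.trans hy'⟩ h2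
      · linarith
      · linarith
  have hα : α ≠ 0 := by
    rintro rfl
    exact h0.elim (fun h => h rfl) fun h => h (hG.smul_mem (by simpa using hm))
  have hm' : y - (-β / α) • ind {k | x k = x j ∧ y j ≤ y k} ∈ Vx x := by
    convert Submodule.smul_mem _ α⁻¹ hm using 1
    rw [smul_add, smul_smul, smul_smul, inv_mul_cancel₀ hα, one_smul, neg_div, neg_smul,
      sub_neg_eq_add, div_eq_inv_mul]
  refine ⟨_, hG, _, ?_, hm'⟩
  have := hm' i j e
  simp [ind, hlt.not_ge] at this
  linarith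

theorem Thin.anti (hx : Bg M x) (H : Thin M x (Vx x)) {G G' : Set E} (h : Mid M x G)
    (h' : Mid M x G') (hG : G ⊆ G') : G = G' := by
  obtain ⟨a, h1, ⟨i, hi⟩, -, h2⟩ := h
  obtain ⟨a', h1', -, ⟨j, hj, hj'⟩, h2'⟩ := h'
  obtain rfl : a = a' := (h1 i hi).symm.trans (h1' i (hG hi))
  obtain ⟨α, β, h0, hm⟩ := H _ _ fun s hs => lc_ind_add hx hG h1' h2 h2' hs
  refine hG.antisymm fun k hk => by_contra fun hk' => ?_
  have hjG : j ∉ G := fun h => hj' (hG h)
  have e1 := hm k j ((h1' k hk).trans hj.symm)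
  have e2 := hm i j ((h1 i hi).trans hj.symm)
  simp [ind, hk, hk', hj', hjG, hi, hG hi] at e1 e2
  rcases h0 with h | h
  · exact h (by linarith)
  · exact h e1

theorem Mid.cover (hM : M.E = univ) (hx : Bg M x) {G : Set E} (h : Mid M x G) {i j : E}
    (hi : i ∈ G) (e : x i = x j) : ∃ G', Mid M x G' ∧ j ∈ G' := by
  by_cases hj : j ∈ G
  · exact ⟨G, h, hj⟩
  obtain ⟨a, h1, -, -, h2⟩ := h
  obtain rfl : a = x j := (h1 i hi).symm.trans e
  have hE : ∀ S : Set E, S ⊆ M.E := fun S => hM ▸ subset_univ S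
  have hs : M.closure (insert j {k | x j < x k}) ⊆ {k | x j ≤ x k} := by
    rw [← (hx (x j)).closure]
    exact M.closure_subset_closure (insert_subset (le_refl (x j)) fun k (hk : x j < x k) => hk.le)
  have hjm : j ∈ M.closure (insert j {k | x j < x k}) :=
    M.subset_closure _ (hE _) (mem_insert _ _)
  refine ⟨M.closure (insert j {k | x j < x k}) \ {k | x j < x k}, ⟨x j, fun k hk =>
    le_antisymm (not_lt.1 hk.2) (hs hk.1), ⟨j, hjm, lt_irrefl (x j)⟩, ⟨i, e, fun hi' => ?_⟩, ?_⟩,
    hjm, lt_irrefl (x j)⟩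
  · have h3 := Matroid.closure_exchange (M := M) (X := {k | x j < x k}) (e := i) (f := j)
      ⟨hi'.1, by rw [(hx.gt (x j)).closure]; exact hi'.2⟩
    have h4 : M.closure (insert i {k | x j < x k}) ⊆ {k | x j < x k} ∪ G := by
      rw [← h2.closure]
      exact M.closure_subset_closure (insert_subset (Or.inr hi) subset_union_left)
    exact (h4 h3.1).elim (lt_irrefl (x j)) hj
  · rw [union_sdiff_cancel ((subset_insert _ _).trans (M.subset_closure _ (hE _)))]
    exact M.isFlat_closure _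

theorem Thin.uniq (hx : Bg M x) (H : Thin M x (Vx x)) {G G' : Set E} (h : Mid M x G)
    (h' : Mid M x G') {j : E} (hj : j ∈ G) (hj' : j ∈ G') : G = G' := by
  have hI : Mid M x (G ∩ G') := by
    obtain ⟨a, h1, -, ⟨k, hk, hk'⟩, h2⟩ := h
    obtain ⟨a', h1', -, -, h2'⟩ := h'
    obtain rfl : a = a' := (h1 j hj).symm.trans (h1' j hj')
    refine ⟨a, fun i hi => h1 i hi.1, ⟨j, hj, hj'⟩, ⟨k, hk, fun h => hk' h.1⟩, ?_⟩
    rw [union_inter_distrib_left]
    refine Matroid.isFlat_iff_closure_eq.2 (subset_antisymm (subset_inter ?_ ?_)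
      (M.subset_closure _ (inter_subset_left.trans h2.subset_ground)))
    · exact (M.closure_subset_closure inter_subset_left).trans h2.closure.subset
    · exact (M.closure_subset_closure inter_subset_right).trans h2'.closure.subset
  exact (H.anti hx hI h inter_subset_left).symm.trans (H.anti hx hI h' inter_subset_right)

theorem Thin.sum (hM : M.E = univ) (hx : Bg M x) (H : Thin M x (Vx x)) :
    ∑ G ∈ Finset.univ.filter (Mid M x), ind G ∈ Vx x := by
  have v : ∀ j, (∑ G ∈ Finset.univ.filter (Mid M x), ind G) j =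
      if ∃ G, Mid M x G ∧ j ∈ G then 1 else 0 := fun j => by
    rw [Finset.sum_apply]
    split_ifs with h
    · obtain ⟨G, hG, hj⟩ := h
      rw [Finset.sum_eq_single_of_mem G (by simpa using hG)]
      · exact if_pos hj
      · exact fun G' hG' hne => if_neg fun hj' => hne (H.uniq hx (by simpa using hG') hG hj' hj)
    · exact Finset.sum_eq_zero fun G hG => if_neg fun hj => h ⟨G, by simpa using hG, hj⟩
  intro i j e
  rw [v, v]
  exact if_congr ⟨fun ⟨_, hG, hi⟩ => hG.cover hM hx hi e,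
    fun ⟨_, hG, hj⟩ => hG.cover hM hx hj e.symm⟩ rfl rfl

end KH.Wt
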