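import Pool.Agent.Lib.MP_e9c0f3_ag.KH.WtA

/-! Lattice volumes as generators of groups of determinants. -/

open scoped Classical
open Set

noncomputable section

namespace KH.Wt

variable {N : Type} [AddCommGroup N] [Module ℝ N] {E κ κ' : Type} [Fintype E] [Fintype κ]
  [Fintype κ'] {t : Module.Dual ℝ N} {Z : Set (Module.Dual ℝ N)}

/-- The group generated by the determinants with one row `t` and the other rows in `Z`. -/
def Gd (t : Module.Dual ℝ N) (Z : Set (Module.Dual ℝ N)) (v : κ → N) : AddSubgroup ℝ :=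
  AddSubgroup.closure {r | ∃ (k : κ) (m : κ → Module.Dual ℝ N), m k = t ∧
    (∀ i, i ≠ k → m i ∈ Z) ∧ r = (Matrix.of fun i j => m i (v j)).det}

theorem Gd_le (e : κ ≃ κ') (v : κ' → N) : Gd t Z (v ∘ e) ≤ Gd t Z v := by
  refine AddSubgroup.closure_mono ?_
  rintro r ⟨k, m, h1, h2, rfl⟩
  refine ⟨e k, m ∘ e.symm, by simpa using h1, fun i hi => h2 _ fun h => hi (by simp [← h]), ?_⟩
  rw [← Matrix.det_submatrix_equiv_self e]
  congr 1
  ext i j
  simp

theorem Gd_equiv (e : κ ≃ κ') (v : κ' → N) : Gd t Z (v ∘ e) = Gd t Z v :=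
  le_antisymm (Gd_le e v) (by simpa [Function.comp_def] using Gd_le e.symm (v ∘ e))

/-- The inverse of the lattice volume of a face. -/
def wt (t : Module.Dual ℝ N) (Z : Set (Module.Dual ℝ N)) (u : Finset N) : ℝ :=
  if h : ∃ g : ℝ, 0 < g ∧ Gd t Z (fun j : u => (j : N)) = AddSubgroup.zmultiples g then
    h.choose⁻¹ else 1

theorem wt_pos (u : Finset N) : 0 < wt t Z u := by
  unfold wt
  split_ifs with h
  · exact inv_pos.2 h.choose_spec.1
  · exact one_pos

theorem gen_unique {g g' : ℝ} (h : 0 < g) (h' : 0 < g')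
    (e : AddSubgroup.zmultiples g = AddSubgroup.zmultiples g') : g = g' := by
  have key : ∀ {g g' : ℝ}, 0 < g → 0 < g' → g ∈ AddSubgroup.zmultiples g' → g' ≤ g := by
    rintro g g' h h' ⟨k, rfl⟩
    simp only [zsmul_eq_mul] at h ⊢
    have : (1 : ℝ) ≤ k := by exact_mod_cast Int.cast_pos.1 ((mul_pos_iff_of_pos_right h').1 h)
    nlinarith
  exact le_antisymm (key h' h (e ▸ AddSubgroup.mem_zmultiples g'))
    (key h h' (e ▸ AddSubgroup.mem_zmultiples g))

theorem wt_eq {u : Finset N} {g : ℝ} (h0 : g ≠ 0)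
    (h : Gd t Z (fun j : u => (j : N)) = AddSubgroup.zmultiples g) : wt t Z u = |g|⁻¹ := by
  have e : AddSubgroup.zmultiples g = AddSubgroup.zmultiples |g| := by
    rcases abs_choice g with h | h <;> rw [h]
    exact AddSubgroup.zmultiples_neg.symm
  have H : ∃ g : ℝ, 0 < g ∧ Gd t Z (fun j : u => (j : N)) = AddSubgroup.zmultiples g :=
    ⟨|g|, abs_pos.2 h0, h.trans e⟩
  rw [wt, dif_pos H, gen_unique H.choose_spec.1 (abs_pos.2 h0)
    (H.choose_spec.2.symm.trans (h.trans e))]

/-- An integral chart: `B x = A x + x i₀ • v₀`. -/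
structure Chart (t : Module.Dual ℝ N) (Z : Set (Module.Dual ℝ N)) (B : (E → ℝ) →ₗ[ℝ] N)
    (i₀ : E) : Prop where
  ht : ∀ x, t (B x) = x i₀
  int : ∀ m ∈ Z, ∃ (c : ℝ) (z : E → ℤ), ∀ x, m (B x) = c * x i₀ + ∑ i, z i * x i
  sub : ∀ i, ∃ m ∈ Z, ∃ c : ℝ, ∀ x, m (B x) = c * x i₀ + x i

theorem Chart.Gd_eq [dk : DecidableEq κ] {B : (E → ℝ) →ₗ[ℝ] N} {i₀ : E} (h : Chart t Z B i₀) (π : E → κ)
    (r : κ → E) (hr : ∀ k, π (r k) = k) (u : κ → E → ℝ) (hu : ∀ j i, u j i = u j (r (π i))) :
    Gd t Z (fun j => B (u j)) =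
      AddSubgroup.zmultiples (Matrix.of fun j k => u j (r k)).det := by
  obtain rfl : dk = fun a b => Classical.propDecidable (a = b) := Subsingleton.elim _ _
  set C : Matrix κ κ ℝ := Matrix.of fun j k => u j (r k) with hC
  have dec : ∀ j, u j = ∑ k, C j k • ind {i | π i = k} := fun j => by
    ext i
    simp [ind, hC, Finset.sum_apply, ← hu j i]
  have mul : ∀ m : κ → Module.Dual ℝ N, (Matrix.of fun i j => m i (B (u j))).det =
      (Matrix.of fun i k => m i (B (ind {i | π i = k}))).det * C.det := fun m => by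
    rw [← Matrix.det_transpose C, ← Matrix.det_mul]
    congr 1
    ext i j
    rw [Matrix.mul_apply, Matrix.of_apply, dec j, map_sum, map_sum]
    simp [mul_comm]
  apply le_antisymm
  · refine (AddSubgroup.closure_le _).2 ?_
    rintro _ ⟨k, m, h1, h2, rfl⟩
    choose! c z hz using h.int
    let P : Matrix κ κ ℤ := Matrix.of fun i l =>
      if i = k then (if π i₀ = l then 1 else 0) else ∑ e, if π e = l then z (m i) e else 0
    have e1 : (Matrix.of fun i k => m i (B (ind {i | π i = k}))).det =
        (P.map (Int.castRingHom ℝ)).det := by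
      refine Matrix.det_eq_of_forall_row_eq_smul_add_const (fun i => if i = k then 0 else c (m i))
        k (if_pos rfl) fun i l => ?_
      by_cases hi : i = k
      · simp [P, hi, h1, h.ht, ind]
      · simp [P, hi, hz _ (h2 i hi), ind, add_comm]
    rw [mul, e1, ← RingHom.mapMatrix_apply, ← RingHom.map_det]
    exact ⟨P.det, by simp⟩
  · rw [AddSubgroup.zmultiples_le]
    choose m hm c hc using h.sub
    refine AddSubgroup.subset_closure ⟨π i₀, fun k => if k = π i₀ then t else m (r k), if_pos rfl,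
      fun i hi => by simpa only [if_neg hi] using hm _, ?_⟩
    rw [mul]
    refine ((one_mul _).symm.trans (congrArg (· * C.det) ?_))
    refine (Matrix.det_one.symm.trans (Matrix.det_eq_of_forall_row_eq_smul_add_const (B := 1)
      (fun i => if i = π i₀ then 0 else c (r i)) (π i₀) (if_pos rfl) fun i l => ?_).symm)
    by_cases hi : i = π i₀
    · simp [hi, h.ht, ind, Matrix.one_apply]
    · simp [hi, hc, ind, Matrix.one_apply, hr, add_comm]

/-- A basis of the functions that are constant on the level sets labels the level sets. -/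
theorem exists_label [DecidableEq κ] {x : E → ℝ} {b : κ → E → ℝ} (hb : LinearIndependent ℝ b)
    (hs : Submodule.span ℝ (range b) = Vx x) : ∃ (π : E → κ) (r : κ → E), (∀ k, π (r k) = k) ∧
      (∀ i j, π i = π j ↔ x i = x j) ∧ (Matrix.of fun j k => b j (r k)).det ≠ 0 := by
  let f : (range x → ℝ) →ₗ[ℝ] E → ℝ := LinearMap.funLeft ℝ ℝ (rangeFactorization x)
  have hf : Function.Injective f :=
    LinearMap.funLeft_injective_of_surjective _ _ _ rangeFactorization_surjective
  have hr : LinearMap.range f = Vx x := by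
    refine le_antisymm ?_ fun z hz => ?_
    · rintro _ ⟨z, rfl⟩ i j e
      exact congrArg z (Subtype.ext e)
    · exact ⟨fun a => z a.2.choose, funext fun i => hz _ _ (rangeFactorization x i).2.choose_spec⟩
  have hc : Fintype.card (range x) = Fintype.card κ := by
    rw [← finrank_span_eq_card hb, hs, ← hr, LinearMap.finrank_range_of_inj hf,
      Module.finrank_fintype_fun_eq_card]
  let e := Fintype.equivOfCardEq hc
  have h1 : ∀ k, x (e.symm k).2.choose = e.symm k := fun k => (e.symm k).2.choose_spec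
  refine ⟨fun i => e (rangeFactorization x i), fun k => (e.symm k).2.choose, fun k => ?_,
    fun i j => by simp [Subtype.ext_iff], fun h0 => ?_⟩
  · rw [← e.eq_symm_apply]; exact Subtype.ext (h1 k)
  · obtain ⟨l, hl, h2⟩ := Matrix.exists_vecMul_eq_zero_iff.2 h0
    refine hl (funext (Fintype.linearIndependent_iff.1 hb l (funext fun i => ?_)))
    have := congrFun h2 (e (rangeFactorization x i))
    simp only [Matrix.vecMul, dotProduct, Matrix.of_apply, Pi.zero_apply] at this
    rw [Finset.sum_apply, Pi.zero_apply, ← this]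
    refine Finset.sum_congr rfl fun j _ => ?_
    have hj : b j ∈ Vx x := hs ▸ Submodule.subset_span ⟨j, rfl⟩
    rw [Pi.smul_apply, smul_eq_mul]
    exact congrArg _ (hj i _ (by rw [h1, e.symm_apply_apply]; rfl))

omit [Fintype E] in
/-- The determinant as a linear form in the last vector. -/
theorem det_last [DecidableEq κ] (b : κ → E → ℝ) (r : κ ⊕ Unit → E) {y z : E → ℝ} {c : ℝ}
    (h : y - c • z ∈ Submodule.span ℝ (range b)) :
    (Matrix.of fun j k => Sum.elim b (fun _ => y) j (r k)).det =
      c * (Matrix.of fun j k => Sum.elim b (fun _ => z) j (r k)).det := by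
  let C : Matrix (κ ⊕ Unit) (κ ⊕ Unit) ℝ := Matrix.of fun j k => Sum.elim b (fun _ => z) j (r k)
  have e : ∀ w : E → ℝ, (Matrix.of fun j k => Sum.elim b (fun _ => w) j (r k)) =
      C.updateRow (Sum.inr ()) (w ∘ r) := fun w => by
    ext j k
    rcases j with j | j <;> simp [C, Matrix.updateRow_apply]
  have k0 : ∀ w ∈ Submodule.span ℝ (range b), (C.updateRow (Sum.inr ()) (w ∘ r)).det = 0 := by
    intro w hw
    induction hw using Submodule.span_induction with
    | mem w hw =>
      obtain ⟨j, rfl⟩ := hw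
      exact Matrix.det_zero_of_row_eq (i := Sum.inl j) (j := Sum.inr ()) (by simp)
        (by ext k; simp [C])
    | zero => exact Matrix.det_eq_zero_of_row_eq_zero (Sum.inr ()) (by simp)
    | add u v _ _ hu hv =>
      rw [show (u + v) ∘ r = u ∘ r + v ∘ r from rfl, Matrix.det_updateRow_add, hu, hv, add_zero]
    | smul a u _ hu =>
      rw [show (a • u) ∘ r = a • (u ∘ r) from rfl, Matrix.det_updateRow_smul, hu, mul_zero]
  rw [e, e, show y ∘ r = (y - c • z) ∘ r + c • (z ∘ r) from funext fun k => by simp,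
    Matrix.det_updateRow_add, k0 _ h, Matrix.det_updateRow_smul, zero_add]

end KH.Wt
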